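import Pool.Agent.H72.W.NXB

set_option autoImplicit false
open Finset

/-! # The ends of a tie, class `H54.W.Win`

Successor of the first part of `H13/Sp/Mult`. -/

namespace Pool.Agent.H72.W.N

open Pool.Agent.H75.Perc Pool.Agent.H75.TwoArm Pool.Agent.Q1 Pool.Agent.H33.Q1
open Pool.Agent.H69.Q1 Pool.Agent.H39.Q1
open Pool.Agent.H54.W (Win Out)
open Pool.Agent.H54.W.Win
open Pool.Agent.H42.Sp (Sd Ix kt rt kt_odd rt_even kt_Tg rt_Tg)
open Pool.Agent.H13.R45 (ev gp ev_true ev_false Tg bp Gc Gc_true Gc_false InR co_rect' vert_odd face_odd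
  unit_neg' rect_end tile_co grid_V tg_end tg_lt)
open Pool.Agent.H74.R45 (exists_lt mem_RT lt_mem_RT RT)

variable {D : Win} {p : Bool} {x y u v q i s0 s t L m : ℤ} {o : Bool} {R S B : Finset (ℤ × ℤ)}
  {g : ℤ × ℤ} {O : OutB D} {k : Sd} {c : Bool}

lemma ev_bt (h : (u + v) % 2 = 1) : ev (bt k c (u, v)) = c := by
  cases k <;> cases c <;> simp only [bt] <;> first | (rw [ev_true]; omega) | (rw [ev_false]; omega)

lemma ev_ot (h : (u + v) % 2 = 1) : ev (ot k c (u, v)) = c := by
  cases k <;> cases c <;> simp only [ot, bt] <;> first | (rw [ev_true]; omega) | (rw [ev_false]; omega)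

lemma unit_bt (h : (u + v) % 2 = 1) : IsUnit4 (gp (bt k c (u, v)) - gp (ot k c (u, v))) := by
  have h1 := (vert_odd (x := u) (y := v) h).1
  have h2 := (face_odd (x := u) (y := v) h).1
  have e1 : (2 * u + 1 - (u + 1), 2 * v + 1 - v) = (u, v + 1) := Prod.ext (by ring) (by ring)
  have e2 : (2 * u + 1 - (u + 1), 2 * v + 1 - (v + 1)) = (u, v) := Prod.ext (by ring) (by ring)
  have e3 : (2 * u + 1 - u, 2 * v + 1 - (v + 1)) = (u + 1, v) := Prod.ext (by ring) (by ring)
  have e4 : (2 * u + 1 - u, 2 * v + 1 - v) = (u + 1, v + 1) := Prod.ext (by ring) (by ring)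
  cases k <;> cases c <;> simp only [ot, bt, e1, e2, e3, e4] <;>
    first | exact h1 | exact h2 | exact unit_neg' h1 | exact unit_neg' h2

lemma sum_bt_true (h : (u + v) % 2 = 1) :
    gp (ot k true (u, v)) + gp (bt k true (u, v)) = lt (u, v) := by
  have h1 := (vert_odd (x := u) (y := v) h).2
  have h1' : gp (u + 1, v) + gp (u, v + 1) = lt (u, v) := by rw [add_comm]; exact h1
  have e1 : (2 * u + 1 - (u + 1), 2 * v + 1 - v) = (u, v + 1) := Prod.ext (by ring) (by ring)
  have e3 : (2 * u + 1 - u, 2 * v + 1 - (v + 1)) = (u + 1, v) := Prod.ext (by ring) (by ring)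
  cases k <;> simp only [ot, bt, e1, e3] <;> first | exact h1 | exact h1'

lemma sum_bt_false (h : (u + v) % 2 = 1) :
    gp (ot k false (u, v)) + gp (bt k false (u, v)) = lt (u, v) + (1, 1) := by
  have h1 := (face_odd (x := u) (y := v) h).2
  have h1' : gp (u + 1, v + 1) + gp (u, v) = lt (u, v) + (1, 1) := by rw [add_comm]; exact h1
  have e2 : (2 * u + 1 - (u + 1), 2 * v + 1 - (v + 1)) = (u, v) := Prod.ext (by ring) (by ring)
  have e4 : (2 * u + 1 - u, 2 * v + 1 - v) = (u + 1, v + 1) := Prod.ext (by ring) (by ring)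
  cases k <;> simp only [ot, bt, e2, e4] <;> first | exact h1 | exact h1'

/-- the inner end is on the boundary of the tile -/
lemma onT_bt : OnT (bt k c (u, v)) u v := by
  cases k <;> cases c <;> (unfold OnT bt; simp only; omega)

/-- the outer end is on the boundary of the outer neighbour -/
lemma onT_ot : OnT (ot k c (u, v)) (u - (dr k).1) (v - (dr k).2) := by
  cases k <;> cases c <;> (unfold OnT ot bt dr; simp only; omega)

lemma TieP.fi (hL : 5 ≤ L) (h : TieP D p k c u v) (hi : fmA D p s0 (lt (u, v)) = i) :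
    FiA D p s0 L i (u - (dr k).1) (v - (dr k).2) := by
  have h1 : InB D (u - (dr k).1) (v - (dr k).2) := by
    refine h.ly.inB ?_ ?_ ?_ ?_ <;> cases k <;> (unfold dr; simp only; omega)
  exact ⟨InL_of_InB hL h1, h.ly.far, by rw [← h.fm]; exact hi, fun _ => h1⟩

/-- colour of the fill tiles of an arc -/
lemma FiA.col (h : FiA D p s0 L i x y) : natc D p x y = colp D i := by
  rw [← colp_arc (s0 := s0), h.2.2.1]

end Pool.Agent.H72.W.N
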