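import Pool.Agent.H72.W.NXB

set_option autoImplicit false
open Finset

/-! # The walls are connected, class `H54.W.Win`

Successor of `H13/Sp/Conn`. `fi_conn` : every point of the colour of the arc `i` which is on the boundary of a
fill tile of `i` is joined to the anchor of `i` by labels of fill tiles of `i`. Nothing is assumed about `cr`. -/

namespace Pool.Agent.H2.W.N

open Pool.Agent.H75.Perc Pool.Agent.H75.TwoArm Pool.Agent.Q1 Pool.Agent.H33.Q1
open Pool.Agent.H69.Q1
open Pool.Agent.H54.W (Win Out)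
open Pool.Agent.H54.W.Win
open Pool.Agent.H72.W.N
open Pool.Agent.H42.Sp (Sd Ix kt rt kt_odd rt_even kt_Tg rt_Tg)
open Pool.Agent.H13.R45 (ev gp ev_true ev_false Tg bp Gc InR co_rect')
open Pool.Agent.H74.R45 (exists_lt mem_RT RT)

variable {D : Win} {p : Bool} {x y u v q i s0 s t L : ℤ} {o : Bool} {R : Finset (ℤ × ℤ)} {g : ℤ × ℤ}

/-! ### Anchors -/

lemma ev_bp : ev (bp o x y) = o := by
  unfold bp
  split_ifs with h
  · exact h
  · revert h
    unfold ev
    cases o <;> simp <;> omega

lemma bp_fst : x ≤ (bp o x y).1 ∧ (bp o x y).1 ≤ x + 1 := by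
  unfold bp; split_ifs <;> simp

lemma bp_snd : (bp o x y).2 = y := by
  unfold bp; split_ifs <;> simp

/-- a fill tile of the box at the position `q` -/
def Atq (D : Win) (p : Bool) (q x y : ℤ) : Prop := InB D x y ∧ Fill D p x y ∧ ps D p x y = q

lemma xm_lt (D : Win) : D.lo + 2 ≤ D.w := by
  have h0 := D.hh
  have h1 := D.aw 0 le_rfl (by omega)
  have h2 := D.hlo 0 le_rfl (by omega)
  omega

lemma ps_bot (h : y < 0) : ps D p x y = 0 := by unfold ps; rw [if_pos h]

lemma ps_top (h : D.h ≤ y) : ps D p x y = D.h + 1 := by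
  have := D.hh
  unfold ps; rw [if_neg (by omega), if_pos h]

lemma ps_left (h0 : 0 ≤ y) (h1 : y < D.h) (h2 : x < D.a y) : ps D p x y = 2 * D.h + 1 - y := by
  unfold ps; rw [if_neg (by omega), if_neg (by omega), if_pos h2]

lemma ps_right (h0 : 0 ≤ y) (h1 : y < D.h) (h2 : D.a y ≤ x) : ps D p x y = y + 1 := by
  unfold ps; rw [if_neg (by omega), if_neg (by omega), if_neg (by omega)]

lemma atR (h0 : 0 ≤ y) (h1 : y < D.h) (h2 : D.w + 1 ≤ x) (h3 : x ≤ D.w + 3) :
    Atq D p (y + 1) x y := by
  have h4 := xm_lt D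
  have h5 := D.aw y h0 h1
  have h6 := sh_nonneg p
  refine ⟨?_, fill_colR (by omega), ps_right h0 h1 (by omega)⟩
  unfold InB; omega

lemma atL (h0 : 0 ≤ y) (h1 : y < D.h) (h2 : D.lo ≤ x + 4) (h3 : x + 3 ≤ D.lo) :
    Atq D p (2 * D.h + 1 - y) x y := by
  have h4 := xm_lt D
  have h5 := D.hlo y h0 h1
  have h6 := sh_le p
  refine ⟨?_, fill_colL (by omega), ps_left h0 h1 (by omega)⟩
  unfold InB; omega

lemma atB (h0 : -4 ≤ y) (h1 : y ≤ -2) (h2 : D.lo ≤ x + 4) (h3 : x ≤ D.w + 3) :
    Atq D p 0 x y := by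
  have hh := D.hh
  refine ⟨?_, fill_bot (by omega), ps_bot (by omega)⟩
  unfold InB; omega

lemma atT (h0 : D.h + 1 ≤ y) (h1 : y ≤ D.h + 3) (h2 : D.lo ≤ x + 4)
    (h3 : x ≤ D.w + 3) : Atq D p (D.h + 1) x y := by
  have hh := D.hh
  refine ⟨?_, fill_top (by omega), ps_top (by omega)⟩
  unfold InB; omega

lemma atBs (h2 : D.lo ≤ x + 4) (h3 : x ≤ D.w + 3)
    (h : x + 3 ≤ D.lo ∨ D.w + 1 ≤ x) : Atq D p 0 x (-1) := by
  have hh := D.hh
  have h6 := sh_nonneg p
  have h7 := sh_le p
  refine ⟨?_, ?_, ps_bot (by omega)⟩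
  · unfold InB; omega
  · rcases h with h | h
    · exact fill_colL (by omega)
    · exact fill_colR (by omega)

lemma atTs (h2 : D.lo ≤ x + 4) (h3 : x ≤ D.w + 3)
    (h : x + 3 ≤ D.lo ∨ D.w + 1 ≤ x) : Atq D p (D.h + 1) x D.h := by
  have hh := D.hh
  have h6 := sh_nonneg p
  have h7 := sh_le p
  refine ⟨?_, ?_, ps_top (by omega)⟩
  · unfold InB; omega
  · rcases h with h | h
    · exact fill_colL (by omega)
    · exact fill_colR (by omega)

/-- anchor of the position `q` -/
def an (D : Win) (o : Bool) (q : ℤ) : ℤ × ℤ :=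
  if q = 0 then bp o (D.w + 1) (-2)
  else if q ≤ D.h then bp o (D.w + 1) (q - 1)
  else if q = D.h + 1 then bp o (D.w + 1) (D.h + 2)
  else bp o (D.lo - 4) (2 * D.h + 1 - q)

lemma ev_an : ev (an D o q) = o := by
  unfold an; split_ifs <;> exact ev_bp

lemma an_0 : an D o 0 = bp o (D.w + 1) (-2) := by unfold an; rw [if_pos rfl]

lemma an_R (h0 : 0 ≤ y) (h1 : y < D.h) : an D o (y + 1) = bp o (D.w + 1) y := by
  unfold an; rw [if_neg (by omega), if_pos (by omega)]; congr 1; omega

lemma an_T : an D o (D.h + 1) = bp o (D.w + 1) (D.h + 2) := by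
  have := D.hh
  unfold an; rw [if_neg (by omega), if_neg (by omega), if_pos rfl]

lemma an_L (h0 : 0 ≤ y) (h1 : y < D.h) :
    an D o (2 * D.h + 1 - y) = bp o (D.lo - 4) y := by
  have := D.hh
  unfold an; rw [if_neg (by omega), if_neg (by omega), if_neg (by omega)]; congr 1; omega

/-! ### Rectangles -/

lemma Atq.fi (hL : 5 ≤ L) (h : Atq D p q x y) (hi : rep D s0 q = i) : FiA D p s0 L i x y := by
  obtain ⟨h1, h2, h3⟩ := h
  refine ⟨InL_of_InB hL h1, h2, ?_, fun _ => h1⟩
  unfold arc; rw [h3, hi]

/-- two points of a rectangle of tiles -/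
lemma co_box {r0 r1 t0 t1 : ℤ} {g g' : ℤ × ℤ} (hr : r0 < r1) (ht : t0 < t1)
    (hR : ∀ x y, r0 ≤ x → x < r1 → t0 ≤ y → y < t1 → lt (x, y) ∈ R) (hg : InR r0 r1 t0 t1 g)
    (hg' : InR r0 r1 t0 t1 g') (he : ev g = o) (he' : ev g' = o) : Co (Gc o R) (gp g) (gp g') := by
  refine co_rect' hr ht ?_ hg hg' he he'
  intro e he
  obtain ⟨x, y, rfl, h1, h2, h3, h4⟩ := mem_RT.1 he
  exact hR x y h1 h2 h3 h4

/-- **Neighbouring positions of one arc.** -/
theorem an_step (hL : 5 ≤ L) (hR : ∀ x y, FiA D p s0 L i x y → lt (x, y) ∈ R)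
    (h0 : 0 ≤ q) (h1 : q < nP D) (hq : rep D s0 q = i) (hq' : rep D s0 ((q + 1) % nP D) = i) :
    Co (Gc o R) (gp (an D o q)) (gp (an D o ((q + 1) % nP D))) := by
  have hh := D.hh
  have hx := xm_lt D
  unfold nP at h1 hq' ⊢
  have c : q = 0 ∨ (1 ≤ q ∧ q ≤ D.h - 1) ∨ q = D.h ∨ q = D.h + 1 ∨ (D.h + 2 ≤ q ∧ q ≤ 2 * D.h) ∨
      q = 2 * D.h + 1 := by omega
  rcases c with c | c | c | c | c | c
  · subst c
    rw [zero_add, Int.emod_eq_of_lt (by omega) (by omega)] at hq' ⊢
    have e1 : an D o 1 = bp o (D.w + 1) 0 := by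
      have := an_R (D := D) (o := o) (y := 0) le_rfl (by omega)
      rwa [zero_add] at this
    rw [an_0, e1]
    refine co_box (r0 := D.w + 1) (r1 := D.w + 4) (t0 := -2) (t1 := 1) (by omega) (by omega)
      ?_ ?_ ?_ ev_bp ev_bp
    · intro x y k1 k2 k3 k4
      have : y = -2 ∨ y = -1 ∨ y = 0 := by omega
      rcases this with rfl | rfl | rfl
      · exact hR _ _ ((atB (by omega) (by omega) (by omega) (by omega)).fi hL hq)
      · exact hR _ _ ((atBs (by omega) (by omega) (by omega)).fi hL hq)
      · exact hR _ _ ((atR (by omega) (by omega) (by omega) (by omega)).fi hL (by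
          rw [zero_add]; exact hq'))
    · have b1 := bp_fst (o := o) (x := D.w + 1) (y := -2)
      have b2 := bp_snd (o := o) (x := D.w + 1) (y := -2)
      unfold InR; omega
    · have b1 := bp_fst (o := o) (x := D.w + 1) (y := 0)
      have b2 := bp_snd (o := o) (x := D.w + 1) (y := 0)
      unfold InR; omega
  · obtain ⟨y, rfl⟩ : ∃ y, q = y + 1 := ⟨q - 1, by ring⟩
    rw [Int.emod_eq_of_lt (by omega) (by omega)] at hq' ⊢
    rw [an_R (by omega) (by omega), an_R (by omega) (by omega)]
    refine co_box (r0 := D.w + 1) (r1 := D.w + 4) (t0 := y) (t1 := y + 2) (by omega)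
      (by omega) ?_ ?_ ?_ ev_bp ev_bp
    · intro x z k1 k2 k3 k4
      have : z = y ∨ z = y + 1 := by omega
      rcases this with rfl | rfl
      · exact hR _ _ ((atR (by omega) (by omega) (by omega) (by omega)).fi hL hq)
      · exact hR _ _ ((atR (by omega) (by omega) (by omega) (by omega)).fi hL hq')
    · have b1 := bp_fst (o := o) (x := D.w + 1) (y := y)
      have b2 := bp_snd (o := o) (x := D.w + 1) (y := y)
      unfold InR; omega
    · have b1 := bp_fst (o := o) (x := D.w + 1) (y := y + 1)
      have b2 := bp_snd (o := o) (x := D.w + 1) (y := y + 1)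
      unfold InR; omega
  · subst c
    rw [Int.emod_eq_of_lt (by omega) (by omega)] at hq' ⊢
    obtain ⟨y, hy⟩ : ∃ y, D.h = y + 1 := ⟨D.h - 1, by ring⟩
    have e1 : an D o D.h = bp o (D.w + 1) y := by
      rw [hy]; exact an_R (by omega) (by omega)
    rw [e1, an_T]
    refine co_box (r0 := D.w + 1) (r1 := D.w + 4) (t0 := y) (t1 := D.h + 2) (by omega)
      (by omega) ?_ ?_ ?_ ev_bp ev_bp
    · intro x z k1 k2 k3 k4
      have : z = y ∨ z = D.h ∨ z = D.h + 1 := by omega
      rcases this with rfl | rfl | rfl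
      · exact hR _ _ ((atR (by omega) (by omega) (by omega) (by omega)).fi hL (by rw [← hy]; exact hq))
      · exact hR _ _ ((atTs (by omega) (by omega) (by omega)).fi hL hq')
      · exact hR _ _ ((atT (by omega) (by omega) (by omega) (by omega)).fi hL hq')
    · have b1 := bp_fst (o := o) (x := D.w + 1) (y := y)
      have b2 := bp_snd (o := o) (x := D.w + 1) (y := y)
      unfold InR; omega
    · have b1 := bp_fst (o := o) (x := D.w + 1) (y := D.h + 2)
      have b2 := bp_snd (o := o) (x := D.w + 1) (y := D.h + 2)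
      unfold InR; omega
  · subst c
    rw [Int.emod_eq_of_lt (by omega) (by omega),
      show D.h + 1 + 1 = 2 * D.h + 1 - (D.h - 1) by ring] at hq' ⊢
    rw [an_T, an_L (by omega) (by omega)]
    refine (co_box (g' := bp o (D.lo - 4) (D.h + 1)) (r0 := D.lo - 4)
      (r1 := D.w + 4) (t0 := D.h + 1) (t1 := D.h + 3) (by omega)
      (by omega) ?_ ?_ ?_ ev_bp ev_bp).trans
      (co_box (r0 := D.lo - 4) (r1 := D.lo - 2) (t0 := D.h - 1) (t1 := D.h + 2)
      (by omega) (by omega) ?_ ?_ ?_ ev_bp ev_bp)
    · intro x z k1 k2 k3 k4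
      exact hR _ _ ((atT (by omega) (by omega) (by omega) (by omega)).fi hL hq)
    · have b1 := bp_fst (o := o) (x := D.w + 1) (y := D.h + 2)
      have b2 := bp_snd (o := o) (x := D.w + 1) (y := D.h + 2)
      unfold InR; omega
    · have b1 := bp_fst (o := o) (x := D.lo - 4) (y := D.h + 1)
      have b2 := bp_snd (o := o) (x := D.lo - 4) (y := D.h + 1)
      unfold InR; omega
    · intro x z k1 k2 k3 k4
      have : z = D.h - 1 ∨ z = D.h ∨ z = D.h + 1 := by omega
      rcases this with rfl | rfl | rfl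
      · exact hR _ _ ((atL (by omega) (by omega) (by omega) (by omega)).fi hL hq')
      · exact hR _ _ ((atTs (by omega) (by omega) (by omega)).fi hL hq)
      · exact hR _ _ ((atT (by omega) (by omega) (by omega) (by omega)).fi hL hq)
    · have b1 := bp_fst (o := o) (x := D.lo - 4) (y := D.h + 1)
      have b2 := bp_snd (o := o) (x := D.lo - 4) (y := D.h + 1)
      unfold InR; omega
    · have b1 := bp_fst (o := o) (x := D.lo - 4) (y := D.h - 1)
      have b2 := bp_snd (o := o) (x := D.lo - 4) (y := D.h - 1)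
      unfold InR; omega
  · obtain ⟨y, rfl⟩ : ∃ y, q = 2 * D.h + 1 - y := ⟨2 * D.h + 1 - q, by ring⟩
    rw [Int.emod_eq_of_lt (by omega) (by omega),
      show 2 * D.h + 1 - y + 1 = 2 * D.h + 1 - (y - 1) by ring] at hq' ⊢
    rw [an_L (by omega) (by omega), an_L (by omega) (by omega)]
    refine co_box (r0 := D.lo - 4) (r1 := D.lo - 2) (t0 := y - 1) (t1 := y + 1)
      (by omega) (by omega) ?_ ?_ ?_ ev_bp ev_bp
    · intro x z k1 k2 k3 k4
      have : z = y ∨ z = y - 1 := by omega
      rcases this with rfl | rfl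
      · exact hR _ _ ((atL (by omega) (by omega) (by omega) (by omega)).fi hL hq)
      · exact hR _ _ ((atL (by omega) (by omega) (by omega) (by omega)).fi hL hq')
    · have b1 := bp_fst (o := o) (x := D.lo - 4) (y := y)
      have b2 := bp_snd (o := o) (x := D.lo - 4) (y := y)
      unfold InR; omega
    · have b1 := bp_fst (o := o) (x := D.lo - 4) (y := y - 1)
      have b2 := bp_snd (o := o) (x := D.lo - 4) (y := y - 1)
      unfold InR; omega
  · subst c
    rw [show 2 * D.h + 1 + 1 = 2 * D.h + 2 by ring, Int.emod_self] at hq' ⊢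
    rw [show 2 * D.h + 1 = 2 * D.h + 1 - 0 by ring] at hq ⊢
    rw [an_0, an_L le_rfl (by omega)]
    refine Co.symm ((co_box (g' := bp o (D.lo - 4) (-2)) (r0 := D.lo - 4)
      (r1 := D.w + 4) (t0 := -4) (t1 := -1) (by omega)
      (by omega) ?_ ?_ ?_ ev_bp ev_bp).trans
      (co_box (r0 := D.lo - 4) (r1 := D.lo - 2) (t0 := -2) (t1 := 1)
      (by omega) (by omega) ?_ ?_ ?_ ev_bp ev_bp))
    · intro x z k1 k2 k3 k4
      exact hR _ _ ((atB (by omega) (by omega) (by omega) (by omega)).fi hL hq')
    · have b1 := bp_fst (o := o) (x := D.w + 1) (y := -2)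
      have b2 := bp_snd (o := o) (x := D.w + 1) (y := -2)
      unfold InR; omega
    · have b1 := bp_fst (o := o) (x := D.lo - 4) (y := -2)
      have b2 := bp_snd (o := o) (x := D.lo - 4) (y := -2)
      unfold InR; omega
    · intro x z k1 k2 k3 k4
      have : z = -2 ∨ z = -1 ∨ z = 0 := by omega
      rcases this with rfl | rfl | rfl
      · exact hR _ _ ((atB (by omega) (by omega) (by omega) (by omega)).fi hL hq')
      · exact hR _ _ ((atBs (by omega) (by omega) (by omega)).fi hL hq')
      · exact hR _ _ ((atL (by omega) (by omega) (by omega) (by omega)).fi hL hq)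
    · have b1 := bp_fst (o := o) (x := D.lo - 4) (y := -2)
      have b2 := bp_snd (o := o) (x := D.lo - 4) (y := -2)
      unfold InR; omega
    · have b1 := bp_fst (o := o) (x := D.lo - 4) (y := 0)
      have b2 := bp_snd (o := o) (x := D.lo - 4) (y := 0)
      unfold InR; omega

/-! ### From a tile to the anchor of its position -/

/-- the row `y` at the left or at the right, a rectangle -/
lemma fi_mono (h : FiA D p s0 L i x y) (hf : Fill D p u v) (hp : arc D p s0 u v = i)
    (h1 : InL D L u v) (h2 : InB D x y → InB D u v) : FiA D p s0 L i u v :=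
  ⟨h1, hf, hp, fun hc => h2 (h.2.2.2 hc)⟩

/-- **Every point of a fill tile is joined to the anchor of its position.** -/
theorem tile_an (hL : 5 ≤ L) (hR : ∀ x y, FiA D p s0 L i x y → lt (x, y) ∈ R)
    (h : FiA D p s0 L i x y) (hg : OnT g x y) (he : ev g = o) :
    Co (Gc o R) (gp g) (gp (an D o (ps D p x y))) := by
  have hh := D.hh
  have hx := xm_lt D
  have hs0 := sh_nonneg p
  have hs1 := sh_le p
  have harc := h.2.2.1
  have hin := h.1
  unfold InL at hin
  unfold arc at harc
  unfold OnT at hg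
  -- the rows below
  have bot : ∀ x y, FiA D p s0 L i x y → y ≤ -2 → ∀ g, OnT g x y → ev g = o →
      Co (Gc o R) (gp g) (gp (an D o 0)) := by
    intro x y h hy g hg he
    have hin := h.1
    have harc := h.2.2.1
    unfold arc at harc
    rw [ps_bot (by omega)] at harc
    unfold OnT at hg
    unfold InL at hin
    rw [an_0]
    refine co_box (r0 := min x (D.w + 1)) (r1 := max (x + 1) (D.w + 2))
      (t0 := min y (-2)) (t1 := -1) (by omega) (by omega) ?_ (by unfold InR; omega) ?_ he ev_bp
    · intro u v k1 k2 k3 k4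
      refine hR _ _ (fi_mono h (fill_bot (by omega)) ?_ ?_ ?_)
      · unfold arc; rw [ps_bot (by omega)]; exact harc
      · unfold InL; omega
      · unfold InB; omega
    · have b1 := bp_fst (o := o) (x := D.w + 1) (y := -2)
      have b2 := bp_snd (o := o) (x := D.w + 1) (y := -2)
      unfold InR; omega
  have top : ∀ x y, FiA D p s0 L i x y → D.h + 1 ≤ y → ∀ g, OnT g x y → ev g = o →
      Co (Gc o R) (gp g) (gp (an D o (D.h + 1))) := by
    intro x y h hy g hg he
    have hin := h.1
    have harc := h.2.2.1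
    unfold arc at harc
    rw [ps_top (by omega)] at harc
    unfold OnT at hg
    unfold InL at hin
    rw [an_T]
    refine co_box (r0 := min x (D.w + 1)) (r1 := max (x + 1) (D.w + 2))
      (t0 := D.h + 1) (t1 := max (y + 1) (D.h + 2)) (by omega) (by omega) ?_
      (by unfold InR; omega) ?_ he ev_bp
    · intro u v k1 k2 k3 k4
      refine hR _ _ (fi_mono h (fill_top (by omega)) ?_ ?_ ?_)
      · unfold arc; rw [ps_top (by omega)]; exact harc
      · unfold InL; omega
      · unfold InB; omega
    · have b1 := bp_fst (o := o) (x := D.w + 1) (y := D.h + 2)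
      have b2 := bp_snd (o := o) (x := D.w + 1) (y := D.h + 2)
      unfold InR; omega
  by_cases c1 : y < 0
  · rw [ps_bot c1] at harc ⊢
    by_cases c2 : y ≤ -2
    · exact bot x y h c2 g hg he
    · have c3 : y = -1 := by omega
      subst c3
      have h2 : FiA D p s0 L i x (-2) := by
        refine fi_mono h (fill_bot (by omega)) ?_ ?_ ?_
        · unfold arc; rw [ps_bot (by omega)]; exact harc
        · unfold InL; omega
        · unfold InB; omega
      refine (co_box (g' := bp o x (-2)) (r0 := x) (r1 := x + 1) (t0 := -2) (t1 := 0) (by omega)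
        (by omega) ?_ (by unfold InR; omega) ?_ he ev_bp).trans (bot x (-2) h2 le_rfl _ ?_ ev_bp)
      · intro u v k1 k2 k3 k4
        have e1 : u = x := by omega
        subst e1
        have : v = -2 ∨ v = -1 := by omega
        rcases this with rfl | rfl
        · exact hR _ _ h2
        · exact hR _ _ h
      · have b1 := bp_fst (o := o) (x := x) (y := -2)
        have b2 := bp_snd (o := o) (x := x) (y := -2)
        unfold InR; omega
      · have b1 := bp_fst (o := o) (x := x) (y := -2)
        have b2 := bp_snd (o := o) (x := x) (y := -2)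
        unfold OnT; omega
  by_cases c2 : D.h ≤ y
  · rw [ps_top c2] at harc ⊢
    by_cases c3 : D.h + 1 ≤ y
    · exact top x y h c3 g hg he
    · have c4 : y = D.h := by omega
      subst c4
      have h2 : FiA D p s0 L i x (D.h + 1) := by
        refine fi_mono h (fill_top (by omega)) ?_ ?_ ?_
        · unfold arc; rw [ps_top (by omega)]; exact harc
        · unfold InL; omega
        · unfold InB; omega
      refine (co_box (g' := bp o x (D.h + 1)) (r0 := x) (r1 := x + 1) (t0 := D.h) (t1 := D.h + 2)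
        (by omega) (by omega) ?_ (by unfold InR; omega) ?_ he ev_bp).trans
        (top x (D.h + 1) h2 le_rfl _ ?_ ev_bp)
      · intro u v k1 k2 k3 k4
        have e1 : u = x := by omega
        subst e1
        have : v = D.h ∨ v = D.h + 1 := by omega
        rcases this with rfl | rfl
        · exact hR _ _ h
        · exact hR _ _ h2
      · have b1 := bp_fst (o := o) (x := x) (y := D.h + 1)
        have b2 := bp_snd (o := o) (x := x) (y := D.h + 1)
        unfold InR; omega
      · have b1 := bp_fst (o := o) (x := x) (y := D.h + 1)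
        have b2 := bp_snd (o := o) (x := x) (y := D.h + 1)
        unfold OnT; omega
  have c3 : 0 ≤ y := by omega
  have c4 : y < D.h := by omega
  have k5 := D.hlo y c3 c4
  have k6 := D.aw y c3 c4
  have k7 := fill_side c3 c4 h.2.1
  by_cases c5 : x < D.a y
  · rw [ps_left c3 c4 c5] at harc ⊢
    rw [an_L c3 c4]
    refine co_box (r0 := min x (D.lo - 4)) (r1 := max (x + 1) (D.lo - 3))
      (t0 := y) (t1 := y + 1) (by omega) (by omega) ?_ (by unfold InR; omega) ?_ he ev_bp
    · intro u v k1 k2 k3 k4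
      have e1 : v = y := by omega
      subst e1
      have e2 : Fill D p u v ∧ u < D.a v := by
        by_cases c6 : u ≤ x
        · exact ⟨fill_left c3 c4 h.2.1 c5 c6, by omega⟩
        · exact ⟨fill_colL (by omega), by omega⟩
      refine hR _ _ (fi_mono h e2.1 ?_ ?_ ?_)
      · unfold arc; rw [ps_left c3 c4 e2.2]; exact harc
      · unfold InL; omega
      · unfold InB; omega
    · have b1 := bp_fst (o := o) (x := D.lo - 4) (y := y)
      have b2 := bp_snd (o := o) (x := D.lo - 4) (y := y)
      unfold InR; omega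
  · rw [ps_right c3 c4 (by omega)] at harc ⊢
    rw [an_R c3 c4]
    refine co_box (r0 := min x (D.w + 1)) (r1 := max (x + 1) (D.w + 2))
      (t0 := y) (t1 := y + 1) (by omega) (by omega) ?_ (by unfold InR; omega) ?_ he ev_bp
    · intro u v k1 k2 k3 k4
      have e1 : v = y := by omega
      subst e1
      have e2 : Fill D p u v ∧ D.a v ≤ u := by
        by_cases c6 : x ≤ u
        · exact ⟨fill_right c3 c4 h.2.1 c5 c6, by omega⟩
        · exact ⟨fill_colR (by omega), by omega⟩
      refine hR _ _ (fi_mono h e2.1 ?_ ?_ ?_)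
      · unfold arc; rw [ps_right c3 c4 e2.2]; exact harc
      · unfold InL; omega
      · unfold InB; omega
    · have b1 := bp_fst (o := o) (x := D.w + 1) (y := y)
      have b2 := bp_snd (o := o) (x := D.w + 1) (y := y)
      unfold InR; omega

/-! ### The whole arc -/

lemma rep_mod : rep D s0 (s % nP D) = rep D s0 s := by
  unfold rep
  rw [Int.emod_sub_emod]

/-- **The wall of an arc is connected.** -/
theorem fi_conn (hL : 5 ≤ L) (hR : ∀ x y, FiA D p s0 L i x y → lt (x, y) ∈ R)
    (h : FiA D p s0 L i x y) (hg : OnT g x y) (he : ev g = o) :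
    Co (Gc o R) (gp g) (gp (an D o (i % nP D))) := by
  have h1 := tile_an hL hR h hg he
  have hq := ps_rng (D := D) (p := p) (x := x) (y := y)
  have harc := h.2.2.1
  unfold arc at harc
  set q := ps D p x y with hqdef
  refine h1.trans ?_
  have hN := nP_pos D
  -- the positions of the run of `q`
  have key := rep_ind (D := D) (s0 := s0) (i := i) (s := fd D s0 q)
    (P := fun t => Co (Gc o R) (gp (an D o (t % nP D))) (gp (an D o (i % nP D)))) (Co.refl _ _) ?_
    fd_mem.1 fd_mem.2 (by rw [rep_fd]; exact harc)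
  · have e1 : fd D s0 q % nP D = q := by
      obtain ⟨k, hk⟩ := fd_dvd (D := D) (s0 := s0) (s := q)
      rw [show fd D s0 q = q + nP D * k by linarith, Int.add_mul_emod_self_left]
      exact Int.emod_eq_of_lt hq.1 hq.2
    simp only [e1] at key
    exact key
  · intro t _ h3 h4 _ h5
    have h6 := an_step (q := t % nP D) (o := o) hL hR (Int.emod_nonneg _ hN.ne')
      (Int.emod_lt_of_pos _ hN) (by rw [rep_mod]; exact h3) (by
        rw [Int.emod_add_emod, rep_mod]; exact h4)
    rw [Int.emod_add_emod] at h6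
    exact h6.symm.trans h5

end Pool.Agent.H2.W.N
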