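import Pool.Agent.H2.W.TieE
import Pool.Agent.H2.W.Conn

set_option autoImplicit false
open Finset

/-! # `Multi` for the tied form of the natural windows, class `H54.W.Win`

Successor of `H13/Sp/Mult`. Nothing is assumed about `cr`. -/

namespace Pool.Agent.H72.W.N

open Pool.Agent.H75.Perc Pool.Agent.H75.TwoArm Pool.Agent.Q1 Pool.Agent.H33.Q1
open Pool.Agent.H69.Q1 Pool.Agent.H39.Q1
open Pool.Agent.H54.W (Win Out)
open Pool.Agent.H54.W.Win
open Pool.Agent.H2.W.N
open Pool.Agent.H42.Sp (Sd Ix kt rt kt_odd rt_even kt_Tg rt_Tg)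
open Pool.Agent.H13.R45 (ev gp ev_true ev_false Tg bp Gc Gc_true Gc_false InR co_rect' vert_odd face_odd
  unit_neg' rect_end tile_co grid_V tg_end tg_lt)
open Pool.Agent.H74.R45 (exists_lt mem_RT lt_mem_RT RT)

variable {D : Win} {p : Bool} {x y u v q i s0 s t L m : ℤ} {o : Bool} {R S B : Finset (ℤ × ℤ)}
  {g : ℤ × ℤ} {O : OutB D} {k : Sd} {c : Bool}

/-! ### The wall -/

/-- **Every end of a label of the wall is joined to its anchor.** -/
theorem wl_conn (hL : 5 ≤ L) {a b : ℤ × ℤ} (hu : IsUnit4 (b - a))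
    (h : if colp D i = true then a + b ∈ WlA D p s0 L S i else a + b - (1, 1) ∈ WlA D p s0 L S i) :
    Co (Gc (colp D i) (WlA D p s0 L S i)) (gp (an D (colp D i) (i % nP D))) a := by
  have hR : ∀ x y, FiA D p s0 L i x y → lt (x, y) ∈ WlA D p s0 L S i := fun x y h =>
    (mem_WlA hL).2 (Or.inl h)
  obtain ⟨x, y, hxy⟩ : ∃ x y, (if colp D i = true then a + b else a + b - (1, 1)) = lt (x, y) := by
    refine exists_lt ?_
    split_ifs at h ⊢
    · exact odd_TL h
    · exact odd_TL h
  have hm : lt (x, y) ∈ WlA D p s0 L S i := by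
    rw [← hxy]; split_ifs at h ⊢ <;> exact h
  obtain ⟨g, hg1, hg2, rfl⟩ := rect_end (o := colp D i) (x0 := x) (x1 := x + 1) (y0 := y)
    (y1 := y + 1) hu (by
      split_ifs at hxy ⊢
      · rw [hxy]; exact lt_mem_RT.2 (by omega)
      · rw [hxy]; exact lt_mem_RT.2 (by omega))
  rcases (mem_WlA hL).1 hm with h1 | h1
  · exact (fi_conn hL hR h1 (by unfold OnT; omega) hg2).symm
  · obtain ⟨h2, h3, g', h4, h5, x', y', h6, h7⟩ := h1
    refine (Co.symm ?_)
    refine (co_box (g' := g') (r0 := x) (r1 := x + 1) (t0 := y) (t1 := y + 1) (by omega) (by omega)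
      ?_ (by unfold InR; omega) (by unfold OnT at h5; unfold InR; omega) hg2 h4).trans
      (fi_conn hL hR h6 h7 h4)
    intro u v k1 k2 k3 k4
    have e1 : u = x := by omega
    have e2 : v = y := by omega
    rw [e1, e2]; exact hm

/-- the outer ends of the ties are joined to the anchor -/
theorem tie_conn (hL : 5 ≤ L) {e : ℤ × ℤ} (he : e ∈ TF (TA D p) (fmA D p s0) i) :
    Co (Gc (colp D i) (WlA D p s0 L S i)) (oA D p e) (gp (an D (colp D i) (i % nP D))) := by
  obtain ⟨h1, h2⟩ := mem_TF.1 he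
  obtain ⟨u, v, k, c, rfl, h⟩ := exists_tie h1
  have hc : colp D i = c := by rw [← h2]; exact h.co
  have hR : ∀ x y, FiA D p s0 L i x y → lt (x, y) ∈ WlA D p s0 L S i := fun x y h =>
    (mem_WlA hL).2 (Or.inl h)
  rw [h.o, hc]
  exact fi_conn hL hR (h.fi hL h2) onT_ot (ev_ot h.odd)

/-- **`Multi` for the tied form of a natural window.** -/
theorem multiA (hS : S ⊆ FR D p) (hL : 5 ≤ L)
    (hF : ∀ x y, InL D L x y → fillc D x y = false → lt (x, y) ∉ O.Wo) (hm : 0 ≤ m)
    (hB : LBA D p (m + 1) ⊆ B) (hB' : B ⊆ EN D p) :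
    Multi (XA O p S hS) (WA O p S) (EN D p) B (TA D p) (fmA D p s0) (colp D)
      (WlA D p s0 L S) (LaA D p s0 m) (bA D p) (oA D p) := by
  have hEW := disj_EWA O hS
  have hTW : ∀ i, Disjoint (TF (TA D p) (fmA D p s0) i) (WA O p S) := fun i =>
    (hEW.mono_left subset_union_right).mono_left (filter_subset _ _)
  have hnb : ∀ i, ∀ a b : ℤ × ℤ, IsUnit4 (b - a) →
      (if colp D i = true then VO (LaA D p s0 m i) (TF (TA D p) (fmA D p s0) i) (bA D p) a else
        VC (LaA D p s0 m i) (TF (TA D p) (fmA D p s0) i) (bA D p) a) →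
      ∀ l, (if colp D i = true then a + b = l else a + b - (1, 1) = l) → l ∈ EN D p → l ∈ B := by
    intro i a b hu hv l hl hlE
    obtain ⟨g, ⟨x', y', g1, u', v', g2, g3⟩, g4, rfl⟩ := grid_V (La := LaA D p s0 m i)
      (T := TF (TA D p) (fmA D p s0) i) (f := bA D p) (Rg := fun g => ∃ x' y', OnT g x' y' ∧
        ∃ u' v', ¬ InP D p u' v' ∧ x' ≤ u' + m ∧ u' ≤ x' + m ∧ y' ≤ v' + m ∧ v' ≤ y' + m)
      (fun e he => odd_TB he)
      (fun x y hxy g hg => by
        obtain ⟨-, u', v', k1, -, k2⟩ := mem_LaA.1 hxy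
        exact ⟨x, y, by unfold InR at hg; unfold OnT; omega, u', v', k1, k2⟩)
      (colp D i) (fun e he => by
        obtain ⟨h1, h2⟩ := mem_TF.1 he
        obtain ⟨u, v, k, c, rfl, h⟩ := exists_tie h1
        have hc : colp D i = c := by rw [← h2]; exact h.co
        refine ⟨bt k c (u, v), ⟨u, v, onT_bt, u, v, h.ly.out, by omega⟩, ?_, h.b.symm⟩
        rw [hc]; exact ev_bt h.odd) hv
    have hT := tg_end (e := l) g4 hu hl
    obtain ⟨u, v, rfl⟩ := exists_lt (odd_EN hlE)
    have h7 := tg_lt hT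
    refine hB (mem_LBA.2 ⟨mem_EN.1 hlE, u', v', g2, ?_⟩)
    unfold OnT at g1
    omega
  refine ⟨XA_planeLike, subset_union_left, subset_union_right, hB',
    hEW.mono_left subset_union_left, ?_, ?_, ?_, ?_, ?_, ?_⟩
  · rw [disjoint_left]
    intro e he he'
    obtain ⟨u, v, k, c, rfl, h⟩ := exists_tie he'
    exact h.ly.out (mem_EN.1 he)
  · intro i hi
    refine ⟨(filter_subset _ _).trans subset_union_right, hTW i, ?_, ?_, ?_, ?_, ?_⟩
    · intro e he
      obtain ⟨x, y, rfl⟩ := exists_lt (odd_TL he)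
      rw [mem_WA]
      rcases (mem_WlA hL).1 he with h | h
      · exact Or.inl ⟨h.2.2.2 hi, h.2.1, by rw [h.col]; exact hi⟩
      · exact Or.inr (Or.inr (Or.inl (h.2.1.2 hi)))
    · intro e he
      obtain ⟨u, v, k, c, rfl, h⟩ := exists_tie (mem_TF.1 he).1
      rw [h.b, h.o]
      exact unit_bt h.odd
    · intro e he
      obtain ⟨h1, h2⟩ := mem_TF.1 he
      obtain ⟨u, v, k, c, rfl, h⟩ := exists_tie h1
      have hc : c = true := by rw [← h.co (s0 := s0), h2]; exact hi
      subst hc
      rw [h.b, h.o]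
      exact sum_bt_true h.odd
    · intro e he e' he'
      have h1 := tie_conn (S := S) hL he
      have h2 := tie_conn (S := S) hL he'
      rw [hi, Gc_true] at h1 h2
      exact h1.trans h2.symm
    · intro a b hab hl e he
      have h1 := tie_conn (S := S) hL he
      have h2 := wl_conn (D := D) (p := p) (s0 := s0) (S := S) (i := i) hL hab (by
        rw [if_pos hi]; exact hl)
      rw [hi, Gc_true] at h1 h2
      exact h1.trans h2
  · intro i hi
    have hi' : ¬ colp D i = true := by rw [hi]; exact Bool.false_ne_true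
    refine ⟨(filter_subset _ _).trans subset_union_right, hTW i, ?_, ?_, ?_, ?_, ?_, ?_⟩
    · rw [XA_E, disjoint_left]
      intro e he he'
      obtain ⟨x, y, rfl⟩ := exists_lt (odd_TL he)
      rw [mem_EA] at he'
      rcases (mem_WlA hL).1 he with h | h
      · rcases he' with k | ⟨s, c, k⟩
        · exact h.2.1.not_inP k
        · exact h.2.1 k.ly.near
      · rcases he' with k | k
        · exact h.1.1.2 k
        · exact h.1.2.1 (KA_iff.2 k)
    · rw [disjoint_left]
      intro e he he'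
      obtain ⟨x, y, rfl⟩ := exists_lt (odd_TL he)
      rw [mem_WA] at he'
      rcases (mem_WlA hL).1 he with h | h
      · rcases he' with ⟨-, -, k⟩ | k | k | k
        · rw [h.col, hi] at k; exact Bool.false_ne_true k
        · obtain ⟨s, hs⟩ := k.ly
          exact h.2.1 hs.near
        · exact h.2.1 (mem_FR.1 (hS k)).1.1
        · exact hF x y h.1 (by rw [← natc_eq (p := p), h.col, hi]) k
      · rcases he' with ⟨-, k, -⟩ | k | k | k
        · exact k h.1.1.1
        · obtain ⟨k', k1, k2, -⟩ := k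
          exact h.1.2.2 ⟨k', k1, k2⟩
        · exact hi' (h.2.1.1 k)
        · exact O.far x y k h.1.1.inB
    · intro e he
      obtain ⟨u, v, k, c, rfl, h⟩ := exists_tie (mem_TF.1 he).1
      rw [h.b, h.o]
      exact unit_bt h.odd
    · intro e he
      obtain ⟨h1, h2⟩ := mem_TF.1 he
      obtain ⟨u, v, k, c, rfl, h⟩ := exists_tie h1
      have hc : c = false := by rw [← h.co (s0 := s0), h2]; exact hi
      subst hc
      rw [h.b, h.o]
      exact sum_bt_false h.odd
    · intro e he e' he'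
      have h1 := tie_conn (S := S) hL he
      have h2 := tie_conn (S := S) hL he'
      rw [hi, Gc_false] at h1 h2
      exact h1.trans h2.symm
    · intro a b hab hl e he
      have h1 := tie_conn (S := S) hL he
      have h2 := wl_conn (D := D) (p := p) (s0 := s0) (S := S) (i := i) hL hab (by
        rw [if_neg hi']; exact hl)
      rw [hi, Gc_false] at h1 h2
      exact h1.trans h2
  · intro i e he
    obtain ⟨x, y, rfl⟩ := exists_lt (odd_TB he)
    obtain ⟨h1, u, v, h2, -, h3⟩ := mem_LaA.1 he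
    exact hB (mem_LBA.2 ⟨h1, u, v, h2, by omega⟩)
  · intro i hi a b hab hv hl
    exact hnb i a b hab (by rw [if_pos hi]; exact hv) _ (by rw [if_pos hi]) hl
  · intro i hi a b hab hv hl
    have hi' : ¬ colp D i = true := by rw [hi]; exact Bool.false_ne_true
    exact hnb i a b hab (by rw [if_neg hi']; exact hv) _ (by rw [if_neg hi']) hl

end Pool.Agent.H72.W.N
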