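import Mathlib
import Pool.Agent.H95.W.CoR

set_option autoImplicit false
open Finset

/-! # Coordinates in the cells of a coarse window with a flat right wall

`dv`, `dv_eq` : division by the side of the cells. `row_h` : the rows of a row of cells. `a_row` : the left end
of the rows which are not next to the sides of the cells. `AW_n` : length of the rows. Everything about the
right wall is through `w_ge : n W ≤ D.w` and `w_le : D.w ≤ n W + 2`. -/

namespace Pool.Agent.H2.W.CG

open Pool.Agent.H54.W (Win)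
open Pool.Agent.H31.Sp (CQ)
open Pool.Agent.H95.W (CoarseR CoarseRC PR)

variable {D : Win} {n H W : ℤ} {A : ℤ → ℤ} {m x y X Y V : ℤ}

/-- coordinates in the cell -/
lemma dv (hn : 0 < n) (x : ℤ) : n * (x / n) ≤ x ∧ x < n * (x / n) + n ∧
    x % n = x - n * (x / n) := by
  have h1 := Int.emod_add_mul_ediv x n
  have h2 := Int.emod_nonneg x hn.ne'
  have h3 := Int.emod_lt_of_pos x hn
  omega

lemma dv_eq (hn : 0 < n) (h1 : n * X ≤ x) (h2 : x < n * X + n) : x / n = X := by
  have h3 : x = (x - n * X) + n * X := by ring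
  rw [h3, Int.add_mul_ediv_left _ _ hn.ne', Int.ediv_eq_zero_of_lt (by omega) (by omega), zero_add]

lemma lt_mul {a b : ℤ} (hn : 0 < n) (h : a < b) : n * a + n ≤ n * b := by
  have : n * (a + 1) ≤ n * b := mul_le_mul_of_nonneg_left (by omega) hn.le
  linarith

lemma le_mul {a b : ℤ} (hn : 0 < n) (h : a ≤ b) : n * a ≤ n * b :=
  mul_le_mul_of_nonneg_left h hn.le

lemma lt_of_mul {a b : ℤ} (hn : 0 < n) (h : n * a < n * b) : a < b := lt_of_mul_lt_mul_left h hn.le

lemma eq_of_mul {a b : ℤ} (hn : 2 ≤ n) (h : n * a = n * b ∨ n * a = n * b - 1 ∨ n * a = n * b + 1) :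
    a = b := by
  rcases lt_trichotomy a b with h1 | h1 | h1
  · have := lt_mul (n := n) (by omega) h1; omega
  · exact h1
  · have := lt_mul (n := n) (by omega) h1; omega

/-- the next row -/
lemma div_succ (hn : 0 < n) (y : ℤ) :
    (n * (y / n) + n = y + 1 ∧ (y + 1) / n = y / n + 1) ∨ (y + 1 < n * (y / n) + n ∧ (y + 1) / n = y / n) := by
  obtain ⟨h1, h2, -⟩ := dv hn y
  by_cases h : n * (y / n) + n = y + 1
  · exact Or.inl ⟨h, dv_eq hn (by linarith [show n * (y / n + 1) = n * (y / n) + n by ring])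
      (by linarith [show n * (y / n + 1) = n * (y / n) + n by ring])⟩
  · exact Or.inr ⟨by omega, dv_eq hn (by omega) (by omega)⟩

variable (C : CoarseR D n H W A)

include C

lemma w_ge : n * W ≤ D.w := by
  have := C.ww
  omega

lemma w_le : D.w ≤ n * W + 2 := by
  have := C.ww
  omega

/-- the rows of the cell row `Y` -/
lemma row_h (h0 : 0 ≤ Y) (h1 : Y < H) : 0 ≤ n * Y ∧ n * Y + n ≤ D.h := by
  have hn := C.pos
  have hh := C.hh
  have k1 : 0 ≤ n * Y := mul_nonneg hn.le h0
  have k2 := lt_mul hn h1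
  omega

/-- the left end of the rows which are not next to the sides of the cells -/
lemma a_row (h0 : 0 ≤ Y) (h1 : Y < H) (h2 : n * Y < y) (h3 : y + 1 < n * Y + n) : D.a y = n * A Y := by
  have hn := C.pos
  have hr := row_h C h0 h1
  have e := dv_eq (n := n) (X := Y) (x := y) hn (by omega) (by omega)
  have e2 := dv hn y
  rw [e] at e2
  rcases C.a y (by omega) (by omega) with g | ⟨-, g⟩
  · rw [g, e]
  · omega

/-- the first and the last row of a row of cells -/
lemma a_row' (h0 : 0 ≤ Y) (h1 : Y < H) (h2 : n * Y ≤ y) (h3 : y < n * Y + n) :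
    n * A Y - 1 ≤ D.a y ∧ D.a y ≤ n * A Y := by
  have hn := C.pos
  have hr := row_h C h0 h1
  have e := dv_eq (n := n) (X := Y) (x := y) hn h2 h3
  have := C.a_le (y := y) (by omega) (by omega)
  rwa [e] at this

lemma AW_n (h0 : 0 ≤ Y) (h1 : Y < H) : n * A Y + n ≤ n * W := lt_mul C.pos (C.AW Y h0 h1)

/-- the rows have length at least `n` -/
lemma aw_n (h0 : 0 ≤ y) (h1 : y < D.h) : D.a y + n ≤ n * W := by
  have hr := C.row h0 h1
  have h2 := AW_n C hr.1 hr.2
  have h3 := C.a_le h0 h1
  omega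

end Pool.Agent.H2.W.CG
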