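import Mathlib
import Pool.Agent.H2.W.CellR
import Pool.Agent.H40.W.NMCor

set_option autoImplicit false
open Finset

/-! # The arcs of the sides of the cell rows, class `H54.W.Win`

Successor of `H46/Sp/{ArcS, ArcB}`. `iS` : arcs of helper40. There are no exceptional rows: `arc_left` : a tile
to the left of the row `y` is in the arc `iS true (y / n)`; `arc_below`, `arc_above` : bottom and top.
`iS_eq` : neighbouring rows of one colour are in one arc. `arcB_L` : the tiles near the lattice line `n Y`.
Nothing is assumed about the colour of the right wall. -/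

namespace Pool.Agent.H2.W.CG

open Pool.Agent.H75.Perc Pool.Agent.H75.TwoArm Pool.Agent.Q1 Pool.Agent.H33.Q1
open Pool.Agent.H69.Q1
open Pool.Agent.H54.W (Win)
open Pool.Agent.H54.W.Win
open Pool.Agent.H72.W.N
open Pool.Agent.H31.Sp (CQ)
open Pool.Agent.H95.W (CoarseR CoarseRC PR)
open Pool.Agent.H40.W.N (cS qS iS)

variable {D : Win} {n H W : ℤ} {A : ℤ → ℤ} {r x y X Y s0 : ℤ} {p sd : Bool} {CL : ℤ → Bool}

/-! ### Positions of the rows -/

lemma cp_left (h0 : 0 ≤ y) (h1 : y < D.h) : colp D (2 * D.h + 1 - y) = D.cl y := by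
  have hh := D.hh
  unfold colp
  rw [Int.emod_eq_of_lt (by omega) (by unfold nP; omega), colq_cl (by omega)]
  congr 1; ring

lemma cp_right (h0 : 0 ≤ y) (h1 : y < D.h) : colp D (y + 1) = D.cr y := by
  have hh := D.hh
  unfold colp
  rw [Int.emod_eq_of_lt (by omega) (by unfold nP; omega), colq_cr (by omega) (by omega)]
  congr 1; ring

lemma cp_bot : colp D 0 = D.cb := by
  unfold colp
  rw [Int.zero_emod, colq_0]

lemma cp_top : colp D (D.h + 1) = D.ct := by
  have hh := D.hh
  unfold colp
  rw [Int.emod_eq_of_lt (by omega) (by unfold nP; omega), colq_t]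

/-- the bottom and the left end of the row `0` are neighbours -/
lemma rep_bot (hcut : colp D (s0 - 1) ≠ colp D s0) (h : D.cb = D.cl 0) :
    rep D s0 0 = rep D s0 (2 * D.h + 1) := by
  have hh := D.hh
  have e1 : colp D (2 * D.h + 1) = D.cl 0 := by
    have := cp_left (D := D) (y := 0) le_rfl (by omega)
    rwa [sub_zero] at this
  have e2 : colp D (2 * D.h + 1 + 1) = D.cb := by
    have := colp_add D 0
    rw [cp_bot] at this
    rw [← this]
    congr 1
    unfold nP; ring
  have e3 := rep_adj (D := D) (s0 := s0) (s := 2 * D.h + 1) hcut (by rw [e1, e2, h])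
  rw [← e3, show 2 * D.h + 1 + 1 = 0 + nP D by unfold nP; ring, rep_add]

/-- the top and the left end of the row `h - 1` are neighbours -/
lemma rep_top (hcut : colp D (s0 - 1) ≠ colp D s0) (h : D.ct = D.cl (D.h - 1)) :
    rep D s0 (D.h + 1) = rep D s0 (D.h + 2) := by
  have hh := D.hh
  have e1 : colp D (D.h + 2) = D.cl (D.h - 1) := by
    have := cp_left (D := D) (y := D.h - 1) (by omega) (by omega)
    rw [← this]
    congr 1; ring
  have e3 := rep_adj (D := D) (s0 := s0) (s := D.h + 1) hcut (by
    rw [cp_top, show D.h + 1 + 1 = D.h + 2 by ring, e1, h])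
  rw [← e3]
  congr 1; ring

/-- rows of one colour -/
lemma rep_rows (hcut : colp D (s0 - 1) ≠ colp D s0) {z : ℤ} (h0 : 0 ≤ y) (hyz : y ≤ z) (h1 : z < D.h)
    (hc : ∀ v, y ≤ v → v < z → D.cl v = D.cl (v + 1)) :
    rep D s0 (2 * D.h + 1 - z) = rep D s0 (2 * D.h + 1 - y) := by
  have key : ∀ k : ℕ, y + k < D.h → (∀ v, y ≤ v → v < y + k → D.cl v = D.cl (v + 1)) →
      rep D s0 (2 * D.h + 1 - (y + k)) = rep D s0 (2 * D.h + 1 - y) := by
    intro k
    induction k with
    | zero => intro _ _; simp
    | succ k ih =>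
      intro h2 h3
      push_cast at h2 h3 ⊢
      rw [← ih (by omega) fun v h4 h5 => h3 v h4 (by omega)]
      have e2 : 2 * D.h + 1 - (y + (k : ℤ)) = 2 * D.h + 1 - (y + (k + 1)) + 1 := by ring
      rw [e2, rep_adj hcut]
      rw [← e2, cp_left (by omega) (by omega), cp_left (by omega) (by omega), ← add_assoc]
      exact (h3 _ (by omega) (by omega)).symm
  have := key (z - y).toNat (by omega) fun v h2 h3 => hc v h2 (by omega)
  rwa [show y + ((z - y).toNat : ℤ) = z by omega] at this

/-! ### Arcs -/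

/-- arcs below -/
theorem arc_below (h0 : y < 0) : arc D p s0 x y = rep D s0 0 := by
  unfold arc ps; rw [if_pos h0]

/-- arcs above -/
theorem arc_above (h0 : D.h ≤ y) : arc D p s0 x y = rep D s0 (D.h + 1) := by
  have := D.hh
  unfold arc ps; rw [if_neg (by omega), if_pos h0]

/-- arcs at the left, row by row -/
lemma arc_l (h0 : 0 ≤ y) (h1 : y < D.h) (hx : x < D.a y) : arc D p s0 x y = rep D s0 (2 * D.h + 1 - y) := by
  unfold arc ps; rw [if_neg (by omega), if_neg (by omega), if_pos hx]

/-- arcs at the right, row by row -/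
lemma arc_r (h0 : 0 ≤ y) (h1 : y < D.h) (hx : D.a y ≤ x) : arc D p s0 x y = rep D s0 (y + 1) := by
  unfold arc ps; rw [if_neg (by omega), if_neg (by omega), if_neg (by omega)]

lemma cS_B (h0 : Y < 0) : cS D n H sd Y = D.cb := by
  unfold cS
  rw [if_pos h0]

lemma cS_T (hH : 0 < H) (h0 : H ≤ Y) : cS D n H sd Y = D.ct := by
  unfold cS
  rw [if_neg (by omega), if_pos h0]

lemma iS_B (h0 : Y < 0) : iS D s0 n H sd Y = rep D s0 0 := by
  unfold iS qS
  rw [if_pos h0]

lemma iS_T (hH : 0 < H) (h0 : H ≤ Y) : iS D s0 n H sd Y = rep D s0 (D.h + 1) := by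
  unfold iS qS
  rw [if_neg (by omega), if_pos h0]

section

variable (C : CoarseR D n H W A)

include C

/-- the colour of the arc of a side -/
lemma colp_iS : colp D (iS D s0 n H sd Y) = cS D n H sd Y := by
  have hn := C.hn
  have hH := C.HH
  have hh := D.hh
  unfold iS
  rw [colp_rep]
  unfold qS cS
  by_cases h0 : Y < 0
  · rw [if_pos h0, if_pos h0, cp_bot]
  rw [if_neg h0, if_neg h0]
  by_cases h1 : H ≤ Y
  · rw [if_pos h1, if_pos h1, cp_top]
  rw [if_neg h1, if_neg h1]
  have hr := row_h C (Y := Y) (by omega) (by omega)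
  cases sd
  · rw [if_neg Bool.false_ne_true, if_neg Bool.false_ne_true, cp_right (by omega) (by omega)]
  · rw [if_pos rfl, if_pos rfl, cp_left (by omega) (by omega)]

end

section

variable (C : CoarseRC D n H W A CL)

include C

lemma cS_L (h0 : 0 ≤ Y) (h1 : Y < H) : cS D n H true Y = CL Y := by
  have hn := C.hn
  have hr := row_h C.toCoarseR h0 h1
  unfold cS
  rw [if_neg (by omega), if_neg (by omega), if_pos rfl, C.cl _ (by omega) (by omega),
    dv_eq (X := Y) C.pos (by omega) (by omega)]

variable (hcut : colp D (s0 - 1) ≠ colp D s0)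

include hcut

/-- **the rows of one cell row are in one arc** -/
theorem rep_cell (h0 : 0 ≤ y) (h1 : y < D.h) : rep D s0 (2 * D.h + 1 - y) = iS D s0 n H true (y / n) := by
  have hn := C.hn
  have hn0 := C.pos
  obtain ⟨r0, r1⟩ := C.toCoarseR.row h0 h1
  have hr := row_h C.toCoarseR r0 r1
  obtain ⟨d1, d2, -⟩ := dv hn0 y
  have e : ∀ v, n * (y / n) ≤ v → v < n * (y / n) + n → D.cl v = CL (y / n) := by
    intro v k1 k2
    rw [C.cl v (by omega) (by omega), dv_eq hn0 k1 k2]
  unfold iS qS
  rw [if_neg (by omega), if_neg (by omega), if_pos rfl]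
  rcases le_total y (n * (y / n) + n / 2) with h | h
  · refine (rep_rows hcut h0 h (by omega) fun v k1 k2 => ?_).symm
    rw [e v (by omega) (by omega), e (v + 1) (by omega) (by omega)]
  · refine rep_rows hcut (by omega) h h1 fun v k1 k2 => ?_
    rw [e v (by omega) (by omega), e (v + 1) (by omega) (by omega)]

/-- **arcs at the left** -/
theorem arc_left (h0 : 0 ≤ y) (h1 : y < D.h) (hx : x < D.a y) :
    arc D p s0 x y = iS D s0 n H true (y / n) := by
  rw [arc_l h0 h1 hx, rep_cell C hcut h0 h1]

/-- **Neighbouring rows of one colour are in one arc.** -/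
theorem iS_eq (h0 : 0 ≤ Y) (h1 : Y ≤ H) (hc : cS D n H true (Y - 1) = cS D n H true Y) :
    iS D s0 n H true (Y - 1) = iS D s0 n H true Y := by
  have hn := C.hn
  have hn0 := C.pos
  have hH := C.HH
  have hh := D.hh
  have hD := C.hh
  by_cases c0 : Y = 0
  · subst c0
    have r0 := row_h C.toCoarseR (Y := 0) le_rfl hH
    rw [cS_B (by norm_num), cS_L C le_rfl hH] at hc
    have e := rep_cell C hcut (y := 0) le_rfl (by omega)
    rw [Int.zero_ediv, sub_zero] at e
    rw [iS_B (by norm_num), ← e]
    refine rep_bot hcut ?_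
    rw [hc, C.cl 0 le_rfl (by omega), Int.zero_ediv]
  by_cases c1 : Y = H
  · subst c1
    have e1 : n * (Y - 1) = n * Y - n := by ring
    have e2 : (D.h - 1) / n = Y - 1 := dv_eq hn0 (by omega) (by omega)
    rw [cS_T hH le_rfl, cS_L C (by omega) (by omega)] at hc
    have e := rep_cell C hcut (y := D.h - 1) (by omega) (by omega)
    rw [e2, show 2 * D.h + 1 - (D.h - 1) = D.h + 2 by ring] at e
    rw [iS_T hH le_rfl, ← e]
    refine (rep_top hcut ?_).symm
    rw [← hc, C.cl (D.h - 1) (by omega) (by omega), e2]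
  · have r0 := row_h C.toCoarseR (Y := Y - 1) (by omega) (by omega)
    have r1 := row_h C.toCoarseR (Y := Y) (by omega) (by omega)
    have e1 : n * (Y - 1) = n * Y - n := by ring
    have e2 : (n * Y - 1) / n = Y - 1 := dv_eq hn0 (by omega) (by omega)
    have e3 : (n * Y) / n = Y := dv_eq hn0 (by omega) (by omega)
    rw [cS_L C (by omega) (by omega), cS_L C (by omega) (by omega)] at hc
    have g1 := rep_cell C hcut (y := n * Y - 1) (by omega) (by omega)
    have g2 := rep_cell C hcut (y := n * Y) (by omega) (by omega)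
    rw [e2] at g1
    rw [e3] at g2
    rw [← g1, ← g2]
    refine (rep_rows hcut (y := n * Y - 1) (z := n * Y) (by omega) (by omega) (by omega) fun v k1 k2 => ?_).symm
    have e4 : v = n * Y - 1 := by omega
    subst e4
    rw [sub_add_cancel, C.cl _ (by omega) (by omega), C.cl _ (by omega) (by omega), e2, e3, hc]

/-- **The tiles near the lattice line `n Y`, left part.** -/
theorem arcB_L (h0 : 0 ≤ Y) (h1 : Y ≤ H) (k0 : n * Y - n + 2 ≤ y) (k1 : y < n * Y + n - 2)
    (hl : 0 ≤ y → y < D.h → x < D.a y) :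
    (y < n * Y ∧ arc D p s0 x y = iS D s0 n H true (Y - 1)) ∨
    (n * Y ≤ y ∧ arc D p s0 x y = iS D s0 n H true Y) := by
  have hn := C.hn
  have hn0 := C.pos
  have hH := C.HH
  have hD := C.hh
  by_cases c1 : y < 0
  · have hY : Y = 0 := by
      by_contra hc
      have := lt_mul hn0 (show 0 < Y by omega)
      omega
    subst hY
    left
    exact ⟨by omega, by rw [arc_below c1, iS_B (by norm_num)]⟩
  by_cases c2 : D.h ≤ y
  · have hY : Y = H := by
      by_contra hc
      have := lt_mul hn0 (show Y < H by omega)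
      omega
    subst hY
    right
    exact ⟨by omega, by rw [arc_above c2, iS_T hH le_rfl]⟩
  have hx := hl (by omega) (by omega)
  rw [arc_left C hcut (by omega) (by omega) hx]
  by_cases c3 : y < n * Y
  · left
    rw [dv_eq (X := Y - 1) hn0 (by linarith [show n * (Y - 1) = n * Y - n by ring])
      (by linarith [show n * (Y - 1) = n * Y - n by ring])]
    exact ⟨c3, rfl⟩
  · right
    rw [dv_eq (X := Y) hn0 (by omega) (by omega)]
    exact ⟨by omega, rfl⟩

end

end Pool.Agent.H2.W.CG
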