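import Mathlib
import Pool.Agent.H2.W.ArcS

set_option autoImplicit false
open Finset

/-! # The tiles around a lattice point of a coarse window, class `H54.W.Win`

Successor of `H46/Sp/BoxC`. `Bx` : box around the lattice point `(n X, n Y)`. `Cor` : the lattice point is a
marked corner and `P^p` is a quadrant in the box. `box_cases` : if `X < W` and the box meets `P^p`, then the
tiles of the box outside of `P^p` belong to one arc, or `Cor` (on the left arc). Nothing is assumed about the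
colour of the right wall in `box_cases`. `X_le`, `inP_R`, `arcX_R` : the boxes at the right wall; `box_right` :
one arc, if the colours of the right wall (and of the bottom, the top) agree in the box. -/

namespace Pool.Agent.H2.W.CG

open Pool.Agent.H75.Perc Pool.Agent.H75.TwoArm Pool.Agent.Q1 Pool.Agent.H33.Q1
open Pool.Agent.H69.Q1
open Pool.Agent.H54.W (Win)
open Pool.Agent.H54.W.Win
open Pool.Agent.H72.W.N
open Pool.Agent.H31.Sp (CQ)
open Pool.Agent.H95.W (CoarseR CoarseRC PR)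
open Pool.Agent.H40.W.N (cS qS iS gxS gyS iVs iHs GmC mem_GmC)
open Pool.Agent.H40.Sp (oT flS yV yH eS)

variable {D : Win} {n H W : ℤ} {A B : ℤ → ℤ} {r x y X Y s0 V : ℤ} {p sd : Bool} {CL : ℤ → Bool}

/-- the box around a lattice point -/
def Bx (n : ℤ) (p : Bool) (X Y x y : ℤ) : Prop :=
  n * X - n + 2 ≤ x + sh p ∧ x + sh p < n * X + n - 2 ∧ n * Y - n + 2 ≤ y ∧ y < n * Y + n - 2

/-- **The lattice point `(n X, n Y)` is a marked corner.** -/
structure Cor (D : Win) (n H : ℤ) (A B : ℤ → ℤ) (p : Bool) (s0 : ℤ) (sd : Bool) (X Y : ℤ) : Prop where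
  mem : (sd, Y) ∈ GmC D n H
  gx : gxS p n H A B (sd, Y) = n * X - sh p
  inn : ∀ x y, Bx n p X Y x y → (InP D p x y ↔
    0 ≤ oT sd (n * X - sh p) x ∧ 0 ≤ oT (flS H A B (sd, Y)) (n * Y) y)
  av : ∀ x y, Bx n p X Y x y → ¬ InP D p x y → 0 ≤ oT (flS H A B (sd, Y)) (n * Y) y →
    arc D p s0 x y = iVs D s0 n H A B (sd, Y)
  ah : ∀ x y, Bx n p X Y x y → ¬ InP D p x y → 0 ≤ oT sd (n * X - sh p) x →
    arc D p s0 x y = iHs D s0 n H A B (sd, Y)
  al : ∀ x y, Bx n p X Y x y → ¬ InP D p x y →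
    arc D p s0 x y = iVs D s0 n H A B (sd, Y) ∨ arc D p s0 x y = iHs D s0 n H A B (sd, Y)
  ne : iVs D s0 n H A B (sd, Y) ≠ iHs D s0 n H A B (sd, Y)

section

variable (C : CoarseR D n H W A)

include C

/-- the rows of the box -/
lemma rowA (h0 : 0 ≤ V) (h1 : V < D.h) (k0 : n * Y - n + 2 ≤ V) (k1 : V < n * Y + n - 2) :
    (V < n * Y ∧ 0 < Y ∧ (D.a V = n * A (Y - 1) ∨
      (D.a V = n * A (Y - 1) - 1 ∧ Y < H ∧ A Y < A (Y - 1)))) ∨
    (n * Y ≤ V ∧ Y < H ∧ (D.a V = n * A Y ∨ (D.a V = n * A Y - 1 ∧ 0 < Y ∧ A (Y - 1) < A Y))) := by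
  have hn := C.hn
  have hn0 := C.pos
  have e1 : n * (Y - 1) = n * Y - n := by ring
  obtain ⟨r0, r1⟩ := C.row h0 h1
  obtain ⟨d1, d2, d3⟩ := dv hn0 V
  by_cases c : V < n * Y
  · left
    have e := dv_eq (X := Y - 1) (x := V) hn0 (by omega) (by omega)
    have hk := C.a V h0 h1
    rw [e] at hk r0 r1 d3
    rw [sub_add_cancel] at hk
    refine ⟨c, by omega, ?_⟩
    rcases hk with hk | ⟨hk, ⟨k2, k3, k4⟩ | ⟨k2, k3, k4⟩⟩
    · exact Or.inl hk
    · exact Or.inr ⟨hk, k3, k4⟩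
    · omega
  · right
    have e := dv_eq (X := Y) (x := V) hn0 (by omega) (by omega)
    have hk := C.a V h0 h1
    rw [e] at hk r0 r1 d3
    refine ⟨by omega, r1, ?_⟩
    rcases hk with hk | ⟨hk, ⟨k2, k3, k4⟩ | ⟨k2, k3, k4⟩⟩
    · exact Or.inl hk
    · omega
    · exact Or.inr ⟨hk, k3, k4⟩

/-- `P^p` in the box: only the left end matters -/
lemma inP_L (hX : X < W) (hB : Bx n p X Y x y) :
    InP D p x y ↔ 0 ≤ y ∧ y < D.h ∧ D.a y ≤ x + sh p := by
  have hw := w_ge C
  have hx := lt_mul C.pos hX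
  obtain ⟨b1, b2, b3, b4⟩ := hB
  unfold InP
  constructor
  · rintro ⟨h2, h3, h4, h5⟩
    exact ⟨h2, h3, h4⟩
  · rintro ⟨h2, h3, h4⟩
    exact ⟨h2, h3, h4, by omega⟩

end

lemma fl_L (hf : Y < H ∧ (Y = 0 ∨ A Y < A (Y - 1))) : flS H A B (true, Y) = true := by
  unfold flS
  rw [decide_eq_true_eq]
  simp only [if_true]
  rcases hf with ⟨h1, h2 | h2⟩
  · exact Or.inl h2
  · exact Or.inr ⟨h1, h2⟩

lemma ce_L (hf : 0 < Y ∧ (Y = H ∨ A (Y - 1) < A Y)) : flS H A B (true, Y) = false := by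
  unfold flS
  rw [decide_eq_false_iff_not]
  simp only [if_true]
  omega

section

variable (C : CoarseRC D n H W A CL)

include C

/-- the arcs in the box -/
lemma arcX_L (hcut : colp D (s0 - 1) ≠ colp D s0) (h0 : 0 ≤ Y) (h1 : Y ≤ H) (hX : X < W)
    (hB : Bx n p X Y x y) (hni : ¬ InP D p x y) :
    (y < n * Y ∧ arc D p s0 x y = iS D s0 n H true (Y - 1)) ∨
    (n * Y ≤ y ∧ arc D p s0 x y = iS D s0 n H true Y) := by
  have hi := inP_L C.toCoarseR hX hB
  have hs := sh_nonneg p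
  obtain ⟨b1, b2, b3, b4⟩ := hB
  refine arcB_L C hcut h0 h1 b3 b4 (fun h2 h3 => ?_)
  by_contra h4
  exact hni (hi.2 ⟨h2, h3, by omega⟩)

/-- **a marked corner**, floor -/
theorem cor_L_fl (hcut : colp D (s0 - 1) ≠ colp D s0) (h0 : 0 ≤ Y) (h1 : Y ≤ H)
    (hf : Y < H ∧ (Y = 0 ∨ A Y < A (Y - 1)))
    (hXE : X = A Y) (hc : cS D n H true (Y - 1) ≠ cS D n H true Y) :
    Cor D n H A (fun _ => W) p s0 true X Y := by
  have hn := C.hn
  have hn0 := C.pos
  have hD := C.hh
  have hX : X < W := by rw [hXE]; exact C.AW Y h0 hf.1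
  have hfl : flS H A (fun _ => W) (true, Y) = true := fl_L hf
  have eV : yV H A (fun _ => W) (true, Y) = Y := by unfold yV; rw [hfl]; exact if_pos rfl
  have eH : yH H A (fun _ => W) (true, Y) = Y - 1 := by unfold yH; rw [hfl]; exact if_pos rfl
  have hiV : iVs D s0 n H A (fun _ => W) (true, Y) = iS D s0 n H true (Y) := by unfold iVs; rw [eV]
  have hiH : iHs D s0 n H A (fun _ => W) (true, Y) = iS D s0 n H true (Y - 1) := by unfold iHs; rw [eH]
  have key : ∀ x y, Bx n p X Y x y → (InP D p x y ↔ n * X ≤ x + sh p ∧ n * Y ≤ y) := by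
    intro x y hB
    rw [inP_L C.toCoarseR hX hB]
    obtain ⟨b1, b2, b3, b4⟩ := hB
    have k1 := lt_mul hn0 hf.1
    have k2 : 0 ≤ n * Y := mul_nonneg hn0.le h0
    constructor
    · rintro ⟨h2, h3, h4⟩
      rcases rowA C.toCoarseR h2 h3 b3 b4 with ⟨k3, k4, k5⟩ | ⟨k3, k4, k5⟩
      · exfalso
        rcases hf.2 with k6 | k6
        · omega
        · have := lt_mul hn0 k6
          rw [hXE] at *
          omega
      · rw [hXE] at *
        omega
    · rintro ⟨h2, h3⟩
      refine ⟨by omega, by omega, ?_⟩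
      rcases rowA C.toCoarseR (V := y) (by omega) (by omega) b3 b4 with ⟨k3, k4, k5⟩ | ⟨k3, k4, k5⟩
      · omega
      · rw [hXE] at *
        omega
  have tx : ∀ x, 0 ≤ oT true (n * X - sh p) x ↔ n * X ≤ x + sh p := fun x => by
    unfold oT; rw [if_pos rfl]; omega
  have ty : ∀ y, 0 ≤ oT true (n * Y) y ↔ n * Y ≤ y := fun y => by
    unfold oT; rw [if_pos rfl]; omega
  refine ⟨?_, ?_, ?_, ?_, ?_, ?_, ?_⟩
  · rw [mem_GmC]
    exact ⟨rfl, ⟨h0, h1⟩, hc⟩
  · unfold gxS
    rw [eV, hXE]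
    unfold eS
    rw [if_pos rfl]
  · intro x y hB
    rw [key x y hB, hfl, tx, ty]
  · intro x y hB hni hy
    rw [hfl, ty] at hy
    rw [hiV]
    rcases arcX_L C hcut h0 h1 hX hB hni with ⟨k1, k2⟩ | ⟨k1, k2⟩
    · omega
    · exact k2
  · intro x y hB hni hx
    rw [tx] at hx
    rw [key x y hB] at hni
    rw [hiH]
    rcases arcX_L C hcut h0 h1 hX hB (by rw [key x y hB]; exact hni) with ⟨k1, k2⟩ | ⟨k1, k2⟩
    · exact k2
    · omega
  · intro x y hB hni
    rw [hiV, hiH]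
    rcases arcX_L C hcut h0 h1 hX hB hni with ⟨-, k2⟩ | ⟨-, k2⟩
    · exact Or.inr k2
    · exact Or.inl k2
  · intro h2
    rw [hiV, hiH] at h2
    have h3 := congrArg (colp D) h2
    rw [colp_iS C.toCoarseR, colp_iS C.toCoarseR] at h3
    exact hc h3.symm

/-- **a marked corner**, ceiling -/
theorem cor_L_ce (hcut : colp D (s0 - 1) ≠ colp D s0) (h0 : 0 ≤ Y) (h1 : Y ≤ H)
    (hf : 0 < Y ∧ (Y = H ∨ A (Y - 1) < A Y))
    (hXE : X = A (Y - 1)) (hc : cS D n H true (Y - 1) ≠ cS D n H true Y) :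
    Cor D n H A (fun _ => W) p s0 true X Y := by
  have hn := C.hn
  have hn0 := C.pos
  have hD := C.hh
  have hX : X < W := by rw [hXE]; exact C.AW (Y - 1) (by omega) (by omega)
  have hfl : flS H A (fun _ => W) (true, Y) = false := ce_L hf
  have eV : yV H A (fun _ => W) (true, Y) = Y - 1 := by unfold yV; rw [hfl]; exact if_neg Bool.false_ne_true
  have eH : yH H A (fun _ => W) (true, Y) = Y := by unfold yH; rw [hfl]; exact if_neg Bool.false_ne_true
  have hiV : iVs D s0 n H A (fun _ => W) (true, Y) = iS D s0 n H true (Y - 1) := by unfold iVs; rw [eV]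
  have hiH : iHs D s0 n H A (fun _ => W) (true, Y) = iS D s0 n H true (Y) := by unfold iHs; rw [eH]
  have key : ∀ x y, Bx n p X Y x y → (InP D p x y ↔ n * X ≤ x + sh p ∧ y < n * Y) := by
    intro x y hB
    rw [inP_L C.toCoarseR hX hB]
    obtain ⟨b1, b2, b3, b4⟩ := hB
    have k1 : n * (Y - 1) = n * Y - n := by ring
    have k2 : 0 ≤ n * (Y - 1) := mul_nonneg hn0.le (by omega)
    have k7 : n * Y ≤ n * H := mul_le_mul_of_nonneg_left h1 hn0.le
    constructor
    · rintro ⟨h2, h3, h4⟩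
      rcases rowA C.toCoarseR h2 h3 b3 b4 with ⟨k3, k4, k5⟩ | ⟨k3, k4, k5⟩
      · rw [hXE] at *
        omega
      · exfalso
        rcases hf.2 with k6 | k6
        · omega
        · have := lt_mul hn0 k6
          rw [hXE] at *
          omega
    · rintro ⟨h2, h3⟩
      refine ⟨by omega, by omega, ?_⟩
      rcases rowA C.toCoarseR (V := y) (by omega) (by omega) b3 b4 with ⟨k3, k4, k5⟩ | ⟨k3, k4, k5⟩
      · rw [hXE] at *
        omega
      · omega
  have tx : ∀ x, 0 ≤ oT true (n * X - sh p) x ↔ n * X ≤ x + sh p := fun x => by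
    unfold oT; rw [if_pos rfl]; omega
  have ty : ∀ y, 0 ≤ oT false (n * Y) y ↔ y < n * Y := fun y => by
    unfold oT; rw [if_neg Bool.false_ne_true]; omega
  refine ⟨?_, ?_, ?_, ?_, ?_, ?_, ?_⟩
  · rw [mem_GmC]
    exact ⟨rfl, ⟨h0, h1⟩, hc⟩
  · unfold gxS
    rw [eV, hXE]
    unfold eS
    rw [if_pos rfl]
  · intro x y hB
    rw [key x y hB, hfl, tx, ty]
  · intro x y hB hni hy
    rw [hfl, ty] at hy
    rw [hiV]
    rcases arcX_L C hcut h0 h1 hX hB hni with ⟨k1, k2⟩ | ⟨k1, k2⟩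
    · exact k2
    · omega
  · intro x y hB hni hx
    rw [tx] at hx
    rw [key x y hB] at hni
    rw [hiH]
    rcases arcX_L C hcut h0 h1 hX hB (by rw [key x y hB]; exact hni) with ⟨k1, k2⟩ | ⟨k1, k2⟩
    · omega
    · exact k2
  · intro x y hB hni
    rw [hiV, hiH]
    rcases arcX_L C hcut h0 h1 hX hB hni with ⟨-, k2⟩ | ⟨-, k2⟩
    · exact Or.inl k2
    · exact Or.inr k2
  · intro h2
    rw [hiV, hiH] at h2
    have h3 := congrArg (colp D) h2
    rw [colp_iS C.toCoarseR, colp_iS C.toCoarseR] at h3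
    exact hc h3

/-- on a straight part of the left side the colour does not change -/
lemma cS_str (h0 : 0 < Y) (h1 : Y < H) (hA : A (Y - 1) = A Y) : cS D n H true (Y - 1) = cS D n H true Y := by
  have hn := C.hn
  have hn0 := C.pos
  have hh := D.hh
  have r0 := row_h C.toCoarseR (Y := Y - 1) (by omega) (by omega)
  have r1 := row_h C.toCoarseR (Y := Y) (by omega) (by omega)
  have e1 : n * (Y - 1) = n * Y - n := by ring
  have e2 : (n * Y - 1) / n = Y - 1 := dv_eq hn0 (by omega) (by omega)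
  have e3 : (n * Y) / n = Y := dv_eq hn0 (by omega) (by omega)
  have g1 := rowA C.toCoarseR (V := n * Y - 1) (Y := Y) (by omega) (by omega) (by omega) (by omega)
  have g2 := rowA C.toCoarseR (V := n * Y) (Y := Y) (by omega) (by omega) (by omega) (by omega)
  have e4 := D.scl (n * Y - 1) (by omega) (by omega) (by
    rw [sub_add_cancel]
    rcases g1 with ⟨-, -, g1⟩ | ⟨g1, -⟩
    · rcases g2 with ⟨g2, -⟩ | ⟨-, -, g2⟩
      · omega
      · rw [hA] at g1
        omega
    · omega)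
  rw [sub_add_cancel, C.cl _ (by omega) (by omega), C.cl _ (by omega) (by omega), e2, e3] at e4
  rw [cS_L C (by omega) (by omega), cS_L C (by omega) (by omega), e4]

/-- **the box, left part** -/
theorem box_L (hcut : colp D (s0 - 1) ≠ colp D s0) (h0 : 0 ≤ Y) (h1 : Y ≤ H) (hX : X < W)
    (hin : ∃ x y, Bx n p X Y x y ∧ InP D p x y) :
    (∃ j, ∀ x y, Bx n p X Y x y → ¬ InP D p x y → arc D p s0 x y = j) ∨
    Cor D n H A (fun _ => W) p s0 true X Y := by
  have hn := C.hn
  have hn0 := C.pos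
  have hD := C.hh
  have hs0 := sh_nonneg p
  have hs1 := sh_le p
  by_cases hc : cS D n H true (Y - 1) = cS D n H true Y
  · have he := iS_eq C hcut h0 h1 hc
    exact Or.inl ⟨iS D s0 n H true Y, fun x y hB hni => by
      rcases arcX_L C hcut h0 h1 hX hB hni with ⟨-, k2⟩ | ⟨-, k2⟩
      · rw [k2, he]
      · exact k2⟩
  obtain ⟨u, v, hB, hP⟩ := hin
  have hP' := (inP_L C.toCoarseR hX hB).1 hP
  obtain ⟨b1, b2, b3, b4⟩ := hB
  have hr := rowA C.toCoarseR hP'.1 hP'.2.1 b3 b4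
  by_cases hf : Y < H ∧ (Y = 0 ∨ A Y < A (Y - 1))
  · rcases lt_trichotomy X (A Y) with h2 | h2 | h2
    · exfalso
      have k9 := lt_mul hn0 h2
      rcases hf.2 with k10 | k10
      · omega
      · have := lt_mul hn0 k10
        omega
    · exact Or.inr (cor_L_fl C hcut h0 h1 hf h2 hc)
    · left
      have k9 := lt_mul hn0 h2
      have k1 := lt_mul hn0 hf.1
      have k2 : 0 ≤ n * Y := mul_nonneg hn0.le h0
      refine ⟨iS D s0 n H true (Y - 1), fun x y hB hni => ?_⟩
      have hi := inP_L C.toCoarseR hX hB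
      rcases arcX_L C hcut h0 h1 hX hB hni with ⟨-, g2⟩ | ⟨g1, g2⟩
      · exact g2
      · exfalso
        obtain ⟨b1, b2, b3, b4⟩ := hB
        refine hni (hi.2 ⟨by omega, by omega, ?_⟩)
        rcases rowA C.toCoarseR (V := y) (by omega) (by omega) b3 b4 with ⟨k3, k4, k5⟩ | ⟨k3, k4, k5⟩ <;> omega
  by_cases hf : 0 < Y ∧ (Y = H ∨ A (Y - 1) < A Y)
  · rcases lt_trichotomy X (A (Y - 1)) with h2 | h2 | h2
    · exfalso
      have k9 := lt_mul hn0 h2
      rcases hf.2 with k10 | k10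
      · omega
      · have := lt_mul hn0 k10
        omega
    · exact Or.inr (cor_L_ce C hcut h0 h1 hf h2 hc)
    · left
      have k9 := lt_mul hn0 h2
      have k1 : n * (Y - 1) = n * Y - n := by ring
      have k2 : 0 ≤ n * (Y - 1) := mul_nonneg hn0.le (by omega)
      have k7 : n * Y ≤ n * H := mul_le_mul_of_nonneg_left h1 hn0.le
      refine ⟨iS D s0 n H true Y, fun x y hB hni => ?_⟩
      have hi := inP_L C.toCoarseR hX hB
      rcases arcX_L C hcut h0 h1 hX hB hni with ⟨g1, g2⟩ | ⟨-, g2⟩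
      · exfalso
        obtain ⟨b1, b2, b3, b4⟩ := hB
        refine hni (hi.2 ⟨by omega, by omega, ?_⟩)
        rcases rowA C.toCoarseR (V := y) (by omega) (by omega) b3 b4 with ⟨k3, k4, k5⟩ | ⟨k3, k4, k5⟩ <;> omega
      · exact g2
  · exfalso
    have h3 : 0 < Y ∧ Y < H ∧ A (Y - 1) = A Y := by omega
    exact hc (cS_str C h3.1 h3.2.1 h3.2.2)

/-- **The tiles around a lattice point**, away from the right wall. -/
theorem box_cases (hcut : colp D (s0 - 1) ≠ colp D s0) (hX : X < W)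
    (hin : ∃ x y, Bx n p X Y x y ∧ InP D p x y) :
    (∃ j, ∀ x y, Bx n p X Y x y → ¬ InP D p x y → arc D p s0 x y = j) ∨
    Cor D n H A (fun _ => W) p s0 true X Y := by
  have hn := C.hn
  have hn0 := C.pos
  have hD := C.hh
  have hH := C.HH
  obtain ⟨u, v, hB, hP⟩ := id hin
  have h0 : 0 ≤ Y := by
    by_contra hc
    have := lt_mul hn0 (show Y < 0 by omega)
    obtain ⟨b1, b2, b3, b4⟩ := hB
    obtain ⟨h2, h3, -⟩ := hP
    omega
  have h1 : Y ≤ H := by
    by_contra hc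
    have := lt_mul hn0 (show H < Y by omega)
    obtain ⟨b1, b2, b3, b4⟩ := hB
    obtain ⟨h2, h3, -⟩ := hP
    omega
  exact box_L C hcut h0 h1 hX hin

end

/-! ### The boxes at the right wall -/

section

variable (C : CoarseR D n H W A)

include C

/-- a box which meets `P^p` is not to the right of the right wall -/
lemma X_le (hB : Bx n p X Y x y) (hP : InP D p x y) : X ≤ W := by
  have hn0 := C.pos
  have hn := C.hn
  have hw := w_le C
  obtain ⟨b1, b2, b3, b4⟩ := hB
  obtain ⟨h2, h3, h4, h5⟩ := hP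
  by_contra hc
  have := lt_mul hn0 (show W < X by omega)
  omega

/-- in the boxes at the right wall only the right end matters -/
lemma inP_R (hX : X = W) (hB : Bx n p X Y x y) : InP D p x y ↔ 0 ≤ y ∧ y < D.h ∧ x + sh p < D.w := by
  obtain ⟨b1, b2, b3, b4⟩ := hB
  subst hX
  unfold InP
  constructor
  · rintro ⟨h2, h3, h4, h5⟩
    exact ⟨h2, h3, h5⟩
  · rintro ⟨h2, h3, h4⟩
    have := aw_n C h2 h3
    exact ⟨h2, h3, by omega, h4⟩

/-- the arcs of the tiles at the right wall -/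
lemma arcX_R (hX : X = W) (hB : Bx n p X Y x y) (hni : ¬ InP D p x y) :
    (y < 0 ∧ arc D p s0 x y = rep D s0 0) ∨ (D.h ≤ y ∧ arc D p s0 x y = rep D s0 (D.h + 1)) ∨
    (0 ≤ y ∧ y < D.h ∧ D.w ≤ x + sh p ∧ arc D p s0 x y = rep D s0 (y + 1)) := by
  have hs := sh_le p
  by_cases c1 : y < 0
  · exact Or.inl ⟨c1, arc_below c1⟩
  by_cases c2 : D.h ≤ y
  · exact Or.inr (Or.inl ⟨c2, arc_above c2⟩)
  right; right
  have h3 : D.w ≤ x + sh p := by
    by_contra hc
    exact hni ((inP_R C hX hB).2 ⟨by omega, by omega, by omega⟩)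
  have h4 := D.aw y (by omega) (by omega)
  exact ⟨by omega, by omega, h3, arc_r (by omega) (by omega) (by omega)⟩

omit C in
/-- rows of one colour at the right -/
lemma rep_rowsR (hcut : colp D (s0 - 1) ≠ colp D s0) {z : ℤ} (h0 : 0 ≤ y) (hyz : y ≤ z) (h1 : z < D.h)
    (hc : ∀ v, y ≤ v → v < z → D.cr v = D.cr (v + 1)) :
    rep D s0 (z + 1) = rep D s0 (y + 1) := by
  have key : ∀ k : ℕ, y + k < D.h → (∀ v, y ≤ v → v < y + k → D.cr v = D.cr (v + 1)) →
      rep D s0 (y + k + 1) = rep D s0 (y + 1) := by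
    intro k
    induction k with
    | zero => intro _ _; simp
    | succ k ih =>
      intro h2 h3
      push_cast at h2 h3 ⊢
      rw [← ih (by omega) fun v h4 h5 => h3 v h4 (by omega)]
      have e2 : y + ((k : ℤ) + 1) + 1 = y + k + 1 + 1 := by ring
      rw [e2, rep_adj hcut]
      rw [show y + (k : ℤ) + 1 + 1 = (y + k + 1) + 1 by ring, cp_right (by omega) (by omega),
        cp_right (by omega) (by omega)]
      exact h3 _ (by omega) (by omega)
  have := key (z - y).toNat (by omega) fun v h2 h3 => hc v h2 (by omega)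
  rwa [show y + ((z - y).toNat : ℤ) = z by omega] at this

/-- **the boxes at the right wall**, if the colours of the right wall, and of the bottom and the top if the box
meets them, agree -/
theorem box_right (hcut : colp D (s0 - 1) ≠ colp D s0) (hX : X = W) {c : Bool}
    (hc : ∀ y, 0 ≤ y → y < D.h → n * Y - n + 2 ≤ y → y < n * Y + n - 2 → D.cr y = c)
    (hb : Y = 0 → D.cb = c) (ht : Y = H → D.ct = c) :
    ∃ j, ∀ x y, Bx n p X Y x y → ¬ InP D p x y → arc D p s0 x y = j := by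
  have hn := C.hn
  have hn0 := C.pos
  have hD := C.hh
  have hH := C.HH
  have hh := D.hh
  have hnH := lt_mul hn0 hH
  rw [mul_zero] at hnH
  -- the rows of the box
  have hrow : ∀ y z, 0 ≤ y → y < D.h → n * Y - n + 2 ≤ y → y < n * Y + n - 2 → 0 ≤ z → z < D.h →
      n * Y - n + 2 ≤ z → z < n * Y + n - 2 → rep D s0 (z + 1) = rep D s0 (y + 1) := by
    intro y z h0 h1 h2 h3 k0 k1 k2 k3
    rcases le_total y z with h | h
    · exact rep_rowsR hcut h0 h k1 fun v g1 g2 => by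
        rw [hc v (by omega) (by omega) (by omega) (by omega),
          hc (v + 1) (by omega) (by omega) (by omega) (by omega)]
    · exact (rep_rowsR hcut k0 h h1 fun v g1 g2 => by
        rw [hc v (by omega) (by omega) (by omega) (by omega),
          hc (v + 1) (by omega) (by omega) (by omega) (by omega)]).symm
  by_cases c0 : Y = 0
  · subst c0
    refine ⟨rep D s0 0, fun x y hB hni => ?_⟩
    have e1 : rep D s0 (0 + 1) = rep D s0 0 := by
      refine rep_adj hcut ?_
      rw [cp_bot, cp_right le_rfl (by omega), hb rfl, hc 0 le_rfl (by omega) (by omega) (by omega)]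
    rcases arcX_R C (s0 := s0) hX hB hni with ⟨-, h⟩ | ⟨h, -⟩ | ⟨h2, h3, -, h⟩
    · exact h
    · obtain ⟨b1, b2, b3, b4⟩ := hB
      omega
    · obtain ⟨b1, b2, b3, b4⟩ := hB
      rw [h, hrow 0 y le_rfl (by omega) (by omega) (by omega) h2 h3 b3 b4, e1]
  by_cases c1 : Y = H
  · subst c1
    refine ⟨rep D s0 (D.h + 1), fun x y hB hni => ?_⟩
    have e1 : rep D s0 (D.h + 1) = rep D s0 (D.h - 1 + 1) := by
      rw [← rep_adj hcut (s := D.h - 1 + 1) (by
        rw [cp_right (by omega) (by omega), hc (D.h - 1) (by omega) (by omega) (by omega) (by omega),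
          show D.h - 1 + 1 + 1 = D.h + 1 by ring, cp_top, ht rfl])]
      congr 1; ring
    rcases arcX_R C (s0 := s0) hX hB hni with ⟨h, -⟩ | ⟨-, h⟩ | ⟨h2, h3, -, h⟩
    · obtain ⟨b1, b2, b3, b4⟩ := hB
      omega
    · exact h
    · obtain ⟨b1, b2, b3, b4⟩ := hB
      rw [h, e1, hrow (D.h - 1) y (by omega) (by omega) (by omega) (by omega) h2 h3 b3 b4]
  by_cases c2 : 0 ≤ Y ∧ Y < H
  · have hr := row_h C c2.1 c2.2
    have k3 := lt_mul hn0 (show 0 < Y by omega)
    refine ⟨rep D s0 (n * Y + 1), fun x y hB hni => ?_⟩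
    rcases arcX_R C (s0 := s0) hX hB hni with ⟨h, -⟩ | ⟨h, -⟩ | ⟨h2, h3, -, h⟩
    · obtain ⟨b1, b2, b3, b4⟩ := hB
      omega
    · obtain ⟨b1, b2, b3, b4⟩ := hB
      omega
    · obtain ⟨b1, b2, b3, b4⟩ := hB
      rw [h, hrow (n * Y) y (by omega) (by omega) (by omega) (by omega) h2 h3 b3 b4]
  · by_cases c3 : Y < 0
    · have k3 := lt_mul hn0 c3
      refine ⟨rep D s0 0, fun x y hB hni => ?_⟩
      obtain ⟨b1, b2, b3, b4⟩ := hB
      exact arc_below (by omega)
    · have k3 := lt_mul hn0 (show H < Y by omega)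
      refine ⟨rep D s0 (D.h + 1), fun x y hB hni => ?_⟩
      obtain ⟨b1, b2, b3, b4⟩ := hB
      exact arc_above (by omega)

end

end Pool.Agent.H2.W.CG
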