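import Mathlib
import Pool.Agent.H92.W.OneRowE

set_option autoImplicit false
open Finset

/-! # ONE-ROW for the floors and ceilings of a region made of fine cells

Coordinates of 92's banks: `τ s x h` (`s = true` floors, `s = false` ceilings, heights measured into the room).
`Nt X Y` : the fine cell `(X, Y)` (in these coordinates) is natural; the tile `τ s x h` belongs to the cell
`(x / n, (h + o) / n)` (`o` : offset, for raised worlds). `PcB` : the local hypotheses near one horizontal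
piece `(X, Y)` (bottom side of a natural cell, width `n`). `PcB.bank` : every piece is a bank.
`pieces_eps` : one row of tiles may be forced along any bounded number of pieces, up to a small error. -/

namespace Pool.Agent.H2.W.Run

open Pool.Agent.H92.W
open Pool.Agent.H58.W (PB up mem_up)
open Pool.Agent.H35.W (Force)

/-- the tile `(x, h)` is natural -/
def NtT (n o : ℤ) (Nt : ℤ → ℤ → Prop) (x h : ℤ) : Prop := Nt (x / n) ((h + o) / n)

/-- the tile `(x, h)` is in the box of radius `R` around a tile of the piece `(X, Y)` -/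
def NearP (n o R X Y x h : ℤ) : Prop :=
  n * X - R ≤ x ∧ x < n * X + n + R ∧ n * Y - R ≤ h + o ∧ h + o ≤ n * Y + R

/-- the tile `(x, h)` touches a natural tile, also diagonally -/
def TchT (n o : ℤ) (Nt : ℤ → ℤ → Prop) (x h : ℤ) : Prop :=
  ∃ x' h', |x' - x| ≤ 1 ∧ |h' - h| ≤ 1 ∧ NtT n o Nt x' h'

/-- **The local hypotheses at the piece `(X, Y)`.** -/
structure PcB {γ : Type*} [DecidableEq γ] (s : Bool) (n o R : ℤ) (Nt Hl : ℤ → ℤ → Prop) (X Y : ℤ)
    (Λ D : Set (ℤ × ℤ)) (E : Finset (ℤ × ℤ)) (b : ℤ × ℤ → γ) (c : Finset (ℤ × ℤ) → Finset (ℤ × ℤ))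
    (F : Finset (ℤ × ℤ)) (u : ℤ × ℤ → ℤ × ℤ) : Prop where
  nR : 1 ≤ R ∧ 2 * R < n
  /-- the cell is natural, the one below it is not -/
  pc : Nt X Y ∧ ¬ Nt X (Y - 1)
  /-- no diagonal contact of two natural cells -/
  dg1 : ¬ Nt (X - 1) Y → ¬ Nt (X - 1) (Y - 1)
  dg2 : ¬ Nt (X + 1) Y → ¬ Nt (X + 1) (Y - 1)
  nat : ∀ x h, NearP n o R X Y x h → NtT n o Nt x h →
    τ s x h ∈ Λ ∧ τ s x h ∉ D ∧ τ s x h ∈ E ∧ (∀ l ∈ E, b l = b (τ s x h) → l = τ s x h) ∧
    ∀ ω ⊆ E, (τ s x h ∈ c ω ↔ τ s x h ∈ ω)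
  wal : ∀ x h, NearP n o R X Y x h → ¬ NtT n o Nt x h → TchT n o Nt x h → ¬ Hl x h →
    τ s x h ∈ Λ ∧ τ s x h ∉ D
  /-- one colour in every fine column -/
  col : ∀ x h x' h', NearP n o R X Y x h → NearP n o R X Y x' h' → ¬ NtT n o Nt x h →
    TchT n o Nt x h → ¬ Hl x h → ¬ NtT n o Nt x' h' → TchT n o Nt x' h' → ¬ Hl x' h' → x / n = x' / n →
    ∀ ω : Finset γ, (τ s x h ∈ c (up E b ω) ↔ τ s x' h' ∈ c (up E b ω))
  /-- holes are diagonal tiles -/
  hol : ∀ x h, NearP n o R X Y x h → Hl x h → ¬ NtT n o Nt x (h + 1) ∧ ∀ x', |x' - x| ≤ 1 →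
    ¬ NtT n o Nt x' h
  hcV : ∀ x h x' v, NearP n o R X Y x h → Hl x h → |x' - x| ≤ 1 → NtT n o Nt x' (h + 1) →
    EndV (τ s x h) v → EndV (τ s x' (h + 1)) v → ∀ ω : Finset γ,
    (τ s x' h ∈ c (up E b ω) ∨ τ s x (h + 1) ∈ c (up E b ω))
  hcF : ∀ x h x' v, NearP n o R X Y x h → Hl x h → |x' - x| ≤ 1 → NtT n o Nt x' (h + 1) →
    EndF (τ s x h) v → EndF (τ s x' (h + 1)) v → ∀ ω : Finset γ,
    (τ s x' h ∉ c (up E b ω) ∨ τ s x (h + 1) ∉ c (up E b ω))
  /-- the forced tiles in the box are first tiles of the room -/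
  row : ∀ x h, NearP n o R X Y x h → TchT n o Nt x h → τ s x h ∈ F →
    NtT n o Nt x h ∧ ¬ NtT n o Nt x (h - 1) ∧ u (τ s x h) = uB s (τ s x h)

open Classical in
/-- the height of the wall in the fine column `X`, seen from the height `n Y` -/
noncomputable def btX (n o : ℤ) (Nt : ℤ → ℤ → Prop) (X Y : ℤ) : ℤ :=
  if Nt X Y then (if Nt X (Y - 1) then n * (Y - 1) - o else n * Y - o) else n * (Y + 1) - o

/-- the height of the wall -/
noncomputable def botP (n o : ℤ) (Nt : ℤ → ℤ → Prop) (X Y x : ℤ) : ℤ :=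
  if x < n * X then btX n o Nt (X - 1) Y
  else if x < n * X + n then n * Y - o
  else btX n o Nt (X + 1) Y

/-- the ends of the piece -/
noncomputable def JP (n X : ℤ) : Finset ℤ := {n * X, n * X + n}

lemma mem_JP {n X j : ℤ} : j ∈ JP n X ↔ j = n * X ∨ j = n * X + n := by
  unfold JP
  rw [mem_insert, mem_singleton]

lemma card_JP {n X : ℤ} : (JP n X).card ≤ 2 := card_le_two

lemma div_iff {n x X : ℤ} (hn : 0 < n) : x / n = X ↔ n * X ≤ x ∧ x < n * X + n := by
  have e := Int.emod_add_mul_ediv x n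
  have h1 := Int.emod_nonneg x hn.ne'
  have h2 := Int.emod_lt_of_pos x hn
  constructor
  · rintro rfl
    omega
  · rintro ⟨h3, h4⟩
    have h5 : x = (x - n * X) + n * X := by ring
    rw [h5, Int.add_mul_ediv_left _ _ hn.ne', Int.ediv_eq_zero_of_lt (by omega) (by omega), zero_add]

lemma div_of {n x X : ℤ} (hn : 0 < n) (h1 : n * X ≤ x) (h2 : x < n * X + n) : x / n = X :=
  (div_iff hn).2 ⟨h1, h2⟩

section

variable {γ : Type*} [DecidableEq γ] {s : Bool} {n o R : ℤ} {Nt Hl : ℤ → ℤ → Prop}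
  {Λ D : Set (ℤ × ℤ)} {E F : Finset (ℤ × ℤ)} {b : ℤ × ℤ → γ} {c : Finset (ℤ × ℤ) → Finset (ℤ × ℤ)}
  {u : ℤ × ℤ → ℤ × ℤ} {X Y x h x' h' : ℤ}

lemma btX_cases : btX n o Nt X Y = n * (Y - 1) - o ∨ btX n o Nt X Y = n * Y - o ∨
    btX n o Nt X Y = n * (Y + 1) - o := by
  unfold btX
  split_ifs
  · exact Or.inl rfl
  · exact Or.inr (Or.inl rfl)
  · exact Or.inr (Or.inr rfl)

/-- the room in one fine column -/
lemma btX_iff {v : ℤ} (hn : 0 < n) (hd : ¬ Nt X Y → ¬ Nt X (Y - 1)) (h3 : n * Y - n ≤ v) (h4 : v < n * Y + n) :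
    btX n o Nt X Y ≤ v - o ↔ (if n * Y ≤ v then Nt X Y else Nt X (Y - 1)) := by
  have e1 : n * (Y - 1) = n * Y - n := by ring
  have e2 : n * (Y + 1) = n * Y + n := by ring
  unfold btX
  by_cases c1 : Nt X Y
  · rw [if_pos c1]
    by_cases c2 : Nt X (Y - 1)
    · rw [if_pos c2]
      constructor
      · intro _
        split_ifs <;> assumption
      · intro _
        omega
    · rw [if_neg c2]
      constructor
      · intro h5
        rw [if_pos (by omega)]
        exact c1
      · intro h5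
        by_contra h6
        rw [if_neg (by omega)] at h5
        exact c2 h5
  · rw [if_neg c1]
    have c2 := hd c1
    constructor
    · intro h5; omega
    · intro h5
      split_ifs at h5
      · exact absurd h5 c1
      · exact absurd h5 c2

/-- the tiles of the room in the box of the piece -/
lemma botP_iff (hF : PcB s n o R Nt Hl X Y Λ D E b c F u) (hN : NearP n o R X Y x h) :
    botP n o Nt X Y x ≤ h ↔ NtT n o Nt x h := by
  obtain ⟨h1, h2, h3, h4⟩ := hN
  have hR := hF.nR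
  have hn : 0 < n := by omega
  have e3 : n * (X - 1) = n * X - n := by ring
  have e4 : n * (X + 1) = n * X + n := by ring
  have e5 : n * (Y - 1) = n * Y - n := by ring
  -- the row of the tile
  have hY : (h + o) / n = if n * Y ≤ h + o then Y else Y - 1 := by
    split_ifs with c
    · exact div_of hn c (by omega)
    · exact div_of hn (by omega) (by omega)
  have hsp : ∀ X, (if n * Y ≤ h + o then Nt X Y else Nt X (Y - 1)) ↔
      Nt X (if n * Y ≤ h + o then Y else Y - 1) := by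
    intro X
    split_ifs <;> exact Iff.rfl
  unfold NtT botP
  rw [hY]
  by_cases c1 : x < n * X
  · have hx : x / n = X - 1 := div_of hn (by omega) (by omega)
    rw [if_pos c1, hx, ← hsp, ← btX_iff (o := o) (v := h + o) hn hF.dg1
      (by omega) (by omega), add_sub_cancel_right]
  rw [if_neg c1]
  by_cases c4 : x < n * X + n
  · rw [if_pos c4, div_of hn (X := X) (by omega) c4]
    constructor
    · intro h5
      rw [if_pos (by omega)]
      exact hF.pc.1
    · intro h5
      by_contra h6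
      rw [if_neg (by omega)] at h5
      exact hF.pc.2 h5
  · rw [if_neg c4]
    have hx : x / n = X + 1 := div_of hn (by omega) (by omega)
    rw [hx, ← hsp, ← btX_iff (o := o) (v := h + o) hn hF.dg2 (by omega) (by omega),
      add_sub_cancel_right]

lemma botP_mid (hx1 : n * X ≤ x) (hx2 : x < n * X + n) : botP n o Nt X Y x = n * Y - o := by
  unfold botP
  rw [if_neg (by omega), if_pos hx2]

/-- the windows of the bank -/
lemma near_of (hR : 1 ≤ R) (hw : Wdw (n * X) (n * X + n) (R - 1) (botP n o Nt X Y) x h) :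
    n * X - R < x ∧ x < n * X + n + R - 1 ∧ n * Y - R < h + o ∧ h + o < n * Y + R := by
  obtain ⟨x0, k1, k2, k3, k4⟩ := hw
  rw [botP_mid k1 k2] at k4
  rw [abs_le] at k3 k4
  omega

/-- **Every piece is a bank.** -/
theorem PcB.bank (hF : PcB s n o R Nt Hl X Y Λ D E b c F u) :
    Bank s Λ D E b c F u (n * X) (n * X + n) (R - 1) (botP n o Nt X Y) (fun x => x / n) Hl (JP n X) := by
  have hR := hF.nR
  have hn : 0 < n := by omega
  have e1 : n * (Y - 1) = n * Y - n := by ring
  have e2 : n * (Y + 1) = n * Y + n := by ring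
  have e3 : n * (X - 1) = n * X - n := by ring
  have e4 : n * (X + 1) = n * X + n := by ring
  have hnear : ∀ {x h}, Wdw (n * X) (n * X + n) (R - 1) (botP n o Nt X Y) x h → NearP n o R X Y x h := by
    intro x h hw
    have := near_of (by omega) hw
    unfold NearP
    omega
  have htch : ∀ {x h}, Wdw (n * X) (n * X + n) (R - 1) (botP n o Nt X Y) x h →
      Tch (botP n o Nt X Y) x h → TchT n o Nt x h := by
    rintro x h hw ⟨x1, k5, k6⟩
    have := near_of (by omega) hw
    refine ⟨x1, h + 1, k5, by simp, ?_⟩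
    rw [abs_le] at k5
    exact (botP_iff hF (by unfold NearP; omega)).1 k6
  have hwal : ∀ {x h}, Wdw (n * X) (n * X + n) (R - 1) (botP n o Nt X Y) x h →
      Wall (botP n o Nt X Y) Hl x h → ¬ NtT n o Nt x h ∧ TchT n o Nt x h ∧ ¬ Hl x h := by
    rintro x h hw ⟨k1, k2, k3⟩
    refine ⟨fun m6 => ?_, htch hw k2, k3⟩
    have := (botP_iff hF (hnear hw)).2 m6
    omega
  refine ⟨?_, ?_, ?_, ?_, ?_, ?_, ?_, ?_, ?_, ?_⟩
  · -- no change off `J`
    intro x k1 k2 hx
    rw [mem_JP] at hx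
    constructor
    · unfold botP
      by_cases c1 : x < n * X
      · rw [if_pos c1, if_pos (by omega)]
      rw [if_neg c1, if_neg (by omega)]
      by_cases c2 : x < n * X + n
      · rw [if_pos c2, if_pos (by omega)]
      · rw [if_neg c2, if_neg (by omega)]
    · show (x - 1) / n = x / n
      by_cases c1 : x < n * X
      · rw [div_of hn (X := X - 1) (by omega) (by omega), div_of hn (X := X - 1) (by omega) (by omega)]
      by_cases c2 : x < n * X + n
      · rw [div_of hn (X := X) (by omega) (by omega), div_of hn (X := X) (by omega) (by omega)]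
      · rw [div_of hn (X := X + 1) (by omega) (by omega), div_of hn (X := X + 1) (by omega) (by omega)]
  · -- separation
    intro i hi j hj hij
    rw [mem_JP] at hi hj
    omega
  · -- jumps
    intro i hi
    rw [mem_JP] at hi
    rcases hi with rfl | rfl
    · have c1 : botP n o Nt X Y (n * X) = n * Y - o := botP_mid le_rfl (by omega)
      have c2 : botP n o Nt X Y (n * X - 1) = btX n o Nt (X - 1) Y := by
        unfold botP
        rw [if_pos (by omega)]
      rw [c1, c2]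
      rcases btX_cases (n := n) (o := o) (Nt := Nt) (X := X - 1) (Y := Y) with c3 | c3 | c3 <;> rw [c3] <;> omega
    · have c2 : botP n o Nt X Y (n * X + n - 1) = n * Y - o := botP_mid (by omega) (by omega)
      have c1 : botP n o Nt X Y (n * X + n) = btX n o Nt (X + 1) Y := by
        unfold botP
        rw [if_neg (by omega), if_neg (by omega)]
      rw [c1, c2]
      rcases btX_cases (n := n) (o := o) (Nt := Nt) (X := X + 1) (Y := Y) with c3 | c3 | c3 <;> rw [c3] <;> omega
  · -- natural tiles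
    intro x h hw k5
    exact hF.nat x h (hnear hw) ((botP_iff hF (hnear hw)).1 k5)
  · -- wall tiles
    intro x h hw hwl
    obtain ⟨k1, k2, k3⟩ := hwal hw hwl
    exact hF.wal x h (hnear hw) k1 k2 k3
  · -- colours
    intro x h x' h' hw hwl hw' hwl' hp
    obtain ⟨k1, k2, k3⟩ := hwal hw hwl
    obtain ⟨k1', k2', k3'⟩ := hwal hw' hwl'
    exact hF.col x h x' h' (hnear hw) (hnear hw') k1 k2 k3 k1' k2' k3' hp
  · -- holes
    intro x h hw hh
    have hb := near_of (by omega) hw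
    obtain ⟨k1, k2⟩ := hF.hol x h (hnear hw) hh
    constructor
    · by_contra hc
      exact k1 ((botP_iff hF (by unfold NearP; omega)).1 (by omega))
    · intro x' hx'
      by_contra hc
      have hx2 := hx'
      rw [abs_le] at hx2
      exact k2 x' hx' ((botP_iff hF (by unfold NearP; omega)).1 (by omega))
  · intro x h x' v hw hh hx' hb'
    have hb := near_of (by omega) hw
    have hx2 := hx'
    rw [abs_le] at hx2
    exact hF.hcV x h x' v (hnear hw) hh hx' ((botP_iff hF (by unfold NearP; omega)).1 hb'.le)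
  · intro x h x' v hw hh hx' hb'
    have hb := near_of (by omega) hw
    have hx2 := hx'
    rw [abs_le] at hx2
    exact hF.hcF x h x' v (hnear hw) hh hx' ((botP_iff hF (by unfold NearP; omega)).1 hb'.le)
  · intro x h hw ht hf
    have hb := near_of (by omega) hw
    obtain ⟨k1, k2, k3⟩ := hF.row x h (hnear hw) (htch hw ht) hf
    have k4 := (botP_iff hF (hnear hw)).2 k1
    refine ⟨le_antisymm ?_ k4, k3⟩
    by_contra hc
    exact k2 ((botP_iff hF (by unfold NearP; omega)).1 (by omega))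

end

/-- **ONE-ROW along a bounded number of pieces** (`4 R ≈ n`). -/
theorem pieces_eps (N : ℕ) {ε : ℝ} (hε : 0 < ε) : ∃ n0 : ℤ, ∀ n : ℤ, n0 ≤ n →
    ∀ {γ : Type*} [DecidableEq γ] {β ι : Type*} {Λ D : Set (ℤ × ℤ)} {E F : Finset (ℤ × ℤ)} {b : ℤ × ℤ → γ}
    {c : Finset (ℤ × ℤ) → Finset (ℤ × ℤ)} {u : ℤ × ℤ → ℤ × ℤ} {Φ : Finset (ℤ × ℤ) → β}
    (I : Finset ι) (s : ι → Bool) (o X Y : ι → ℤ) (Nt Hl : ι → ℤ → ℤ → Prop), I.card ≤ N →
    (∀ i ∈ I, PcB (s i) n (o i) (n / 4) (Nt i) (Hl i) (X i) (Y i) Λ D E b c F u) →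
    (∀ f ∈ F, ∃ i ∈ I, ∃ x, (n * X i ≤ x ∧ x < n * X i + n) ∧ f = τ (s i) x (n * Y i - o i)) →
    (∀ Z : Finset (ℤ × ℤ), (∀ e ∈ Z, e ∈ Λ ∧ e ∉ D) → PatInv Z Φ) →
    PB E b (fun ω => Φ (Force F u (c ω)) ≠ Φ (c ω)) ≤ ε := by
  obtain ⟨R0, h0⟩ := one_rows_eps N 2 8 hε
  refine ⟨max 16 (8 * max R0 1), fun n hn => ?_⟩
  intro γ _ β ι Λ D E F b c u Φ I s o X Y Nt Hl hI hB hF hinv
  have hn1 : 16 ≤ n := (le_max_left _ _).trans hn
  have hn2 : 8 * max R0 1 ≤ n := (le_max_right _ _).trans hn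
  have hR0 : R0 ≤ max R0 1 := le_max_left _ _
  refine h0 I s (fun i => n * X i) (fun i => n * X i + n) (fun _ => n / 4 - 1)
    (fun i => botP n (o i) (Nt i) (X i) (Y i)) (fun _ x => x / n) Hl (fun i => JP n (X i)) hI
    (fun i hi => (hB i hi).bank) (fun i _ => ⟨by omega, card_JP, ?_⟩) ?_ hinv
  · have e : (n * X i + n - n * X i).toNat = n.toNat := by congr 1; ring
    rw [e]
    have h1 : (n.toNat : ℤ) ≤ 8 * (n / 4 - 1) := by omega
    calc ((n.toNat : ℕ) : ℝ) = (((n.toNat : ℕ) : ℤ) : ℝ) := by norm_cast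
      _ ≤ ((8 * (n / 4 - 1) : ℤ) : ℝ) := by exact_mod_cast h1
      _ = 8 * ((n / 4 - 1 : ℤ) : ℝ) := by push_cast; ring
  · intro f hf
    obtain ⟨i, hi, x, hx, rfl⟩ := hF f hf
    exact ⟨i, hi, x, hx, by rw [botP_mid hx.1 hx.2]⟩

end Pool.Agent.H2.W.Run
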