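import Mathlib
import Pool.Agent.H2.W.RunF
import Pool.Agent.H19.W.VW

set_option autoImplicit false
open Finset

/-! # ORL for the coherent worlds `VC`: the colours of the outer tiles near a horizontal piece

`KOK P n κ Xr` : the colours `κ` change only at convex corners and at the rows `Xr` (exit rows).
`colP`, `colN` : in every fine column near a horizontal piece the outer tiles have one colour
(19's rule `sd`: vertical sides first). `dy = -1` floors, `dy = 1` ceilings. -/

namespace Pool.Agent.H2.W.Run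

open Pool.Agent.H75.Perc (dir dir_cases)
open Pool.Agent.Q1.M4 (Cell PType IsSide nextSide Good)
open Pool.Agent.H33.Q1 (lt tt ct TL ct_eq tt_lt)
open Pool.Agent.H19.W Pool.Agent.H68.W

/-- rows of the outer tiles of the side `(c, k)` -/
def SRw (n : ℤ) (c : Cell) (k : ℤ) (y : ℤ) : Prop :=
  n * c.2 - 1 ≤ y ∧ y ≤ n * c.2 + n ∧ (k % 4 = 0 → y = n * c.2 - 1) ∧ (k % 4 = 2 → y = n * c.2 + n)

/-- no exit row between `y` and `y'` -/
def NoX (Xr : ℤ → Prop) (y y' : ℤ) : Prop := ∀ r, Xr r → ¬ (min y y' ≤ r ∧ r ≤ max y y')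

/-- **The colours change only at convex corners and at the exit rows.** -/
structure KOK (P : PType) (n : ℤ) (κ : ℕ → ℤ → Prop) (Xr : ℤ → Prop) : Prop where
  same : ∀ c k, IsSide P.Q (c, k) → ∀ y y', SRw n c k y → SRw n c k y' → NoX Xr y y' →
    (κ (sx P c k) y ↔ κ (sx P c k) y')
  next : ∀ c k c2 k2, IsSide P.Q (c, k) → nextSide P.Q (c, k) = (c2, k2) → c2 ≠ c →
    ∀ y y', SRw n c k y → SRw n c2 k2 y' → NoX Xr y y' → (κ (sx P c k) y ↔ κ (sx P c2 k2) y')

lemma NoX.symm {Xr : ℤ → Prop} {y y' : ℤ} (h : NoX Xr y y') : NoX Xr y' y := by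
  intro r h1 h2
  exact h r h1 ⟨by rw [min_comm]; exact h2.1, by rw [max_comm]; exact h2.2⟩

section

variable {P : PType} {n : ℤ} {κ : ℕ → ℤ → Prop} {Xr : ℤ → Prop} {x y r r' : ℤ}

lemma side0 : IsSide P.Q ((x, y), 0) ↔ (x, y) ∈ P.Q ∧ (x, y - 1) ∉ P.Q := by
  unfold IsSide
  simp [dir, sub_eq_add_neg]

lemma side1 : IsSide P.Q ((x, y), 1) ↔ (x, y) ∈ P.Q ∧ (x + 1, y) ∉ P.Q := by
  unfold IsSide
  simp [dir]

lemma side2 : IsSide P.Q ((x, y), 2) ↔ (x, y) ∈ P.Q ∧ (x, y + 1) ∉ P.Q := by
  unfold IsSide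
  simp [dir]

lemma side3 : IsSide P.Q ((x, y), 3) ↔ (x, y) ∈ P.Q ∧ (x - 1, y) ∉ P.Q := by
  unfold IsSide
  simp [dir, sub_eq_add_neg]

lemma sx_mod {c : Cell} {k k2 : ℤ} (h : (k - k2) % 4 = 0) : sx P c k = sx P c k2 := by
  by_cases hs : IsSide P.Q (c, k)
  · obtain ⟨a, b, d⟩ := sx_spec hs
    rw [sx_eq (k := k2) a b (by omega)]
  · have hs' : ¬ IsSide P.Q (c, k2) := fun h' => hs ((isSide_mod h).2 h')
    unfold sx
    rw [dif_neg hs, dif_neg hs']

variable (K : KOK P n κ Xr)

include K

/-- straight, right sides -/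
lemma KOK.st1 (h1 : (x, y) ∈ P.Q) (h2 : (x + 1, y) ∉ P.Q) (h3 : (x, y + 1) ∈ P.Q)
    (h4 : (x + 1, y + 1) ∉ P.Q) (a : SRw n (x, y) 1 r) (a' : SRw n (x, y + 1) 1 r') (hx : NoX Xr r r') :
    κ (sx P (x, y) 1) r ↔ κ (sx P (x, y + 1) 1) r' := by
  refine K.next _ _ _ _ (side1.2 ⟨h1, h2⟩) ?_ (by simp) r r' a a' hx
  unfold nextSide
  simp [dir, h3, h4]

/-- straight, left sides -/
lemma KOK.st3 (h1 : (x, y) ∈ P.Q) (h2 : (x - 1, y) ∉ P.Q) (h3 : (x, y - 1) ∈ P.Q)
    (h4 : (x - 1, y - 1) ∉ P.Q) (a : SRw n (x, y) 3 r) (a' : SRw n (x, y - 1) 3 r') (hx : NoX Xr r r') :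
    κ (sx P (x, y) 3) r ↔ κ (sx P (x, y - 1) 3) r' := by
  refine K.next _ _ _ _ (side3.2 ⟨h1, h2⟩) ?_ (by simp) r r' a a' hx
  unfold nextSide
  simp [dir, ← sub_eq_add_neg, h3, h4]

/-- reflex corner after a bottom side -/
lemma KOK.rx0 (h1 : (x, y) ∈ P.Q) (h2 : (x, y - 1) ∉ P.Q) (h3 : (x + 1, y - 1) ∈ P.Q)
    (a : SRw n (x, y) 0 r) (a' : SRw n (x + 1, y - 1) 3 r') (hx : NoX Xr r r') :
    κ (sx P (x, y) 0) r ↔ κ (sx P (x + 1, y - 1) 3) r' := by
  rw [sx_mod (k := 3) (k2 := -1) (by norm_num)]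
  refine K.next _ _ _ _ (side0.2 ⟨h1, h2⟩) ?_ (by simp) r r' a ?_ hx
  · unfold nextSide
    simp [dir, ← sub_eq_add_neg, h3]
  · exact ⟨a'.1, a'.2.1, by norm_num, by norm_num⟩

/-- reflex corner after a right side -/
lemma KOK.rx1 (h1 : (x, y) ∈ P.Q) (h2 : (x + 1, y) ∉ P.Q) (h3 : (x + 1, y + 1) ∈ P.Q)
    (a : SRw n (x, y) 1 r) (a' : SRw n (x + 1, y + 1) 0 r') (hx : NoX Xr r r') :
    κ (sx P (x, y) 1) r ↔ κ (sx P (x + 1, y + 1) 0) r' := by
  refine K.next _ _ _ _ (side1.2 ⟨h1, h2⟩) ?_ (by simp) r r' a a' hx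
  unfold nextSide
  simp [dir, h3]

/-- reflex corner after a top side -/
lemma KOK.rx2 (h1 : (x, y) ∈ P.Q) (h2 : (x, y + 1) ∉ P.Q) (h3 : (x - 1, y + 1) ∈ P.Q)
    (a : SRw n (x, y) 2 r) (a' : SRw n (x - 1, y + 1) 1 r') (hx : NoX Xr r r') :
    κ (sx P (x, y) 2) r ↔ κ (sx P (x - 1, y + 1) 1) r' := by
  refine K.next _ _ _ _ (side2.2 ⟨h1, h2⟩) ?_ (by simp) r r' a a' hx
  unfold nextSide
  simp [dir, ← sub_eq_add_neg, h3]

/-- reflex corner after a left side -/
lemma KOK.rx3 (h1 : (x, y) ∈ P.Q) (h2 : (x - 1, y) ∉ P.Q) (h3 : (x - 1, y - 1) ∈ P.Q)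
    (a : SRw n (x, y) 3 r) (a' : SRw n (x - 1, y - 1) 2 r') (hx : NoX Xr r r') :
    κ (sx P (x, y) 3) r ↔ κ (sx P (x - 1, y - 1) 2) r' := by
  refine K.next _ _ _ _ (side3.2 ⟨h1, h2⟩) ?_ (by simp) r r' a a' hx
  unfold nextSide
  simp [dir, ← sub_eq_add_neg, h3]

end

/-- the cell of a tile -/
lemma ct_of' {n a b X Y : ℤ} (hn : 0 < n) (h1 : n * X ≤ a) (h2 : a < n * X + n) (h3 : n * Y ≤ b)
    (h4 : b < n * Y + n) : ct n (a, b) = (X, Y) := by
  rw [ct_eq hn]
  simp only
  rw [mul_comm X n, mul_comm Y n]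
  exact ⟨⟨h1, h2⟩, h3, h4⟩

/-- the nine tiles -/
lemma tq_cases {Q : Finset Cell} {n a b : ℤ} (h : Tq Q n (a, b)) : ct n (a - 1, b) ∈ Q ∨
    ct n (a + 1, b) ∈ Q ∨ ct n (a, b - 1) ∈ Q ∨ ct n (a, b + 1) ∈ Q ∨ ct n (a - 1, b - 1) ∈ Q ∨
    ct n (a - 1, b + 1) ∈ Q ∨ ct n (a + 1, b - 1) ∈ Q ∨ ct n (a + 1, b + 1) ∈ Q ∨ ct n (a, b) ∈ Q := by
  obtain ⟨⟨u, v⟩, h1, h2, h3⟩ := h
  simp only at h1 h2
  rw [abs_le] at h1 h2
  have hu : u = a - 1 ∨ u = a ∨ u = a + 1 := by omega
  have hv : v = b - 1 ∨ v = b ∨ v = b + 1 := by omega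
  rcases hu with rfl | rfl | rfl <;> rcases hv with rfl | rfl | rfl <;> tauto

section

variable {P : PType} {n : ℤ} {κ : ℕ → ℤ → Prop} {Xr : ℤ → Prop} {X Y x y : ℤ}

/-- **Below a floor**: the outer tiles in the cell below the piece have one colour. -/
theorem colP_dn (K : KOK P n κ Xr) (hn : 3 ≤ n) (h1 : (X, Y) ∈ P.Q) (h2 : (X, Y - 1) ∉ P.Q)
    (hx1 : n * X ≤ x) (hx2 : x < n * X + n) (hy1 : n * Y - n + 1 ≤ y) (hy2 : y < n * Y)
    (ht : Tq P.Q n (x, y)) (hX : NoX Xr y (n * Y - 1)) :
    κ (si P n (x, y)) y ↔ κ (sx P (X, Y) 0) (n * Y - 1) := by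
  have hn0 : 0 < n := by omega
  have e1 : n * (Y - 1) = n * Y - n := by ring
  have e2 : n * (X - 1) = n * X - n := by ring
  have e3 : n * (X + 1) = n * X + n := by ring
  have c0 : ∀ a b, n * X ≤ a → a < n * X + n → n * Y - n ≤ b → b < n * Y → ct n (a, b) ∉ P.Q := by
    intro a b k1 k2 k3 k4
    rw [ct_of' (X := X) (Y := Y - 1) hn0 k1 k2 (by omega) (by omega)]
    exact h2
  have cl : x = n * X → ∀ b, n * Y - n ≤ b → b < n * Y → ct n (x - 1, b) = (X - 1, Y - 1) := by
    intro k b k3 k4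
    exact ct_of' hn0 (by omega) (by omega) (by omega) (by omega)
  have cr : x = n * X + n - 1 → ∀ b, n * Y - n ≤ b → b < n * Y → ct n (x + 1, b) = (X + 1, Y - 1) := by
    intro k b k3 k4
    exact ct_of' hn0 (by omega) (by omega) (by omega) (by omega)
  have hup : y = n * Y - 1 → ct n (x, y + 1) = (X, Y) := by
    intro k
    exact ct_of' hn0 (by omega) (by omega) (by omega) (by omega)
  have hS0 : SRw n (X, Y) 0 (n * Y - 1) := by
    refine ⟨?_, ?_, fun _ => rfl, fun h => absurd h (by norm_num)⟩ <;> simp only <;> omega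
  unfold si sd
  simp only
  split_ifs with a1 a2 a3 a4 a5 a6 a7
  · have hxe : x = n * X := by
      by_contra hc
      exact c0 _ _ (by omega) (by omega) (by omega) hy2 a1
    have e := cl hxe y (by omega) hy2
    rw [e] at a1 ⊢
    have := K.rx1 (x := X - 1) (y := Y - 1) (r := y) (r' := n * Y - 1) a1
      (by rw [sub_add_cancel]; exact h2) (by rw [sub_add_cancel, sub_add_cancel]; exact h1)
      (by unfold SRw; simp only; rw [e1]; refine ⟨by omega, by omega, by norm_num, by norm_num⟩)
      (by rw [sub_add_cancel, sub_add_cancel]; exact hS0) hX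
    rw [sub_add_cancel, sub_add_cancel] at this
    exact this
  · have hxe : x = n * X + n - 1 := by
      by_contra hc
      exact c0 _ _ (by omega) (by omega) (by omega) hy2 a2
    have e := cr hxe y (by omega) hy2
    rw [e] at a2 ⊢
    exact (K.rx0 (x := X) (y := Y) (r := n * Y - 1) (r' := y) h1 h2 a2 hS0
      (by unfold SRw; simp only; rw [e1]; refine ⟨by omega, by omega, by norm_num, by norm_num⟩)
      hX.symm).symm
  · exact absurd a3 (c0 _ _ hx1 hx2 (by omega) (by omega))
  · have hye : y = n * Y - 1 := by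
      by_contra hc
      exact c0 _ _ hx1 hx2 (by omega) (by omega) a4
    rw [hup hye, hye]
  · exfalso
    by_cases k : x = n * X
    · rw [cl k _ (by omega) (by omega)] at a5
      rw [cl k _ (by omega) hy2] at a1
      exact a1 a5
    · exact c0 _ _ (by omega) (by omega) (by omega) (by omega) a5
  · exfalso
    have hye : y ≠ n * Y - 1 := by
      intro hc
      rw [hup hc] at a4
      exact a4 h1
    by_cases k : x = n * X
    · rw [cl k _ (by omega) (by omega)] at a6
      rw [cl k _ (by omega) hy2] at a1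
      exact a1 a6
    · exact c0 _ _ (by omega) (by omega) (by omega) (by omega) a6
  · exfalso
    by_cases k : x = n * X + n - 1
    · rw [cr k _ (by omega) (by omega)] at a7
      rw [cr k _ (by omega) hy2] at a2
      exact a2 a7
    · exact c0 _ _ (by omega) (by omega) (by omega) (by omega) a7
  · exfalso
    have hye : y ≠ n * Y - 1 := by
      intro hc
      rw [hup hc] at a4
      exact a4 h1
    have a8 : ct n (x + 1, y + 1) ∈ P.Q := by
      rcases tq_cases ht with h | h | h | h | h | h | h | h | h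
      · exact absurd h a1
      · exact absurd h a2
      · exact absurd h a3
      · exact absurd h a4
      · exact absurd h a5
      · exact absurd h a6
      · exact absurd h a7
      · exact h
      · exact absurd h (c0 _ _ hx1 hx2 (by omega) (by omega))
    by_cases k : x = n * X + n - 1
    · rw [cr k _ (by omega) (by omega)] at a8
      rw [cr k _ (by omega) hy2] at a2
      exact a2 a8
    · exact c0 _ _ (by omega) (by omega) (by omega) (by omega) a8

/-- **Above a ceiling**: the outer tiles in the cell above the piece have one colour. -/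
theorem colP_up (K : KOK P n κ Xr) (hn : 3 ≤ n) (h1 : (X, Y) ∈ P.Q) (h2 : (X, Y + 1) ∉ P.Q)
    (hx1 : n * X ≤ x) (hx2 : x < n * X + n) (hy1 : n * Y + n ≤ y) (hy2 : y < n * Y + n + n - 1)
    (ht : Tq P.Q n (x, y)) (hX : NoX Xr y (n * Y + n)) :
    κ (si P n (x, y)) y ↔ κ (sx P (X, Y) 2) (n * Y + n) := by
  have hn0 : 0 < n := by omega
  have e1 : n * (Y + 1) = n * Y + n := by ring
  have e2 : n * (X - 1) = n * X - n := by ring
  have e3 : n * (X + 1) = n * X + n := by ring
  have c0 : ∀ a b, n * X ≤ a → a < n * X + n → n * Y + n ≤ b → b < n * Y + n + n → ct n (a, b) ∉ P.Q := by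
    intro a b k1 k2 k3 k4
    rw [ct_of' (X := X) (Y := Y + 1) hn0 k1 k2 (by omega) (by omega)]
    exact h2
  have cl : x = n * X → ∀ b, n * Y + n ≤ b → b < n * Y + n + n → ct n (x - 1, b) = (X - 1, Y + 1) := by
    intro k b k3 k4
    exact ct_of' hn0 (by omega) (by omega) (by omega) (by omega)
  have cr : x = n * X + n - 1 → ∀ b, n * Y + n ≤ b → b < n * Y + n + n →
      ct n (x + 1, b) = (X + 1, Y + 1) := by
    intro k b k3 k4
    exact ct_of' hn0 (by omega) (by omega) (by omega) (by omega)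
  have hdn : y = n * Y + n → ct n (x, y - 1) = (X, Y) := by
    intro k
    exact ct_of' hn0 (by omega) (by omega) (by omega) (by omega)
  have hS0 : SRw n (X, Y) 2 (n * Y + n) := by
    refine ⟨?_, ?_, fun h => absurd h (by norm_num), fun _ => rfl⟩ <;> simp only <;> omega
  unfold si sd
  simp only
  split_ifs with a1 a2 a3 a4 a5 a6 a7
  · have hxe : x = n * X := by
      by_contra hc
      exact c0 _ _ (by omega) (by omega) hy1 (by omega) a1
    have e := cl hxe y hy1 (by omega)
    rw [e] at a1 ⊢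
    exact (K.rx2 (x := X) (y := Y) (r := n * Y + n) (r' := y) h1 h2 a1 hS0
      (by unfold SRw; simp only; rw [e1]; refine ⟨by omega, by omega, by norm_num, by norm_num⟩)
      hX.symm).symm
  · have hxe : x = n * X + n - 1 := by
      by_contra hc
      exact c0 _ _ (by omega) (by omega) hy1 (by omega) a2
    have e := cr hxe y hy1 (by omega)
    rw [e] at a2 ⊢
    have := K.rx3 (x := X + 1) (y := Y + 1) (r := y) (r' := n * Y + n) a2
      (by rw [add_sub_cancel_right]; exact h2) (by rw [add_sub_cancel_right, add_sub_cancel_right]; exact h1)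
      (by unfold SRw; simp only; rw [e1]; refine ⟨by omega, by omega, by norm_num, by norm_num⟩)
      (by rw [add_sub_cancel_right, add_sub_cancel_right]; exact hS0) hX
    rw [add_sub_cancel_right, add_sub_cancel_right] at this
    exact this
  · have hye : y = n * Y + n := by
      by_contra hc
      exact c0 _ _ hx1 hx2 (by omega) (by omega) a3
    rw [hdn hye, hye]
  · exact absurd a4 (c0 _ _ hx1 hx2 (by omega) (by omega))
  · exfalso
    have hye : y ≠ n * Y + n := by
      intro hc
      rw [hdn hc] at a3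
      exact a3 h1
    by_cases k : x = n * X
    · rw [cl k _ (by omega) (by omega)] at a5
      rw [cl k _ hy1 (by omega)] at a1
      exact a1 a5
    · exact c0 _ _ (by omega) (by omega) (by omega) (by omega) a5
  · exfalso
    by_cases k : x = n * X
    · rw [cl k _ (by omega) (by omega)] at a6
      rw [cl k _ hy1 (by omega)] at a1
      exact a1 a6
    · exact c0 _ _ (by omega) (by omega) (by omega) (by omega) a6
  · exfalso
    have hye : y ≠ n * Y + n := by
      intro hc
      rw [hdn hc] at a3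
      exact a3 h1
    by_cases k : x = n * X + n - 1
    · rw [cr k _ (by omega) (by omega)] at a7
      rw [cr k _ hy1 (by omega)] at a2
      exact a2 a7
    · exact c0 _ _ (by omega) (by omega) (by omega) (by omega) a7
  · exfalso
    have a8 : ct n (x + 1, y + 1) ∈ P.Q := by
      rcases tq_cases ht with h | h | h | h | h | h | h | h | h
      · exact absurd h a1
      · exact absurd h a2
      · exact absurd h a3
      · exact absurd h a4
      · exact absurd h a5
      · exact absurd h a6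
      · exact absurd h a7
      · exact h
      · exact absurd h (c0 _ _ hx1 hx2 (by omega) (by omega))
    by_cases k : x = n * X + n - 1
    · rw [cr k _ (by omega) (by omega)] at a8
      rw [cr k _ hy1 (by omega)] at a2
      exact a2 a8
    · exact c0 _ _ (by omega) (by omega) (by omega) (by omega) a8

/-- **Beside a floor, to the left.** -/
theorem colN_dn_l (K : KOK P n κ Xr) (hn : 3 ≤ n) (h1 : (X, Y) ∈ P.Q) (h2 : (X - 1, Y) ∉ P.Q)
    (h3 : (X - 1, Y - 1) ∉ P.Q) (hx : x = n * X - 1) (hy1 : n * Y - 1 ≤ y) (hy2 : y < n * Y + n)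
    (hX : NoX Xr y (n * Y)) :
    κ (si P n (x, y)) y ↔ κ (sx P (X, Y) 3) (n * Y) := by
  have hn0 : 0 < n := by omega
  have e1 : n * (Y - 1) = n * Y - n := by ring
  have e1' : n * (Y + 1) = n * Y + n := by ring
  have e2 : n * (X - 1) = n * X - n := by ring
  have e3 : n * (X + 1) = n * X + n := by ring
  have c0 : ∀ a b, n * X - n ≤ a → a < n * X → n * Y - n ≤ b → b < n * Y + n → ct n (a, b) ∉ P.Q := by
    intro a b k1 k2 k3 k4
    by_cases k : n * Y ≤ b
    · rw [ct_of' (X := X - 1) (Y := Y) hn0 (by omega) (by omega) (by omega) (by omega)]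
      exact h2
    · rw [ct_of' (X := X - 1) (Y := Y - 1) hn0 (by omega) (by omega) (by omega) (by omega)]
      exact h3
  have cY : ∀ a b, n * X ≤ a → a < n * X + n → n * Y ≤ b → b < n * Y + n → ct n (a, b) = (X, Y) :=
    fun a b k1 k2 k3 k4 => ct_of' hn0 k1 k2 k3 k4
  have cW : ∀ a b, n * X ≤ a → a < n * X + n → n * Y - n ≤ b → b < n * Y → ct n (a, b) = (X, Y - 1) :=
    fun a b k1 k2 k3 k4 => ct_of' hn0 k1 k2 (by omega) (by omega)
  have hs : IsSide P.Q ((X, Y), 3) := side3.2 ⟨h1, h2⟩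
  have hS : ∀ r, n * Y - 1 ≤ r → r ≤ n * Y + n → SRw n (X, Y) 3 r := fun r k1 k2 =>
    ⟨k1, k2, fun h => absurd h (by norm_num), fun h => absurd h (by norm_num)⟩
  unfold si sd
  simp only
  split_ifs with a1 a2 a3 a4 a5 a6 a7
  · exact absurd a1 (c0 _ _ (by omega) (by omega) (by omega) (by omega))
  · by_cases k : n * Y ≤ y
    · rw [cY _ _ (by omega) (by omega) k hy2]
      exact K.same _ _ hs _ _ (hS _ (by omega) (by omega)) (hS _ (by omega) (by omega)) hX
    · rw [cW _ _ (by omega) (by omega) (by omega) (by omega)] at a2 ⊢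
      exact (K.st3 h1 h2 a2 h3 (hS _ (by omega) (by omega))
        ⟨by simp only; omega, by simp only; omega, fun h => absurd h (by norm_num),
          fun h => absurd h (by norm_num)⟩ hX.symm).symm
  · exact absurd a3 (c0 _ _ (by omega) (by omega) (by omega) (by omega))
  · have hy : ¬ n * Y ≤ y := by
      intro k
      rw [cY _ _ (by omega) (by omega) k hy2] at a2
      exact a2 h1
    exact absurd a4 (c0 _ _ (by omega) (by omega) (by omega) (by omega))
  · exact absurd a5 (c0 _ _ (by omega) (by omega) (by omega) (by omega))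
  · have hy : ¬ n * Y ≤ y := by
      intro k
      rw [cY _ _ (by omega) (by omega) k hy2] at a2
      exact a2 h1
    exact absurd a6 (c0 _ _ (by omega) (by omega) (by omega) (by omega))
  · have hy : ¬ n * Y ≤ y := by
      intro k
      rw [cY _ _ (by omega) (by omega) k hy2] at a2
      exact a2 h1
    rw [cW _ _ (by omega) (by omega) (by omega) (by omega)] at a2 a7
    exact absurd a7 a2
  · have hy : ¬ n * Y ≤ y := by
      intro k
      rw [cY _ _ (by omega) (by omega) k hy2] at a2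
      exact a2 h1
    rw [cY _ _ (by omega) (by omega) (by omega) (by omega)]
    exact K.same _ _ hs _ _ (hS _ (by omega) (by omega)) (hS _ (by omega) (by omega)) hX

/-- **Beside a ceiling, to the left.** -/
theorem colN_up_l (K : KOK P n κ Xr) (hn : 3 ≤ n) (h1 : (X, Y) ∈ P.Q) (h2 : (X - 1, Y) ∉ P.Q)
    (h3 : (X - 1, Y + 1) ∉ P.Q) (hx : x = n * X - 1) (hy1 : n * Y ≤ y) (hy2 : y ≤ n * Y + n)
    (hX : NoX Xr y (n * Y + n - 1)) :
    κ (si P n (x, y)) y ↔ κ (sx P (X, Y) 3) (n * Y + n - 1) := by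
  have hn0 : 0 < n := by omega
  have e1 : n * (Y - 1) = n * Y - n := by ring
  have e1' : n * (Y + 1) = n * Y + n := by ring
  have e2 : n * (X - 1) = n * X - n := by ring
  have e3 : n * (X + 1) = n * X + n := by ring
  have c0 : ∀ a b, n * X - n ≤ a → a < n * X → n * Y ≤ b → b < n * Y + n + n → ct n (a, b) ∉ P.Q := by
    intro a b k1 k2 k3 k4
    by_cases k : b < n * Y + n
    · rw [ct_of' (X := X - 1) (Y := Y) hn0 (by omega) (by omega) (by omega) (by omega)]
      exact h2
    · rw [ct_of' (X := X - 1) (Y := Y + 1) hn0 (by omega) (by omega) (by omega) (by omega)]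
      exact h3
  have cY : ∀ a b, n * X ≤ a → a < n * X + n → n * Y ≤ b → b < n * Y + n → ct n (a, b) = (X, Y) :=
    fun a b k1 k2 k3 k4 => ct_of' hn0 k1 k2 k3 k4
  have cW : ∀ a b, n * X ≤ a → a < n * X + n → n * Y + n ≤ b → b < n * Y + n + n →
      ct n (a, b) = (X, Y + 1) := fun a b k1 k2 k3 k4 => ct_of' hn0 k1 k2 (by omega) (by omega)
  have hs : IsSide P.Q ((X, Y), 3) := side3.2 ⟨h1, h2⟩
  have hS : ∀ r, n * Y - 1 ≤ r → r ≤ n * Y + n → SRw n (X, Y) 3 r := fun r k1 k2 =>
    ⟨k1, k2, fun h => absurd h (by norm_num), fun h => absurd h (by norm_num)⟩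
  have hy : y ≠ n * Y + n → ct n (x + 1, y) ∈ P.Q := by
    intro k
    rw [cY _ _ (by omega) (by omega) (by omega) (by omega)]
    exact h1
  unfold si sd
  simp only
  split_ifs with a1 a2 a3 a4 a5 a6 a7
  · by_cases k : y = n * Y
    · exact absurd a1 (c0 _ _ (by omega) (by omega) (by omega) (by omega))
    · exact absurd a1 (c0 _ _ (by omega) (by omega) (by omega) (by omega))
  · by_cases k : y < n * Y + n
    · rw [cY _ _ (by omega) (by omega) hy1 k]
      exact K.same _ _ hs _ _ (hS _ (by omega) (by omega)) (hS _ (by omega) (by omega)) hX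
    · rw [cW _ _ (by omega) (by omega) (by omega) (by omega)] at a2 ⊢
      have := K.st3 (x := X) (y := Y + 1) (r := y) (r' := n * Y + n - 1) a2 h3
        (by rw [add_sub_cancel_right]; exact h1) (by rw [add_sub_cancel_right]; exact h2)
        ⟨by simp only; omega, by simp only; omega, fun h => absurd h (by norm_num),
          fun h => absurd h (by norm_num)⟩
        (by rw [add_sub_cancel_right]; exact hS _ (by omega) (by omega)) hX
      rw [add_sub_cancel_right] at this
      exact this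
  · have : y = n * Y + n := by
      by_contra k
      exact a2 (hy k)
    exact absurd a3 (c0 _ _ (by omega) (by omega) (by omega) (by omega))
  · exact absurd a4 (c0 _ _ (by omega) (by omega) (by omega) (by omega))
  · have : y = n * Y + n := by
      by_contra k
      exact a2 (hy k)
    exact absurd a5 (c0 _ _ (by omega) (by omega) (by omega) (by omega))
  · exact absurd a6 (c0 _ _ (by omega) (by omega) (by omega) (by omega))
  · have : y = n * Y + n := by
      by_contra k
      exact a2 (hy k)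
    rw [cY _ _ (by omega) (by omega) (by omega) (by omega)]
    exact K.same _ _ hs _ _ (hS _ (by omega) (by omega)) (hS _ (by omega) (by omega)) hX
  · have : y = n * Y + n := by
      by_contra k
      exact a2 (hy k)
    rw [cY _ _ (by omega) (by omega) (by omega) (by omega)] at a7
    exact absurd h1 a7

/-- **Beside a floor, to the right.** -/
theorem colN_dn_r (K : KOK P n κ Xr) (hn : 3 ≤ n) (h1 : (X, Y) ∈ P.Q) (h2 : (X + 1, Y) ∉ P.Q)
    (h3 : (X + 1, Y - 1) ∉ P.Q) (hx : x = n * X + n) (hy1 : n * Y - 1 ≤ y) (hy2 : y < n * Y + n)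
    (hX : NoX Xr y (n * Y)) :
    κ (si P n (x, y)) y ↔ κ (sx P (X, Y) 1) (n * Y) := by
  have hn0 : 0 < n := by omega
  have e1 : n * (Y - 1) = n * Y - n := by ring
  have e1' : n * (Y + 1) = n * Y + n := by ring
  have e2 : n * (X - 1) = n * X - n := by ring
  have e3 : n * (X + 1) = n * X + n := by ring
  have c0 : ∀ a b, n * X + n ≤ a → a < n * X + n + n → n * Y - n ≤ b → b < n * Y + n → ct n (a, b) ∉ P.Q := by
    intro a b k1 k2 k3 k4
    by_cases k : n * Y ≤ b
    · rw [ct_of' (X := X + 1) (Y := Y) hn0 (by omega) (by omega) (by omega) (by omega)]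
      exact h2
    · rw [ct_of' (X := X + 1) (Y := Y - 1) hn0 (by omega) (by omega) (by omega) (by omega)]
      exact h3
  have cY : ∀ a b, n * X ≤ a → a < n * X + n → n * Y ≤ b → b < n * Y + n → ct n (a, b) = (X, Y) :=
    fun a b k1 k2 k3 k4 => ct_of' hn0 k1 k2 k3 k4
  have cW : ∀ a b, n * X ≤ a → a < n * X + n → n * Y - n ≤ b → b < n * Y → ct n (a, b) = (X, Y - 1) :=
    fun a b k1 k2 k3 k4 => ct_of' hn0 k1 k2 (by omega) (by omega)
  have hs : IsSide P.Q ((X, Y), 1) := side1.2 ⟨h1, h2⟩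
  have hS : ∀ r, n * Y - 1 ≤ r → r ≤ n * Y + n → SRw n (X, Y) 1 r := fun r k1 k2 =>
    ⟨k1, k2, fun h => absurd h (by norm_num), fun h => absurd h (by norm_num)⟩
  have hy : y ≠ n * Y - 1 → ct n (x - 1, y) ∈ P.Q := by
    intro k
    rw [cY _ _ (by omega) (by omega) (by omega) (by omega)]
    exact h1
  unfold si sd
  simp only
  split_ifs with a1 a2 a3 a4 a5 a6 a7
  · by_cases k : n * Y ≤ y
    · rw [cY _ _ (by omega) (by omega) k hy2]
      exact K.same _ _ hs _ _ (hS _ (by omega) (by omega)) (hS _ (by omega) (by omega)) hX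
    · rw [cW _ _ (by omega) (by omega) (by omega) (by omega)] at a1 ⊢
      have := K.st1 (x := X) (y := Y - 1) (r := y) (r' := n * Y) a1 h3
        (by rw [sub_add_cancel]; exact h1) (by rw [sub_add_cancel]; exact h2)
        ⟨by simp only; omega, by simp only; omega, fun h => absurd h (by norm_num),
          fun h => absurd h (by norm_num)⟩
        (by rw [sub_add_cancel]; exact hS _ (by omega) (by omega)) hX
      rw [sub_add_cancel] at this
      exact this
  · exact absurd a2 (c0 _ _ (by omega) (by omega) (by omega) (by omega))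
  · exact absurd a3 (c0 _ _ (by omega) (by omega) (by omega) (by omega))
  · have : y = n * Y - 1 := by
      by_contra k
      exact a1 (hy k)
    exact absurd a4 (c0 _ _ (by omega) (by omega) (by omega) (by omega))
  · have : y = n * Y - 1 := by
      by_contra k
      exact a1 (hy k)
    rw [cW _ _ (by omega) (by omega) (by omega) (by omega)] at a1 a5
    exact absurd a5 a1
  · have : y = n * Y - 1 := by
      by_contra k
      exact a1 (hy k)
    rw [cY _ _ (by omega) (by omega) (by omega) (by omega)]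
    exact K.same _ _ hs _ _ (hS _ (by omega) (by omega)) (hS _ (by omega) (by omega)) hX
  all_goals
    have : y = n * Y - 1 := by
      by_contra k
      exact a1 (hy k)
    rw [cY _ _ (by omega) (by omega) (by omega) (by omega)] at a6
    exact absurd h1 a6

/-- **Beside a ceiling, to the right.** -/
theorem colN_up_r (K : KOK P n κ Xr) (hn : 3 ≤ n) (h1 : (X, Y) ∈ P.Q) (h2 : (X + 1, Y) ∉ P.Q)
    (h3 : (X + 1, Y + 1) ∉ P.Q) (hx : x = n * X + n) (hy1 : n * Y ≤ y) (hy2 : y ≤ n * Y + n)
    (hX : NoX Xr y (n * Y + n - 1)) :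
    κ (si P n (x, y)) y ↔ κ (sx P (X, Y) 1) (n * Y + n - 1) := by
  have hn0 : 0 < n := by omega
  have e1 : n * (Y - 1) = n * Y - n := by ring
  have e1' : n * (Y + 1) = n * Y + n := by ring
  have e2 : n * (X - 1) = n * X - n := by ring
  have e3 : n * (X + 1) = n * X + n := by ring
  have c0 : ∀ a b, n * X + n ≤ a → a < n * X + n + n → n * Y ≤ b → b < n * Y + n + n → ct n (a, b) ∉ P.Q := by
    intro a b k1 k2 k3 k4
    by_cases k : b < n * Y + n
    · rw [ct_of' (X := X + 1) (Y := Y) hn0 (by omega) (by omega) (by omega) (by omega)]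
      exact h2
    · rw [ct_of' (X := X + 1) (Y := Y + 1) hn0 (by omega) (by omega) (by omega) (by omega)]
      exact h3
  have cY : ∀ a b, n * X ≤ a → a < n * X + n → n * Y ≤ b → b < n * Y + n → ct n (a, b) = (X, Y) :=
    fun a b k1 k2 k3 k4 => ct_of' hn0 k1 k2 k3 k4
  have cW : ∀ a b, n * X ≤ a → a < n * X + n → n * Y + n ≤ b → b < n * Y + n + n →
      ct n (a, b) = (X, Y + 1) := fun a b k1 k2 k3 k4 => ct_of' hn0 k1 k2 (by omega) (by omega)
  have hs : IsSide P.Q ((X, Y), 1) := side1.2 ⟨h1, h2⟩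
  have hS : ∀ r, n * Y - 1 ≤ r → r ≤ n * Y + n → SRw n (X, Y) 1 r := fun r k1 k2 =>
    ⟨k1, k2, fun h => absurd h (by norm_num), fun h => absurd h (by norm_num)⟩
  have hy : y ≠ n * Y + n → ct n (x - 1, y) ∈ P.Q := by
    intro k
    rw [cY _ _ (by omega) (by omega) (by omega) (by omega)]
    exact h1
  unfold si sd
  simp only
  split_ifs with a1 a2 a3 a4 a5 a6 a7
  · by_cases k : y < n * Y + n
    · rw [cY _ _ (by omega) (by omega) hy1 k]
      exact K.same _ _ hs _ _ (hS _ (by omega) (by omega)) (hS _ (by omega) (by omega)) hX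
    · rw [cW _ _ (by omega) (by omega) (by omega) (by omega)] at a1 ⊢
      exact (K.st1 h1 h2 a1 h3 (hS _ (by omega) (by omega))
        ⟨by simp only; omega, by simp only; omega, fun h => absurd h (by norm_num),
          fun h => absurd h (by norm_num)⟩ hX.symm).symm
  · exact absurd a2 (c0 _ _ (by omega) (by omega) (by omega) (by omega))
  · have : y = n * Y + n := by
      by_contra k
      exact a1 (hy k)
    exact absurd a3 (c0 _ _ (by omega) (by omega) (by omega) (by omega))
  · exact absurd a4 (c0 _ _ (by omega) (by omega) (by omega) (by omega))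
  · have : y = n * Y + n := by
      by_contra k
      exact a1 (hy k)
    rw [cY _ _ (by omega) (by omega) (by omega) (by omega)]
    exact K.same _ _ hs _ _ (hS _ (by omega) (by omega)) (hS _ (by omega) (by omega)) hX
  all_goals
    have : y = n * Y + n := by
      by_contra k
      exact a1 (hy k)
    rw [cY _ _ (by omega) (by omega) (by omega) (by omega)] at a5
    exact absurd h1 a5

end

end Pool.Agent.H2.W.Run
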