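import Mathlib
import Pool.Agent.H2.W.OrlG

set_option autoImplicit false
open Finset

/-! # The colours of the coherent worlds change only at convex corners and at the exceptional rows

`KOK.mono`, `KOK.not`, `KOK.xor` : closure. `kok_region` : colours given by a part of the polygon.
`kok_kz` : the colours `κz` of the world of a tile `p` (exceptional row `p.2`). -/

namespace Pool.Agent.H2.W.Run

open Pool.Agent.H75.Perc (dir dir_cases)
open Pool.Agent.Q1.M4 (Cell PType IsSide nextSide Good)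
open Pool.Agent.H33.Q1 (lt tt ct TL LY mem_LY ct_eq tt_lt)
open Pool.Agent.H19.W Pool.Agent.H68.W
open Pool.Agent.H21.FM (Shape)

section

variable {P : PType} {n : ℤ} {κ κ' : ℕ → ℤ → Prop} {Xr Xr' : ℤ → Prop}

lemma NoX.mono {y y' : ℤ} (h : ∀ r, Xr r → Xr' r) (h' : NoX Xr' y y') : NoX Xr y y' :=
  fun r hr => h' r (h r hr)

lemma KOK.mono (K : KOK P n κ Xr) (h : ∀ r, Xr r → Xr' r) : KOK P n κ Xr' :=
  ⟨fun c k hs y y' h1 h2 h3 => K.same c k hs y y' h1 h2 (h3.mono h),
    fun c k c2 k2 hs hn hc y y' h1 h2 h3 => K.next c k c2 k2 hs hn hc y y' h1 h2 (h3.mono h)⟩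

lemma KOK.not (K : KOK P n κ Xr) : KOK P n (fun i y => ¬ κ i y) Xr :=
  ⟨fun c k hs y y' h1 h2 h3 => not_congr (K.same c k hs y y' h1 h2 h3),
    fun c k c2 k2 hs hn hc y y' h1 h2 h3 => not_congr (K.next c k c2 k2 hs hn hc y y' h1 h2 h3)⟩

lemma KOK.xor (K : KOK P n κ Xr) (K' : KOK P n κ' Xr) : KOK P n (fun i y => Xor (κ i y) (κ' i y)) Xr :=
  ⟨fun c k hs y y' h1 h2 h3 => by
      rw [K.same c k hs y y' h1 h2 h3, K'.same c k hs y y' h1 h2 h3],
    fun c k c2 k2 hs hn hc y y' h1 h2 h3 => by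
      rw [K.next c k c2 k2 hs hn hc y y' h1 h2 h3, K'.next c k c2 k2 hs hn hc y y' h1 h2 h3]⟩

lemma KOK.congr (K : KOK P n κ Xr) (h : ∀ i < P.N, ∀ y, κ' i y ↔ κ i y) : KOK P n κ' Xr := by
  have hs2 : ∀ c k c2 k2, IsSide P.Q (c, k) → nextSide P.Q (c, k) = (c2, k2) → sx P c2 k2 < P.N := by
    intro c k c2 k2 hs hn
    have := (sx_next hs hn).2
    have hN := P.hmN
    omega
  exact ⟨fun c k hs y y' h1 h2 h3 => by
      rw [h _ (sx_lt hs), h _ (sx_lt hs)]; exact K.same c k hs y y' h1 h2 h3,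
    fun c k c2 k2 hs hn hc y y' h1 h2 h3 => by
      rw [h _ (sx_lt hs), h _ (hs2 c k c2 k2 hs hn)]; exact K.next c k c2 k2 hs hn hc y y' h1 h2 h3⟩

lemma dirq {k : ℤ} : (k % 4 = 0 → dir (k - 1) = (0, -1)) ∧ (k % 4 = 1 → dir (k - 1) = (1, 0)) ∧
    (k % 4 = 2 → dir (k - 1) = (0, 1)) ∧ (k % 4 = 3 → dir (k - 1) = (-1, 0)) := by
  rcases dir_cases (k - 1) with ⟨h, e⟩ | ⟨h, e⟩ | ⟨h, e⟩ | ⟨h, e⟩ <;> rw [e] <;>
    refine ⟨?_, ?_, ?_, ?_⟩ <;> intro h' <;> first | rfl | (exfalso; omega)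

lemma dirp {k : ℤ} : (k % 4 = 0 → dir k = (1, 0)) ∧ (k % 4 = 1 → dir k = (0, 1)) ∧
    (k % 4 = 2 → dir k = (-1, 0)) ∧ (k % 4 = 3 → dir k = (0, -1)) := by
  rcases dir_cases k with ⟨h, e⟩ | ⟨h, e⟩ | ⟨h, e⟩ | ⟨h, e⟩ <;> rw [e] <;>
    refine ⟨?_, ?_, ?_, ?_⟩ <;> intro h' <;> first | rfl | (exfalso; omega)

/-- the two kinds of corners which are not convex -/
lemma next_cases {c c2 : Cell} {k k2 : ℤ} (hn : nextSide P.Q (c, k) = (c2, k2)) (hc : c2 ≠ c) :
    (c2 = c + dir k + dir (k - 1) ∧ k2 = k - 1 ∧ c2 ∈ P.Q) ∨ (c2 = c + dir k ∧ k2 = k ∧ c2 ∈ P.Q) := by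
  unfold nextSide at hn
  simp only at hn
  split_ifs at hn with h1 h2
  · rw [Prod.mk.injEq] at hn
    exact Or.inl ⟨hn.1.symm, hn.2.symm, hn.1 ▸ h1⟩
  · rw [Prod.mk.injEq] at hn
    exact Or.inr ⟨hn.1.symm, hn.2.symm, hn.1 ▸ h2⟩
  · rw [Prod.mk.injEq] at hn
    exact absurd hn.1.symm hc

/-- rows beside a cell -/
def Rws (n : ℤ) (c : Cell) (y : ℤ) : Prop := n * c.2 - 1 ≤ y ∧ y ≤ n * c.2 + n

lemma SRw.rws {c : Cell} {k y : ℤ} (h : SRw n c k y) : Rws n c y := ⟨h.1, h.2.1⟩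

lemma NoX.left {y y' : ℤ} (h : NoX Xr y y') : NoX Xr y y := by
  intro r hr h1
  rw [min_self, max_self] at h1
  exact h r hr ⟨(min_le_left _ _).trans h1.1, h1.2.trans (le_max_left _ _)⟩

lemma NoX.right {y y' : ℤ} (h : NoX Xr y y') : NoX Xr y' y' := h.symm.left

/-- **Colours given by a part of the polygon.** -/
theorem kok_region {R : Cell → ℤ → Prop}
    (h1 : ∀ c ∈ P.Q, ∀ y y', Rws n c y → Rws n c y' → NoX Xr y y' → (R c y ↔ R c y'))
    (h2 : ∀ c ∈ P.Q, ∀ k, c + dir k ∈ P.Q → ∀ y y', Rws n c y → Rws n (c + dir k) y' → NoX Xr y y' →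
      (R c y ↔ R (c + dir k) y')) : KOK P n (fun i y => R (P.side i).1 y) Xr := by
  refine ⟨fun c k hs y y' a1 a2 a3 => ?_, fun c k c2 k2 hs hn hc y y' a1 a2 a3 => ?_⟩
  · beta_reduce
    rw [(sx_spec hs).2.1]
    exact h1 c hs.1 y y' a1.rws a2.rws a3
  · beta_reduce
    have hs2 : IsSide P.Q (c2, k2) := by
      have := Pool.Agent.Q1.M4.isSide_next hs
      rwa [hn] at this
    rw [(sx_spec hs).2.1, (sx_spec hs2).2.1]
    have b1 := a1.rws
    have b2 := a2.rws
    rcases next_cases hn hc with ⟨e, -, hq⟩ | ⟨e, -, hq⟩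
    · -- reflex corner
      have hm : c + dir k ∈ P.Q := by
        by_contra hm
        obtain ⟨hcQ, ho⟩ := hs
        obtain ⟨x, y⟩ := c
        simp only at hcQ ho
        rw [e] at hq
        rcases dir_cases k with ⟨m, f⟩ | ⟨m, f⟩ | ⟨m, f⟩ | ⟨m, f⟩
        · have f' : dir (k - 1) = (0, -1) := dirq.1 m
          rw [f, f'] at hq
          rw [f] at hm
          rw [f'] at ho
          rcases P.good.diag2 (x, y - 1) (by simpa [sub_eq_add_neg] using hq) (by simpa using hcQ) with g | g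
          · exact ho (by simpa [sub_eq_add_neg] using g)
          · exact hm (by simpa using g)
        · have f' : dir (k - 1) = (1, 0) := dirq.2.1 m
          rw [f, f'] at hq
          rw [f] at hm
          rw [f'] at ho
          rcases P.good.diag1 (x, y) hcQ (by simpa using hq) with g | g
          · exact ho (by simpa using g)
          · exact hm (by simpa using g)
        · have f' : dir (k - 1) = (0, 1) := dirq.2.2.1 m
          rw [f, f'] at hq
          rw [f] at hm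
          rw [f'] at ho
          rcases P.good.diag2 (x - 1, y) (by simpa using hcQ) (by simpa [sub_eq_add_neg] using hq) with g | g
          · exact hm (by simpa [sub_eq_add_neg] using g)
          · exact ho (by simpa using g)
        · have f' : dir (k - 1) = (-1, 0) := dirq.2.2.2 m
          rw [f, f'] at hq
          rw [f] at hm
          rw [f'] at ho
          rcases P.good.diag1 (x - 1, y - 1) (by simpa [sub_eq_add_neg] using hq) (by simpa using hcQ) with g | g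
          · exact hm (by simpa [sub_eq_add_neg] using g)
          · exact ho (by simpa [sub_eq_add_neg] using g)
      by_cases hk : k % 4 = 0 ∨ k % 4 = 2
      · -- horizontal step first
        have h22 : (c + dir k).2 = c.2 := by
          rcases dir_cases k with ⟨m, f⟩ | ⟨m, f⟩ | ⟨m, f⟩ | ⟨m, f⟩ <;> rw [f] <;> simp <;> omega
        have b3 : Rws n (c + dir k) y := by unfold Rws at *; rw [h22]; exact b1
        rw [h2 c hs.1 k hm y y b1 b3 a3.left]
        have := h2 (c + dir k) hm (k - 1) (e ▸ hq) y y' b3 (e ▸ b2) a3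
        rw [← e] at this
        exact this
      · have h22 : (c + dir k + dir (k - 1)).2 = (c + dir k).2 := by
          have : (k - 1) % 4 = 0 ∨ (k - 1) % 4 = 2 := by omega
          rcases dir_cases (k - 1) with ⟨m, f⟩ | ⟨m, f⟩ | ⟨m, f⟩ | ⟨m, f⟩ <;> rw [f] <;> simp <;> omega
        have b3 : Rws n (c + dir k) y' := by
          unfold Rws at *
          rw [← h22, ← e]
          exact b2
        rw [h2 c hs.1 k hm y y' b1 b3 a3]
        have := h2 (c + dir k) hm (k - 1) (e ▸ hq) y' y' b3 (e ▸ b2) a3.right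
        rw [← e] at this
        exact this
    · have := h2 c hs.1 k (e ▸ hq) y y' b1 (e ▸ b2) a3
      rw [← e] at this
      exact this

end

/-! ### The colours of the world of a tile -/

section

variable {S : Shape} {h : ℕ} {p : ℤ × ℤ}

/-- the exit side and its row -/
lemma Ex_row {t : ℕ} (hh : 0 < h) (hE : Pool.Agent.H74.W.Ex S h p t) :
    t < S.P.N ∧ (S.P.side t).2 % 4 = 1 ∧ 2 * (h : ℤ) * (S.P.side t).1.2 ≤ p.2 ∧
      p.2 < 2 * (h : ℤ) * (S.P.side t).1.2 + 2 * (h : ℤ) := by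
  obtain ⟨h1, h2, e, h3, h4⟩ := hE
  have hn : (0 : ℤ) < 2 * (h : ℤ) := by omega
  obtain ⟨-, h5, -⟩ := (mem_LY hn).1 h4
  have h6 : (tt e).2 = p.2 := h3.2.1
  rw [ct_eq hn] at h5
  have h7 : (S.P.side t).2 % 4 = 1 := h2
  rw [dirq.2.1 h7] at h5
  simp only [Prod.snd_add, add_zero] at h5
  rw [← h6]
  refine ⟨h1, h7, ?_, ?_⟩
  · have := h5.2.1
    rw [mul_comm] at this
    exact this
  · have := h5.2.2
    rw [mul_comm ((S.P.side t).1.2)] at this
    exact this

/-- **The colours `κz`** change only at the three marks and at the row of `p`. -/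
theorem kok_kz (hh : 0 < h) : KOK S.P (2 * (h : ℤ)) (κz S h p) (fun r => r = p.2) := by
  refine ⟨fun c k hs y y' a1 a2 a3 => ?_, fun c k c2 k2 hs hnx hc y y' a1 a2 a3 => ?_⟩
  · unfold κz
    have h3 := a3 p.2 rfl
    have key : ∀ t, (t < sx S.P c k ∨ (t = sx S.P c k ∧ p.2 < y)) ↔
        (t < sx S.P c k ∨ (t = sx S.P c k ∧ p.2 < y')) := by
      intro t
      constructor
      · rintro (h4 | ⟨h4, h5⟩)
        · exact Or.inl h4
        · exact Or.inr ⟨h4, by omega⟩
      · rintro (h4 | ⟨h4, h5⟩)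
        · exact Or.inl h4
        · exact Or.inr ⟨h4, by omega⟩
    simp only [key]
  · have h3 := a3 p.2 rfl
    obtain ⟨e1, h1⟩ := sx_next hs hnx
    obtain ⟨g1, g2, g3⟩ := sx_spec hs
    have hc1 := S.cvx (sx S.P c k)
    have a11 := a1.2.1
    have a21 := a2.1
    unfold κz
    generalize sx S.P c2 k2 = i2 at h1 ⊢
    generalize sx S.P c k = i at e1 h1 g1 g2 g3 hc1 ⊢
    have key : ¬ (i + 1 = S.m2 ∨ i + 1 = S.m3 ∨ i + 1 = S.P.m ∨ i + 1 = S.P.N) := by
      intro h5
      have := hc1 h5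
      rw [e1, Prod.mk.injEq, g2] at this
      exact hc this.1
    push Not at key
    obtain ⟨k1, k3, k4, k5⟩ := key
    have hi : i2 = i + 1 := by
      rcases h1 with ⟨-, h6⟩ | ⟨h5, -⟩
      · exact h6
      · exact absurd h5 k5
    have hex : (∃ t, Pool.Agent.H74.W.Ex S h p t ∧ (t < i ∨ (t = i ∧ p.2 < y))) ↔
        ∃ t, Pool.Agent.H74.W.Ex S h p t ∧ (t < i2 ∨ (t = i2 ∧ p.2 < y')) := by
      constructor
      · rintro ⟨t, ht, h4 | ⟨h4, h5⟩⟩
        · exact ⟨t, ht, Or.inl (by omega)⟩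
        · exact ⟨t, ht, Or.inl (by omega)⟩
      · rintro ⟨t, ht, h4 | ⟨h4, h5⟩⟩
        · rcases lt_or_eq_of_le (show t ≤ i by omega) with h6 | h6
          · exact ⟨t, ht, Or.inl h6⟩
          · refine ⟨t, ht, Or.inr ⟨h6, ?_⟩⟩
            obtain ⟨-, q1, q2, q3⟩ := Ex_row hh ht
            subst h6
            rw [g2] at q2 q3
            have q4 : k % 4 = 1 := by omega
            have q6 : c2.2 = c.2 + 1 := by
              rcases next_cases hnx hc with ⟨e, -, -⟩ | ⟨e, -, -⟩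
              · rw [e, dirp.2.1 q4, dirq.2.1 q4]; simp
              · rw [e, dirp.2.1 q4]; simp
            rw [q6] at a21
            have q7 : 2 * (h : ℤ) * (c.2 + 1) = 2 * (h : ℤ) * c.2 + 2 * (h : ℤ) := by ring
            rw [q7] at a21
            omega
        · exfalso
          obtain ⟨-, q1, q2, q3⟩ := Ex_row hh ht
          subst h4
          rw [hi, e1] at q1 q2 q3
          simp only at q1 q2 q3
          have q4 : k2 % 4 = 1 := by omega
          have q6 : c2.2 = c.2 + 1 := by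
            rcases next_cases hnx hc with ⟨e, e', -⟩ | ⟨e, e', -⟩
            · have m1 : k % 4 = 2 := by omega
              rw [e, dirp.2.2.1 m1, dirq.2.2.1 m1]; simp
            · have m1 : k % 4 = 1 := by omega
              rw [e, dirp.2.1 m1]; simp
          rw [q6] at q2
          have q7 : 2 * (h : ℤ) * (c.2 + 1) = 2 * (h : ℤ) * c.2 + 2 * (h : ℤ) := by ring
          rw [q7] at q2
          omega
    rw [hex]
    have hm : ∀ a b : ℕ, i + 1 ≠ a → i + 1 ≠ b → ((a ≤ i ∧ i < b) ↔ (a ≤ i + 1 ∧ i + 1 < b)) := by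
      intro a b _ _
      omega
    rw [hm _ _ k1 k3, hi]

end

end Pool.Agent.H2.W.Run
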