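import Mathlib
import Pool.Agent.H2.W.OrlG

set_option autoImplicit false
open Finset

/-! # ORL for the coherent worlds `VC`

`NGeo Q pl` : near a horizontal piece the two neighbours of the corner have the same content (one plate, or
outside of `Q`). `pcB_VC` : every floor (`s = true`) and ceiling (`s = false`) of the natural region away from
the rows `Xr` satisfies the local hypotheses of ONE-ROW. -/

namespace Pool.Agent.H2.W.Run

open Pool.Agent.Q1.M4 (Cell PType IsSide nextSide Good)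
open Pool.Agent.H33.Q1 (lt tt ct TL mem_TL lt_mem_TL lt_odd tt_lt)
open Pool.Agent.H19.W Pool.Agent.H68.W Pool.Agent.H92.W
open Pool.Agent.H50.W (bk bk_none bk_some)
open Pool.Agent.H58.W (PB up mem_up)
open Pool.Agent.H35.W (Force)
open Pool.Agent.H13.W (SG)

/-- real row of the row `Y` of the s-picture -/
def rc (s : Bool) (Y : ℤ) : ℤ := if s then Y else -1 - Y

/-- natural cell -/
def Ntc {β : Type*} (Q : Finset Cell) (pl : Cell → Option β) (x y : ℤ) : Prop :=
  (x, y) ∈ Q ∧ pl (x, y) = none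

/-- natural cell of the s-picture -/
def NtV {β : Type*} (Q : Finset Cell) (pl : Cell → Option β) (s : Bool) (X Y : ℤ) : Prop :=
  Ntc Q pl X (rc s Y)

/-- the same content: one plate, or outside of `Q` -/
def SameC {β : Type*} (Q : Finset Cell) (pl : Cell → Option β) (c c' : Cell) : Prop :=
  (∃ k, c ∈ Q ∧ c' ∈ Q ∧ pl c = some k ∧ pl c' = some k) ∨ (c ∉ Q ∧ c' ∉ Q)

/-- **Geometry of the plates.** -/
structure NGeo {β : Type*} (Q : Finset Cell) (pl : Cell → Option β) : Prop where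
  sm : ∀ x y dx dy : ℤ, (dx = -1 ∨ dx = 1) → (dy = -1 ∨ dy = 1) → Ntc Q pl x y →
    ¬ Ntc Q pl x (y + dy) → ¬ Ntc Q pl (x + dx) y → SameC Q pl (x + dx, y) (x + dx, y + dy)

lemma mem_LamC {Q : Finset Cell} {n : ℤ} (hn : 0 < n) {e : ℤ × ℤ} :
    e ∈ LamC Q n ↔ (e.1 + e.2) % 2 = 1 ∧ Tq Q n (tt e) := by
  classical
  unfold LamC
  rw [mem_filter, mem_TL hn]
  constructor
  · rintro ⟨⟨h1, -⟩, h2⟩
    exact ⟨h1, h2⟩
  · rintro ⟨h1, h2⟩
    refine ⟨⟨h1, ?_⟩, h2⟩
    obtain ⟨q, k1, k2, k3⟩ := h2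
    unfold nbQ
    rw [mem_biUnion]
    refine ⟨_, k3, ?_⟩
    unfold ct
    simp only [mem_product, mem_Icc]
    rw [abs_le] at k1 k2
    have key : ∀ a b : ℤ, -1 ≤ a - b → a - b ≤ 1 → a / n - 1 ≤ b / n ∧ b / n ≤ a / n + 1 := by
      intro a b h3 h4
      have e1 := (div_iff hn (x := a) (X := a / n)).1 rfl
      have e2 := (div_iff hn (x := b) (X := b / n)).1 rfl
      have e3 : n * (a / n - 1) = n * (a / n) - n := by ring
      have e4 : n * (b / n - 1) = n * (b / n) - n := by ring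
      constructor
      · by_contra hc
        have h5 : n * (b / n + 1) ≤ n * (a / n - 1) := mul_le_mul_of_nonneg_left (by omega) hn.le
        have e5 : n * (b / n + 1) = n * (b / n) + n := by ring
        omega
      · by_contra hc
        have h5 : n * (a / n + 1) ≤ n * (b / n - 1) := mul_le_mul_of_nonneg_left (by omega) hn.le
        have e5 : n * (a / n + 1) = n * (a / n) + n := by ring
        omega
    have a1 := key _ _ k1.1 k1.2
    have a2 := key _ _ k2.1 k2.2
    exact ⟨⟨by omega, by omega⟩, by omega, by omega⟩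

lemma mem_WC {P : PType} {n : ℤ} {κ : ℕ → ℤ → Prop} {e : ℤ × ℤ} : e ∈ WC P n κ ↔
    e ∈ LamC P.Q n ∧ ct n (tt e) ∉ P.Q ∧ κ (si P n (tt e)) (tt e).2 := by
  classical
  unfold WC
  rw [mem_filter]

lemma disj_WC {P : PType} {n : ℤ} (hn : 0 < n) {κ : ℕ → ℤ → Prop} : Disjoint (WC P n κ) (TL P.Q n) := by
  rw [disjoint_left]
  intro e h1 h2
  exact (mem_WC.1 h1).2.1 ((mem_TL hn).1 h2).2

lemma tt_τ (s : Bool) (x h : ℤ) : tt (τ s x h) = (x, rc s h) := by
  unfold τ rc
  rw [tt_lt]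

lemma rc_div {n : ℤ} (hn : 0 < n) (s : Bool) (h : ℤ) : rc s h / n = rc s (h / n) := by
  obtain ⟨h1, h2⟩ := (div_iff hn (x := h) (X := h / n)).1 rfl
  cases s
  · unfold rc
    simp only [Bool.false_eq_true, if_false]
    have e : n * (-1 - h / n) = -n - n * (h / n) := by ring
    exact div_of hn (by omega) (by omega)
  · unfold rc
    simp

lemma ct_τ {n : ℤ} (hn : 0 < n) (s : Bool) (x h : ℤ) : ct n (tt (τ s x h)) = (x / n, rc s (h / n)) := by
  rw [tt_τ]
  unfold ct
  simp only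
  rw [rc_div hn]

section

variable {β : Type*} {P : PType} {n : ℤ} {κ : ℕ → ℤ → Prop} {Xr : ℤ → Prop} {pl : Cell → Option β}
  {s : Bool} {X Y x h R : ℤ}

lemma noX_of (hX : ∀ h, n * Y - R ≤ h → h ≤ n * Y + R → ¬ Xr (rc s h)) {h h' : ℤ}
    (h1 : n * Y - R ≤ h) (h2 : h ≤ n * Y + R) (h3 : n * Y - R ≤ h') (h4 : h' ≤ n * Y + R) :
    NoX Xr (rc s h) (rc s h') := by
  intro r hr hb
  cases s
  · refine hX (-1 - r) ?_ ?_ ?_
    · unfold rc at hb
      simp only [Bool.false_eq_true, if_false] at hb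
      omega
    · unfold rc at hb
      simp only [Bool.false_eq_true, if_false] at hb
      omega
    · unfold rc
      simp only [Bool.false_eq_true, if_false]
      rw [show -1 - (-1 - r) = r by ring]
      exact hr
  · refine hX r ?_ ?_ ?_
    · unfold rc at hb
      simp only [if_true] at hb
      omega
    · unfold rc at hb
      simp only [if_true] at hb
      omega
    · unfold rc
      simpa using hr

/-- the colour below a piece -/
lemma colS_P (K : KOK P n κ Xr) (hn : 3 ≤ n) (hR : 1 ≤ R ∧ 2 * R < n)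
    (hX : ∀ h, n * Y - R ≤ h → h ≤ n * Y + R → ¬ Xr (rc s h))
    (h1 : (X, rc s Y) ∈ P.Q) (h2 : (X, rc s (Y - 1)) ∉ P.Q) (hx1 : n * X ≤ x) (hx2 : x < n * X + n)
    (hy1 : n * Y - R ≤ h) (hy2 : h < n * Y) (ht : Tq P.Q n (x, rc s h)) :
    κ (si P n (x, rc s h)) (rc s h) ↔
      κ (sx P (X, rc s Y) (if s then 0 else 2)) (rc s (n * Y - 1)) := by
  have hno := noX_of hX (h := h) (h' := n * Y - 1) hy1 (by omega) (by omega) (by omega)
  cases s
  · simp only [Bool.false_eq_true, if_false]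
    unfold rc at *
    simp only [Bool.false_eq_true, if_false] at *
    have e1 : n * (-1 - Y) = -n - n * Y := by ring
    have e2 : -1 - (n * Y - 1) = n * (-1 - Y) + n := by rw [e1]; ring
    rw [e2] at hno ⊢
    refine colP_up K hn h1 ?_ hx1 hx2 (by omega) (by omega) ht hno
    rw [show -1 - Y + 1 = -1 - (Y - 1) by ring]
    exact h2
  · simp only [if_true]
    unfold rc at *
    simp only [if_true] at *
    exact colP_dn K hn h1 h2 hx1 hx2 (by omega) hy2 ht hno

/-- the colour to the left of a piece -/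
lemma colS_Nl (K : KOK P n κ Xr) (hn : 3 ≤ n) (hR : 1 ≤ R ∧ 2 * R < n)
    (hX : ∀ h, n * Y - R ≤ h → h ≤ n * Y + R → ¬ Xr (rc s h))
    (h1 : (X, rc s Y) ∈ P.Q) (h2 : (X - 1, rc s Y) ∉ P.Q) (h3 : (X - 1, rc s (Y - 1)) ∉ P.Q)
    (hx : x = n * X - 1) (hy1 : n * Y - 1 ≤ h) (hy2 : h ≤ n * Y + R) :
    κ (si P n (x, rc s h)) (rc s h) ↔ κ (sx P (X, rc s Y) 3) (rc s (n * Y)) := by
  have hno := noX_of hX (h := h) (h' := n * Y) (by omega) hy2 (by omega) (by omega)
  cases s
  · unfold rc at *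
    simp only [Bool.false_eq_true, if_false] at *
    have e1 : n * (-1 - Y) = -n - n * Y := by ring
    have e2 : -1 - n * Y = n * (-1 - Y) + n - 1 := by rw [e1]; ring
    rw [e2] at hno ⊢
    refine colN_up_l K hn h1 h2 ?_ hx (by omega) (by omega) hno
    rw [show -1 - Y + 1 = -1 - (Y - 1) by ring]
    exact h3
  · unfold rc at *
    simp only [if_true] at *
    exact colN_dn_l K hn h1 h2 h3 hx (by omega) (by omega) hno

/-- the colour to the right of a piece -/
lemma colS_Nr (K : KOK P n κ Xr) (hn : 3 ≤ n) (hR : 1 ≤ R ∧ 2 * R < n)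
    (hX : ∀ h, n * Y - R ≤ h → h ≤ n * Y + R → ¬ Xr (rc s h))
    (h1 : (X, rc s Y) ∈ P.Q) (h2 : (X + 1, rc s Y) ∉ P.Q) (h3 : (X + 1, rc s (Y - 1)) ∉ P.Q)
    (hx : x = n * X + n) (hy1 : n * Y - 1 ≤ h) (hy2 : h ≤ n * Y + R) :
    κ (si P n (x, rc s h)) (rc s h) ↔ κ (sx P (X, rc s Y) 1) (rc s (n * Y)) := by
  have hno := noX_of hX (h := h) (h' := n * Y) (by omega) hy2 (by omega) (by omega)
  cases s
  · unfold rc at *
    simp only [Bool.false_eq_true, if_false] at *
    have e1 : n * (-1 - Y) = -n - n * Y := by ring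
    have e2 : -1 - n * Y = n * (-1 - Y) + n - 1 := by rw [e1]; ring
    rw [e2] at hno ⊢
    refine colN_up_r K hn h1 h2 ?_ hx (by omega) (by omega) hno
    rw [show -1 - Y + 1 = -1 - (Y - 1) by ring]
    exact h3
  · unfold rc at *
    simp only [if_true] at *
    exact colN_dn_r K hn h1 h2 h3 hx (by omega) (by omega) hno

lemma NGeo.smS (G : NGeo P.Q pl) {dx : ℤ} (hdx : dx = -1 ∨ dx = 1) (h1 : NtV P.Q pl s X Y)
    (h2 : ¬ NtV P.Q pl s X (Y - 1)) (h3 : ¬ NtV P.Q pl s (X + dx) Y) :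
    SameC P.Q pl (X + dx, rc s Y) (X + dx, rc s (Y - 1)) := by
  cases s
  · have e : rc false (Y - 1) = rc false Y + 1 := by unfold rc; simp; ring
    rw [e]
    refine G.sm X (rc false Y) dx 1 hdx (Or.inr rfl) h1 ?_ h3
    rw [← e]
    exact h2
  · have e : rc true (Y - 1) = rc true Y + -1 := by unfold rc; simp; ring
    rw [e]
    refine G.sm X (rc true Y) dx (-1) hdx (Or.inl rfl) h1 ?_ h3
    rw [← e]
    exact h2

lemma SameC.not {Q : Finset Cell} {c c' : Cell} (h : SameC Q pl c c') :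
    ¬ (c ∈ Q ∧ pl c = none) ∧ ¬ (c' ∈ Q ∧ pl c' = none) := by
  rcases h with ⟨k, -, -, h1, h2⟩ | ⟨h1, h2⟩
  · exact ⟨fun h => (by rw [h1] at h; exact absurd h.2 (by simp)),
      fun h => (by rw [h2] at h; exact absurd h.2 (by simp))⟩
  · exact ⟨fun h => h1 h.1, fun h => h2 h.1⟩

/-- tiles which touch the room -/
lemma tq_of_tch {Q : Finset Cell} (hn : 0 < n) (ht : TchT n 0 (NtV Q pl s) x h) : Tq Q n (x, rc s h) := by
  obtain ⟨x', h', h1, h2, h3⟩ := ht
  refine ⟨(x', rc s h'), h1, ?_, ?_⟩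
  · simp only
    cases s
    · unfold rc
      simp only [Bool.false_eq_true, if_false]
      rw [show -1 - h' - (-1 - h) = -(h' - h) by ring, abs_neg]
      exact h2
    · unfold rc
      simpa using h2
  · unfold ct
    simp only
    rw [rc_div hn]
    have := h3.1
    simpa using this

/-- **The local hypotheses of ONE-ROW hold at every piece of the coherent world.** -/
theorem pcB_VC [DecidableEq β] {D : Set (ℤ × ℤ)} {F : Finset (ℤ × ℤ)} {u : ℤ × ℤ → ℤ × ℤ}
    (G : NGeo P.Q pl) (K : KOK P n κ Xr) (hn : 3 ≤ n) (hR : 1 ≤ R ∧ 2 * R < n)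
    (hD : ∀ e ∈ D, Xr (tt e).2) (hX : ∀ h, n * Y - R ≤ h → h ≤ n * Y + R → ¬ Xr (rc s h))
    (hp : NtV P.Q pl s X Y ∧ ¬ NtV P.Q pl s X (Y - 1))
    (hF : ∀ f ∈ F, u f = uB s f ∧ ∃ X' Y' x', (NtV P.Q pl s X' Y' ∧ ¬ NtV P.Q pl s X' (Y' - 1)) ∧
      (n * X' ≤ x' ∧ x' < n * X' + n) ∧ f = τ s x' (n * Y')) :
    PcB s n 0 R (NtV P.Q pl s) (fun _ _ => False) X Y (LamC P.Q n : Set (ℤ × ℤ)) D (TL P.Q n) (bk n pl)
      (fun w => w ∪ WC P n κ) F u := by
  have hn0 : 0 < n := by omega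
  have eY : n * (Y - 1) = n * Y - n := by ring
  have eX : n * (X - 1) = n * X - n := by ring
  have eX' : n * (X + 1) = n * X + n := by ring
  have hdx : ∀ x h, NearP n 0 R X Y x h → (x / n = X - 1 ∨ x / n = X ∨ x / n = X + 1) ∧
      (h / n = Y ∧ n * Y ≤ h ∨ h / n = Y - 1 ∧ h < n * Y) := by
    rintro x h ⟨h1, h2, h3, h4⟩
    constructor
    · by_cases c1 : x < n * X
      · exact Or.inl (div_of hn0 (by omega) (by omega))
      by_cases c2 : x < n * X + n
      · exact Or.inr (Or.inl (div_of hn0 (by omega) (by omega)))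
      · exact Or.inr (Or.inr (div_of hn0 (by omega) (by omega)))
    · by_cases c1 : n * Y ≤ h
      · exact Or.inl ⟨div_of hn0 c1 (by omega), c1⟩
      · exact Or.inr ⟨div_of hn0 (by omega) (by omega), by omega⟩
  have notD : ∀ x h, NearP n 0 R X Y x h → τ s x h ∉ D := by
    rintro x h ⟨h1, h2, h3, h4⟩ hd
    have := hD _ hd
    rw [tt_τ] at this
    exact hX h (by omega) (by omega) this
  have nl : ¬ NtV P.Q pl s (X - 1) Y → SameC P.Q pl (X - 1, rc s Y) (X - 1, rc s (Y - 1)) := fun h3 =>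
    G.smS (dx := -1) (Or.inl rfl) hp.1 hp.2 h3
  have nr : ¬ NtV P.Q pl s (X + 1) Y → SameC P.Q pl (X + 1, rc s Y) (X + 1, rc s (Y - 1)) := fun h3 =>
    G.smS (dx := 1) (Or.inr rfl) hp.1 hp.2 h3
  have same_cell : ∀ {x h x' h' : ℤ}, TchT n 0 (NtV P.Q pl s) x h → TchT n 0 (NtV P.Q pl s) x' h' →
      SameC P.Q pl (x / n, rc s (h / n)) (x' / n, rc s (h' / n)) →
      ((x / n, rc s (h / n)) ∉ P.Q → (x' / n, rc s (h' / n)) ∉ P.Q →
        (κ (si P n (x, rc s h)) (rc s h) ↔ κ (si P n (x', rc s h')) (rc s h'))) →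
      ∀ ω : Finset ((ℤ × ℤ) ⊕ β), (τ s x h ∈ up (TL P.Q n) (bk n pl) ω ∪ WC P n κ ↔
        τ s x' h' ∈ up (TL P.Q n) (bk n pl) ω ∪ WC P n κ) := by
    intro x h x' h' t1 t2 hs hk
    refine same_union (disj_WC hn0) ?_
    have c1 := ct_τ hn0 s x h
    have c2 := ct_τ hn0 s x' h'
    rcases hs with ⟨k, m1, m2, m3, m4⟩ | ⟨m1, m2⟩
    · right; right
      refine ⟨(mem_TL hn0).2 ⟨τ_odd, by rw [c1]; exact m1⟩, (mem_TL hn0).2 ⟨τ_odd, by rw [c2]; exact m2⟩, ?_⟩
      rw [bk_some (k := k) (by rw [c1]; exact m3), bk_some (k := k) (by rw [c2]; exact m4)]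
    · have n1 : τ s x h ∉ TL P.Q n := fun hh => m1 (by rw [← c1]; exact ((mem_TL hn0).1 hh).2)
      have n2 : τ s x' h' ∉ TL P.Q n := fun hh => m2 (by rw [← c2]; exact ((mem_TL hn0).1 hh).2)
      have l1 : τ s x h ∈ LamC P.Q n := (mem_LamC hn0).2 ⟨τ_odd, by rw [tt_τ]; exact tq_of_tch hn0 t1⟩
      have l2 : τ s x' h' ∈ LamC P.Q n := (mem_LamC hn0).2 ⟨τ_odd, by rw [tt_τ]; exact tq_of_tch hn0 t2⟩
      have w1 : τ s x h ∈ WC P n κ ↔ κ (si P n (x, rc s h)) (rc s h) := by
        rw [mem_WC, c1, tt_τ]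
        exact ⟨fun h => h.2.2, fun h => ⟨l1, m1, h⟩⟩
      have w2 : τ s x' h' ∈ WC P n κ ↔ κ (si P n (x', rc s h')) (rc s h') := by
        rw [mem_WC, c2, tt_τ]
        exact ⟨fun h => h.2.2, fun h => ⟨l2, m2, h⟩⟩
      have := hk m1 m2
      by_cases hc : κ (si P n (x, rc s h)) (rc s h)
      · left
        exact ⟨w1.2 hc, w2.2 (this.1 hc)⟩
      · right; left
        exact ⟨fun h => hc (w1.1 h), n1, fun h => hc (this.2 (w2.1 h)), n2⟩
  -- a wall cell below a natural cell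
  have below : ∀ {X' : ℤ}, NtV P.Q pl s X' Y → ∀ {x h x' h' : ℤ}, NearP n 0 R X Y x h →
      NearP n 0 R X Y x' h' → ¬ NtT n 0 (NtV P.Q pl s) x h → TchT n 0 (NtV P.Q pl s) x h →
      ¬ NtT n 0 (NtV P.Q pl s) x' h' → TchT n 0 (NtV P.Q pl s) x' h' → x / n = X' → x' / n = X' →
      ∀ ω : Finset ((ℤ × ℤ) ⊕ β), (τ s x h ∈ up (TL P.Q n) (bk n pl) ω ∪ WC P n κ ↔
        τ s x' h' ∈ up (TL P.Q n) (bk n pl) ω ∪ WC P n κ) := by
    intro X' hX' x h x' h' k1 k2 n1 t1 n2 t2 e1 e2
    have key : ∀ {x h : ℤ}, NearP n 0 R X Y x h → ¬ NtT n 0 (NtV P.Q pl s) x h → x / n = X' →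
        h / n = Y - 1 ∧ h < n * Y := by
      intro x h m1 m2 m3
      rcases (hdx x h m1).2 with ⟨m4, m5⟩ | m4
      · exfalso
        apply m2
        unfold NtT
        rw [add_zero, m4, m3]
        exact hX'
      · exact m4
    obtain ⟨a1, a2⟩ := key k1 n1 e1
    obtain ⟨b1, b2⟩ := key k2 n2 e2
    refine same_cell t1 t2 ?_ ?_
    · rw [e1, e2, a1, b1]
      by_cases hq : (X', rc s (Y - 1)) ∈ P.Q
      · left
        have : ¬ NtV P.Q pl s X' (Y - 1) := by
          intro hh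
          apply n1
          unfold NtT
          rw [add_zero, a1, e1]
          exact hh
        have h5 : pl (X', rc s (Y - 1)) ≠ none := fun h6 => this ⟨hq, h6⟩
        obtain ⟨k, hk⟩ := Option.ne_none_iff_exists'.1 h5
        exact ⟨k, hq, hq, hk, hk⟩
      · exact Or.inr ⟨hq, hq⟩
    · rw [e1, e2, a1, b1]
      intro q1 _
      have d1 := (div_iff hn0).1 e1
      have d2 := (div_iff hn0).1 e2
      rw [colS_P K hn hR hX hX'.1 q1 d1.1 d1.2 (by have := k1.2.2.1; omega) a2 (tq_of_tch hn0 t1),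
        colS_P K hn hR hX hX'.1 q1 d2.1 d2.2 (by have := k2.2.2.1; omega) b2 (tq_of_tch hn0 t2)]
  refine ⟨hR, hp, ?_, ?_, ?_, ?_, ?_, ?_, ?_, ?_, ?_⟩
  · intro h3
    exact (nl h3).not.2
  · intro h3
    exact (nr h3).not.2
  · -- natural tiles
    intro x h hN ht
    unfold NtT at ht
    rw [add_zero] at ht
    have c1 := ct_τ hn0 s x h
    have hE : τ s x h ∈ TL P.Q n := (mem_TL hn0).2 ⟨τ_odd, by rw [c1]; exact ht.1⟩
    have hb : bk n pl (τ s x h) = Sum.inl (τ s x h) := bk_none (by rw [c1]; exact ht.2)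
    refine ⟨?_, notD x h hN, hE, ?_, ?_⟩
    · show τ s x h ∈ LamC P.Q n
      rw [mem_LamC hn0]
      refine ⟨τ_odd, tt (τ s x h), by simp, by simp, by rw [c1]; exact ht.1⟩
    · intro l _ hl
      rw [hb] at hl
      unfold bk at hl
      split at hl
      · exact Sum.inl.inj hl
      · exact absurd hl (by simp)
    · intro ω _
      rw [mem_union]
      constructor
      · rintro (hh | hh)
        · exact hh
        · exact absurd hE (disjoint_left.1 (disj_WC hn0) hh)
      · exact Or.inl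
  · -- wall tiles
    intro x h hN _ ht _
    refine ⟨?_, notD x h hN⟩
    show τ s x h ∈ LamC P.Q n
    rw [mem_LamC hn0, tt_τ]
    exact ⟨τ_odd, tq_of_tch hn0 ht⟩
  · -- colours
    intro x h x' h' k1 k2 n1 t1 _ n2 t2 _ hxx
    obtain ⟨k3, -⟩ := hdx x h k1
    rcases k3 with k3 | k3 | k3
    · by_cases hc : NtV P.Q pl s (X - 1) Y
      · exact below hc k1 k2 n1 t1 n2 t2 k3 (hxx ▸ k3)
      · have hs := nl hc
        have hno := hs.not
        have key : ∀ {x h : ℤ}, NearP n 0 R X Y x h → TchT n 0 (NtV P.Q pl s) x h → x / n = X - 1 →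
            x = n * X - 1 ∧ n * Y - 1 ≤ h := by
          rintro x h ⟨m1, m2, m3, m4⟩ ⟨x1, h1, m5, m6, m7⟩ m8
          rw [abs_le] at m5 m6
          have m9 := (div_iff hn0).1 m8
          unfold NtT at m7
          rw [add_zero] at m7
          by_cases c1 : x1 < n * X
          · exfalso
            have e1 : x1 / n = X - 1 := div_of hn0 (by omega) (by omega)
            rw [e1] at m7
            by_cases c2 : n * Y ≤ h1
            · rw [div_of hn0 (X := Y) c2 (by omega)] at m7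
              exact hno.1 m7
            · rw [div_of hn0 (X := Y - 1) (by omega) (by omega)] at m7
              exact hno.2 m7
          · refine ⟨by omega, ?_⟩
            by_contra c2
            have e1 : x1 / n = X := div_of hn0 (by omega) (by omega)
            rw [e1, div_of hn0 (X := Y - 1) (by omega) (by omega)] at m7
            exact hp.2 m7
        have e2 : x' / n = X - 1 := hxx ▸ k3
        obtain ⟨a1, a2⟩ := key k1 t1 k3
        obtain ⟨b1, b2⟩ := key k2 t2 e2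
        have hs' : ∀ Ya Yb, (Ya = Y ∨ Ya = Y - 1) → (Yb = Y ∨ Yb = Y - 1) →
            SameC P.Q pl (X - 1, rc s Ya) (X - 1, rc s Yb) := by
          intro Ya Yb g1 g2
          rcases hs with ⟨k, m1, m2, m3, m4⟩ | ⟨m1, m2⟩
          · left
            refine ⟨k, ?_, ?_, ?_, ?_⟩ <;> rcases g1 with rfl | rfl <;> rcases g2 with rfl | rfl <;> assumption
          · right
            constructor <;> rcases g1 with rfl | rfl <;> rcases g2 with rfl | rfl <;> assumption
        have r1 : h / n = Y ∨ h / n = Y - 1 := by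
          rcases (hdx x h k1).2 with ⟨g, -⟩ | ⟨g, -⟩
          · exact Or.inl g
          · exact Or.inr g
        have r2 : h' / n = Y ∨ h' / n = Y - 1 := by
          rcases (hdx x' h' k2).2 with ⟨g, -⟩ | ⟨g, -⟩
          · exact Or.inl g
          · exact Or.inr g
        refine same_cell t1 t2 ?_ ?_
        · rw [k3, e2]
          exact hs' _ _ r1 r2
        · rw [k3, e2]
          intro q1 q2
          rcases hs with ⟨k, m1, m2, m3, m4⟩ | ⟨m1, m2⟩
          · exfalso
            rcases r1 with r1 | r1 <;> rw [r1] at q1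
            · exact q1 m1
            · exact q1 m2
          · rw [colS_Nl K hn hR hX hp.1.1 m1 m2 a1 a2 (by have := k1.2.2.2; omega),
              colS_Nl K hn hR hX hp.1.1 m1 m2 b1 b2 (by have := k2.2.2.2; omega)]
    · exact below hp.1 k1 k2 n1 t1 n2 t2 k3 (hxx ▸ k3)
    · by_cases hc : NtV P.Q pl s (X + 1) Y
      · exact below hc k1 k2 n1 t1 n2 t2 k3 (hxx ▸ k3)
      · have hs := nr hc
        have hno := hs.not
        have key : ∀ {x h : ℤ}, NearP n 0 R X Y x h → TchT n 0 (NtV P.Q pl s) x h → x / n = X + 1 →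
            x = n * X + n ∧ n * Y - 1 ≤ h := by
          rintro x h ⟨m1, m2, m3, m4⟩ ⟨x1, h1, m5, m6, m7⟩ m8
          rw [abs_le] at m5 m6
          have m9 := (div_iff hn0).1 m8
          unfold NtT at m7
          rw [add_zero] at m7
          by_cases c1 : n * X + n ≤ x1
          · exfalso
            have e1 : x1 / n = X + 1 := div_of hn0 (by omega) (by omega)
            rw [e1] at m7
            by_cases c2 : n * Y ≤ h1
            · rw [div_of hn0 (X := Y) c2 (by omega)] at m7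
              exact hno.1 m7
            · rw [div_of hn0 (X := Y - 1) (by omega) (by omega)] at m7
              exact hno.2 m7
          · refine ⟨by omega, ?_⟩
            by_contra c2
            have e1 : x1 / n = X := div_of hn0 (by omega) (by omega)
            rw [e1, div_of hn0 (X := Y - 1) (by omega) (by omega)] at m7
            exact hp.2 m7
        have e2 : x' / n = X + 1 := hxx ▸ k3
        obtain ⟨a1, a2⟩ := key k1 t1 k3
        obtain ⟨b1, b2⟩ := key k2 t2 e2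
        have hs' : ∀ Ya Yb, (Ya = Y ∨ Ya = Y - 1) → (Yb = Y ∨ Yb = Y - 1) →
            SameC P.Q pl (X + 1, rc s Ya) (X + 1, rc s Yb) := by
          intro Ya Yb g1 g2
          rcases hs with ⟨k, m1, m2, m3, m4⟩ | ⟨m1, m2⟩
          · left
            refine ⟨k, ?_, ?_, ?_, ?_⟩ <;> rcases g1 with rfl | rfl <;> rcases g2 with rfl | rfl <;> assumption
          · right
            constructor <;> rcases g1 with rfl | rfl <;> rcases g2 with rfl | rfl <;> assumption
        have r1 : h / n = Y ∨ h / n = Y - 1 := by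
          rcases (hdx x h k1).2 with ⟨g, -⟩ | ⟨g, -⟩
          · exact Or.inl g
          · exact Or.inr g
        have r2 : h' / n = Y ∨ h' / n = Y - 1 := by
          rcases (hdx x' h' k2).2 with ⟨g, -⟩ | ⟨g, -⟩
          · exact Or.inl g
          · exact Or.inr g
        refine same_cell t1 t2 ?_ ?_
        · rw [k3, e2]
          exact hs' _ _ r1 r2
        · rw [k3, e2]
          intro q1 q2
          rcases hs with ⟨k, m1, m2, m3, m4⟩ | ⟨m1, m2⟩
          · exfalso
            rcases r1 with r1 | r1 <;> rw [r1] at q1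
            · exact q1 m1
            · exact q1 m2
          · rw [colS_Nr K hn hR hX hp.1.1 m1 m2 a1 a2 (by have := k1.2.2.2; omega),
              colS_Nr K hn hR hX hp.1.1 m1 m2 b1 b2 (by have := k2.2.2.2; omega)]
  · intro x h _ hh
    exact hh.elim
  · intro x h x' v _ hh
    exact hh.elim
  · intro x h x' v _ hh
    exact hh.elim
  · -- the forced tiles
    intro x h _ _ hf
    obtain ⟨hu, X', Y', x', hp', hx', he⟩ := hF _ hf
    obtain ⟨rfl, rfl⟩ := τ_inj he
    have e1 : x / n = X' := div_of hn0 hx'.1 hx'.2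
    have e2 : n * Y' / n = Y' := div_of hn0 le_rfl (by omega)
    have e4 : n * (Y' - 1) = n * Y' - n := by ring
    have e3 : (n * Y' - 1) / n = Y' - 1 := div_of hn0 (by omega) (by omega)
    refine ⟨?_, ?_, hu⟩
    · unfold NtT
      rw [add_zero, e1, e2]
      exact hp'.1
    · unfold NtT
      rw [add_zero, e1, e3]
      exact hp'.2

end

lemma rc_rc (s : Bool) (Y : ℤ) : rc s (rc s Y) = Y := by
  unfold rc
  cases s
  · simp
  · simp

/-- **ORL for coherent worlds**: forcing first tiles along floors (`s = true`) or ceilings (`s = false`) of the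
natural region changes a functional of the link patterns with small probability, if all pieces are far from the
rows `Xr` of the deleted tiles and of the changes of colour. -/
theorem orl_eps (N : ℕ) {ε : ℝ} (hε : 0 < ε) : ∃ n0 : ℤ, ∀ n : ℤ, n0 ≤ n →
    ∀ {β β2 : Type*} [DecidableEq β] {P : PType} {κ : ℕ → ℤ → Prop} {Xr : ℤ → Prop}
    {pl : Cell → Option β} {s : Bool} {D : Set (ℤ × ℤ)} {F : Finset (ℤ × ℤ)} {u : ℤ × ℤ → ℤ × ℤ}
    {Φ : Finset (ℤ × ℤ) → β2}, P.Q.card ≤ N → NGeo P.Q pl → KOK P n κ Xr → (∀ e ∈ D, Xr (tt e).2) →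
    (∀ X Y, NtV P.Q pl s X Y → ¬ NtV P.Q pl s X (Y - 1) →
      ∀ h, n * Y - n / 4 ≤ h → h ≤ n * Y + n / 4 → ¬ Xr (rc s h)) →
    (∀ f ∈ F, u f = uB s f ∧ ∃ X' Y' x', (NtV P.Q pl s X' Y' ∧ ¬ NtV P.Q pl s X' (Y' - 1)) ∧
      (n * X' ≤ x' ∧ x' < n * X' + n) ∧ f = τ s x' (n * Y')) →
    (∀ Z : Finset (ℤ × ℤ), (∀ e ∈ Z, e ∈ (LamC P.Q n : Set (ℤ × ℤ)) ∧ e ∉ D) → PatInv Z Φ) →
    PB (TL P.Q n) (bk n pl) (fun ω => Φ (Force F u (ω ∪ WC P n κ)) ≠ Φ (ω ∪ WC P n κ)) ≤ ε := by
  classical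
  obtain ⟨n0, h0⟩ := pieces_eps N hε
  refine ⟨max n0 16, fun n hn => ?_⟩
  intro β β2 _ P κ Xr pl s D F u Φ hN G K hD hX hF hinv
  have hn1 : n0 ≤ n := (le_max_left _ _).trans hn
  have hn2 : 16 ≤ n := (le_max_right _ _).trans hn
  refine h0 n hn1 (c := fun w => w ∪ WC P n κ) (I := P.Q.filter fun c =>
    NtV P.Q pl s c.1 (rc s c.2) ∧ ¬ NtV P.Q pl s c.1 (rc s c.2 - 1))
    (fun _ => s) (fun _ => 0) (fun c => c.1) (fun c => rc s c.2) (fun _ => NtV P.Q pl s)
    (fun _ _ _ => False) ?_ ?_ ?_ hinv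
  · exact (card_filter_le _ _).trans hN
  · intro c hc
    have hc2 := (mem_filter.1 hc).2
    exact pcB_VC G K (by omega) (by omega) hD (hX _ _ hc2.1 hc2.2) hc2 hF
  · intro f hf
    obtain ⟨-, X', Y', x', hp, hx, he⟩ := hF f hf
    refine ⟨(X', rc s Y'), ?_, x', hx, ?_⟩
    · rw [mem_filter]
      simp only
      rw [rc_rc]
      exact ⟨hp.1.1, hp⟩
    · simp only
      rw [rc_rc, sub_zero]
      exact he

/-- reachability between ends is a functional of the link patterns -/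
lemma patInv_reach {Λ D : Set (ℤ × ℤ)} {a x : ℤ × ℤ} (ha : OutC Λ D a) (hx : OutC Λ D x)
    (Z : Finset (ℤ × ℤ)) (hZ : ∀ e ∈ Z, e ∈ Λ ∧ e ∉ D) :
    PatInv Z (fun w => (SG Λ D w).Reachable a x) := by
  intro w w' h1 h2
  exact propext (reach_iff_of_same hZ (fun e _ h => h1 e h) h2 (ha.outer hZ) (hx.outer hZ))

end Pool.Agent.H2.W.Run
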