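import Mathlib
import Pool.Agent.H2.W.OrlV
import Pool.Agent.H19.W.RDef

set_option autoImplicit false
open Finset

/-! # ORL in the form of RAISE: `OrlU` (ceilings), `OrlL` (floors) -/

namespace Pool.Agent.H2.W.Run

open Pool.Agent.Q1.M4 (Cell PType)
open Pool.Agent.H33.Q1 (lt tt ct TL mem_TL tt_lt)
open Pool.Agent.H19.W Pool.Agent.H92.W
open Pool.Agent.H50.W (bk)
open Pool.Agent.H58.W (PB)
open Pool.Agent.H35.W (Force)
open Pool.Agent.H13.W (SG up dn)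

lemma uB_false (f : ℤ × ℤ) : uB false f = up f := by
  unfold uB nB up
  simp [Prod.ext_iff]

lemma uB_true (f : ℤ × ℤ) : uB true f = dn f := by
  unfold uB nB dn
  simp [Prod.ext_iff]

section

variable {β : Type*} {Q : Finset Cell} {pl : Cell → Option β} {n : ℤ} {s : Bool}

lemma mem_NatS {f : ℤ × ℤ} : f ∈ NatS Q n pl ↔ (f.1 + f.2) % 2 = 1 ∧ ct n (tt f) ∈ Q ∧
    pl (ct n (tt f)) = none := Iff.rfl

lemma natS_τ (hn : 0 < n) {x h : ℤ} : τ s x h ∈ NatS Q n pl ↔ NtV Q pl s (x / n) (h / n) := by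
  rw [mem_NatS, ct_τ hn]
  exact ⟨fun h => h.2, fun h => ⟨τ_odd, h⟩⟩

/-- a natural tile below (above) a tile which is not natural is a first tile of a piece -/
lemma piece_of (hn : 0 < n) {f : ℤ × ℤ} (h1 : f ∈ NatS Q n pl) (h2 : uB s f ∉ NatS Q n pl) :
    ∃ X' Y' x', (NtV Q pl s X' Y' ∧ ¬ NtV Q pl s X' (Y' - 1)) ∧
      (n * X' ≤ x' ∧ x' < n * X' + n) ∧ f = τ s x' (n * Y') := by
  obtain ⟨x, h, rfl⟩ := exists_τ s h1.1
  rw [← τ_pred, natS_τ hn] at h2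
  rw [natS_τ hn] at h1
  have k1 := (div_iff hn (x := h) (X := h / n)).1 rfl
  have k2 := (div_iff hn (x := x) (X := x / n)).1 rfl
  have k3 : h = n * (h / n) := by
    by_contra hc
    have : (h - 1) / n = h / n := div_of hn (by omega) (by omega)
    rw [this] at h2
    exact h2 h1
  have k4 : (h - 1) / n = h / n - 1 := by
    have e : n * (h / n - 1) = n * (h / n) - n := by ring
    exact div_of hn (by omega) (by omega)
  rw [k4] at h2
  exact ⟨x / n, h / n, x, ⟨h1, h2⟩, k2, by rw [← k3]⟩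

end

/-- **ORL at all ceilings (`OrlU`) and floors (`OrlL`) of a part of the polygon.** -/
theorem orl_UL (N : ℕ) {ε : ℝ} (hε : 0 < ε) : ∃ n0 : ℤ, ∀ n : ℤ, n0 ≤ n →
    ∀ {β : Type*} [DecidableEq β] {P : PType} {κ : ℕ → ℤ → Prop} {Xr : ℤ → Prop}
    {pl : Cell → Option β} {D : Set (ℤ × ℤ)} {R : Cell → ℤ → Prop} {Φ : Finset (ℤ × ℤ) → Prop},
    P.Q.card ≤ N → NGeo P.Q pl → KOK P n κ Xr → (∀ e ∈ D, Xr (tt e).2) →
    (∀ (s : Bool) X Y, NtV P.Q pl s X Y → ¬ NtV P.Q pl s X (Y - 1) →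
      ∀ h, n * Y - n / 4 ≤ h → h ≤ n * Y + n / 4 → ¬ Xr (rc s h)) →
    (∀ Z : Finset (ℤ × ℤ), (∀ e ∈ Z, e ∈ (LamC P.Q n : Set (ℤ × ℤ)) ∧ e ∉ D) → PatInv Z Φ) →
    OrlU P n κ pl R Φ ε ∧ OrlL P n κ pl R Φ ε := by
  obtain ⟨n0, h0⟩ := orl_eps N hε
  refine ⟨max n0 1, fun n hn => ?_⟩
  intro β _ P κ Xr pl D R Φ hN G K hD hX hinv
  have hn1 : n0 ≤ n := (le_max_left _ _).trans hn
  have hn2 : 0 < n := by have := (le_max_right n0 1).trans hn; omega
  constructor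
  · unfold OrlU s1
    refine h0 n hn1 (s := false) (Xr := Xr) hN G K hD (hX false) ?_ hinv
    intro f hf
    rw [mem_FU] at hf
    exact ⟨(uB_false f).symm, piece_of hn2 hf.2.1 (by rw [uB_false]; exact hf.2.2.2)⟩
  · unfold OrlL s2
    refine h0 n hn1 (s := true) (Xr := Xr) hN G K hD (hX true) ?_ hinv
    intro f hf
    rw [mem_FL] at hf
    exact ⟨(uB_true f).symm, piece_of hn2 hf.2.1 (by rw [uB_true]; exact hf.2.2.2)⟩

end Pool.Agent.H2.W.Run
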