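import Mathlib
import Pool.Agent.H2.W.OrlR
import Pool.Agent.H2.W.OrlK

set_option autoImplicit false
open Finset

/-! # The ends of the strands in the coherent worlds are outer corners

`outC_del` : the end of a deleted row. `outC_X1`, `outC_X2`, `outC_XA` : the two loose sides at a convex
corner. `orl_reach` : ORL for the event that the end `eW (lt p)` is joined to such a side. -/

namespace Pool.Agent.H2.W.Run

open Pool.Agent.H75.Perc Pool.Agent.H75.TwoArm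
open Pool.Agent.Q1.M4 (Cell PType IsSide nextSide tail)
open Pool.Agent.H33.Q1
open Pool.Agent.H19.W Pool.Agent.H92.W
open Pool.Agent.H13.W (SG up dn eN eS eW)
open Pool.Agent.H21.FM (Shape)
open Pool.Agent.H37.W (dg dg_eq cvx_cells)

lemma outC_del {Λ D : Set (ℤ × ℤ)} {e : ℤ × ℤ} (ho : (e.1 + e.2) % 2 = 1) (h : e ∈ D) :
    OutC Λ D (eW e) := by
  obtain ⟨a, b⟩ := e
  simp only at ho
  unfold eW OutC
  by_cases hb : b % 2 = 0
  · have e1 : lab (a, b) = (a, b) := by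
      unfold lab
      simp only
      rw [if_pos hb, if_neg (by omega)]
    left; right
    rw [e1]
    exact h
  · have e1 : plab (a, b) = (a, b) := by
      unfold plab
      simp only
      rw [if_neg hb, if_pos (by omega)]
    right; right
    rw [e1]
    exact h

/-- the two tiles at a horizontal side -/
lemma tiles_N {e : ℤ × ℤ} (ho : (e.1 + e.2) % 2 = 1) :
    (lab (eN e) = e ∧ plab (eN e) = up e) ∨ (lab (eN e) = up e ∧ plab (eN e) = e) := by
  obtain ⟨a, b⟩ := e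
  simp only at ho
  unfold eN up lab plab
  simp only
  by_cases hb : (b + 1) % 2 = 0
  · left
    rw [if_pos hb, if_pos hb, if_pos (by omega), if_pos (by omega)]
    simp
  · right
    rw [if_neg hb, if_neg hb, if_neg (by omega), if_neg (by omega)]
    simp

lemma outC_N {Λ D : Set (ℤ × ℤ)} {e : ℤ × ℤ} (ho : (e.1 + e.2) % 2 = 1) (h : up e ∉ Λ) :
    OutC Λ D (eN e) := by
  rcases tiles_N ho with ⟨-, h1⟩ | ⟨h1, -⟩
  · right; left; rw [h1]; exact h
  · left; left; rw [h1]; exact h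

lemma outC_S {Λ D : Set (ℤ × ℤ)} {e : ℤ × ℤ} (ho : (e.1 + e.2) % 2 = 1) (h : dn e ∉ Λ) :
    OutC Λ D (eS e) := by
  have e1 : eS e = eN (dn e) := by
    unfold eS eN dn
    exact Prod.ext (by simp only) (by simp only; ring)
  have ho' : ((dn e).1 + (dn e).2) % 2 = 1 := by unfold dn; simp only; omega
  rw [e1]
  rcases tiles_N ho' with ⟨h1, -⟩ | ⟨-, h1⟩
  · left; left; rw [h1]; exact h
  · right; left; rw [h1]; exact h

/-- a tile in the middle of two outer cells does not touch the polygon -/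
lemma not_tq {Q : Finset Cell} {n A R x y : ℤ} (hn : 3 ≤ n) (h1 : (A, R) ∉ Q) (h2 : (A + 1, R) ∉ Q)
    (hx1 : n * A + n - 1 ≤ x) (hx2 : x ≤ n * A + n) (hy1 : n * R + 1 ≤ y) (hy2 : y ≤ n * R + n - 2) :
    ¬ Tq Q n (x, y) := by
  rintro ⟨⟨u, v⟩, k1, k2, k3⟩
  simp only at k1 k2
  rw [abs_le] at k1 k2
  have e : n * (A + 1) = n * A + n := by ring
  by_cases c : u < n * A + n
  · rw [ct_of' (X := A) (Y := R) (by omega) (by omega) (by omega) (by omega) (by omega)] at k3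
    exact h1 k3
  · rw [ct_of' (X := A + 1) (Y := R) (by omega) (by omega) (by omega) (by omega) (by omega)] at k3
    exact h2 k3

section

variable {S : Shape} {h : ℕ} {i : ℕ}

/-- position of the diagonal tile -/
lemma dg_pos (S : Shape) (h : ℕ) (i : ℕ) :
    (S.k i % 4 = 0 → dg S h i = lt (2 * (h : ℤ) * (S.P.side i).1.1 + 2 * (h : ℤ),
      2 * (h : ℤ) * (S.P.side i).1.2 - 1)) ∧
    (S.k i % 4 = 1 → dg S h i = lt (2 * (h : ℤ) * (S.P.side i).1.1 + 2 * (h : ℤ),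
      2 * (h : ℤ) * (S.P.side i).1.2 + 2 * (h : ℤ))) ∧
    (S.k i % 4 = 2 → dg S h i = lt (2 * (h : ℤ) * (S.P.side i).1.1 - 1,
      2 * (h : ℤ) * (S.P.side i).1.2 + 2 * (h : ℤ))) ∧
    (S.k i % 4 = 3 → dg S h i = lt (2 * (h : ℤ) * (S.P.side i).1.1 - 1,
      2 * (h : ℤ) * (S.P.side i).1.2 - 1)) := by
  obtain ⟨o0, o1, o2, o3⟩ := ot_eq (2 * (h : ℤ)) (S.P.side i) (2 * (h : ℤ))
  have ek : S.k i = (S.P.side i).2 := rfl
  rw [dg_eq, ek]
  generalize S.P.side i = s at *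
  obtain ⟨⟨a, b⟩, k⟩ := s
  simp only at *
  refine ⟨fun m => ?_, fun m => ?_, fun m => ?_, fun m => ?_⟩
  · rw [o0 m]
    unfold wp tail
    simp only [m, if_true, dirp.1 m]
    congr 1
    refine Prod.ext ?_ ?_ <;> simp <;> ring
  · rw [o1 m]
    unfold wp tail
    simp only [m, dirp.2.1 m]
    congr 1
    refine Prod.ext ?_ ?_ <;> simp <;> ring
  · rw [o2 m]
    unfold wp tail
    simp only [m, dirp.2.2.1 m]
    congr 1
    refine Prod.ext ?_ ?_ <;> simp <;> ring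
  · rw [o3 m]
    unfold wp tail
    simp only [m, dirp.2.2.2 m]
    congr 1
    refine Prod.ext ?_ ?_ <;> simp <;> ring

/-- the two cells above an upper (below a lower) convex corner are outside -/
lemma cvx_two (hc : S.P.side (i + 1) = ((S.P.side i).1, (S.P.side i).2 + 1)) :
    (S.k i % 4 = 0 → ((S.P.side i).1.1, (S.P.side i).1.2 - 1) ∉ S.P.Q ∧
      ((S.P.side i).1.1 + 1, (S.P.side i).1.2 - 1) ∉ S.P.Q) ∧
    (S.k i % 4 = 1 → ((S.P.side i).1.1, (S.P.side i).1.2 + 1) ∉ S.P.Q ∧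
      ((S.P.side i).1.1 + 1, (S.P.side i).1.2 + 1) ∉ S.P.Q) ∧
    (S.k i % 4 = 2 → ((S.P.side i).1.1 - 1, (S.P.side i).1.2 + 1) ∉ S.P.Q ∧
      ((S.P.side i).1.1, (S.P.side i).1.2 + 1) ∉ S.P.Q) ∧
    (S.k i % 4 = 3 → ((S.P.side i).1.1 - 1, (S.P.side i).1.2 - 1) ∉ S.P.Q ∧
      ((S.P.side i).1.1, (S.P.side i).1.2 - 1) ∉ S.P.Q) := by
  obtain ⟨h1, h2⟩ := cvx_cells hc
  have h3 := (isSide_side' S.P i).2
  have ek : S.k i = (S.P.side i).2 := rfl
  rw [ek]
  generalize S.P.side i = s at *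
  obtain ⟨⟨a, b⟩, k⟩ := s
  simp only at *
  refine ⟨fun m => ?_, fun m => ?_, fun m => ?_, fun m => ?_⟩
  · rw [dirp.1 m, dirq.1 m] at h1
    rw [dirq.1 m] at h3
    exact ⟨by simpa [sub_eq_add_neg] using h3, by simpa [sub_eq_add_neg] using h1⟩
  · rw [dirp.2.1 m, dirq.2.1 m] at h1
    rw [dirp.2.1 m] at h2
    exact ⟨by simpa using h2, by simpa using h1⟩
  · rw [dirp.2.2.1 m, dirq.2.2.1 m] at h1
    rw [dirq.2.2.1 m] at h3
    exact ⟨by simpa [sub_eq_add_neg] using h1, by simpa using h3⟩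
  · rw [dirp.2.2.2 m, dirq.2.2.2 m] at h1
    rw [dirp.2.2.2 m] at h2
    exact ⟨by simpa [sub_eq_add_neg] using h1, by simpa [sub_eq_add_neg] using h2⟩

lemma up_lt' (x y : ℤ) : up (lt (x, y)) = lt (x, y + 1) := by
  unfold up lt; exact Prod.ext (by simp only; ring) (by simp only; ring)

lemma dn_lt' (x y : ℤ) : dn (lt (x, y)) = lt (x, y - 1) := by
  unfold dn lt; exact Prod.ext (by simp only; ring) (by simp only; ring)

lemma ea_lt' (x y : ℤ) : ea (lt (x, y)) = lt (x + 1, y) := by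
  unfold ea lt; exact Prod.ext (by simp only; ring) (by simp only; ring)

lemma we_lt' (x y : ℤ) : we (lt (x, y)) = lt (x - 1, y) := by
  unfold we lt; exact Prod.ext (by simp only; ring) (by simp only; ring)

lemma notLam {x y : ℤ} {Q : Finset Cell} {n : ℤ} (hn : 0 < n) (h : ¬ Tq Q n (x, y)) :
    lt (x, y) ∉ (LamC Q n : Set (ℤ × ℤ)) := by
  intro h1
  have h2 : lt (x, y) ∈ LamC Q n := h1
  rw [mem_LamC hn, tt_lt] at h2
  exact h h2.2

/-- **The loose side of the diagonal tile is an outer corner.** -/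
theorem outC_X1 (hh : 2 ≤ h) (hc : S.P.side (i + 1) = ((S.P.side i).1, (S.P.side i).2 + 1))
    {D : Set (ℤ × ℤ)} : OutC (LamC S.P.Q (2 * (h : ℤ)) : Set (ℤ × ℤ)) D (X1 S h i) := by
  obtain ⟨p0, p1, p2, p3⟩ := dg_pos S h i
  obtain ⟨q0, q1, q2, q3⟩ := cvx_two hc
  have hn : (0 : ℤ) < 2 * (h : ℤ) := by omega
  unfold X1
  have hk : S.k i % 4 = 0 ∨ S.k i % 4 = 1 ∨ S.k i % 4 = 2 ∨ S.k i % 4 = 3 := by omega
  rcases hk with m | m | m | m
  · rw [if_neg (by omega), p0 m]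
    refine outC_S (lt_odd _) ?_
    rw [dn_lt']
    have e : 2 * (h : ℤ) * ((S.P.side i).1.2 - 1) = 2 * (h : ℤ) * (S.P.side i).1.2 - 2 * (h : ℤ) := by ring
    exact notLam hn (not_tq (by omega) (q0 m).1 (q0 m).2 (by omega) (by omega) (by omega) (by omega))
  · rw [if_pos (by omega), p1 m]
    refine outC_N (lt_odd _) ?_
    rw [up_lt']
    have e : 2 * (h : ℤ) * ((S.P.side i).1.2 + 1) = 2 * (h : ℤ) * (S.P.side i).1.2 + 2 * (h : ℤ) := by ring
    exact notLam hn (not_tq (by omega) (q1 m).1 (q1 m).2 (by omega) (by omega) (by omega) (by omega))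
  · rw [if_pos (by omega), p2 m]
    refine outC_N (lt_odd _) ?_
    rw [up_lt']
    have e : 2 * (h : ℤ) * ((S.P.side i).1.2 + 1) = 2 * (h : ℤ) * (S.P.side i).1.2 + 2 * (h : ℤ) := by ring
    have e' : 2 * (h : ℤ) * ((S.P.side i).1.1 - 1) = 2 * (h : ℤ) * (S.P.side i).1.1 - 2 * (h : ℤ) := by ring
    exact notLam hn (not_tq (by omega) (q2 m).1 (by rw [sub_add_cancel]; exact (q2 m).2) (by omega)
      (by omega) (by omega) (by omega))
  · rw [if_neg (by omega), p3 m]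
    refine outC_S (lt_odd _) ?_
    rw [dn_lt']
    have e : 2 * (h : ℤ) * ((S.P.side i).1.2 - 1) = 2 * (h : ℤ) * (S.P.side i).1.2 - 2 * (h : ℤ) := by ring
    have e' : 2 * (h : ℤ) * ((S.P.side i).1.1 - 1) = 2 * (h : ℤ) * (S.P.side i).1.1 - 2 * (h : ℤ) := by ring
    exact notLam hn (not_tq (by omega) (q3 m).1 (by rw [sub_add_cancel]; exact (q3 m).2) (by omega)
      (by omega) (by omega) (by omega))

/-- **The loose side of its horizontal neighbour is an outer corner.** -/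
theorem outC_X2 (hh : 2 ≤ h) (hc : S.P.side (i + 1) = ((S.P.side i).1, (S.P.side i).2 + 1))
    {D : Set (ℤ × ℤ)} : OutC (LamC S.P.Q (2 * (h : ℤ)) : Set (ℤ × ℤ)) D (X2 S h i) := by
  obtain ⟨p0, p1, p2, p3⟩ := dg_pos S h i
  obtain ⟨q0, q1, q2, q3⟩ := cvx_two hc
  have hn : (0 : ℤ) < 2 * (h : ℤ) := by omega
  unfold X2
  have hk : S.k i % 4 = 0 ∨ S.k i % 4 = 1 ∨ S.k i % 4 = 2 ∨ S.k i % 4 = 3 := by omega
  rcases hk with m | m | m | m
  · rw [if_neg (by omega), if_neg (by omega), if_neg (by omega), p0 m, we_lt']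
    refine outC_S (lt_odd _) ?_
    rw [dn_lt']
    have e : 2 * (h : ℤ) * ((S.P.side i).1.2 - 1) = 2 * (h : ℤ) * (S.P.side i).1.2 - 2 * (h : ℤ) := by ring
    exact notLam hn (not_tq (by omega) (q0 m).1 (q0 m).2 (by omega) (by omega) (by omega) (by omega))
  · rw [if_pos (by omega), p1 m, we_lt']
    refine outC_N (lt_odd _) ?_
    rw [up_lt']
    have e : 2 * (h : ℤ) * ((S.P.side i).1.2 + 1) = 2 * (h : ℤ) * (S.P.side i).1.2 + 2 * (h : ℤ) := by ring
    exact notLam hn (not_tq (by omega) (q1 m).1 (q1 m).2 (by omega) (by omega) (by omega) (by omega))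
  · rw [if_neg (by omega), if_pos (by omega), p2 m, ea_lt']
    refine outC_N (lt_odd _) ?_
    rw [up_lt']
    have e : 2 * (h : ℤ) * ((S.P.side i).1.2 + 1) = 2 * (h : ℤ) * (S.P.side i).1.2 + 2 * (h : ℤ) := by ring
    have e' : 2 * (h : ℤ) * ((S.P.side i).1.1 - 1) = 2 * (h : ℤ) * (S.P.side i).1.1 - 2 * (h : ℤ) := by ring
    exact notLam hn (not_tq (by omega) (q2 m).1 (by rw [sub_add_cancel]; exact (q2 m).2) (by omega)
      (by omega) (by omega) (by omega))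
  · rw [if_neg (by omega), if_neg (by omega), if_pos (by omega), p3 m, ea_lt']
    refine outC_S (lt_odd _) ?_
    rw [dn_lt']
    have e : 2 * (h : ℤ) * ((S.P.side i).1.2 - 1) = 2 * (h : ℤ) * (S.P.side i).1.2 - 2 * (h : ℤ) := by ring
    have e' : 2 * (h : ℤ) * ((S.P.side i).1.1 - 1) = 2 * (h : ℤ) * (S.P.side i).1.1 - 2 * (h : ℤ) := by ring
    exact notLam hn (not_tq (by omega) (q3 m).1 (by rw [sub_add_cancel]; exact (q3 m).2) (by omega)
      (by omega) (by omega) (by omega))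

/-- the alive side -/
theorem outC_XA (hh : 2 ≤ h) (hc : S.P.side (i + 1) = ((S.P.side i).1, (S.P.side i).2 + 1))
    {κ : ℕ → ℤ → Prop} {D : Set (ℤ × ℤ)} :
    OutC (LamC S.P.Q (2 * (h : ℤ)) : Set (ℤ × ℤ)) D (XA S h κ i) := by
  unfold XA
  split_ifs
  · exact outC_X1 hh hc
  · exact outC_X2 hh hc

/-- the marks are convex -/
lemma mkI_cvx (S : Shape) (j : Fin 3) :
    S.P.side (mkI S j + 1) = ((S.P.side (mkI S j)).1, (S.P.side (mkI S j)).2 + 1) := by
  have h02 := S.h02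
  have h23 := S.h23
  have hN : 0 < S.P.N := by have := S.P.hmN; omega
  apply S.cvx
  unfold mkI
  have eN : S.N = S.P.N := rfl
  split_ifs
  · right; right; right
    omega
  · left
    omega
  · right; left
    omega

end

/-- **ORL for the connections of an end with a mark.** -/
theorem orl_reach (N : ℕ) {ε : ℝ} (hε : 0 < ε) : ∃ n0 : ℤ, ∀ h : ℕ, n0 ≤ 2 * (h : ℤ) →
    ∀ {β : Type*} [DecidableEq β] {S : Shape} {κ : ℕ → ℤ → Prop} {Xr : ℤ → Prop}
    {pl : Cell → Option β} {D : Set (ℤ × ℤ)} {R : Cell → ℤ → Prop} {z x : ℤ × ℤ},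
    S.P.Q.card ≤ N → NGeo S.P.Q pl → KOK S.P (2 * (h : ℤ)) κ Xr → (∀ e ∈ D, Xr (tt e).2) →
    (∀ (s : Bool) X Y, NtV S.P.Q pl s X Y → ¬ NtV S.P.Q pl s X (Y - 1) →
      ∀ a, 2 * (h : ℤ) * Y - 2 * (h : ℤ) / 4 ≤ a → a ≤ 2 * (h : ℤ) * Y + 2 * (h : ℤ) / 4 →
        ¬ Xr (rc s a)) →
    OutC (LamC S.P.Q (2 * (h : ℤ)) : Set (ℤ × ℤ)) D z → OutC (LamC S.P.Q (2 * (h : ℤ)) : Set (ℤ × ℤ)) D x →
    OrlU S.P (2 * (h : ℤ)) κ pl R
      (fun w => (SG (LamC S.P.Q (2 * (h : ℤ)) : Set (ℤ × ℤ)) D w).Reachable z x) ε ∧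
    OrlL S.P (2 * (h : ℤ)) κ pl R
      (fun w => (SG (LamC S.P.Q (2 * (h : ℤ)) : Set (ℤ × ℤ)) D w).Reachable z x) ε := by
  obtain ⟨n0, h0⟩ := orl_UL N hε
  refine ⟨n0, fun h hn => ?_⟩
  intro β _ S κ Xr pl D R z x hN G K hD hX hz hx
  exact h0 _ hn hN G K hD hX (fun Z hZ => patInv_reach hz hx Z hZ)

end Pool.Agent.H2.W.Run
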