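import Mathlib
import Pool.Agent.H2.W.OrlK

set_option autoImplicit false
open Finset

/-! # Colours flipped on a part of the polygon behind a full row

`kok_above` : the indicator of the part above the row `r0 - 1` (`U` : cells behind the fine row `yF`, from
19's `exists_cut`) changes only at the row `r0 - 1`. -/

namespace Pool.Agent.H2.W.Run

open Pool.Agent.H75.Perc (dir dir_cases)
open Pool.Agent.Q1.M4 (Cell PType IsSide nextSide Good)
open Pool.Agent.H19.W Pool.Agent.H68.W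

/-- the part above -/
def RA (U : Cell → Prop) (yF X0 X1 r0 : ℤ) (c : Cell) (y : ℤ) : Prop :=
  U c ∨ (c.2 = yF ∧ X0 ≤ c.1 ∧ c.1 < X1 ∧ r0 ≤ y)

variable {P : PType} {n : ℤ} {κ : ℕ → ℤ → Prop} {Xr : ℤ → Prop} {U : Cell → Prop} {yF X0 X1 r0 : ℤ}

/-- **The part above the row `r0 - 1`.** -/
theorem kok_above (hn : 0 < n) (hr : Xr (r0 - 1)) (h0 : n * yF ≤ r0 - 1) (h1 : r0 ≤ n * yF + n)
    (hU : ∀ x y, (x, y) ∈ P.Q → (x + 1, y) ∈ P.Q → (U (x + 1, y) ↔ U (x, y)))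
    (hV : ∀ x y, (x, y) ∈ P.Q → (x, y + 1) ∈ P.Q → ¬ (y = yF ∧ X0 ≤ x ∧ x < X1) →
      (U (x, y + 1) ↔ U (x, y)))
    (hF : ∀ x, X0 ≤ x → x < X1 → ¬ U (x, yF) ∧ U (x, yF + 1))
    (hl : (X0 - 1, yF) ∉ P.Q) (hr1 : (X1, yF) ∉ P.Q) :
    KOK P n (fun i y => RA U yF X0 X1 r0 (P.side i).1 y) Xr := by
  -- horizontal neighbours
  have hH : ∀ x y, (x, y) ∈ P.Q → (x + 1, y) ∈ P.Q → ∀ a a', NoX Xr a a' →
      (RA U yF X0 X1 r0 (x, y) a ↔ RA U yF X0 X1 r0 (x + 1, y) a') := by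
    intro x y q1 q2 a a' hx
    have hx := hx _ hr
    unfold RA
    simp only
    rw [hU x y q1 q2]
    have key : (y = yF ∧ X0 ≤ x ∧ x < X1 ∧ r0 ≤ a) ↔ (y = yF ∧ X0 ≤ x + 1 ∧ x + 1 < X1 ∧ r0 ≤ a') := by
      constructor
      · rintro ⟨rfl, k1, k2, k3⟩
        refine ⟨rfl, by omega, ?_, by omega⟩
        rcases lt_or_eq_of_le (show x + 1 ≤ X1 by omega) with h | h
        · exact h
        · rw [h] at q2; exact absurd q2 hr1
      · rintro ⟨rfl, k1, k2, k3⟩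
        refine ⟨rfl, ?_, by omega, by omega⟩
        rcases lt_or_eq_of_le k1 with h | h
        · omega
        · have : x = X0 - 1 := by omega
          rw [this] at q1
          exact absurd q1 hl
    rw [key]
  -- vertical neighbours
  have hVe : ∀ x y, (x, y) ∈ P.Q → (x, y + 1) ∈ P.Q → ∀ a a', Rws n (x, y) a → Rws n (x, y + 1) a' →
      NoX Xr a a' → (RA U yF X0 X1 r0 (x, y) a ↔ RA U yF X0 X1 r0 (x, y + 1) a') := by
    intro x y q1 q2 a a' w1 w2 hx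
    have hx := hx _ hr
    obtain ⟨w11, w12⟩ := w1
    obtain ⟨w21, w22⟩ := w2
    simp only at w11 w12 w21 w22
    unfold RA
    simp only
    by_cases hc : y = yF ∧ X0 ≤ x ∧ x < X1
    · obtain ⟨rfl, k1, k2⟩ := hc
      have e : n * (y + 1) = n * y + n := by ring
      rw [e] at w21
      obtain ⟨u1, u2⟩ := hF x k1 k2
      constructor
      · intro _
        exact Or.inl u2
      · intro _
        right
        refine ⟨rfl, k1, k2, by omega⟩
    · rw [hV x y q1 q2 hc]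
      constructor
      · rintro (h | ⟨rfl, k1, k2, -⟩)
        · exact Or.inl h
        · exact absurd ⟨rfl, k1, k2⟩ hc
      · rintro (h | ⟨h, k1, k2, k3⟩)
        · exact Or.inl h
        · exfalso
          have e : n * yF = n * y + n := by rw [← h]; ring
          omega
  refine kok_region ?_ ?_
  · intro c hc y y' w1 w2 hx
    have hx := hx _ hr
    unfold RA
    constructor
    · rintro (h | ⟨k1, k2, k3, k4⟩)
      · exact Or.inl h
      · exact Or.inr ⟨k1, k2, k3, by omega⟩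
    · rintro (h | ⟨k1, k2, k3, k4⟩)
      · exact Or.inl h
      · exact Or.inr ⟨k1, k2, k3, by omega⟩
  · rintro ⟨x, y⟩ hc k hk a a' w1 w2 hx
    rcases dir_cases k with ⟨-, e⟩ | ⟨-, e⟩ | ⟨-, e⟩ | ⟨-, e⟩ <;> rw [e] at hk w2 ⊢ <;>
      simp only [Prod.mk_add_mk, add_zero] at hk w2 ⊢
    · exact hH x y hc hk a a' hx
    · exact hVe x y hc hk a a' w1 w2 hx
    · have := hH (x + -1) y hk (by rw [neg_add_cancel_right]; exact hc) a' a hx.symm
      rw [neg_add_cancel_right] at this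
      exact this.symm
    · have := hVe x (y + -1) hk (by rw [neg_add_cancel_right]; exact hc) a' a w2
        (by rw [neg_add_cancel_right]; exact w1) hx.symm
      rw [neg_add_cancel_right] at this
      exact this.symm

/-- **flipped above** -/
theorem KOK.above (K : KOK P n κ Xr) (hn : 0 < n) (hr : Xr (r0 - 1)) (h0 : n * yF ≤ r0 - 1)
    (h1 : r0 ≤ n * yF + n)
    (hU : ∀ x y, (x, y) ∈ P.Q → (x + 1, y) ∈ P.Q → (U (x + 1, y) ↔ U (x, y)))
    (hV : ∀ x y, (x, y) ∈ P.Q → (x, y + 1) ∈ P.Q → ¬ (y = yF ∧ X0 ≤ x ∧ x < X1) →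
      (U (x, y + 1) ↔ U (x, y)))
    (hF : ∀ x, X0 ≤ x → x < X1 → ¬ U (x, yF) ∧ U (x, yF + 1))
    (hl : (X0 - 1, yF) ∉ P.Q) (hr1 : (X1, yF) ∉ P.Q) :
    KOK P n (fun i y => Xor (κ i y) (RA U yF X0 X1 r0 (P.side i).1 y)) Xr :=
  K.xor (kok_above hn hr h0 h1 hU hV hF hl hr1)

/-- **flipped below** (`R` is the complement of the part above) -/
theorem KOK.below (K : KOK P n κ Xr) (hn : 0 < n) (hr : Xr (r0 - 1)) (h0 : n * yF ≤ r0 - 1)
    (h1 : r0 ≤ n * yF + n)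
    (hU : ∀ x y, (x, y) ∈ P.Q → (x + 1, y) ∈ P.Q → (U (x + 1, y) ↔ U (x, y)))
    (hV : ∀ x y, (x, y) ∈ P.Q → (x, y + 1) ∈ P.Q → ¬ (y = yF ∧ X0 ≤ x ∧ x < X1) →
      (U (x, y + 1) ↔ U (x, y)))
    (hF : ∀ x, X0 ≤ x → x < X1 → ¬ U (x, yF) ∧ U (x, yF + 1))
    (hl : (X0 - 1, yF) ∉ P.Q) (hr1 : (X1, yF) ∉ P.Q) {R : Cell → ℤ → Prop}
    (hR : ∀ c ∈ P.Q, ∀ y, R c y ↔ ¬ RA U yF X0 X1 r0 c y) :
    KOK P n (fun i y => Xor (κ i y) (R (P.side i).1 y)) Xr := by
  refine (K.xor (kok_above hn hr h0 h1 hU hV hF hl hr1).not).congr fun i _ y => ?_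
  rw [hR _ (side_isSide P i).1]

/-- **everything flipped** -/
theorem KOK.all (K : KOK P n κ Xr) : KOK P n (fun i y => Xor (κ i y) True) Xr :=
  K.not.congr fun i _ y => by unfold Xor; tauto

end Pool.Agent.H2.W.Run
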