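import Mathlib
import Pool.Agent.H78.W.VGo
import Pool.Agent.H19.W.RShift
import Pool.Agent.H19.W.Cut
import Pool.Agent.H2.W.KPart

set_option autoImplicit false
set_option linter.unusedVariables false
open Finset

/-! # RAISE: the part of the polygon behind a full row, and the plates

`CutD` : 19's `exists_cut` as a structure; `UU s` : the part above (`s = true`) or below; `CutD.part` : 19's `Part`.
`plg` : 19's `PlG` for the fine plates of a plated shape. -/

namespace Pool.Agent.H2.W.Run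

open Pool.Agent.Q1.M4 (Cell PType IsSide nextSide Good)
open Pool.Agent.H33.Q1 (lt tt ct TL lt_odd tt_lt lt_tt lt_inj mem_TL)
open Pool.Agent.H19.W
open Pool.Agent.H13.W (chG)
open Pool.Agent.H58.W (plV)
open Pool.Agent.H78.W (Thin Cc Rfn chG_sub)
open Pool.Agent.H21.FM (Shape)

/-- the full row of cells -/
def rn (y0 X0 X1 : ℤ) (c : Cell) : Prop := c.2 = y0 ∧ X0 ≤ c.1 ∧ c.1 < X1

/-- **The cut**: `U` = the cells behind the line between the rows `y0` and `y0 + 1` of the run. -/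
structure CutD (Q : Finset Cell) (U : Cell → Prop) (y0 X0 X1 : ℤ) : Prop where
  sub : ∀ c, U c → c ∈ Q
  hor : ∀ x y, (x, y) ∈ Q → (x + 1, y) ∈ Q → (U (x + 1, y) ↔ U (x, y))
  ver : ∀ x y, (x, y) ∈ Q → (x, y + 1) ∈ Q → ¬ (y = y0 ∧ X0 ≤ x ∧ x < X1) → (U (x, y + 1) ↔ U (x, y))
  cr : ∀ x, X0 ≤ x → x < X1 → ¬ U (x, y0) ∧ U (x, y0 + 1)
  inn : ∀ x, X0 ≤ x → x < X1 → (x, y0) ∈ Q
  lf : (X0 - 1, y0) ∉ Q
  rg : (X1, y0) ∉ Q

/-- the part above (`s = true`) or below the run -/
def UU (Q : Finset Cell) (U : Cell → Prop) (y0 X0 X1 : ℤ) (s : Bool) (c : Cell) : Prop :=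
  if s then U c else (c ∈ Q ∧ ¬ U c ∧ ¬ rn y0 X0 X1 c)

namespace CutD

variable {Q : Finset Cell} {U : Cell → Prop} {y0 X0 X1 n r0 : ℤ} {s : Bool} (H : CutD Q U y0 X0 X1)
include H

lemma rn_hor {a b : ℤ} (h1 : (a, b) ∈ Q) (h2 : (a + 1, b) ∈ Q) : rn y0 X0 X1 (a, b) ↔ rn y0 X0 X1 (a + 1, b) := by
  unfold rn
  simp only
  constructor
  · rintro ⟨rfl, k1, k2⟩
    refine ⟨rfl, by omega, ?_⟩
    rcases lt_or_eq_of_le (show a + 1 ≤ X1 by omega) with h | h
    · exact h
    · rw [h] at h2; exact absurd h2 H.rg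
  · rintro ⟨rfl, k1, k2⟩
    refine ⟨rfl, ?_, by omega⟩
    rcases lt_or_eq_of_le k1 with h | h
    · omega
    · have : a = X0 - 1 := by omega
      rw [this] at h1
      exact absurd h1 H.lf

lemma rn_not {c : Cell} (h : rn y0 X0 X1 c) : ¬ U c := by
  obtain ⟨a, b⟩ := c
  obtain ⟨h1, h2, h3⟩ := h
  simp only at h1 h2 h3
  rw [h1]
  exact (H.cr a h2 h3).1

/-- **19's `Part`.** -/
theorem part (h1 : n * y0 < r0) (h2 : r0 < n * y0 + n) :
    Part Q n (UU Q U y0 X0 X1 s) (rn y0 X0 X1) y0 r0 s where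
  rQ c hc := by
    obtain ⟨a, b⟩ := c
    obtain ⟨h1, h2, h3⟩ := hc
    simp only at h1 h2 h3
    rw [h1]
    exact H.inn a h2 h3
  ry c hc := hc.1
  r0 := ⟨h1, h2⟩
  ur c hc := by
    unfold UU at hc
    cases s
    · simp only [Bool.false_eq_true, if_false] at hc
      exact hc.2.2
    · simp only [if_true] at hc
      exact fun h => H.rn_not h hc
  u2 a b h1 h2 := by
    unfold UU
    rw [H.hor a b h1 h2, H.rn_hor h1 h2]
    simp only [h1, h2]
  r2 a b h1 h2 := H.rn_hor h1 h2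
  u3 a b h1 h2 h3 h4 := by
    unfold UU
    rw [H.ver a b h1 h2 (fun h => h3 h)]
    simp only [h1, h2, h3, h4]
  ua a b h1 h2 := by
    obtain ⟨k1, k2, k3⟩ := h1
    simp only at k1 k2 k3
    subst k1
    have := (H.cr a k2 k3).2
    unfold UU
    cases s
    · simp only [this, not_true_eq_false, false_and, and_false, if_false, Bool.false_eq_true]
    · simp only [this, if_true]
  ub a b h1 h2 := by
    have h3 := H.rn_not h1
    obtain ⟨k1, k2, k3⟩ := h1
    simp only at k1 k2 k3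
    have hq : (a, b + 1) ∈ Q := by rw [k1]; exact H.inn a k2 k3
    have h4 := H.ver a b h2 hq (by rintro ⟨e, -⟩; omega)
    have h5 : ¬ U (a, b) := fun h => h3 (h4.2 h)
    have h6 : ¬ rn y0 X0 X1 (a, b) := by rintro ⟨e, -⟩; simp only at e; omega
    unfold UU
    cases s
    · simp only [h2, h5, h6, not_false_eq_true, and_true, if_false, Bool.false_eq_true]
    · simp only [h5, if_true, Bool.true_eq_false]

omit H in
/-- the part above as cells and rows -/
lemma RR_true (c : Cell) (y : ℤ) : RR (UU Q U y0 X0 X1 true) (rn y0 X0 X1) r0 true c y ↔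
    RA U y0 X0 X1 r0 c y := by
  unfold RR RA UU rn
  simp only [if_true]
  tauto

/-- the part below as cells and rows -/
lemma RR_false {c : Cell} (hc : c ∈ Q) (y : ℤ) :
    RR (UU Q U y0 X0 X1 false) (rn y0 X0 X1) r0 false c y ↔ ¬ RA U y0 X0 X1 r0 c y := by
  have h1 : rn y0 X0 X1 c → ¬ U c := H.rn_not
  have h2 : RA U y0 X0 X1 r0 c y ↔ U c ∨ (rn y0 X0 X1 c ∧ r0 ≤ y) := by
    unfold RA rn; tauto
  rw [h2]
  unfold RR UU
  simp only [if_false, Bool.false_eq_true, hc, true_and]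
  constructor
  · rintro (⟨k1, k2⟩ | ⟨k1, k2⟩)
    · rintro (k | ⟨k, -⟩)
      · exact k1 k
      · exact k2 k
    · rintro (k | ⟨-, k⟩)
      · exact h1 k1 k
      · omega
  · intro h
    push Not at h
    by_cases k : rn y0 X0 X1 c
    · exact Or.inr ⟨k, h.2 k⟩
    · exact Or.inl ⟨h.1, k⟩

/-- **The colours stay coherent under the flip of a part.** -/
theorem kok {P : PType} (hQ : P.Q = Q) {κ : ℕ → ℤ → Prop} {Xr : ℤ → Prop} (K : KOK P n κ Xr) (hn : 0 < n)
    (h1 : n * y0 < r0) (h2 : r0 < n * y0 + n) (hr : Xr (r0 - 1)) (s : Bool) :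
    KOK P n (κF P (RR (UU Q U y0 X0 X1 s) (rn y0 X0 X1) r0 s) κ) Xr := by
  subst hQ
  cases s
  · exact K.below hn hr (by omega) (by omega) (fun x y a b => H.hor x y a b)
      (fun x y a b c => H.ver x y a b c) H.cr H.lf H.rg (fun c hc y => H.RR_false hc y)
  · refine (K.above hn hr (by omega) (by omega) (fun x y a b => H.hor x y a b)
      (fun x y a b c => H.ver x y a b c) H.cr H.lf H.rg).congr fun i _ y => ?_
    unfold κF
    rw [RR_true]

end CutD

/-! ### Plates -/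

section plates

variable {G : Finset Cell} {aL b : ℤ} {N M' : ℕ}

/-- **The fine plates.** -/
lemma plV_some (T : Thin G aL b N M') {X v K Y0 : ℤ} : plV G b N M' (X, v) = some (K, Y0) ↔
    X / (M' : ℤ) = K ∧ ((X / (N * M' : ℤ), Y0) : Cell) ∈ G ∧
      -(N * b - K) ≤ v - N * M' * Y0 ∧ v - N * M' * Y0 < N * b - K := by
  constructor
  · exact T.plV_name
  · rintro ⟨h1, h2, h3, h4⟩
    have hM := T.M0
    have hM'M := T.M'_le
    have hw := T.w_bd h2
    rw [h1] at hw
    have e : (v + N * M' / 2) / (N * M' : ℤ) = Y0 := by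
      have hh : v + N * M' / 2 = (v - N * M' * Y0 + N * M' / 2) + N * M' * Y0 := by ring
      rw [hh, Int.add_mul_ediv_left _ _ hM.ne', Int.ediv_eq_zero_of_lt (by omega) (by omega), zero_add]
    unfold plV
    simp only [Nat.cast_mul]
    rw [e, h1, if_pos ⟨h2, h3, h4⟩]

variable {Q : Finset Cell} {T : Shape}

/-- the cells of a plate are in the polygon -/
lemma pl_in (hT : Thin (chG Q) aL b N M') (hR : Rfn T Q (N * M')) {X v K Y0 : ℤ}
    (h1 : X / (M' : ℤ) = K) (h2 : ((X / (N * M' : ℤ), Y0) : Cell) ∈ chG Q)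
    (h3 : -(N * b - K) ≤ v - N * M' * Y0 + 1) (h4 : v - N * M' * Y0 ≤ N * b - K) : (X, v) ∈ T.P.Q := by
  have hM := hT.M0
  have hM'M := hT.M'_le
  have hw := hT.w_bd h2
  rw [h1] at hw
  have hc := chG_sub h2
  simp only at hc
  rw [hR]
  rcases lt_or_ge v (N * M' * Y0) with h5 | h5
  · have e : v / (N * M' : ℤ) = Y0 - 1 := by
      apply Pool.Agent.H78.W.div_in hM <;> linarith
    rw [e]; exact hc.2
  · have e : v / (N * M' : ℤ) = Y0 := by
      apply Pool.Agent.H78.W.div_in hM <;> linarith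
    rw [e]; exact hc.1

/-- **Geometry of the fine plates.** -/
theorem plg (hT : Thin (chG Q) aL b N M') (hR : Rfn T Q (N * M')) : PlG T.P.Q (plV (chG Q) b N M') where
  p3 x y hc hp := by
    obtain ⟨⟨K, Y0⟩, hK⟩ := Option.ne_none_iff_exists'.1 hp
    obtain ⟨h1, h2, h3, h4⟩ := (plV_some hT).1 hK
    exact ⟨pl_in hT hR h1 h2 (by omega) (by omega), pl_in hT hR h1 h2 (by omega) (by omega)⟩
  p4 x y _ _ hp hq := by
    obtain ⟨⟨K, Y0⟩, hK⟩ := Option.ne_none_iff_exists'.1 hp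
    obtain ⟨⟨K', Y1⟩, hK'⟩ := Option.ne_none_iff_exists'.1 hq
    obtain ⟨h1, h2, h3, h4⟩ := (plV_some hT).1 hK
    obtain ⟨h1', h2', h3', h4'⟩ := (plV_some hT).1 hK'
    rw [hK, hK']
    have hw := hT.w_bd h2
    have hw' := hT.w_bd h2'
    have hM := hT.M0
    have hM'M := hT.M'_le
    have e : Y0 = Y1 := by
      rcases lt_trichotomy Y0 Y1 with h | h | h
      · have : (N * M' : ℤ) * (Y0 + 1) ≤ N * M' * Y1 := by nlinarith
        have e : (N * M' : ℤ) * (Y0 + 1) = N * M' * Y0 + N * M' := by ring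
        omega
      · exact h
      · have : (N * M' : ℤ) * (Y1 + 1) ≤ N * M' * Y0 := by nlinarith
        have e : (N * M' : ℤ) * (Y1 + 1) = N * M' * Y1 + N * M' := by ring
        omega
    rw [← h1, ← h1', e]

/-- two cells of one plate are joined inside the plate: an indicator which is constant between neighbours
(away from a set without plates) is constant on the plate -/
theorem pl_const (hT : Thin (chG Q) aL b N M') (hR : Rfn T Q (N * M')) {U Z : Cell → Prop}
    (hZ : ∀ c, Z c → plV (chG Q) b N M' c = none)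
    (hor : ∀ x y, (x, y) ∈ T.P.Q → (x + 1, y) ∈ T.P.Q → (U (x, y) ↔ U (x + 1, y)))
    (ver : ∀ x y, (x, y) ∈ T.P.Q → (x, y + 1) ∈ T.P.Q → ¬ Z (x, y) → ¬ Z (x, y + 1) → (U (x, y) ↔ U (x, y + 1)))
    {c c' : Cell} (h1 : plV (chG Q) b N M' c ≠ none)
    (h2 : plV (chG Q) b N M' c = plV (chG Q) b N M' c') : U c ↔ U c' := by
  obtain ⟨x, y⟩ := c
  obtain ⟨x', y'⟩ := c'
  obtain ⟨⟨K, Y0⟩, hK⟩ := Option.ne_none_iff_exists'.1 h1
  have hK' := hK
  rw [h2] at hK'
  obtain ⟨a1, a2, a3, a4⟩ := (plV_some hT).1 hK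
  obtain ⟨b1, b2, b3, b4⟩ := (plV_some hT).1 hK'
  have hM' := hT.M0'
  have hM := hT.M0
  have hXN : ∀ u : ℤ, u / (M' : ℤ) = K → u / (N * M' : ℤ) = K / N := by
    intro u hu
    rw [show (N * M' : ℤ) = M' * N by ring, ← Int.ediv_ediv_of_nonneg hM'.le, hu]
  rw [hXN x a1] at a2
  -- membership in the plate
  have key : ∀ u v : ℤ, u / (M' : ℤ) = K → -(N * b - K) ≤ v - N * M' * Y0 → v - N * M' * Y0 < N * b - K →
      (u, v) ∈ T.P.Q ∧ ¬ Z (u, v) := by
    intro u v g1 g2 g3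
    have g4 : ((u / (N * M' : ℤ), Y0) : Cell) ∈ chG Q := by rw [hXN u g1]; exact a2
    refine ⟨pl_in hT hR g1 g4 (by omega) (by omega), fun hz => ?_⟩
    have := hZ _ hz
    rw [(plV_some hT).2 ⟨g1, g4, g2, g3⟩] at this
    exact absurd this (by simp)
  -- vertical
  have hv : ∀ u v v' : ℤ, u / (M' : ℤ) = K → -(N * b - K) ≤ v - N * M' * Y0 → v - N * M' * Y0 < N * b - K →
      -(N * b - K) ≤ v' - N * M' * Y0 → v' - N * M' * Y0 < N * b - K → v ≤ v' → (U (u, v) ↔ U (u, v')) := by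
    intro u v v' g1 g2 g3 g4 g5 g6
    induction v', g6 using Int.leInduction with
    | base => exact Iff.rfl
    | succ v' hv ih =>
      have k1 := key u v' g1 (by omega) (by omega)
      have k2 := key u (v' + 1) g1 (by omega) (by omega)
      exact (ih (by omega) (by omega)).trans (ver u v' k1.1 k2.1 k1.2 k2.2)
  -- horizontal
  have hh : ∀ u u' v : ℤ, u / (M' : ℤ) = K → u' / (M' : ℤ) = K → -(N * b - K) ≤ v - N * M' * Y0 →
      v - N * M' * Y0 < N * b - K → u ≤ u' → (U (u, v) ↔ U (u', v)) := by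
    intro u u' v g1 g2 g3 g4 g6
    have hmid : ∀ w, u ≤ w → w ≤ u' → w / (M' : ℤ) = K := by
      intro w w1 w2
      have := Int.ediv_le_ediv hM' w1
      have := Int.ediv_le_ediv hM' w2
      omega
    have : ∀ w, u ≤ w → w ≤ u' → (U (u, v) ↔ U (w, v)) := by
      intro w hw
      induction w, hw using Int.leInduction with
      | base => exact fun _ => Iff.rfl
      | succ w hw ih =>
        intro hle
        have k1 := key w v (hmid w hw (by omega)) g3 g4
        have k2 := key (w + 1) v (hmid (w + 1) (by omega) hle) g3 g4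
        exact (ih (by omega)).trans (hor w v k1.1 k2.1)
    exact this u' g6 le_rfl
  have s1 : U (x, y) ↔ U (x, y') := by
    rcases le_total y y' with h | h
    · exact hv x y y' a1 a3 a4 b3 b4 h
    · exact (hv x y' y a1 b3 b4 a3 a4 h).symm
  refine s1.trans ?_
  rcases le_total x x' with h | h
  · exact hh x x' y' a1 b1 b3 b4 h
  · exact (hh x' x y' b1 a1 b3 b4 h).symm

end plates

end Pool.Agent.H2.W.Run
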