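import Mathlib
import Pool.Agent.H2.W.RGeo

set_option autoImplicit false
set_option linter.unusedVariables false
open Finset

/-! # RAISE: 19's hypotheses `PHyp` for the part behind the tooth of a chord

`cut_ex` : the cut behind the tooth, in a full row of cells half way to the next coarse line. `kok19` : 19's
coherence of the colours of the world of a tile. `phyp_of` : `PHyp` for a tile of the narrow room. -/

namespace Pool.Agent.H2.W.Run

open Pool.Agent.H75.Perc (dir dir_cases)
open Pool.Agent.Q1.M4 (Cell PType IsSide nextSide Good)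
open Pool.Agent.H33.Q1 (lt tt ct TL LY mem_LY ct_eq lt_odd tt_lt lt_tt lt_inj mem_TL)
open Pool.Agent.H19.W
open Pool.Agent.H13.W (chG)
open Pool.Agent.H58.W (plV)
open Pool.Agent.H50.W (rf)
open Pool.Agent.H68.W (sx sx_spec sx_eq sx_next isSide1 isSide3)
open Pool.Agent.H78.W (Thin Cc Rfn PicD rfn div_in)
open Pool.Agent.H21.FM (Shape)
open Pool.Agent.H74.W (Ex Del)

/-! ### 19's coherence for `κz` -/

section kz

variable {S : Shape} {h : ℕ} {p : ℤ × ℤ}

/-- **19's `KOK` for the colours of the world of `p`.** -/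
theorem kok19 (hh : 0 < h) : Pool.Agent.H19.W.KOK S.P (2 * (h : ℤ)) (κz S h p) (fun i _ => Ex S h p i) := by
  refine ⟨fun i hi hk y hex => ?_, fun i hi i' hi' a b h1 h2 hk hkk hex => ?_⟩
  · unfold κz
    have key : ∀ t, Ex S h p t → ((t < i ∨ (t = i ∧ p.2 < y)) ↔ (t < i ∨ (t = i ∧ p.2 < y + 1))) := by
      intro t ht
      have : t ≠ i := fun e => hex (e ▸ ht)
      simp only [this, false_and, or_false]
    have key2 : (∃ t, Ex S h p t ∧ (t < i ∨ (t = i ∧ p.2 < y))) ↔
        ∃ t, Ex S h p t ∧ (t < i ∨ (t = i ∧ p.2 < y + 1)) :=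
      exists_congr fun t => and_congr_right fun ht => key t ht
    rw [key2]
  · have hex' : ¬ Ex S h p i := hex
    -- the two sides are consecutive
    have s1 : IsSide S.P.Q ((a, b), (S.P.side i).2) := by
      have := Pool.Agent.H19.W.side_is (P := S.P) i
      rw [← h1]; exact this
    have s2 : IsSide S.P.Q ((a, b + 1), (S.P.side i').2) := by
      have := Pool.Agent.H19.W.side_is (P := S.P) i'
      rw [← h2]; exact this
    have e1 : sx S.P (a, b) (S.P.side i).2 = i := sx_eq hi h1 (by omega)
    have e2 : sx S.P (a, b + 1) (S.P.side i').2 = i' := sx_eq hi' h2 (by omega)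
    have e2' : sx S.P (a, b + 1) (S.P.side i).2 = i' := sx_eq hi' h2 (by omega)
    have e1' : sx S.P (a, b) (S.P.side i').2 = i := sx_eq hi h1 (by omega)
    rcases hk with hk | hk
    · -- up
      have hk' : (S.P.side i').2 % 4 = 1 := by omega
      have hnx : nextSide S.P.Q ((a, b), (S.P.side i).2) = ((a, b + 1), (S.P.side i).2) := by
        unfold nextSide
        simp only
        have d1 : dir (S.P.side i).2 = (0, 1) := dirp.2.1 hk
        have d2 : dir ((S.P.side i).2 - 1) = (1, 0) := dirq.2.1 hk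
        have d3 : dir ((S.P.side i').2 - 1) = (1, 0) := dirq.2.1 hk'
        have hq := s2.1
        have ho := s2.2
        simp only at hq ho
        rw [d3] at ho
        rw [d1, d2]
        rw [if_neg (by simpa using ho), if_pos (by simpa using hq)]
        simp
      obtain ⟨k1, k2⟩ := sx_next s1 hnx
      rw [e1] at k1 k2
      rw [e2'] at k2
      have hc1 := S.cvx i
      have key : ¬ (i + 1 = S.m2 ∨ i + 1 = S.m3 ∨ i + 1 = S.P.m ∨ i + 1 = S.P.N) := by
        intro h5
        have h6 := hc1 h5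
        rw [k1, Prod.mk.injEq, h1] at h6
        have := h6.1
        simp only [Prod.mk.injEq, true_and] at this
        omega
      push Not at key
      obtain ⟨m1, m2, m3, m4⟩ := key
      have hi2 : i' = i + 1 := by
        rcases k2 with ⟨-, k2⟩ | ⟨k2, -⟩
        · exact k2
        · exact absurd k2 m4
      unfold κz
      have hexx : (∃ t, Ex S h p t ∧ (t < i ∨ (t = i ∧ p.2 < 2 * (h : ℤ) * b + 2 * h - 1))) ↔
          ∃ t, Ex S h p t ∧ (t < i' ∨ (t = i' ∧ p.2 < 2 * (h : ℤ) * b + 2 * h)) := by
        refine exists_congr fun t => and_congr_right fun ht => ?_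
        have n1 : t ≠ i := fun e => hex' (e ▸ ht)
        constructor
        · rintro (h4 | ⟨h4, -⟩)
          · exact Or.inl (by omega)
          · exact absurd h4 n1
        · rintro (h4 | ⟨h4, h5⟩)
          · exact Or.inl (by omega)
          · exfalso
            obtain ⟨-, q1, q2, q3⟩ := Ex_row hh ht
            subst h4
            rw [h2] at q2
            simp only at q2
            have : 2 * (h : ℤ) * (b + 1) = 2 * (h : ℤ) * b + 2 * (h : ℤ) := by ring
            omega
      rw [hexx]
      have hm : ∀ a b : ℕ, i + 1 ≠ a → i + 1 ≠ b → ((a ≤ i ∧ i < b) ↔ (a ≤ i + 1 ∧ i + 1 < b)) := by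
        intro a b _ _
        omega
      rw [hm _ _ m1 m2, hi2]
    · -- down
      have hk' : (S.P.side i').2 % 4 = 3 := by omega
      have hnx : nextSide S.P.Q ((a, b + 1), (S.P.side i').2) = ((a, b), (S.P.side i').2) := by
        unfold nextSide
        simp only
        have d1 : dir (S.P.side i').2 = (0, -1) := dirp.2.2.2 hk'
        have d2 : dir ((S.P.side i').2 - 1) = (-1, 0) := dirq.2.2.2 hk'
        have d3 : dir ((S.P.side i).2 - 1) = (-1, 0) := dirq.2.2.2 hk
        have hq := s1.1
        have ho := s1.2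
        simp only at hq ho
        rw [d3] at ho
        rw [d1, d2]
        rw [if_neg (by simpa using ho), if_pos (by simpa using hq)]
        simp
      obtain ⟨k1, k2⟩ := sx_next s2 hnx
      rw [e2] at k1 k2
      rw [e1'] at k2
      have hc1 := S.cvx i'
      have key : ¬ (i' + 1 = S.m2 ∨ i' + 1 = S.m3 ∨ i' + 1 = S.P.m ∨ i' + 1 = S.P.N) := by
        intro h5
        have h6 := hc1 h5
        rw [k1, Prod.mk.injEq, h2] at h6
        have := h6.1
        simp only [Prod.mk.injEq, true_and] at this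
        omega
      push Not at key
      obtain ⟨m1, m2, m3, m4⟩ := key
      have hi2 : i = i' + 1 := by
        rcases k2 with ⟨-, k2⟩ | ⟨k2, -⟩
        · exact k2
        · exact absurd k2 m4
      unfold κz
      have hexx : (∃ t, Ex S h p t ∧ (t < i ∨ (t = i ∧ p.2 < 2 * (h : ℤ) * b + 2 * h - 1))) ↔
          ∃ t, Ex S h p t ∧ (t < i' ∨ (t = i' ∧ p.2 < 2 * (h : ℤ) * b + 2 * h)) := by
        refine exists_congr fun t => and_congr_right fun ht => ?_
        have q1 := (Ex_row hh ht).2.1
        have n1 : t ≠ i := by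
          rintro rfl
          omega
        have n2 : t ≠ i' := by
          rintro rfl
          omega
        constructor
        · rintro (h4 | ⟨h4, -⟩)
          · exact Or.inl (by omega)
          · exact absurd h4 n1
        · rintro (h4 | ⟨h4, h5⟩)
          · exact Or.inl (by omega)
          · exact absurd h4 n2
      rw [hexx]
      have hm : ∀ a b : ℕ, i' + 1 ≠ a → i' + 1 ≠ b → ((a ≤ i' ∧ i' < b) ↔ (a ≤ i' + 1 ∧ i' + 1 < b)) := by
        intro a b _ _
        omega
      rw [hi2, ← hm _ _ m1 m2]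

lemma KOK19.not {P : PType} {n : ℤ} {κ ex : ℕ → ℤ → Prop} (K : Pool.Agent.H19.W.KOK P n κ ex) :
    Pool.Agent.H19.W.KOK P n (fun i y => ¬ κ i y) ex where
  v1 i hi hk y hex := not_congr (K.v1 i hi hk y hex)
  v2 i hi i' hi' a b h1 h2 hk hkk hex := not_congr (K.v2 i hi i' hi' a b h1 h2 hk hkk hex)

end kz

/-! ### Constancy of a part along segments -/

section seg

variable {Q : Finset Cell} {n : ℤ} {U run : Cell → Prop} {y0 r0 : ℤ} {s : Bool}

lemma part_hor (H : Part Q n U run y0 r0 s) {x x' v : ℤ} (hx : x ≤ x')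
    (h : ∀ w, x ≤ w → w ≤ x' → (w, v) ∈ Q) : U (x, v) ↔ U (x', v) := by
  have : ∀ w, x ≤ w → w ≤ x' → (U (x, v) ↔ U (w, v)) := by
    intro w hw
    induction w, hw using Int.leInduction with
    | base => exact fun _ => Iff.rfl
    | succ w hw ih =>
      intro hle
      exact (ih (by omega)).trans (H.u2 w v (h w hw (by omega)) (h (w + 1) (by omega) hle))
  exact this x' hx le_rfl

lemma part_ver (H : Part Q n U run y0 r0 s) {x v v' : ℤ} (hv : v ≤ v')
    (h : ∀ w, v ≤ w → w ≤ v' → (x, w) ∈ Q ∧ ¬ run (x, w)) : U (x, v) ↔ U (x, v') := by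
  have : ∀ w, v ≤ w → w ≤ v' → (U (x, v) ↔ U (x, w)) := by
    intro w hw
    induction w, hw using Int.leInduction with
    | base => exact fun _ => Iff.rfl
    | succ w hw ih =>
      intro hle
      have k1 := h w hw (by omega)
      have k2 := h (w + 1) (by omega) hle
      exact (ih (by omega)).trans (H.u3 x w k1.1 k2.1 k1.2 k2.2)
  exact this v' hv le_rfl

end seg

/-! ### The cut behind the tooth -/

/-- row of cells of the cut -/
def yF (sg : Bool) (M Y0 : ℤ) : ℤ := if sg then M * Y0 + M / 2 else M * Y0 - M / 2 - 1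

section inst

variable {S : Shape} {aL b : ℤ} {N M' h : ℕ} {hM : 0 < N * M'} {sg : Bool} {a0 be bt bw Y0 k0 : ℤ}
  (D : PicD S aL b N M' h hM sg true a0 be bt bw Y0 k0)
include D

/-- **The cut behind the tooth.** -/
theorem cut_ex : ∃ U : Cell → Prop,
    CutD (rf S (N * M') hM).P.Q U (yF sg (N * M') Y0) (N * M' * bt) (N * M' * bw) ∧
    ∀ i < (rf S (N * M') hM).P.N, U ((rf S (N * M') hM).P.side i).1 ↔
      Bh (sx (rf S (N * M') hM).P (N * M' * bw - 1, yF sg (N * M') Y0) 1)
        (sx (rf S (N * M') hM).P (N * M' * bt, yF sg (N * M') Y0) 3) i := by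
  have hm := D.mm
  have hT := rfn S hM
  have hC := D.C
  have hm1 : (1 : ℤ) < N * M' := by omega
  obtain ⟨n1, n2, n3, n4⟩ := hC.nums hm1 hT
  have n5 := n4 rfl
  have hband : ∀ v, yF sg (N * M') Y0 ≤ v → v ≤ yF sg (N * M') Y0 + 1 →
      if sg then N * M' * Y0 ≤ v ∧ v < N * M' * Y0 + N * M'
      else N * M' * Y0 - N * M' ≤ v ∧ v < N * M' * Y0 := by
    intro v h1 h2
    unfold yF at h1 h2
    cases sg
    · simp only [Bool.false_eq_true, if_false] at h1 h2 ⊢; omega
    · simp only [if_true] at h1 h2 ⊢; omega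
  have hb0 := hband _ le_rfl (by omega)
  have hb1 := hband (yF sg (N * M') Y0 + 1) (by omega) le_rfl
  have hin : ∀ x, N * M' * bt ≤ x → x < N * M' * bw → (x, yF sg (N * M') Y0) ∈ (rf S (N * M') hM).P.Q ∧
      (x, yF sg (N * M') Y0 + 1) ∈ (rf S (N * M') hM).P.Q := fun x h1 h2 =>
    ⟨hC.q4 hm1 hT rfl h1 h2 hb0, hC.q4 hm1 hT rfl h1 h2 hb1⟩
  have hl : (N * M' * bt - 1, yF sg (N * M') Y0) ∉ (rf S (N * M') hM).P.Q :=
    hC.q3 hm1 hT (by omega) (by omega) hb0
  have hr : (N * M' * bw, yF sg (N * M') Y0) ∉ (rf S (N * M') hM).P.Q := by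
    refine hC.q5 hm1 hT le_rfl (by omega) ?_ ?_
    · cases sg
      · simp only [Bool.false_eq_true, if_false] at hb0; omega
      · simp only [if_true] at hb0; omega
    · cases sg
      · simp only [Bool.false_eq_true, if_false] at hb0; omega
      · simp only [if_true] at hb0; omega
  have sa : IsSide (rf S (N * M') hM).P.Q ((N * M' * bw - 1, yF sg (N * M') Y0), 1) :=
    isSide1.2 ⟨(hin _ (by omega) (by omega)).1, by rw [sub_add_cancel]; exact hr⟩
  have sb : IsSide (rf S (N * M') hM).P.Q ((N * M' * bt, yF sg (N * M') Y0), 3) :=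
    isSide3.2 ⟨(hin _ le_rfl (by omega)).1, hl⟩
  obtain ⟨a1, a2, a3⟩ := sx_spec sa
  obtain ⟨b1, b2, b3⟩ := sx_spec sb
  obtain ⟨U, u1, u2, u3, u4, u5⟩ := exists_cut (rf S (N * M') hM).P (y0 := yF sg (N * M') Y0)
    (X0 := N * M' * bt) (X1 := N * M' * bw) (by omega) hin a1 b1 a2 (by omega) b2 (by omega)
  exact ⟨U, ⟨u1, u2, u3, u4, fun x h1 h2 => (hin x h1 h2).1, hl, hr⟩, u5⟩

/-- the row of cells of the cut does not meet the plates -/
lemma run_pl {c : Cell} (hc : rn (yF sg (N * M') Y0) (N * M' * bt) (N * M' * bw) c) :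
    plV (chG S.P.Q) b N M' c = none := by
  obtain ⟨x, y⟩ := c
  obtain ⟨h1, h2, h3⟩ := hc
  simp only at h1 h2 h3
  by_contra hp
  obtain ⟨⟨K, Y1⟩, hK⟩ := Option.ne_none_iff_exists'.1 hp
  obtain ⟨k1, k2, k3, k4⟩ := (plV_some D.T).1 hK
  have hw := D.T.w_bd k2
  rw [k1] at hw
  have hm := D.mm
  have hM'M := D.T.M'_le
  unfold yF at h1
  rcases lt_trichotomy Y0 Y1 with h | h | h
  · have : (N * M' : ℤ) * (Y0 + 1) ≤ N * M' * Y1 := by nlinarith
    have e : (N * M' : ℤ) * (Y0 + 1) = N * M' * Y0 + N * M' := by ring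
    cases sg
    · simp only [Bool.false_eq_true, if_false] at h1; omega
    · simp only [if_true] at h1; omega
  · subst h
    cases sg
    · simp only [Bool.false_eq_true, if_false] at h1; omega
    · simp only [if_true] at h1; omega
  · have : (N * M' : ℤ) * (Y1 + 1) ≤ N * M' * Y0 := by nlinarith
    have e : (N * M' : ℤ) * (Y1 + 1) = N * M' * Y1 + N * M' := by ring
    cases sg
    · simp only [Bool.false_eq_true, if_false] at h1; omega
    · simp only [if_true] at h1; omega

variable {U : Cell → Prop} (HC : CutD (rf S (N * M') hM).P.Q U (yF sg (N * M') Y0) (N * M' * bt) (N * M' * bw))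
include HC

/-- the part behind the tooth as 19's `Part`, row `r0` in the middle of the row of cells -/
lemma part_of : Part (rf S (N * M') hM).P.Q (2 * (h : ℤ))
    (UU (rf S (N * M') hM).P.Q U (yF sg (N * M') Y0) (N * M' * bt) (N * M' * bw) sg)
    (rn (yF sg (N * M') Y0) (N * M' * bt) (N * M' * bw)) (yF sg (N * M') Y0)
    (2 * (h : ℤ) * yF sg (N * M') Y0 + h) sg := by
  have := D.h0
  exact HC.part (by omega) (by omega)

/-- **Cells of the narrow room next to the tooth are not behind it.** -/
theorem not_U {X v : ℤ} (h1 : N * M' * a0 ≤ X) (h2 : X < N * M' * be)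
    (h3 : if sg then N * M' * Y0 ≤ v ∧ v < N * M' * Y0 + N * M'
      else N * M' * Y0 - N * M' ≤ v ∧ v < N * M' * Y0) :
    ¬ UU (rf S (N * M') hM).P.Q U (yF sg (N * M') Y0) (N * M' * bt) (N * M' * bw) sg (X, v) := by
  have hm := D.mm
  have hT := rfn S hM
  have hC := D.C
  have hm1 : (1 : ℤ) < N * M' := by omega
  obtain ⟨n1, n2, n3, n4⟩ := hC.nums hm1 hT
  have n5 := n4 rfl
  have HP := part_of D HC
  -- row on the wide side
  set w : ℤ := if sg then N * M' * Y0 - 1 else N * M' * Y0 with hw
  have hq : ∀ x, X ≤ x → x ≤ N * M' * bt → (x, w) ∈ (rf S (N * M') hM).P.Q := by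
    intro x g1 g2
    rcases lt_or_ge x (N * M' * be) with g3 | g3
    · refine hC.q1 hm1 hT (by omega) g3 ?_ ?_
      · cases sg
        · simp only [Bool.false_eq_true, if_false] at hw; omega
        · simp only [if_true] at hw; omega
      · cases sg
        · simp only [Bool.false_eq_true, if_false] at hw; omega
        · simp only [if_true] at hw; omega
    · refine hC.q2 hm1 hT g3 (by omega) ?_
      cases sg
      · simp only [Bool.false_eq_true, if_false] at hw ⊢; omega
      · simp only [if_true] at hw ⊢; omega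
  have e1 := part_hor HP (x := X) (x' := N * M' * bt) (v := w) (by omega) hq
  rw [show ((X, v) : Cell) = (X, v) from rfl]
  cases sg
  · -- the tooth is below
    simp only [Bool.false_eq_true, if_false] at hw h3
    have e2 := part_ver HP (x := X) (v := v) (v' := w) (by omega) (fun u g1 g2 =>
      ⟨hC.q1 hm1 hT h1 h2 (by omega) (by omega), fun hr => by obtain ⟨-, r2, -⟩ := hr; simp only at r2; omega⟩)
    have hyF : yF false (N * M') Y0 = N * M' * Y0 - N * M' / 2 - 1 := rfl
    have e3 := part_ver HP (x := N * M' * bt) (v := yF false (N * M') Y0 + 1) (v' := w) (by omega)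
      (fun u g1 g2 => ⟨by
        rcases eq_or_lt_of_le g2 with g3 | g3
        · rw [g3]; exact hq _ (by omega) le_rfl
        · exact hC.q4 hm1 hT rfl le_rfl (by omega)
            (by simp only [Bool.false_eq_true, if_false]; omega), fun hr => by
        obtain ⟨r1, -, -⟩ := hr; simp only at r1; omega⟩)
    have e4 := HP.ua (N * M' * bt) (yF false (N * M') Y0) ⟨rfl, le_rfl, by simp only; omega⟩
      (hC.q4 hm1 hT rfl le_rfl (by omega) (by simp only [Bool.false_eq_true, if_false]; omega))
    rw [e2, e1, ← e3, e4]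
    simp
  · simp only [if_true] at hw h3
    have e2 := part_ver HP (x := X) (v := w) (v' := v) (by omega) (fun u g1 g2 =>
      ⟨hC.q1 hm1 hT h1 h2 (by omega) (by omega), fun hr => by obtain ⟨-, r2, -⟩ := hr; simp only at r2; omega⟩)
    have hyF : yF true (N * M') Y0 = N * M' * Y0 + N * M' / 2 := rfl
    have e3 := part_ver HP (x := N * M' * bt) (v := w) (v' := yF true (N * M') Y0 - 1) (by omega)
      (fun u g1 g2 => ⟨by
        rcases eq_or_lt_of_le g1 with g3 | g3
        · rw [← g3]; exact hq _ (by omega) le_rfl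
        · exact hC.q4 hm1 hT rfl le_rfl (by omega) (by simp only [if_true]; omega), fun hr => by
        obtain ⟨r1, -, -⟩ := hr; simp only at r1; omega⟩)
    have e4 := HP.ub (N * M' * bt) (yF true (N * M') Y0 - 1)
      ⟨by simp only; omega, le_rfl, by simp only; omega⟩
      (hC.q4 hm1 hT rfl le_rfl (by omega) (by simp only [if_true]; omega))
    rw [← e2, e1, e3, e4]
    simp

end inst

end Pool.Agent.H2.W.Run
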