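import Mathlib
import Pool.Agent.H2.W.RInst

set_option autoImplicit false
set_option linter.unusedVariables false
open Finset

/-! # RAISE: `PHyp` for a tile of the narrow room next to a tooth -/

namespace Pool.Agent.H2.W.Run

open Pool.Agent.H75.Perc (dir dir_cases)
open Pool.Agent.Q1.M4 (Cell PType IsSide nextSide Good)
open Pool.Agent.H33.Q1 (lt tt ct TL LY mem_LY ct_eq lt_odd tt_lt lt_tt lt_inj mem_TL)
open Pool.Agent.H19.W
open Pool.Agent.H13.W (chG)
open Pool.Agent.H58.W (plV)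
open Pool.Agent.H50.W (rf)
open Pool.Agent.H68.W (sx sx_spec sx_eq sx_next isSide1 isSide3)
open Pool.Agent.H78.W (Thin Cc Rfn PicD rfn div_in)
open Pool.Agent.H21.FM (Shape)
open Pool.Agent.H74.W (Ex Del)

/-- **The tile `p` is in the narrow room next to the tooth.** -/
structure NarP (S : Shape) (N M' h : ℕ) (sg : Bool) (a0 be Y0 : ℤ) (p : ℤ × ℤ) : Prop where
  c1 : N * M' * a0 ≤ p.1 / (2 * (h : ℤ))
  c2 : p.1 / (2 * (h : ℤ)) < N * M' * be
  r : if sg then N * M' * Y0 ≤ p.2 / (2 * (h : ℤ)) ∧ p.2 / (2 * (h : ℤ)) < N * M' * Y0 + N * M'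
    else N * M' * Y0 - N * M' ≤ p.2 / (2 * (h : ℤ)) ∧ p.2 / (2 * (h : ℤ)) < N * M' * Y0

section inst

variable {S : Shape} {aL b : ℤ} {N M' h : ℕ} {hM : 0 < N * M'} {sg P : Bool} {a0 be bt bw Y0 k0 : ℤ}
  (D : PicD S aL b N M' h hM sg P a0 be bt bw Y0 k0) {p : ℤ × ℤ} (Hp : NarP S N M' h sg a0 be Y0 p)
include D Hp

/-- the cell of a tile of the narrow room -/
lemma nar_ct : ct (2 * (h : ℤ)) p ∈ (rf S (N * M') hM).P.Q := by
  have hm := D.mm
  have hm1 : (1 : ℤ) < N * M' := by omega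
  have hr := Hp.r
  refine D.C.q1 hm1 (rfn S hM) Hp.c1 Hp.c2 ?_ ?_
  · cases sg
    · simp only [Bool.false_eq_true, if_false] at hr; omega
    · simp only [if_true] at hr; omega
  · cases sg
    · simp only [Bool.false_eq_true, if_false] at hr; omega
    · simp only [if_true] at hr; omega

/-- the row of `p` ends at the tooth -/
lemma nar_row {x : ℤ} (h1 : p.1 ≤ x) (h2 : ∀ x', p.1 ≤ x' → x' ≤ x → ct (2 * (h : ℤ)) (x', p.2) ∈ (rf S (N * M') hM).P.Q) :
    N * M' * a0 ≤ x / (2 * (h : ℤ)) ∧ x / (2 * (h : ℤ)) < N * M' * be := by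
  have hn : (0 : ℤ) < 2 * h := by have := D.n4; omega
  have hm := D.mm
  have hm1 : (1 : ℤ) < N * M' := by omega
  obtain ⟨n1, n2, n3, n4⟩ := D.C.nums hm1 (rfn S hM)
  have c1 := Hp.c1
  have c2 := Hp.c2
  refine ⟨c1.trans (Int.ediv_le_ediv hn h1), ?_⟩
  by_contra hc
  push Not at hc
  have h3 : 2 * (h : ℤ) * (N * M' * be) ≤ x := by
    have := (Int.le_ediv_iff_mul_le hn).1 hc
    linarith
  have h4 : p.1 < 2 * (h : ℤ) * (N * M' * be) := by
    have := (Int.ediv_lt_iff_lt_mul hn).1 c2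
    linarith
  have h5 := h2 (2 * (h : ℤ) * (N * M' * be)) h4.le h3
  have e : ct (2 * (h : ℤ)) (2 * (h : ℤ) * (N * M' * be), p.2) = (N * M' * be, p.2 / (2 * (h : ℤ))) := by
    unfold ct
    simp only
    rw [Int.mul_ediv_cancel_left _ hn.ne']
  rw [e] at h5
  exact D.C.q3 hm1 (rfn S hM) le_rfl (by omega) Hp.r h5

/-- **The deleted labels of the world of `p`** are attached to cells of the narrow room left of the tooth. -/
lemma del_cell {e : ℤ × ℤ} (he : e ∈ Del (rf S (N * M') hM).P.Q (2 * (h : ℤ)) p) :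
    e ∈ LamC (rf S (N * M') hM).P.Q (2 * (h : ℤ)) ∧ (tt e).2 = p.2 ∧ ∃ X : ℤ, N * M' * a0 ≤ X ∧ X < N * M' * be ∧
      ac (rf S (N * M') hM).P.Q (2 * (h : ℤ)) (tt e) = (X, p.2 / (2 * (h : ℤ))) := by
  have hn : (0 : ℤ) < 2 * h := by have := D.n4; omega
  obtain ⟨h1, h2, h3, h4⟩ := he
  have hp := nar_ct D Hp
  set x := (tt e).1 with hx
  have ht : tt e = (x, p.2) := Prod.ext rfl h2
  by_cases hc : ct (2 * (h : ℤ)) (tt e) ∈ (rf S (N * M') hM).P.Q
  · have h5 := nar_row D Hp h3 (fun x' a1 a2 => by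
      rcases eq_or_lt_of_le a2 with g | g
      · rw [g, ← ht]; exact hc
      · exact h4 x' a1 g)
    refine ⟨(mem_LamC hn).2 ⟨h1, tt e, by simp, by simp, hc⟩, h2, x / (2 * (h : ℤ)), h5.1, h5.2, ?_⟩
    rw [ac_in hc, ht]
    rfl
  · have h6 : p.1 < x := by
      rcases eq_or_lt_of_le h3 with g | g
      · exfalso
        apply hc
        rw [ht, ← g]
        exact hp
      · exact g
    have h5 := nar_row D Hp (x := x - 1) (by omega) (fun x' a1 a2 => h4 x' a1 (by omega))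
    have h7 : ct (2 * (h : ℤ)) (x - 1, p.2) ∈ (rf S (N * M') hM).P.Q := h4 _ (by omega) (by omega)
    refine ⟨(mem_LamC hn).2 ⟨h1, (x - 1, p.2), by rw [ht]; simp, by rw [ht]; simp, h7⟩, h2,
      (x - 1) / (2 * (h : ℤ)), h5.1, h5.2, ?_⟩
    rw [ac_out hc, ht]
    classical
    unfold sd
    rw [if_pos h7]
    rfl

/-- the exit side of the world of `p` -/
lemma ex_cell {i : ℕ} (hE : Ex (rf S (N * M') hM) h p i) : ∃ X : ℤ, N * M' * a0 ≤ X ∧ X < N * M' * be ∧
    ((rf S (N * M') hM).P.side i).1 = (X, p.2 / (2 * (h : ℤ))) := by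
  have hn : (0 : ℤ) < 2 * h := by have := D.n4; omega
  obtain ⟨g1, g2, e, he, hl⟩ := hE
  obtain ⟨h1, h2, h3, h4⟩ := he
  have hp := nar_ct D Hp
  obtain ⟨-, m1, m2⟩ := (mem_LY hn).1 hl
  have hk : ((rf S (N * M') hM).P.side i).2 % 4 = 1 := g2
  rw [dirq.2.1 hk] at m1 m2
  set x := (tt e).1 with hx
  have ht : tt e = (x, p.2) := Prod.ext rfl h2
  have hs := Pool.Agent.H19.W.side_is (P := (rf S (N * M') hM).P) i
  rw [ht] at m1 m2
  have hm2 : ct (2 * (h : ℤ)) (x - 1, p.2) = ((rf S (N * M') hM).P.side i).1 := by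
    rw [← m2]
    simp
  have hout : ct (2 * (h : ℤ)) (x, p.2) ∉ (rf S (N * M') hM).P.Q := by
    rw [m1]
    have := hs.2
    rw [dirq.2.1 hk] at this
    exact this
  have h6 : p.1 < x := by
    rcases eq_or_lt_of_le h3 with g | g
    · exfalso
      apply hout
      rw [← g]
      exact hp
    · exact g
  have h5 := nar_row D Hp (x := x - 1) (by omega) (fun x' a1 a2 => h4 x' a1 (by omega))
  exact ⟨(x - 1) / (2 * (h : ℤ)), h5.1, h5.2, hm2.symm⟩

end inst

section inst2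

variable {S : Shape} {aL b : ℤ} {N M' h : ℕ} {hM : 0 < N * M'} {sg : Bool} {a0 be bt bw Y0 k0 : ℤ}
  (D : PicD S aL b N M' h hM sg true a0 be bt bw Y0 k0) {p : ℤ × ℤ} (Hp : NarP S N M' h sg a0 be Y0 p)
  {U : Cell → Prop} (HC : CutD (rf S (N * M') hM).P.Q U (yF sg (N * M') Y0) (N * M' * bt) (N * M' * bw))
include D Hp HC

/-- **19's `PHyp`** for the part behind the tooth, deleted labels and exit in the narrow room left of the tooth. -/
theorem phyp_of {κ : ℕ → ℤ → Prop}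
    (K : Pool.Agent.H19.W.KOK (rf S (N * M') hM).P (2 * (h : ℤ)) κ (fun i _ => Ex (rf S (N * M') hM) h p i)) :
    PHyp (rf S (N * M') hM).P (2 * (h : ℤ)) (plV (chG S.P.Q) b N M') κ
      (fun i _ => Ex (rf S (N * M') hM) h p i) (Del (rf S (N * M') hM).P.Q (2 * (h : ℤ)) p)
      (UU (rf S (N * M') hM).P.Q U (yF sg (N * M') Y0) (N * M' * bt) (N * M' * bw) sg)
      (rn (yF sg (N * M') Y0) (N * M' * bt) (N * M' * bw)) (yF sg (N * M') Y0)
      (2 * (h : ℤ) * yF sg (N * M') Y0 + h) sg where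
  hn := D.n4
  part := part_of D HC
  p1 := by
    intro c _ c' _ h1 h2 h3
    have HP := part_of D HC
    exact (pl_const D.T (rfn S hM) (Z := rn (yF sg (N * M') Y0) (N * M' * bt) (N * M' * bw))
      (fun c hc => run_pl D hc) HP.u2 HP.u3 h1 h2).1 h3
  p2 := fun c hc => run_pl D hc
  pg := plg D.T (rfn S hM)
  hD := by
    intro e he
    obtain ⟨h1, h2, X, h3, h4, h5⟩ := del_cell D Hp he
    have hm := D.mm
    have hm1 : (1 : ℤ) < N * M' := by omega
    obtain ⟨n1, n2, n3, n4⟩ := D.C.nums hm1 (rfn S hM)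
    rw [h5]
    refine ⟨h1, not_U D HC h3 h4 Hp.r, ?_⟩
    rintro ⟨-, r2, -⟩
    simp only at r2
    omega
  K := K
  hex := by
    intro i y hE
    obtain ⟨X, h3, h4, h5⟩ := ex_cell D Hp hE
    have hm := D.mm
    have hm1 : (1 : ℤ) < N * M' := by omega
    obtain ⟨n1, n2, n3, n4⟩ := D.C.nums hm1 (rfn S hM)
    rw [h5]
    refine ⟨not_U D HC h3 h4 Hp.r, ?_⟩
    rintro ⟨-, r2, -⟩
    simp only at r2
    omega

end inst2

end Pool.Agent.H2.W.Run
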