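import Mathlib
import Pool.Agent.H2.W.OrlV
import Pool.Agent.H78.W.FCtx

set_option autoImplicit false
open Finset

/-! # The plates of a generic shape satisfy `NGeo` -/

namespace Pool.Agent.H2.W.Run

open Pool.Agent.Q1.M4 (Cell PType Good)
open Pool.Agent.H13.W (chG)
open Pool.Agent.H5.C3 (Gen)
open Pool.Agent.H58.W (plV)
open Pool.Agent.H78.W (Ctx pD pU div_add_one div_sub_one mem_chG chG_sub ChG)

section

variable {Q Q' : Finset Cell} {a0 b : ℤ} {N M' : ℕ} (C : Ctx Q Q' a0 b N M') {x y dx dy : ℤ}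

include C

lemma nt_iff : Ntc Q' (plV (chG Q) b N M') x y ↔
    (x / (N * M' : ℤ), y / (N * M' : ℤ)) ∈ Q ∧ ¬ pD Q b N M' x y ∧ ¬ pU Q b N M' x y := by
  unfold Ntc
  rw [C.ref]
  exact and_congr Iff.rfl ⟨C.pl_not, fun h => C.pl_none h.1 h.2⟩

lemma same_D (h1 : pD Q b N M' x y) {x' y' : ℤ} (h2 : pD Q b N M' x' y') (hx : x / (M' : ℤ) = x' / (M' : ℤ))
    (hy : y / (N * M' : ℤ) = y' / (N * M' : ℤ)) : SameC Q' (plV (chG Q) b N M') (x, y) (x', y') := by
  left
  refine ⟨_, ?_, ?_, C.pl_D h1, ?_⟩
  · exact C.pl_Q (by rw [C.pl_D h1]; simp)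
  · exact C.pl_Q (by rw [C.pl_D h2]; simp)
  · rw [C.pl_D h2, hx, hy]

lemma same_U (h1 : pU Q b N M' x y) {x' y' : ℤ} (h2 : pU Q b N M' x' y') (hx : x / (M' : ℤ) = x' / (M' : ℤ))
    (hy : y / (N * M' : ℤ) = y' / (N * M' : ℤ)) : SameC Q' (plV (chG Q) b N M') (x, y) (x', y') := by
  left
  refine ⟨_, ?_, ?_, C.pl_U h1, ?_⟩
  · exact C.pl_Q (by rw [C.pl_U h1]; simp)
  · exact C.pl_Q (by rw [C.pl_U h2]; simp)
  · rw [C.pl_U h2, hx, hy]

lemma same_DU (h1 : pD Q b N M' x y) {x' y' : ℤ} (h2 : pU Q b N M' x' y') (hx : x / (M' : ℤ) = x' / (M' : ℤ))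
    (hy : y / (N * M' : ℤ) = y' / (N * M' : ℤ) + 1) : SameC Q' (plV (chG Q) b N M') (x, y) (x', y') := by
  left
  refine ⟨_, ?_, ?_, C.pl_D h1, ?_⟩
  · exact C.pl_Q (by rw [C.pl_D h1]; simp)
  · exact C.pl_Q (by rw [C.pl_U h2]; simp)
  · rw [C.pl_U h2, hx, hy]

omit C in
lemma SameC.symm {β : Type*} {pl : Cell → Option β} {c c' : Cell} (h : SameC Q' pl c c') :
    SameC Q' pl c' c := by
  rcases h with ⟨k, h1, h2, h3, h4⟩ | ⟨h1, h2⟩
  · exact Or.inl ⟨k, h2, h1, h4, h3⟩
  · exact Or.inr ⟨h2, h1⟩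

lemma colX (hdx : dx = -1 ∨ dx = 1) :
    (x + dx) / (N * M' : ℤ) = x / (N * M' : ℤ) ∨ (x + dx) / (N * M' : ℤ) = x / (N * M' : ℤ) + dx := by
  rcases hdx with rfl | rfl
  · rcases div_sub_one C.M0 x with ⟨-, h, -⟩ | ⟨-, h, -⟩
    · left; rw [← sub_eq_add_neg]; exact h
    · right; rw [← sub_eq_add_neg]; rw [h]; ring
  · rcases div_add_one C.M0 x with ⟨-, h, -⟩ | ⟨-, h, -⟩
    · left; exact h
    · right; exact h

/-- rows of neighbours -/
lemma rowY (hdy : dy = -1 ∨ dy = 1) :
    ((y + dy) / (N * M' : ℤ) = y / (N * M' : ℤ) ∧ (y + dy) % (N * M' : ℤ) = y % (N * M' : ℤ) + dy) ∨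
      (dy = -1 ∧ y % (N * M' : ℤ) = 0 ∧ (y + dy) / (N * M' : ℤ) = y / (N * M' : ℤ) - 1 ∧
        (y + dy) % (N * M' : ℤ) = N * M' - 1) ∨
      (dy = 1 ∧ y % (N * M' : ℤ) = N * M' - 1 ∧ (y + dy) / (N * M' : ℤ) = y / (N * M' : ℤ) + 1 ∧
        (y + dy) % (N * M' : ℤ) = 0) := by
  rcases hdy with rfl | rfl
  · rcases div_sub_one C.M0 y with ⟨-, h1, h2⟩ | ⟨h0, h1, h2⟩
    · left; rw [← sub_eq_add_neg]; exact ⟨h1, h2⟩
    · right; left; rw [← sub_eq_add_neg]; exact ⟨rfl, h0, h1, h2⟩
  · rcases div_add_one C.M0 y with ⟨-, h1, h2⟩ | ⟨h0, h1, h2⟩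
    · left; exact ⟨h1, h2⟩
    · right; right; exact ⟨rfl, by omega, h1, h2⟩

/-- **The plates of a generic shape satisfy `NGeo`.** -/
theorem nGeo : NGeo Q' (plV (chG Q) b N M') := by
  refine ⟨fun x y dx dy hdx hdy h1 h2 h3 => ?_⟩
  rw [nt_iff C] at h1 h2 h3
  obtain ⟨hQ, hD, hU⟩ := h1
  have hM := C.M0
  have hm0 := Int.emod_nonneg y hM.ne'
  have hm1 := Int.emod_lt_of_pos y hM
  have hY := rowY C (y := y) hdy
  by_cases hq : ((x + dx) / (N * M' : ℤ), y / (N * M' : ℤ)) ∈ Q
  · -- the neighbour is in a plate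
    have hp : pD Q b N M' (x + dx) y ∨ pU Q b N M' (x + dx) y := by
      by_contra hc
      push Not at hc
      exact h3 ⟨hq, hc.1, hc.2⟩
    rcases hp with hp | hp
    · have hb := C.w_bd hp.1
      have hs := C.pD_small hp
      have hw := hp.2
      -- `(x, y)` is just above the plate of `x`, or at the tip
      rcases hdy with rfl | rfl
      · -- below: the plate goes on
        rcases hY with ⟨y1, y2⟩ | ⟨-, y0, y1, y2⟩ | ⟨y0, -⟩
        · refine same_D C hp ?_ rfl y1.symm
          exact ⟨by rw [y1]; exact hp.1, by rw [y2]; omega⟩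
        · refine same_DU C hp ?_ rfl (by rw [y1]; ring)
          refine ⟨?_, ?_⟩
          · rw [y1, sub_add_cancel]; exact hp.1
          · rw [y2]; omega
        · omega
      · -- above: natural
        exfalso
        rcases hY with ⟨y1, y2⟩ | ⟨y0, -⟩ | ⟨-, y0, -⟩
        · apply h2
          refine ⟨by rw [y1]; exact hQ, ?_, ?_⟩
          · rintro ⟨k1, k2⟩
            rw [y1] at k1
            rw [y2] at k2
            apply hD
            exact ⟨k1, by omega⟩
          · intro k
            have := C.pU_big k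
            rw [y2] at this
            omega
        · omega
        · omega
    · have hb := C.w_bd hp.1
      have hs := C.pU_big hp
      have hw := hp.2
      rcases hdy with rfl | rfl
      · exfalso
        rcases hY with ⟨y1, y2⟩ | ⟨-, y0, -⟩ | ⟨y0, -⟩
        · apply h2
          refine ⟨by rw [y1]; exact hQ, ?_, ?_⟩
          · intro k
            have := C.pD_small k
            rw [y2] at this
            omega
          · rintro ⟨k1, k2⟩
            rw [y1] at k1
            rw [y2] at k2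
            apply hU
            exact ⟨k1, by omega⟩
        · omega
        · omega
      · rcases hY with ⟨y1, y2⟩ | ⟨y0, -⟩ | ⟨-, y0, y1, y2⟩
        · refine same_U C hp ?_ rfl y1.symm
          exact ⟨by rw [y1]; exact hp.1, by rw [y2]; omega⟩
        · omega
        · refine (same_DU C (x := x + dx) (y := y + 1) (x' := x + dx) (y' := y) ?_ hp rfl y1).symm
          refine ⟨?_, ?_⟩
          · rw [y1]; exact hp.1
          · rw [y2]; omega
  · -- the neighbour is outside
    right
    have hX : (x + dx) / (N * M' : ℤ) = x / (N * M' : ℤ) + dx := by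
      rcases colX C (x := x) hdx with e | e
      · rw [e] at hq
        exact absurd hQ hq
      · exact e
    have hq' : (x + dx, y) ∉ Q' := by
      rw [C.ref]; exact hq
    refine ⟨hq', ?_⟩
    rw [C.ref]
    rcases hY with ⟨y1, y2⟩ | ⟨y00, y0, y1, y2⟩ | ⟨y00, y0, y1, y2⟩
    · rw [y1]; exact hq
    · -- crossing a coarse line downwards
      subst y00
      have h4 : (x / (N * M' : ℤ), y / (N * M' : ℤ) - 1) ∉ Q := by
        intro h5
        apply h2
        refine ⟨by rw [y1]; exact h5, ?_, ?_⟩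
        · intro k
          have h6 := C.w_bd k.1
          have := C.pD_small k
          rw [y2] at this
          omega
        · rintro ⟨k1, -⟩
          rw [y1, sub_add_cancel] at k1
          have := C.w_bd k1
          apply hD
          exact ⟨k1, by omega⟩
      rw [y1, hX]
      rw [hX] at hq
      intro h5
      rcases hdx with rfl | rfl
      · have := C.good.diag1 (x / (N * M' : ℤ) - 1, y / (N * M' : ℤ) - 1) (by
          simpa [sub_eq_add_neg] using h5) (by simpa using hQ)
        rcases this with h6 | h6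
        · exact h4 (by simpa using h6)
        · exact hq (by simpa [sub_eq_add_neg] using h6)
      · have := C.good.diag2 (x / (N * M' : ℤ), y / (N * M' : ℤ) - 1) (by simpa using h5)
          (by simpa using hQ)
        rcases this with h6 | h6
        · exact h4 h6
        · exact hq (by simpa using h6)
    · subst y00
      have h4 : (x / (N * M' : ℤ), y / (N * M' : ℤ) + 1) ∉ Q := by
        intro h5
        apply h2
        refine ⟨by rw [y1]; exact h5, ?_, ?_⟩
        · rintro ⟨k1, -⟩
          rw [y1] at k1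
          have := C.w_bd k1
          apply hU
          exact ⟨k1, by omega⟩
        · intro k
          have := C.pU_big k
          rw [y2] at this
          omega
      rw [y1, hX]
      rw [hX] at hq
      intro h5
      rcases hdx with rfl | rfl
      · have := C.good.diag2 (x / (N * M' : ℤ) - 1, y / (N * M' : ℤ)) (by simpa using hQ)
          (by simpa [sub_eq_add_neg] using h5)
        rcases this with h6 | h6
        · exact hq (by simpa [sub_eq_add_neg] using h6)
        · exact h4 (by simpa using h6)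
      · have := C.good.diag1 (x / (N * M' : ℤ), y / (N * M' : ℤ)) hQ (by simpa using h5)
        rcases this with h6 | h6
        · exact hq (by simpa using h6)
        · exact h4 (by simpa using h6)

end

end Pool.Agent.H2.W.Run
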