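import Mathlib
import Pool.Agent.H2.W.OrlE
import Pool.Agent.H2.W.OrlN

set_option autoImplicit false
open Finset

/-! # ORL for a generic shape with thin plates

`line_near` : all horizontal pieces of the natural region are at distance at most `N (b - a0)` fine cells from
the coarse lines. `rows_far` : the row of a tile near a fixed point off the coarse lines is far from them.
`orl_fine` : ORL for all worlds of the refined shape whose exceptional rows are far from the coarse lines. -/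

namespace Pool.Agent.H2.W.Run

open Pool.Agent.Q1.M4 (Cell PType Good)
open Pool.Agent.H13.W (chG SG)
open Pool.Agent.H5.C3 (Gen)
open Pool.Agent.H58.W (plV)
open Pool.Agent.H78.W (Ctx pD pU ctx_of)
open Pool.Agent.H33.Q1 (lt tt ct)
open Pool.Agent.H19.W Pool.Agent.H92.W
open Pool.Agent.H21.FM (Shape)
open Pool.Agent.H50.W (rf)
open Pool.Agent.H74.W (lK ps RR)

section

variable {Q Q' : Finset Cell} {a0 b : ℤ} {N M' : ℕ} (C : Ctx Q Q' a0 b N M') {x y n : ℤ}

include C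

lemma w_le {Y : ℤ} (h : ((x / (N * M' : ℤ), Y) : Cell) ∈ chG Q) :
    N * b - x / (M' : ℤ) ≤ N * (b - a0) := by
  have h1 := (C.thin.K_bd x).1
  have h2 := C.thin.ha _ h
  simp only at h2
  have h3 : (N : ℤ) * a0 ≤ N * (x / (N * M' : ℤ)) := mul_le_mul_of_nonneg_left h2 C.thin.N0.le
  have e : (N : ℤ) * (b - a0) = N * b - N * a0 := by ring
  omega

/-- a cell which is not natural, above or below a natural cell: the line between them is near a coarse line -/
lemma line_near {dy : ℤ} (hdy : dy = -1 ∨ dy = 1) (h1 : Ntc Q' (plV (chG Q) b N M') x y)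
    (h2 : ¬ Ntc Q' (plV (chG Q) b N M') x (y + dy)) : ∃ Y0 : ℤ,
    |(if dy = 1 then y + 1 else y) - N * M' * Y0| ≤ N * (b - a0) ∨
    (if dy = 1 then y + 1 else y) = N * M' * Y0 := by
  rw [nt_iff C] at h1 h2
  have hM := C.M0
  have hm := Int.emod_add_mul_ediv y (N * M' : ℤ)
  have hm' := Int.emod_add_mul_ediv (y + dy) (N * M' : ℤ)
  have hb1 := Int.emod_nonneg (y + dy) hM.ne'
  have hb2 := Int.emod_lt_of_pos (y + dy) hM
  have hY := rowY C (y := y) hdy
  by_cases hq : (x / (N * M' : ℤ), (y + dy) / (N * M' : ℤ)) ∈ Q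
  · have hp : pD Q b N M' x (y + dy) ∨ pU Q b N M' x (y + dy) := by
      by_contra hc
      push Not at hc
      exact h2 ⟨hq, hc.1, hc.2⟩
    rcases hp with hp | hp
    · refine ⟨(y + dy) / (N * M' : ℤ), Or.inl ?_⟩
      have h3 := w_le C hp.1
      have h4 := C.w_bd hp.1
      have h5 := hp.2
      rw [abs_le]
      rcases hdy with rfl | rfl
      · rw [if_neg (by norm_num)]
        omega
      · rw [if_pos rfl]
        omega
    · refine ⟨(y + dy) / (N * M' : ℤ) + 1, Or.inl ?_⟩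
      have h3 := w_le C hp.1
      have h4 := C.w_bd hp.1
      have h5 := hp.2
      have e : (N * M' : ℤ) * ((y + dy) / (N * M' : ℤ) + 1) = N * M' * ((y + dy) / (N * M' : ℤ)) + N * M' := by
        ring
      rw [e, abs_le]
      rcases hdy with rfl | rfl
      · rw [if_neg (by norm_num)]
        omega
      · rw [if_pos rfl]
        omega
  · rcases hY with ⟨y1, -⟩ | ⟨d1, y0, y1, y2⟩ | ⟨d1, y0, y1, y2⟩
    · rw [y1] at hq
      exact absurd h1.1 hq
    · refine ⟨y / (N * M' : ℤ), Or.inr ?_⟩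
      rw [if_neg (by omega)]
      omega
    · refine ⟨y / (N * M' : ℤ) + 1, Or.inr ?_⟩
      have e : (N * M' : ℤ) * (y / (N * M' : ℤ) + 1) = N * M' * (y / (N * M' : ℤ)) + N * M' := by ring
      rw [if_pos d1, e]
      omega

/-- **The condition `hX`** : rows far from the coarse lines are far from all pieces. -/
theorem hX_of (hn : 4 ≤ n) {Xr : ℤ → Prop}
    (hr : ∀ r, Xr r → ∀ Y0 : ℤ, n * (|N * (b - a0)| + 1) < |r - n * (N * M') * Y0|) (s : Bool) (X Y : ℤ)
    (h1 : NtV Q' (plV (chG Q) b N M') s X Y) (h2 : ¬ NtV Q' (plV (chG Q) b N M') s X (Y - 1)) (h : ℤ)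
    (h3 : n * Y - n / 4 ≤ h) (h4 : h ≤ n * Y + n / 4) : ¬ Xr (rc s h) := by
  intro hx
  have hM := C.M0
  -- the line in real coordinates
  obtain ⟨L, hL1, Y0, hL2⟩ : ∃ L : ℤ, |rc s h - n * L| ≤ n / 4 + 1 ∧ ∃ Y0 : ℤ,
      |L - N * M' * Y0| ≤ N * (b - a0) ∨ L = N * M' * Y0 := by
    cases s
    · refine ⟨-Y, ?_, ?_⟩
      · unfold rc
        simp only [Bool.false_eq_true, if_false]
        have e : n * (-Y) = -(n * Y) := by ring
        rw [e, abs_le]
        omega
      · unfold NtV rc at h1 h2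
        simp only [Bool.false_eq_true, if_false] at h1 h2
        have := line_near C (x := X) (y := -1 - Y) (dy := 1) (Or.inr rfl) h1
          (by rw [show -1 - Y + 1 = -1 - (Y - 1) by ring]; exact h2)
        rw [if_pos rfl, show -1 - Y + 1 = -Y by ring] at this
        exact this
    · refine ⟨Y, ?_, ?_⟩
      · unfold rc
        simp only [if_true]
        rw [abs_le]
        omega
      · unfold NtV rc at h1 h2
        simp only [if_true] at h1 h2
        have := line_near C (x := X) (y := Y) (dy := -1) (Or.inl rfl) h1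
          (by rw [← sub_eq_add_neg]; exact h2)
        rw [if_neg (by norm_num)] at this
        exact this
  have h5 := hr _ hx Y0
  have e1 : n * (N * M' : ℤ) * Y0 = n * (N * M' * Y0) := by ring
  rw [e1] at h5
  have e2 : n * (|N * (b - a0)| + 1 : ℤ) = n * |N * (b - a0)| + n := by ring
  rw [e2] at h5
  have h6 : |rc s h - n * (N * M' * Y0)| ≤ n / 4 + 1 + n * |L - N * M' * Y0| := by
    have e3 : rc s h - n * (N * M' * Y0) = (rc s h - n * L) + n * (L - N * M' * Y0) := by ring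
    rw [e3]
    refine (abs_add_le _ _).trans (add_le_add hL1 ?_)
    rw [abs_mul, abs_of_pos (show (0 : ℤ) < n by omega)]
  have h8 : n * |L - N * M' * Y0| ≤ n * |N * (b - a0)| := by
    apply mul_le_mul_of_nonneg_left _ (by omega)
    rcases hL2 with h7 | h7
    · exact h7.trans (le_abs_self _)
    · rw [h7, sub_self, abs_zero]
      exact abs_nonneg _
  omega

end

/-- **ORL for the worlds of a refined generic shape.** -/
theorem orl_fine (S : Shape) (hG : Gen S.P.Q) {b : ℤ} (hb : ∀ c ∈ chG S.P.Q, c.1 < b) :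
    ∃ a0 : ℤ, ∀ (N M' : ℕ) (hM : 0 < N * M'), 64 * ((N : ℤ) * (b - a0)) ≤ M' → ∀ ε > (0 : ℝ),
    ∃ h0 : ℕ, ∀ h : ℕ, h0 ≤ h → ∀ {κ : ℕ → ℤ → Prop} {Xr : ℤ → Prop} {D : Set (ℤ × ℤ)}
    {R : Cell → ℤ → Prop} {z x : ℤ × ℤ}, KOK (rf S (N * M') hM).P (2 * (h : ℤ)) κ Xr →
    (∀ e ∈ D, Xr (tt e).2) →
    (∀ r, Xr r → ∀ Y0 : ℤ, 2 * (h : ℤ) * (|N * (b - a0)| + 1) < |r - 2 * (h : ℤ) * (N * M') * Y0|) →
    OutC (LamC (rf S (N * M') hM).P.Q (2 * (h : ℤ)) : Set (ℤ × ℤ)) D z →
    OutC (LamC (rf S (N * M') hM).P.Q (2 * (h : ℤ)) : Set (ℤ × ℤ)) D x →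
    OrlU (rf S (N * M') hM).P (2 * (h : ℤ)) κ (plV (chG S.P.Q) b N M') R
      (fun w => (SG (LamC (rf S (N * M') hM).P.Q (2 * (h : ℤ)) : Set (ℤ × ℤ)) D w).Reachable z x) ε ∧
    OrlL (rf S (N * M') hM).P (2 * (h : ℤ)) κ (plV (chG S.P.Q) b N M') R
      (fun w => (SG (LamC (rf S (N * M') hM).P.Q (2 * (h : ℤ)) : Set (ℤ × ℤ)) D w).Reachable z x) ε := by
  obtain ⟨a0, ha⟩ := ctx_of S hG hb
  refine ⟨a0, fun N M' hM hM' ε hε => ?_⟩
  have C := ha N M' hM hM'
  obtain ⟨n0, h0⟩ := orl_reach (rf S (N * M') hM).P.Q.card hε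
  refine ⟨n0.toNat + 2, fun h hh => ?_⟩
  intro κ Xr D R z x K hD hr hz hx
  exact h0 h (by omega) le_rfl (nGeo C) K hD (hX_of C (by omega) hr) hz hx

/-! ### Rows near a fixed point -/

open Filter in
/-- **The row of a tile near a fixed point off the coarse lines is far from the coarse lines.** -/
theorem rows_far (a0 b : ℤ) {z : ℂ} (hz : ∀ Y : ℤ, z.im ≠ Y) : ∃ r > (0 : ℝ), ∀ᶠ k : ℕ × ℕ in lK,
    0 < k.1 * k.2 ∧ 64 * ((k.1 : ℤ) * (b - a0)) ≤ k.2 ∧
    ∀ h : ℕ, 1 ≤ h → ∀ p : ℤ × ℤ, dist (ps k h p) z < r → ∀ Y0 : ℤ,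
      2 * (h : ℤ) * (|k.1 * (b - a0)| + 1) + 2 < |p.2 - 2 * (h : ℤ) * (k.1 * k.2) * Y0| := by
  -- distance to the integers
  obtain ⟨d, hd, hdY⟩ : ∃ d > (0 : ℝ), ∀ Y : ℤ, d ≤ |z.im - Y| := by
    refine ⟨min (Int.fract z.im) (1 - Int.fract z.im), ?_, fun Y => ?_⟩
    · have h1 : Int.fract z.im ≠ 0 := by
        intro h
        have := Int.floor_add_fract z.im
        rw [h, add_zero] at this
        exact hz _ this.symm
      have h2 := Int.fract_nonneg z.im
      have h3 := Int.fract_lt_one z.im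
      exact lt_min (lt_of_le_of_ne h2 (Ne.symm h1)) (by linarith)
    · have e := Int.floor_add_fract z.im
      have h2 := Int.fract_nonneg z.im
      have h3 := Int.fract_lt_one z.im
      rcases lt_or_ge ⌊z.im⌋ Y with h | h
      · refine (min_le_right _ _).trans ?_
        have h4 : ((⌊z.im⌋ + 1 : ℤ) : ℝ) ≤ Y := by exact_mod_cast h
        push_cast at h4
        rw [abs_sub_comm]
        refine le_trans ?_ (le_abs_self _)
        linarith
      · refine (min_le_left _ _).trans ?_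
        have h4 : (Y : ℝ) ≤ (⌊z.im⌋ : ℝ) := by exact_mod_cast h
        refine le_trans ?_ (le_abs_self _)
        linarith
  refine ⟨d / 2, by positivity, ?_⟩
  unfold lK
  rw [Filter.eventually_curry_iff]
  filter_upwards [eventually_ge_atTop 1] with N hN
  obtain ⟨B, hB⟩ := exists_nat_gt (2 * (|((b - a0 : ℤ) : ℝ)| + 2) / d)
  filter_upwards [eventually_ge_atTop (max B 1), eventually_ge_atTop (64 * ((N : ℤ) * (b - a0))).toNat]
    with M' h1 h2
  have hM1 : 1 ≤ M' := (le_max_right _ _).trans h1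
  have hMB : B ≤ M' := (le_max_left _ _).trans h1
  refine ⟨Nat.mul_pos hN hM1, by omega, ?_⟩
  intro h hh p hp Y0
  have hRR : RR (N, M') h = 2 * (h : ℝ) * ((N : ℝ) * (M' : ℝ)) := rfl
  have hN' : (1 : ℝ) ≤ N := by exact_mod_cast hN
  have hM' : (1 : ℝ) ≤ M' := by exact_mod_cast hM1
  have hh' : (1 : ℝ) ≤ h := by exact_mod_cast hh
  have hR0 : 0 < RR (N, M') h := by rw [hRR]; positivity
  have h3 : |(ps (N, M') h p).im - z.im| < d / 2 := by
    rw [dist_eq_norm] at hp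
    refine lt_of_le_of_lt ?_ hp
    have := Complex.abs_im_le_norm (ps (N, M') h p - z)
    rwa [Complex.sub_im] at this
  have h4 : (ps (N, M') h p).im = (p.2 : ℝ) / RR (N, M') h := by
    unfold ps Pool.Agent.Q1.M4.lat
    rw [Complex.div_ofReal_im]
  have h5 : d / 2 < |(p.2 : ℝ) / RR (N, M') h - Y0| := by
    rw [h4] at h3
    have h6 := hdY Y0
    have h7 : |z.im - Y0| ≤ |(p.2 : ℝ) / RR (N, M') h - z.im| + |(p.2 : ℝ) / RR (N, M') h - Y0| := by
      have e : z.im - Y0 = -((p.2 : ℝ) / RR (N, M') h - z.im) + ((p.2 : ℝ) / RR (N, M') h - Y0) := by ring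
      rw [e]
      refine (abs_add_le _ _).trans ?_
      rw [abs_neg]
    linarith
  have h8 : d / 2 * RR (N, M') h < |(p.2 : ℝ) - RR (N, M') h * Y0| := by
    have e : (p.2 : ℝ) - RR (N, M') h * Y0 = ((p.2 : ℝ) / RR (N, M') h - Y0) * RR (N, M') h := by
      field_simp
    rw [e, abs_mul, abs_of_pos hR0]
    exact mul_lt_mul_of_pos_right h5 hR0
  have h9 : 2 * (|((b - a0 : ℤ) : ℝ)| + 2) < M' * d := by
    have : (B : ℝ) ≤ M' := by exact_mod_cast hMB
    rw [div_lt_iff₀ hd] at hB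
    nlinarith
  have h10 : 2 * (h : ℝ) * (N * |((b - a0 : ℤ) : ℝ)| + 1) + 2 < |(p.2 : ℝ) - RR (N, M') h * Y0| := by
    refine lt_of_le_of_lt ?_ h8
    rw [hRR]
    have hA : (0 : ℝ) ≤ |((b - a0 : ℤ) : ℝ)| := abs_nonneg _
    generalize |((b - a0 : ℤ) : ℝ)| = A at *
    have hhN : (1 : ℝ) ≤ h * N := by nlinarith
    have k1 : 2 * (h : ℝ) * (N * A + 1) + 2 ≤ (h * N) * (2 * (A + 2)) := by nlinarith
    have k2 : (h * N : ℝ) * (2 * (A + 2)) ≤ (h * N) * (M' * d) :=
      mul_le_mul_of_nonneg_left h9.le (by linarith)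
    calc _ ≤ _ := k1
      _ ≤ _ := k2
      _ = d / 2 * (2 * (h : ℝ) * ((N : ℝ) * (M' : ℝ))) := by ring
  have h11 : ((2 * (h : ℤ) * (|(N : ℤ) * (b - a0)| + 1) + 2 : ℤ) : ℝ) <
      ((|p.2 - 2 * (h : ℤ) * (N * M') * Y0| : ℤ) : ℝ) := by
    rw [hRR] at h10
    push_cast
    rw [abs_mul, abs_of_nonneg (show (0 : ℝ) ≤ (N : ℝ) by linarith)]
    push_cast at h10
    convert h10 using 3
  exact_mod_cast h11

end Pool.Agent.H2.W.Run
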