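import Mathlib
import Pool.Agent.H2.W.OrlF
import Pool.Agent.H74.W.TopS4

set_option autoImplicit false
open Finset

/-! # RAISE: from the probabilities to the values

`hV` : value of a coherent world. `raise_sum` : if the forced probabilities agree and ORL holds for the three
far ends in both worlds, then the values differ by at most `6 ε`. -/

namespace Pool.Agent.H2.W.Run

open Pool.Agent.Q1.M4 (Cell PType)
open Pool.Agent.H33.Q1 (lt tt ct TL)
open Pool.Agent.H19.W Pool.Agent.H92.W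
open Pool.Agent.H50.W (bk)
open Pool.Agent.H58.W
open Pool.Agent.H13.W (SG eW)
open Pool.Agent.H74.W

section

variable {α β : Type*} [DecidableEq α] [DecidableEq β]

/-- probabilities of two events which seldom differ -/
lemma PB_diff_le {E : Finset α} {b : α → β} (A B : Finset α → Prop) :
    |PB E b A - PB E b B| ≤ PB E b (fun ω => A ω ≠ B ω) := by
  have key : ∀ A B : Finset α → Prop, PB E b A ≤ PB E b B + PB E b (fun ω => A ω ≠ B ω) := by
    intro A B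
    refine (PB_mono (B := fun ω => B ω ∨ A ω ≠ B ω) ?_).trans (PB_or_le _ _ _ _)
    intro ω _ hA
    by_cases hB : B ω
    · exact Or.inl hB
    · exact Or.inr fun h => hB (h ▸ hA)
  have h1 := key A B
  have h2 := key B A
  have h3 : PB E b (fun ω => B ω ≠ A ω) = PB E b (fun ω => A ω ≠ B ω) :=
    PB_congr fun ω _ => ne_comm
  rw [abs_le]
  constructor <;> linarith

end

section

variable {β : Type*} [DecidableEq β]

/-- **Value of a coherent world** with the end `z` and the far ends `x j` -/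
noncomputable def hV (P : PType) (n : ℤ) (κ : ℕ → ℤ → Prop) (D : Set (ℤ × ℤ)) (pl : Cell → Option β)
    (z : ℤ × ℤ) (x : Fin 3 → ℤ × ℤ) : ℂ :=
  ∑ j : Fin 3, tau ^ (j : ℕ) * ((PB (TL P.Q n) (bk n pl) fun ω =>
    (SG (LamC P.Q n : Set (ℤ × ℤ)) D (ω ∪ WC P n κ)).Reachable z (x j) : ℝ) : ℂ)

/-- sums over the three far ends -/
lemma norm_sum3_le {a a' : Fin 3 → ℝ} {ε : ℝ} (h : ∀ j, |a j - a' j| ≤ ε) :
    ‖∑ j : Fin 3, tau ^ (j : ℕ) * (a j : ℂ) - ∑ j : Fin 3, tau ^ (j : ℕ) * (a' j : ℂ)‖ ≤ 3 * ε := by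
  rw [← sum_sub_distrib]
  refine (norm_sum_le _ _).trans ?_
  have h1 : ∀ j ∈ (univ : Finset (Fin 3)), ‖tau ^ (j : ℕ) * (a j : ℂ) - tau ^ (j : ℕ) * (a' j : ℂ)‖ ≤ ε := by
    intro j _
    rw [← mul_sub, norm_mul, norm_tau_pow, one_mul, ← Complex.ofReal_sub, Complex.norm_real]
    exact h j
  refine (sum_le_sum h1).trans ?_
  simp

/-- **RAISE, sum over the far ends**: world 1 is forced at the ceilings of `R`, world 2 at the floors of `R'`. -/
theorem raise_sum {P : PType} {n : ℤ} {κ1 κ2 : ℕ → ℤ → Prop} {D1 D2 : Set (ℤ × ℤ)} {pl : Cell → Option β}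
    {R : Cell → ℤ → Prop} {z1 z2 : ℤ × ℤ} {x1 x2 : Fin 3 → ℤ × ℤ} {ε : ℝ}
    (h1 : ∀ j, OrlU P n κ1 pl R
      (fun w => (SG (LamC P.Q n : Set (ℤ × ℤ)) D1 w).Reachable z1 (x1 j)) ε)
    (h2 : ∀ j, OrlL P n κ2 pl R
      (fun w => (SG (LamC P.Q n : Set (ℤ × ℤ)) D2 w).Reachable z2 (x2 j)) ε)
    (h3 : ∀ j, PB (TL P.Q n) (bk n pl) (fun ω => (SG (LamC P.Q n : Set (ℤ × ℤ)) D1
        (s1 (TL P.Q n) (NatS P.Q n pl) (RgS P.Q n R) (WC P n κ1) ω)).Reachable z1 (x1 j)) =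
      PB (TL P.Q n) (bk n pl) (fun ω => (SG (LamC P.Q n : Set (ℤ × ℤ)) D2
        (s2 (TL P.Q n) (NatS P.Q n pl) (RgS P.Q n R) (WC P n κ2) ω)).Reachable z2 (x2 j))) :
    ‖hV P n κ1 D1 pl z1 x1 - hV P n κ2 D2 pl z2 x2‖ ≤ 6 * ε := by
  have key : ∀ j, |PB (TL P.Q n) (bk n pl) (fun ω =>
      (SG (LamC P.Q n : Set (ℤ × ℤ)) D1 (ω ∪ WC P n κ1)).Reachable z1 (x1 j)) -
      PB (TL P.Q n) (bk n pl) (fun ω =>
      (SG (LamC P.Q n : Set (ℤ × ℤ)) D2 (ω ∪ WC P n κ2)).Reachable z2 (x2 j))| ≤ 2 * ε := by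
    intro j
    have a1 := (PB_diff_le (E := TL P.Q n) (b := bk n pl) _ _).trans (h1 j)
    have a2 := (PB_diff_le (E := TL P.Q n) (b := bk n pl) _ _).trans (h2 j)
    rw [h3 j] at a1
    rw [abs_le] at a1 a2 ⊢
    constructor <;> linarith
  refine (norm_sum3_le key).trans ?_
  linarith

end

end Pool.Agent.H2.W.Run
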