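import Mathlib
import Pool.Agent.H2.W.RSum
import Pool.Agent.H2.W.KPart
import Pool.Agent.H82.W.ChdTop

set_option autoImplicit false
open Finset

/-! # RAISE for a refined generic shape: one step

`rstep` : two coherent worlds of a refined generic shape whose forced probabilities agree have nearly the same
value; uniform in the colours, the deleted rows and the ends. -/

namespace Pool.Agent.H2.W.Run

open Pool.Agent.Q1.M4 (Cell PType)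
open Pool.Agent.H33.Q1 (lt tt ct TL)
open Pool.Agent.H19.W Pool.Agent.H92.W
open Pool.Agent.H50.W (bk rf)
open Pool.Agent.H58.W
open Pool.Agent.H13.W (SG eW chG)
open Pool.Agent.H5.C3 (Gen)
open Pool.Agent.H21.FM (Shape)

/-- the hypotheses on one world -/
structure WOK (P : PType) (n : ℤ) (κ : ℕ → ℤ → Prop) (D : Set (ℤ × ℤ)) (z : ℤ × ℤ) (x : Fin 3 → ℤ × ℤ)
    (Xr : ℤ → Prop) : Prop where
  k : KOK P n κ Xr
  d : ∀ e ∈ D, Xr (tt e).2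
  z : OutC (LamC P.Q n : Set (ℤ × ℤ)) D z
  x : ∀ j, OutC (LamC P.Q n : Set (ℤ × ℤ)) D (x j)

/-- the forced probabilities agree -/
def FEq {β : Type*} [DecidableEq β] (P : PType) (n : ℤ) (pl : Cell → Option β) (R : Cell → ℤ → Prop)
    (κ1 κ2 : ℕ → ℤ → Prop) (D1 D2 : Set (ℤ × ℤ)) (z1 z2 : ℤ × ℤ) (x1 x2 : Fin 3 → ℤ × ℤ) : Prop :=
  ∀ j, PB (TL P.Q n) (bk n pl) (fun ω => (SG (LamC P.Q n : Set (ℤ × ℤ)) D1
      (s1 (TL P.Q n) (NatS P.Q n pl) (RgS P.Q n R) (WC P n κ1) ω)).Reachable z1 (x1 j)) =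
    PB (TL P.Q n) (bk n pl) (fun ω => (SG (LamC P.Q n : Set (ℤ × ℤ)) D2
      (s2 (TL P.Q n) (NatS P.Q n pl) (RgS P.Q n R) (WC P n κ2) ω)).Reachable z2 (x2 j))

/-- **One step of RAISE.** -/
theorem rstep (S : Shape) (hG : Gen S.P.Q) {b : ℤ} (hb : ∀ c ∈ chG S.P.Q, c.1 < b) :
    ∃ a0 : ℤ, ∀ (N M' : ℕ) (hM : 0 < N * M'), 64 * ((N : ℤ) * (b - a0)) ≤ M' → ∀ ε > (0 : ℝ),
    ∃ h0 : ℕ, ∀ h : ℕ, h0 ≤ h → ∀ {κ1 κ2 : ℕ → ℤ → Prop} {Xr : ℤ → Prop} {D1 D2 : Set (ℤ × ℤ)}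
    {R : Cell → ℤ → Prop} {z1 z2 : ℤ × ℤ} {x1 x2 : Fin 3 → ℤ × ℤ},
    WOK (rf S (N * M') hM).P (2 * (h : ℤ)) κ1 D1 z1 x1 Xr →
    WOK (rf S (N * M') hM).P (2 * (h : ℤ)) κ2 D2 z2 x2 Xr →
    (∀ r, Xr r → ∀ Y0 : ℤ, 2 * (h : ℤ) * (|N * (b - a0)| + 1) < |r - 2 * (h : ℤ) * (N * M') * Y0|) →
    FEq (rf S (N * M') hM).P (2 * (h : ℤ)) (plV (chG S.P.Q) b N M') R κ1 κ2 D1 D2 z1 z2 x1 x2 →
    ‖hV (rf S (N * M') hM).P (2 * (h : ℤ)) κ1 D1 (plV (chG S.P.Q) b N M') z1 x1 -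
      hV (rf S (N * M') hM).P (2 * (h : ℤ)) κ2 D2 (plV (chG S.P.Q) b N M') z2 x2‖ ≤ ε := by
  obtain ⟨a0, ha⟩ := orl_fine S hG hb
  refine ⟨a0, fun N M' hM hM' ε hε => ?_⟩
  obtain ⟨h0, hh0⟩ := ha N M' hM hM' (ε / 6) (by positivity)
  refine ⟨h0, fun h hh => ?_⟩
  intro κ1 κ2 Xr D1 D2 R z1 z2 x1 x2 w1 w2 hr hF
  have h1 := fun j => (hh0 h hh (R := R) w1.k w1.d hr w1.z (w1.x j)).1
  have h2 := fun j => (hh0 h hh (R := R) w2.k w2.d hr w2.z (w2.x j)).2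
  have := raise_sum h1 h2 hF
  linarith

/-- the rows `Xr` are far from the coarse lines -/
def FarR (a0 b : ℤ) (N M' h : ℕ) (Xr : ℤ → Prop) : Prop :=
  ∀ r, Xr r → ∀ Y0 : ℤ, 2 * (h : ℤ) * (|N * (b - a0)| + 1) < |r - 2 * (h : ℤ) * (N * M') * Y0|

/-- **`v1`, `v2` are the values of two worlds of one step of RAISE.** -/
def RS1 (S : Shape) (a0 b : ℤ) (N M' : ℕ) (hM : 0 < N * M') (h : ℕ) (v1 v2 : ℂ) : Prop :=
  ∃ (κ1 κ2 : ℕ → ℤ → Prop) (Xr : ℤ → Prop) (D1 D2 : Set (ℤ × ℤ)) (R : Cell → ℤ → Prop)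
    (z1 z2 : ℤ × ℤ) (x1 x2 : Fin 3 → ℤ × ℤ),
    WOK (rf S (N * M') hM).P (2 * (h : ℤ)) κ1 D1 z1 x1 Xr ∧
    WOK (rf S (N * M') hM).P (2 * (h : ℤ)) κ2 D2 z2 x2 Xr ∧ FarR a0 b N M' h Xr ∧
    FEq (rf S (N * M') hM).P (2 * (h : ℤ)) (plV (chG S.P.Q) b N M') R κ1 κ2 D1 D2 z1 z2 x1 x2 ∧
    v1 = hV (rf S (N * M') hM).P (2 * (h : ℤ)) κ1 D1 (plV (chG S.P.Q) b N M') z1 x1 ∧
    v2 = hV (rf S (N * M') hM).P (2 * (h : ℤ)) κ2 D2 (plV (chG S.P.Q) b N M') z2 x2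

/-- at most `m` steps, in any direction -/
def RSN (S : Shape) (a0 b : ℤ) (N M' : ℕ) (hM : 0 < N * M') (h : ℕ) : ℕ → ℂ → ℂ → Prop
  | 0, v, v' => v = v'
  | m + 1, v, v' => v = v' ∨ ∃ w, (RS1 S a0 b N M' hM h v w ∨ RS1 S a0 b N M' hM h w v) ∧
      RSN S a0 b N M' hM h m w v'

theorem rsn_eps (S : Shape) (hG : Gen S.P.Q) {b : ℤ} (hb : ∀ c ∈ chG S.P.Q, c.1 < b) (m : ℕ) :
    ∃ a0 : ℤ, ∀ (N M' : ℕ) (hM : 0 < N * M'), 64 * ((N : ℤ) * (b - a0)) ≤ M' → ∀ ε > (0 : ℝ),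
    ∃ h0 : ℕ, ∀ h : ℕ, h0 ≤ h → ∀ v v' : ℂ, RSN S a0 b N M' hM h m v v' → ‖v - v'‖ ≤ ε := by
  obtain ⟨a0, ha⟩ := rstep S hG hb
  refine ⟨a0, fun N M' hM hM' ε hε => ?_⟩
  obtain ⟨h0, hh0⟩ := ha N M' hM hM' (ε / (m + 1)) (by positivity)
  refine ⟨h0, fun h hh v v' hR => ?_⟩
  have key : ∀ (m' : ℕ) (v v' : ℂ), RSN S a0 b N M' hM h m' v v' → ‖v - v'‖ ≤ m' * (ε / (m + 1)) := by
    intro m'
    induction m' with
    | zero =>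
      intro v v' h1
      have h2 : v = v' := h1
      rw [h2, sub_self, norm_zero]
      simp
    | succ m' ih =>
      rintro v v' (h1 | ⟨w, h1, h2⟩)
      · rw [h1, sub_self, norm_zero]
        positivity
      · have h3 : ‖v - w‖ ≤ ε / (m + 1) := by
          rcases h1 with ⟨κ1, κ2, Xr, D1, D2, R, z1, z2, x1, x2, w1, w2, hr, hF, rfl, rfl⟩ |
            ⟨κ1, κ2, Xr, D1, D2, R, z1, z2, x1, x2, w1, w2, hr, hF, rfl, rfl⟩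
          · exact hh0 h hh w1 w2 hr hF
          · rw [norm_sub_rev]
            exact hh0 h hh w1 w2 hr hF
        have h4 := ih w v' h2
        calc ‖v - v'‖ = ‖(v - w) + (w - v')‖ := by congr 1; ring
          _ ≤ ‖v - w‖ + ‖w - v'‖ := norm_add_le _ _
          _ ≤ ε / (m + 1) + m' * (ε / (m + 1)) := add_le_add h3 h4
          _ = ((m' + 1 : ℕ) : ℝ) * (ε / (m + 1)) := by push_cast; ring
  refine (key m v v' hR).trans ?_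
  rw [mul_div_assoc', div_le_iff₀ (by positivity)]
  nlinarith

open Filter Metric
open Pool.Agent.H74.W (HF lK ps)
open Pool.Agent.H82.W (PR)

/-- **`PR` from steps of RAISE.** -/
theorem pr_of_steps (S : Shape) (hG : Gen S.P.Q) {b : ℤ} (hb : ∀ c ∈ chG S.P.Q, c.1 < b) {z1 : ℂ}
    (hz : ∀ Y : ℤ, z1.im ≠ Y) {hA : ℕ × ℕ → ℕ → ℤ × ℤ → ℂ} (m : ℕ)
    (H : ∀ a0 : ℤ, ∃ r > (0 : ℝ), ∀ᶠ k : ℕ × ℕ in lK, ∀ hM : 0 < k.1 * k.2, ∀ᶠ h : ℕ in atTop,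
      ∀ p : ℤ × ℤ, dist (ps k h p) z1 < r → RSN S a0 b k.1 k.2 hM h m (HF S b k h p) (hA k h p)) :
    PR S b z1 hA := by
  obtain ⟨a0, ha⟩ := rsn_eps S hG hb m
  obtain ⟨r, hr, h1⟩ := H a0
  obtain ⟨r', hr', h2⟩ := rows_far a0 b hz
  refine ⟨r, hr, fun ε hε => ?_⟩
  filter_upwards [h1, h2] with k k1 k2
  obtain ⟨hM, hM', -⟩ := k2
  obtain ⟨h0, hh0⟩ := ha k.1 k.2 hM hM' ε hε
  filter_upwards [k1 hM, eventually_ge_atTop h0] with h q1 q2 p hp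
  exact hh0 h q2 _ _ (q1 p hp)

end Pool.Agent.H2.W.Run
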