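import Mathlib
import Pool.Agent.H2.W.PRTop

set_option autoImplicit false
open Finset

/-! # The row through the third room is far from the coarse lines -/

namespace Pool.Agent.H2.W.Run

open Filter
open Pool.Agent.H74.W (lK)

/-- **Rows in the middle half of a coarse row are far from the coarse lines.** -/
theorem rows_mid (a0 b : ℤ) : ∀ᶠ k : ℕ × ℕ in lK, ∀ h : ℕ, 1 ≤ h → ∀ Y r : ℤ,
    2 * (h : ℤ) * ((k.1 * k.2) * Y + k.1 * k.2 / 4) ≤ r →
    r ≤ 2 * (h : ℤ) * ((k.1 * k.2) * Y + k.1 * k.2 - k.1 * k.2 / 4) → ∀ Y0 : ℤ,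
      2 * (h : ℤ) * (|k.1 * (b - a0)| + 1) < |r - 2 * (h : ℤ) * (k.1 * k.2) * Y0| := by
  unfold lK
  rw [Filter.eventually_curry_iff]
  filter_upwards [eventually_ge_atTop 1] with N hN
  filter_upwards [eventually_ge_atTop (4 * (|b - a0| + 2)).toNat] with M' h1
  intro h hh Y r hr1 hr2 Y0
  have h2 : 4 * (|b - a0| + 2) ≤ (M' : ℤ) := by omega
  have hN' : (1 : ℤ) ≤ N := by exact_mod_cast hN
  have h3 : 4 * (N * (|b - a0| + 2)) ≤ (N * M' : ℤ) := by nlinarith
  have h4 : (N : ℤ) * (|b - a0| + 2) ≤ N * M' / 4 := by omega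
  have h5 : |(N : ℤ) * (b - a0)| = N * |b - a0| := by rw [abs_mul, abs_of_nonneg (by omega)]
  have h6 : |(N : ℤ) * (b - a0)| + 2 ≤ N * M' / 4 := by
    rw [h5]
    nlinarith
  generalize hM : (N * M' : ℤ) = M at *
  have hM0 : 0 ≤ M := by
    have := abs_nonneg ((N : ℤ) * (b - a0))
    omega
  generalize |(N : ℤ) * (b - a0)| = A at *
  have hh' : (1 : ℤ) ≤ 2 * (h : ℤ) := by omega
  generalize 2 * (h : ℤ) = n at *
  have e0 : n * M * Y0 = n * (M * Y0) := by ring
  rw [e0]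
  rcases le_or_gt Y0 Y with hY | hY
  · have h7 : M * Y0 ≤ M * Y := mul_le_mul_of_nonneg_left hY hM0
    have h8 : n * (M * Y0 + (A + 2)) ≤ n * (M * Y + M / 4) := mul_le_mul_of_nonneg_left (by omega) (by omega)
    have e1 : n * (M * Y0 + (A + 2)) = n * (M * Y0) + n * (A + 1) + n := by ring
    refine lt_of_lt_of_le ?_ (le_abs_self _)
    omega
  · have h7 : M * (Y + 1) ≤ M * Y0 := mul_le_mul_of_nonneg_left hY hM0
    have e2 : M * (Y + 1) = M * Y + M := by ring
    have h8 : n * (M * Y + M - M / 4) ≤ n * (M * Y0 - (A + 2)) := mul_le_mul_of_nonneg_left (by omega) (by omega)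
    have e1 : n * (M * Y0 - (A + 2)) = n * (M * Y0) - n * (A + 1) - n := by ring
    rw [abs_sub_comm]
    refine lt_of_lt_of_le ?_ (le_abs_self _)
    omega

end Pool.Agent.H2.W.Run
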