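import Mathlib
import Pool.Agent.H2.W.RInst2
import Pool.Agent.H2.W.RowF

set_option autoImplicit false
set_option linter.unusedVariables false
open Finset

/-! # RAISE: the chain of steps for a tile of the narrow room

`kb` : the colours before the flip of the part behind the tooth (`dl = 1` : vertex 0 between the exits);
`kp`, `Dp` : colours and deleted labels of the auxiliary world. `rsn_of` : from the equalities of the forced
probabilities to `RSN`. -/

namespace Pool.Agent.H2.W.Run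

open Pool.Agent.H75.Perc (dir dir_cases)
open Pool.Agent.Q1.M4 (Cell PType IsSide nextSide Good)
open Pool.Agent.H33.Q1 (lt tt ct TL LY mem_LY ct_eq lt_odd tt_lt lt_tt lt_inj mem_TL)
open Pool.Agent.H19.W Pool.Agent.H92.W
open Pool.Agent.H13.W (chG SG eW)
open Pool.Agent.H58.W (plV)
open Pool.Agent.H50.W (rf bk)
open Pool.Agent.H68.W (sx sx_spec sx_eq sx_next isSide1 isSide3)
open Pool.Agent.H78.W (Thin Cc Rfn PicD rfn div_in)
open Pool.Agent.H21.FM (Shape)
open Pool.Agent.H74.W (Ex Del)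

/-- the far ends: alive sides at the three marks -/
noncomputable def XM (T : Shape) (h : ℕ) (κ : ℕ → ℤ → Prop) (j : Fin 3) : ℤ × ℤ := XA T h κ (mkI T j)

/-- the row `r` is one of the rows of the chain -/
def Xq (p2 r0 : ℤ) (r : ℤ) : Prop := r = p2 ∨ r = p2 - 1 ∨ r = r0 ∨ r = r0 - 1

/-- colours of the world of `p`, resp. opposite colours of the world of the tile below `p` -/
def kb (T : Shape) (h : ℕ) (p : ℤ × ℤ) (dl : Bool) : ℕ → ℤ → Prop :=
  if dl then fun i y => ¬ κz T h (p.1, p.2 - 1) i y else κz T h p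

/-- the tile of the end -/
def qb (p : ℤ × ℤ) (dl : Bool) : ℤ × ℤ := if dl then (p.1, p.2 - 1) else p

section inst

variable {S : Shape} {aL b : ℤ} {N M' h : ℕ} {hM : 0 < N * M'} {sg P : Bool} {a0 be bt bw Y0 k0 : ℤ}

/-- **One plain world.** -/
theorem wok_plain {T : Shape} (hh : 2 ≤ h) {q : ℤ × ℤ} {κ : ℕ → ℤ → Prop} {Xr : ℤ → Prop}
    (K : KOK T.P (2 * (h : ℤ)) κ Xr) (hX : Xr q.2) :
    WOK T.P (2 * (h : ℤ)) κ (Del T.P.Q (2 * (h : ℤ)) q) (eW (lt q)) (XM T h κ) Xr where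
  k := K
  d := by
    intro e he
    rw [he.2.1]
    exact hX
  z := by
    refine outC_del (lt_odd _) ⟨lt_odd _, by rw [tt_lt], by rw [tt_lt], fun x h1 h2 => ?_⟩
    rw [tt_lt] at h2
    omega
  x := fun j => outC_XA hh (mkI_cvx T j)

/-- **The world with the deleted row behind the tooth.** -/
theorem wok_plus {T : Shape} (hh : 2 ≤ h) {q : ℤ × ℤ} {κ : ℕ → ℤ → Prop} {Xr : ℤ → Prop}
    {run : Cell → Prop} {r0 : ℤ} (K : KOK T.P (2 * (h : ℤ)) κ Xr) (hX : Xr q.2) (hr : Xr r0) :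
    WOK T.P (2 * (h : ℤ)) κ (Del T.P.Q (2 * (h : ℤ)) q ∪ FR T.P.Q (2 * (h : ℤ)) run r0) (eW (lt q))
      (XM T h κ) Xr where
  k := K
  d := by
    rintro e (he | he)
    · rw [he.2.1]
      exact hX
    · rw [he.2.2]
      exact hr
  z := by
    refine outC_del (lt_odd _) (Or.inl ⟨lt_odd _, by rw [tt_lt], by rw [tt_lt], fun x h1 h2 => ?_⟩)
    rw [tt_lt] at h2
    omega
  x := fun j => outC_XA hh (mkI_cvx T j)

/-- the colours `kb` are coherent -/
lemma kok_kb {T : Shape} (hh : 0 < h) {p : ℤ × ℤ} (dl : Bool) {r0 : ℤ} :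
    KOK T.P (2 * (h : ℤ)) (kb T h p dl) (Xq p.2 r0) := by
  unfold kb
  cases dl
  · exact (kok_kz hh).mono fun r hr => Or.inl hr
  · exact (kok_kz (S := T) (p := (p.1, p.2 - 1)) hh).not.mono fun r hr => Or.inr (Or.inl hr)

lemma kok19_kb {T : Shape} (hh : 0 < h) {p : ℤ × ℤ} (dl : Bool) :
    Pool.Agent.H19.W.KOK T.P (2 * (h : ℤ)) (kb T h p dl) (fun i _ => Ex T h (qb p dl) i) := by
  unfold kb qb
  cases dl
  · exact kok19 hh
  · exact KOK19.not (kok19 hh)

end inst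

/-! ### The chain -/

section chain

variable (S : Shape) (aL b : ℤ) (N M' h : ℕ) (hM : 0 < N * M') (sg P : Bool) (a0 be bt bw Y0 : ℤ)
  (U : Cell → Prop)

/-- row of tiles of the cut -/
def r0F (sg : Bool) (N M' h : ℕ) (Y0 : ℤ) : ℤ := 2 * (h : ℤ) * yF sg (N * M') Y0 + h

/-- the part behind the tooth -/
def RF : Cell → ℤ → Prop :=
  Pool.Agent.H19.W.RR (UU (rf S (N * M') hM).P.Q U (yF sg (N * M') Y0) (N * M' * bt) (N * M' * bw) sg)
    (rn (yF sg (N * M') Y0) (N * M' * bt) (N * M' * bw)) (r0F sg N M' h Y0) sg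

/-- the deleted row behind the tooth -/
def FF : Set (ℤ × ℤ) := FR (rf S (N * M') hM).P.Q (2 * (h : ℤ))
  (rn (yF sg (N * M') Y0) (N * M' * bt) (N * M' * bw)) (r0F sg N M' h Y0)

/-- colours of the auxiliary world -/
def kp (p : ℤ × ℤ) (dl : Bool) : ℕ → ℤ → Prop :=
  if P then κF (rf S (N * M') hM).P (RF S N M' h hM sg bt bw Y0 U) (kb (rf S (N * M') hM) h p dl)
  else kb (rf S (N * M') hM) h p dl

/-- deleted labels of the auxiliary world -/
def Dp (p : ℤ × ℤ) (dl : Bool) : Set (ℤ × ℤ) :=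
  if P then Del (rf S (N * M') hM).P.Q (2 * (h : ℤ)) (qb p dl) ∪ FF S N M' h hM sg bt bw Y0
  else Del (rf S (N * M') hM).P.Q (2 * (h : ℤ)) (qb p dl)

/-- **Value of the auxiliary world** -/
noncomputable def vA (p : ℤ × ℤ) (dl : Bool) : ℂ :=
  hV (rf S (N * M') hM).P (2 * (h : ℤ)) (kp S N M' h hM sg P bt bw Y0 U p dl) (Dp S N M' h hM sg P bt bw Y0 p dl)
    (plV (chG S.P.Q) b N M') (eW (lt (qb p dl))) (XM (rf S (N * M') hM) h (kp S N M' h hM sg P bt bw Y0 U p dl))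

/-- value of the plain world -/
noncomputable def vZ (p : ℤ × ℤ) (dl : Bool) : ℂ :=
  hV (rf S (N * M') hM).P (2 * (h : ℤ)) (kb (rf S (N * M') hM) h p dl)
    (Del (rf S (N * M') hM).P.Q (2 * (h : ℤ)) (qb p dl))
    (plV (chG S.P.Q) b N M') (eW (lt (qb p dl))) (XM (rf S (N * M') hM) h (kb (rf S (N * M') hM) h p dl))

/-- the forced probabilities for the part behind the tooth -/
def FP (p : ℤ × ℤ) (dl : Bool) : Prop :=
  if sg then FEq (rf S (N * M') hM).P (2 * (h : ℤ)) (plV (chG S.P.Q) b N M') (RF S N M' h hM sg bt bw Y0 U)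
    (kb (rf S (N * M') hM) h p dl)
    (κF (rf S (N * M') hM).P (RF S N M' h hM sg bt bw Y0 U) (kb (rf S (N * M') hM) h p dl))
    (Del (rf S (N * M') hM).P.Q (2 * (h : ℤ)) (qb p dl))
    (Del (rf S (N * M') hM).P.Q (2 * (h : ℤ)) (qb p dl) ∪ FF S N M' h hM sg bt bw Y0)
    (eW (lt (qb p dl))) (eW (lt (qb p dl))) (XM (rf S (N * M') hM) h (kb (rf S (N * M') hM) h p dl))
    (XM (rf S (N * M') hM) h (κF (rf S (N * M') hM).P (RF S N M' h hM sg bt bw Y0 U)
      (kb (rf S (N * M') hM) h p dl)))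
  else FEq (rf S (N * M') hM).P (2 * (h : ℤ)) (plV (chG S.P.Q) b N M') (RF S N M' h hM sg bt bw Y0 U)
    (κF (rf S (N * M') hM).P (RF S N M' h hM sg bt bw Y0 U) (kb (rf S (N * M') hM) h p dl))
    (kb (rf S (N * M') hM) h p dl)
    (Del (rf S (N * M') hM).P.Q (2 * (h : ℤ)) (qb p dl) ∪ FF S N M' h hM sg bt bw Y0)
    (Del (rf S (N * M') hM).P.Q (2 * (h : ℤ)) (qb p dl))
    (eW (lt (qb p dl))) (eW (lt (qb p dl)))
    (XM (rf S (N * M') hM) h (κF (rf S (N * M') hM).P (RF S N M' h hM sg bt bw Y0 U)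
      (kb (rf S (N * M') hM) h p dl)))
    (XM (rf S (N * M') hM) h (kb (rf S (N * M') hM) h p dl))

/-- the forced probabilities for the whole polygon -/
def FV (p : ℤ × ℤ) : Prop :=
  FEq (rf S (N * M') hM).P (2 * (h : ℤ)) (plV (chG S.P.Q) b N M') (fun _ _ => True)
    (kb (rf S (N * M') hM) h p true) (kb (rf S (N * M') hM) h p false)
    (Del (rf S (N * M') hM).P.Q (2 * (h : ℤ)) (qb p true)) (Del (rf S (N * M') hM).P.Q (2 * (h : ℤ)) (qb p false))
    (eW (lt (qb p true))) (eW (lt (qb p false))) (XM (rf S (N * M') hM) h (kb (rf S (N * M') hM) h p true))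
    (XM (rf S (N * M') hM) h (kb (rf S (N * M') hM) h p false))

end chain

section steps

variable {S : Shape} {aL b : ℤ} {N M' h : ℕ} {hM : 0 < N * M'} {sg P : Bool} {a0 be bt bw Y0 k0 aR : ℤ}
  (D : PicD S aL b N M' h hM sg P a0 be bt bw Y0 k0) {U : Cell → Prop}

/-- **RAISE for the whole polygon.** -/
theorem step_V (hh : 2 ≤ h) {p : ℤ × ℤ} (hr : FarR aR b N M' h (Xq p.2 (r0F sg N M' h Y0)))
    (hV : FV S b N M' h hM p) : RS1 S aR b N M' hM h (vZ S b N M' h hM p true) (vZ S b N M' h hM p false) :=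
  ⟨_, _, Xq p.2 (r0F sg N M' h Y0), _, _, _, _, _, _, _,
    wok_plain hh (kok_kb (by omega) true) (by right; left; rfl),
    wok_plain hh (kok_kb (by omega) false) (by left; rfl), hr, hV, rfl, rfl⟩

/-- **RAISE for the part behind the tooth.** -/
theorem step_P (hh : 2 ≤ h) (HC : CutD (rf S (N * M') hM).P.Q U (yF sg (N * M') Y0) (N * M' * bt) (N * M' * bw))
    {p : ℤ × ℤ} {dl : Bool} (hr : FarR aR b N M' h (Xq p.2 (r0F sg N M' h Y0)))
    (hP : FP S b N M' h hM sg bt bw Y0 U p dl) :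
    RS1 S aR b N M' hM h (vZ S b N M' h hM p dl) (vA S b N M' h hM sg true bt bw Y0 U p dl) ∨
    RS1 S aR b N M' hM h (vA S b N M' h hM sg true bt bw Y0 U p dl) (vZ S b N M' h hM p dl) := by
  have hq : Xq p.2 (r0F sg N M' h Y0) (qb p dl).2 := by
    cases dl
    · left; rfl
    · right; left; rfl
  have hk := kok_kb (T := rf S (N * M') hM) (h := h) (p := p) (by omega) dl (r0 := r0F sg N M' h Y0)
  have hn : (0 : ℤ) < 2 * (h : ℤ) := by omega
  have hk2 : KOK (rf S (N * M') hM).P (2 * (h : ℤ)) (κF (rf S (N * M') hM).P (RF S N M' h hM sg bt bw Y0 U)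
      (kb (rf S (N * M') hM) h p dl)) (Xq p.2 (r0F sg N M' h Y0)) := by
    refine HC.kok rfl hk hn ?_ ?_ (by right; right; right; rfl) sg
    · unfold r0F; omega
    · unfold r0F; omega
  have w1 := wok_plain hh hk hq
  have w2 := wok_plus (run := rn (yF sg (N * M') Y0) (N * M' * bt) (N * M' * bw)) (r0 := r0F sg N M' h Y0)
    hh hk2 hq (by right; right; left; rfl)
  unfold FP at hP
  cases sg
  · right
    exact ⟨_, _, Xq p.2 (r0F false N M' h Y0), _, _, _, _, _, _, _, w2, w1, hr, hP, rfl, rfl⟩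
  · left
    exact ⟨_, _, Xq p.2 (r0F true N M' h Y0), _, _, _, _, _, _, _, w1, w2, hr, hP, rfl, rfl⟩

/-- **The chain**: at most two steps. -/
theorem rsn_of (hh : 2 ≤ h)
    (HC : P = true → CutD (rf S (N * M') hM).P.Q U (yF sg (N * M') Y0) (N * M' * bt) (N * M' * bw))
    {p : ℤ × ℤ} {dl : Bool} (hr : FarR aR b N M' h (Xq p.2 (r0F sg N M' h Y0)))
    (hV : dl = true → FV S b N M' h hM p) (hP : P = true → FP S b N M' h hM sg bt bw Y0 U p dl) :
    RSN S aR b N M' hM h 2 (vZ S b N M' h hM p false) (vA S b N M' h hM sg P bt bw Y0 U p dl) := by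
  have key : RSN S aR b N M' hM h 1 (vZ S b N M' h hM p dl) (vA S b N M' h hM sg P bt bw Y0 U p dl) := by
    cases P
    · left; rfl
    · right
      exact ⟨_, step_P hh (HC rfl) hr (hP rfl), rfl⟩
  cases dl
  · -- one step only
    rcases key with h1 | ⟨w, h1, h2⟩
    · exact Or.inl h1
    · exact Or.inr ⟨w, h1, Or.inl h2⟩
  · exact Or.inr ⟨_, Or.inr (step_V hh hr (hV rfl)), key⟩

end steps

end Pool.Agent.H2.W.Run
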