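import Mathlib
import Pool.Agent.H2.W.RInst3
import Pool.Agent.H82.W.VInst

set_option autoImplicit false
set_option linter.unusedVariables false
open Finset

/-! # RAISE near a fixed point of the narrow room

`narP_near` : the tiles near the point are in the narrow room. `farR_near` : the rows of the chain are far from the
coarse lines. `pr_narrow` : `PR` (field `narrow` of 82's `Inst`) from the exact identities. -/

namespace Pool.Agent.H2.W.Run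

open Pool.Agent.Q1.M4 (Cell PType)
open Pool.Agent.H33.Q1 (lt tt ct TL)
open Pool.Agent.H19.W Pool.Agent.H92.W
open Pool.Agent.H13.W (chG SG eW)
open Pool.Agent.H58.W (plV)
open Pool.Agent.H50.W (rf bk)
open Pool.Agent.H78.W (Thin Cc Rfn PicD rfn div_in)
open Pool.Agent.H21.FM (Shape)
open Pool.Agent.H5.C3 (Gen)
open Pool.Agent.H74.W (Ex Del HF lK ps)
open Pool.Agent.H82.W (PR)
open Filter Metric

/-- a tile coordinate in coarse units -/
lemma coord_near {R u z r : ℝ} {a : ℤ} {L : ℤ} (hL : (L : ℝ) = R) (hR : 0 < R) {q : ℤ} (hq : |(q : ℝ) / R - z| < r)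
    (h1 : (a : ℝ) + r ≤ z) (h2 : z + r ≤ a + 1) : L * a + 1 ≤ q ∧ q < L * a + L := by
  rw [abs_lt] at hq
  have h3 : (a : ℝ) < q / R := by linarith [hq.1]
  have h4 : (q : ℝ) / R < a + 1 := by linarith [hq.2]
  rw [lt_div_iff₀ hR, ← hL] at h3
  rw [div_lt_iff₀ hR, ← hL] at h4
  have h5 : ((a * L : ℤ) : ℝ) < ((q : ℤ) : ℝ) := by push_cast; exact h3
  have h6 : ((q : ℤ) : ℝ) < (((a + 1) * L : ℤ) : ℝ) := by push_cast; exact h4
  have h7 : a * L < q := by exact_mod_cast h5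
  have h8 : q < (a + 1) * L := by exact_mod_cast h6
  constructor <;> nlinarith

/-- **Tiles near a point of the narrow room.** -/
theorem narP_near {S : Shape} {z1 : ℂ} {X Y be : ℤ} {sg : Bool} (h1 : (X : ℝ) < z1.re) (h2 : z1.re < X + 1)
    (hbe : X + 1 ≤ be)
    (h3 : if sg then (Y : ℝ) < z1.im ∧ z1.im < Y + 1 else (Y : ℝ) - 1 < z1.im ∧ z1.im < Y) :
    ∃ r > (0 : ℝ), ∀ (k : ℕ × ℕ) (h : ℕ), 0 < k.1 * k.2 → 1 ≤ h → ∀ p : ℤ × ℤ, dist (ps k h p) z1 < r →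
      NarP S k.1 k.2 h sg X be Y p ∧ NarP S k.1 k.2 h sg X be Y (p.1, p.2 - 1) := by
  set Yb : ℤ := if sg then Y else Y - 1 with hYb
  have h4 : (Yb : ℝ) < z1.im ∧ z1.im < Yb + 1 := by
    cases sg
    · simp only [Bool.false_eq_true, if_false] at h3 hYb
      rw [hYb]; push_cast
      exact ⟨h3.1, by linarith [h3.2]⟩
    · simp only [if_true] at h3 hYb
      rw [hYb]; exact h3
  refine ⟨min (min (z1.re - X) (X + 1 - z1.re)) (min (z1.im - Yb) (Yb + 1 - z1.im)),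
    lt_min (lt_min (by linarith) (by linarith)) (lt_min (by linarith [h4.1]) (by linarith [h4.2])), ?_⟩
  intro k h hk hh p hp
  set r := min (min (z1.re - X) (X + 1 - z1.re)) (min (z1.im - Yb) (Yb + 1 - z1.im)) with hr
  have r1 : r ≤ z1.re - X := (min_le_left _ _).trans (min_le_left _ _)
  have r2 : r ≤ X + 1 - z1.re := (min_le_left _ _).trans (min_le_right _ _)
  have r3 : r ≤ z1.im - Yb := (min_le_right _ _).trans (min_le_left _ _)
  have r4 : r ≤ Yb + 1 - z1.im := (min_le_right _ _).trans (min_le_right _ _)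
  have hk' : (0 : ℝ) < (k.1 : ℝ) * k.2 := by exact_mod_cast hk
  have hh' : (0 : ℝ) < h := by exact_mod_cast hh
  have hR0 : 0 < Pool.Agent.H74.W.RR k h := by unfold Pool.Agent.H74.W.RR; positivity
  have hL : ((2 * (h : ℤ) * (k.1 * k.2) : ℤ) : ℝ) = Pool.Agent.H74.W.RR k h := by unfold Pool.Agent.H74.W.RR; push_cast; ring
  have e1 : (ps k h p).re = (p.1 : ℝ) / Pool.Agent.H74.W.RR k h := by
    unfold ps Pool.Agent.Q1.M4.lat
    rw [Complex.div_ofReal_re]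
  have e2 : (ps k h p).im = (p.2 : ℝ) / Pool.Agent.H74.W.RR k h := by
    unfold ps Pool.Agent.Q1.M4.lat
    rw [Complex.div_ofReal_im]
  have a1 : |(p.1 : ℝ) / Pool.Agent.H74.W.RR k h - z1.re| < r := by
    rw [dist_eq_norm] at hp
    refine lt_of_le_of_lt ?_ hp
    have := Complex.abs_re_le_norm (ps k h p - z1)
    rwa [Complex.sub_re, e1] at this
  have a2 : |(p.2 : ℝ) / Pool.Agent.H74.W.RR k h - z1.im| < r := by
    rw [dist_eq_norm] at hp
    refine lt_of_le_of_lt ?_ hp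
    have := Complex.abs_im_le_norm (ps k h p - z1)
    rwa [Complex.sub_im, e2] at this
  obtain ⟨b1, b2⟩ := coord_near (u := 0) hL hR0 a1 (a := X) (by linarith) (by linarith)
  obtain ⟨b3, b4⟩ := coord_near (u := 0) hL hR0 a2 (a := Yb) (by linarith) (by linarith)
  have hn : (0 : ℤ) < 2 * h := by omega
  have hLp : (0 : ℤ) ≤ 2 * (h : ℤ) * (k.1 * k.2) := by positivity
  have hbe' : 2 * (h : ℤ) * (k.1 * k.2) * (X + 1) ≤ 2 * (h : ℤ) * (k.1 * k.2) * be :=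
    mul_le_mul_of_nonneg_left hbe hLp
  have c1 : (k.1 : ℤ) * k.2 * X ≤ p.1 / (2 * (h : ℤ)) := by
    rw [Int.le_ediv_iff_mul_le hn]; linarith
  have c2 : p.1 / (2 * (h : ℤ)) < k.1 * k.2 * be := by
    rw [Int.ediv_lt_iff_lt_mul hn]; linarith
  have key : ∀ q : ℤ, q = p.2 ∨ q = p.2 - 1 →
      if sg then (k.1 : ℤ) * k.2 * Y ≤ q / (2 * (h : ℤ)) ∧ q / (2 * (h : ℤ)) < k.1 * k.2 * Y + k.1 * k.2
      else (k.1 : ℤ) * k.2 * Y - k.1 * k.2 ≤ q / (2 * (h : ℤ)) ∧ q / (2 * (h : ℤ)) < k.1 * k.2 * Y := by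
    intro q hq
    have q1 : 2 * (h : ℤ) * (k.1 * k.2) * Yb ≤ q := by rcases hq with rfl | rfl <;> linarith
    have q2 : q < 2 * (h : ℤ) * (k.1 * k.2) * Yb + 2 * (h : ℤ) * (k.1 * k.2) := by
      rcases hq with rfl | rfl <;> linarith
    have d1 : (k.1 : ℤ) * k.2 * Yb ≤ q / (2 * (h : ℤ)) := by
      rw [Int.le_ediv_iff_mul_le hn]; linarith
    have d2 : q / (2 * (h : ℤ)) < k.1 * k.2 * Yb + k.1 * k.2 := by
      rw [Int.ediv_lt_iff_lt_mul hn]; linarith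
    cases sg
    · simp only [Bool.false_eq_true, if_false] at hYb ⊢
      rw [hYb] at d1 d2
      constructor <;> linarith
    · simp only [if_true] at hYb ⊢
      rw [hYb] at d1 d2
      exact ⟨d1, d2⟩
  exact ⟨⟨c1, c2, key _ (Or.inl rfl)⟩, ⟨c1, c2, key _ (Or.inr rfl)⟩⟩

/-- **The rows of the chain are far from the coarse lines.** -/
theorem farR_near (aR b Y : ℤ) (sg : Bool) {z1 : ℂ} (hz : ∀ Y : ℤ, z1.im ≠ Y) :
    ∃ r > (0 : ℝ), ∀ᶠ k : ℕ × ℕ in lK, ∀ h : ℕ, 1 ≤ h → ∀ p : ℤ × ℤ, dist (ps k h p) z1 < r →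
      FarR aR b k.1 k.2 h (Xq p.2 (r0F sg k.1 k.2 h Y)) := by
  obtain ⟨r, hr, h1⟩ := rows_far aR b hz
  refine ⟨r, hr, ?_⟩
  filter_upwards [h1, rows_mid aR b] with k k1 k2 h hh p hp
  obtain ⟨hk, -, k1⟩ := k1
  have k3 := k1 h hh p hp
  have hM : (0 : ℤ) < k.1 * k.2 := by exact_mod_cast hk
  -- the rows of the cut
  have hn : (1 : ℤ) ≤ 2 * (h : ℤ) := by omega
  have key : ∀ q : ℤ, q = r0F sg k.1 k.2 h Y ∨ q = r0F sg k.1 k.2 h Y - 1 → ∀ Y0 : ℤ,
      2 * (h : ℤ) * (|k.1 * (b - aR)| + 1) < |q - 2 * (h : ℤ) * (k.1 * k.2) * Y0| := by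
    intro q hq Y0
    have hyF : ∃ Y' : ℤ, (k.1 : ℤ) * k.2 * Y' + k.1 * k.2 / 4 ≤ yF sg (k.1 * k.2) Y ∧
        yF sg (k.1 * k.2) Y + 1 ≤ k.1 * k.2 * Y' + k.1 * k.2 - k.1 * k.2 / 4 := by
      unfold yF
      cases sg
      · refine ⟨Y - 1, ?_⟩
        simp only [Bool.false_eq_true, if_false]
        have e : (k.1 : ℤ) * k.2 * (Y - 1) = k.1 * k.2 * Y - k.1 * k.2 := by ring
        rw [e]
        generalize (k.1 : ℤ) * k.2 * Y = A at *
        generalize (k.1 : ℤ) * k.2 = M at *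
        omega
      · refine ⟨Y, ?_⟩
        simp only [if_true]
        generalize (k.1 : ℤ) * k.2 * Y = A at *
        generalize (k.1 : ℤ) * k.2 = M at *
        omega
    obtain ⟨Y', y1, y2⟩ := hyF
    refine k2 h hh Y' q ?_ ?_ Y0
    · have : 2 * (h : ℤ) * (k.1 * k.2 * Y' + k.1 * k.2 / 4) ≤ 2 * (h : ℤ) * yF sg (k.1 * k.2) Y :=
        mul_le_mul_of_nonneg_left y1 (by omega)
      unfold r0F at hq
      rcases hq with rfl | rfl <;> omega
    · have : 2 * (h : ℤ) * (yF sg (k.1 * k.2) Y + 1) ≤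
          2 * (h : ℤ) * (k.1 * k.2 * Y' + k.1 * k.2 - k.1 * k.2 / 4) :=
        mul_le_mul_of_nonneg_left y2 (by omega)
      have e : 2 * (h : ℤ) * (yF sg (k.1 * k.2) Y + 1) = 2 * (h : ℤ) * yF sg (k.1 * k.2) Y + 2 * (h : ℤ) := by
        ring
      unfold r0F at hq
      rcases hq with rfl | rfl <;> omega
  intro q hq Y0
  rcases hq with rfl | rfl | hq | hq
  · have := k3 Y0
    linarith
  · have h2 := k3 Y0
    have h3 : |p.2 - 2 * (h : ℤ) * (k.1 * k.2) * Y0| ≤ |p.2 - 1 - 2 * (h : ℤ) * (k.1 * k.2) * Y0| + 1 := by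
      have e : p.2 - 2 * (h : ℤ) * (k.1 * k.2) * Y0 = (p.2 - 1 - 2 * (h : ℤ) * (k.1 * k.2) * Y0) + 1 := by ring
      rw [e]
      refine (abs_add_le _ _).trans ?_
      simp
    linarith
  · exact key q (Or.inl hq) Y0
  · exact key q (Or.inr hq) Y0

/-- **`PR` near a point of the narrow room**, from the exact identities. -/
theorem pr_narrow {S : Shape} (hG : Gen S.P.Q) {b : ℤ} (hb : ∀ c ∈ chG S.P.Q, c.1 < b) {z1 : ℂ}
    (hz : ∀ Y : ℤ, z1.im ≠ Y) {sg P dl : Bool} {bt bw Y : ℤ} {hA : ℕ × ℕ → ℕ → ℤ × ℤ → ℂ}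
    (H : ∃ r > (0 : ℝ), ∀ᶠ k : ℕ × ℕ in lK, ∀ hM : 0 < k.1 * k.2, ∀ᶠ h : ℕ in atTop,
      ∀ p : ℤ × ℤ, dist (ps k h p) z1 < r → ∃ U : Cell → Prop,
        (P = true → CutD (rf S (k.1 * k.2) hM).P.Q U (yF sg (k.1 * k.2) Y) (k.1 * k.2 * bt) (k.1 * k.2 * bw)) ∧
        (dl = true → FV S b k.1 k.2 h hM p) ∧ (P = true → FP S b k.1 k.2 h hM sg bt bw Y U p dl) ∧
        HF S b k h p = vZ S b k.1 k.2 h hM p false ∧ hA k h p = vA S b k.1 k.2 h hM sg P bt bw Y U p dl) :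
    PR S b z1 hA := by
  refine pr_of_steps S hG hb hz 2 fun aR => ?_
  obtain ⟨r1, hr1, h1⟩ := H
  obtain ⟨r2, hr2, h2⟩ := farR_near aR b Y sg hz
  refine ⟨min r1 r2, lt_min hr1 hr2, ?_⟩
  filter_upwards [h1, h2] with k k1 k2 hM
  filter_upwards [k1 hM, eventually_ge_atTop 2] with h q1 q2 p hp
  obtain ⟨U, u1, u2, u3, u4, u5⟩ := q1 p (hp.trans_le (min_le_left _ _))
  rw [u4, u5]
  exact rsn_of q2 u1 (k2 h (by omega) p (hp.trans_le (min_le_right _ _))) u2 u3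

end Pool.Agent.H2.W.Run
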