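import Mathlib
import Pool.Agent.H2.W.RInst4
import Pool.Agent.H13.W.VPicC

set_option autoImplicit false
set_option linter.unusedVariables false
open Finset

/-! # RAISE: 22's colours for the worlds of the chain

`cl_not` : opposite colours. `cl_flip` : colours flipped on a part behind a row, two new cuts. -/

namespace Pool.Agent.H2.W.Run

open Pool.Agent.Q1.M4 (Cell PType IsSide Good)
open Pool.Agent.H33.Q1 (lt tt ct TL lt_odd tt_lt lt_tt lt_inj mem_TL)
open Pool.Agent.H19.W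
open Pool.Agent.H22.W.Vc (Mark Ld Tc Cl DC VH)
open Pool.Agent.H13.W (TQ)

variable {P : PType} {n : ℤ} {κ : ℕ → ℤ → Prop} {M : Set Mark} {C : Set (ℤ × ℤ)} {U run : Cell → Prop}
  {y0 r0 : ℤ} {s : Bool} {x y : ℤ}

lemma tc_TQ : Tc (TQ P.Q n) x y ↔ Tq P.Q n (x, y) := by
  unfold Tc TQ Tq
  constructor
  · rintro ⟨a, b, h1, h2, h3⟩
    exact ⟨(a, b), by simp only; rw [abs_le]; omega, by simp only; rw [abs_le]; omega, h3⟩
  · rintro ⟨⟨a, b⟩, h1, h2, h3⟩
    simp only at h1 h2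
    rw [abs_le] at h1 h2
    exact ⟨a, b, by omega, by omega, h3⟩

lemma lam_TQ (hn : 0 < n) : (LamC P.Q n : Set (ℤ × ℤ)) = Ld (TQ P.Q n) := by
  ext e
  rw [mem_coe, mem_LamC hn]
  unfold Ld
  constructor
  · rintro ⟨h1, h2⟩
    exact ⟨(tt e).1, (tt e).2, (lt_tt h1).symm, tc_TQ.2 h2⟩
  · rintro ⟨a, b, rfl, h2⟩
    exact ⟨lt_odd _, by rw [tt_lt]; exact tc_TQ.1 h2⟩

/-- **Opposite colours.** -/
theorem cl_not {T : ℤ → ℤ → Prop} {c c' : ℤ → ℤ → Prop} (H : Cl T M c C)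
    (hc : ∀ x y, ¬ T x y → Tc T x y → (c' x y ↔ ¬ c x y)) : Cl T M c' C := by
  refine H.tog (τ := fun _ _ => True) (fun x y h1 h2 => ?_) (fun x y s _ _ _ _ => by simp)
    (fun x y s _ _ _ _ => Iff.rfl)
  rw [hc x y h1 h2]
  simp

lemma wc_not {x y : ℤ} (h1 : ¬ TQ P.Q n x y) (h2 : Tc (TQ P.Q n) x y) (hn : 0 < n) :
    lt (x, y) ∈ WC P n (fun i y => ¬ κ i y) ↔ ¬ lt (x, y) ∈ WC P n κ := by
  rw [mem_WC, mem_WC, tt_lt]
  have h3 : lt (x, y) ∈ LamC P.Q n := (mem_LamC hn).2 ⟨lt_odd _, by rw [tt_lt]; exact tc_TQ.1 h2⟩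
  have h4 : ct n (x, y) ∉ P.Q := h1
  simp only [h3, h4, not_false_eq_true, true_and]

theorem cl_wc_not (hn : 0 < n) (H : Cl (TQ P.Q n) M (fun x y => lt (x, y) ∈ WC P n κ) C) :
    Cl (TQ P.Q n) M (fun x y => lt (x, y) ∈ WC P n (fun i y => ¬ κ i y)) C :=
  cl_not H fun x y h1 h2 => wc_not h1 h2 hn

/-- the new cuts -/
def JR (P : PType) (n : ℤ) (run : Cell → Prop) (r0 : ℤ) : Set (ℤ × ℤ) :=
  {c | c.2 + 1 = r0 ∧ run (ac P.Q n c) ∧ ct n c ∉ P.Q}

/-- **Colours flipped on a part.** -/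
theorem cl_flip (hn : 4 ≤ n) (HP : Part P.Q n U run y0 r0 s)
    (H : Cl (TQ P.Q n) M (fun x y => lt (x, y) ∈ WC P n κ) C) :
    Cl (TQ P.Q n) M (fun x y => lt (x, y) ∈ WC P n (κF P (Pool.Agent.H19.W.RR U run r0 s) κ))
      (symmDiff C (JR P n run r0)) := by
  have hn0 : 0 < n := by omega
  refine H.tog (τ := fun x y => Pool.Agent.H19.W.RR U run r0 s (ac P.Q n (x, y)) y) (fun x y h1 h2 => ?_)
    (fun x y t ht h1 h2 h3 => ?_) (fun x y t ht h1 h2 h3 => ?_)
  · have h3 : lt (x, y) ∈ LamC P.Q n := (mem_LamC hn0).2 ⟨lt_odd _, by rw [tt_lt]; exact tc_TQ.1 h2⟩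
    have h4 : ct n (x, y) ∉ P.Q := h1
    rw [mem_WCF (by omega) h3 (by rw [tt_lt]; exact h4), mem_RgS, tt_lt]
    simp only [h3, true_and]
    unfold Xor
    tauto
  · have t1 : Tq P.Q n (x, y) := by
      apply tc_TQ.1
      rcases h3 with h3 | h3
      · exact ⟨x + t, y, by omega, by omega, h3⟩
      · exact ⟨x + t, y + 1, by omega, by omega, h3⟩
    have t2 : Tq P.Q n (x, y + 1) := by
      apply tc_TQ.1
      rcases h3 with h3 | h3
      · exact ⟨x + t, y, by omega, by omega, h3⟩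
      · exact ⟨x + t, y + 1, by omega, by omega, h3⟩
    have hj : ((x, y) ∈ symmDiff C (JR P n run r0) ↔ (x, y) ∈ C) ↔ (x, y) ∉ JR P n run r0 := by
      rw [Set.mem_symmDiff]
      tauto
    rw [hj]
    constructor
    · intro hJ
      by_contra hc
      obtain ⟨k1, k2, -, -⟩ := HP.jump P.good (by omega) t1 t2 hc
      exact hJ ⟨k1, k2, h1⟩
    · rintro hR ⟨k1, k2, -⟩
      simp only at k1 k2
      have hr := HP.r0
      have k3 : run (ac P.Q n (x, y + 1)) := by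
        have := HP.att_row (by omega) (y' := y + 1) k2 (by omega) (by omega)
        exact this
      have u1 : ¬ U (ac P.Q n (x, y)) := fun h => HP.ur _ h k2
      have u2 : ¬ U (ac P.Q n (x, y + 1)) := fun h => HP.ur _ h k3
      unfold Pool.Agent.H19.W.RR at hR
      cases s
      · simp only [u1, u2, k2, k3, Bool.false_eq_true, if_false, true_and, false_or] at hR
        omega
      · simp only [u1, u2, k2, k3, if_true, true_and, false_or] at hR
        omega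
  · have t1 : Tq P.Q n (x, y) := by
      apply tc_TQ.1
      rcases h3 with h3 | h3
      · exact ⟨x, y + t, by omega, by omega, h3⟩
      · exact ⟨x + 1, y + t, by omega, by omega, h3⟩
    have t2 : Tq P.Q n (x + 1, y) := by
      apply tc_TQ.1
      rcases h3 with h3 | h3
      · exact ⟨x, y + t, by omega, by omega, h3⟩
      · exact ⟨x + 1, y + t, by omega, by omega, h3⟩
    exact HP.regOK.hor P.good (by omega) t1 t2

end Pool.Agent.H2.W.Run
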