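import Mathlib
import Pool.Agent.H2.W.RVh
import Pool.Agent.H22.W.VcWld

set_option autoImplicit false
set_option linter.unusedVariables false
open Finset

/-! # RAISE: 22's hypotheses `VH` for the worlds of the chain

`ex_iff` : the exit of the world of a tile of the narrow room. `cl_z` : 22's `Cl` for `κz`. `dc_del`, `dc_plus` : 22's
`DC`. `vh_plain`, `vh_plus` : `VH` for the two worlds of a step. -/

namespace Pool.Agent.H2.W.Run

open Pool.Agent.H75.Perc (dir dir_cases)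
open Pool.Agent.Q1.M4 (Cell PType IsSide Good)
open Pool.Agent.H33.Q1 (lt tt ct TL LY mem_LY lt_odd tt_lt lt_tt lt_inj mem_TL)
open Pool.Agent.H19.W
open Pool.Agent.H22.W.Vc (Mark Ld Tc Cl DC VH mks CK ix)
open Pool.Agent.H13.W (TQ chG eW)
open Pool.Agent.H50.W (rf)
open Pool.Agent.H68.W (sx sx_spec sx_eq isSide1 isSide3)
open Pool.Agent.H78.W (Thin Cc Rfn PicD rfn div_in)
open Pool.Agent.H21.FM (Shape)
open Pool.Agent.H74.W (Ex Del)

section

variable {S : Shape} {aL b : ℤ} {N M' h : ℕ} {hM : 0 < N * M'} {sg P : Bool} {a0 be bt bw Y0 k0 : ℤ}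
  (D : PicD S aL b N M' h hM sg P a0 be bt bw Y0 k0) {p : ℤ × ℤ}

/-- first column of the tooth -/
def Xe (N M' h : ℕ) (be : ℤ) : ℤ := 2 * (h : ℤ) * (N * M' * be)

/-- the side of the tooth at the row of `p` -/
noncomputable def te (S : Shape) (N M' h : ℕ) (hM : 0 < N * M') (be : ℤ) (p : ℤ × ℤ) : ℕ :=
  sx (rf S (N * M') hM).P (N * M' * be - 1, p.2 / (2 * (h : ℤ))) 1

/-- room tiles of the refined shape in the rows of the narrow room -/
structure RowN (N M' h : ℕ) (sg : Bool) (Y0 y : ℤ) : Prop where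
  r : if sg then N * M' * Y0 ≤ y / (2 * (h : ℤ)) ∧ y / (2 * (h : ℤ)) < N * M' * Y0 + N * M'
    else N * M' * Y0 - N * M' ≤ y / (2 * (h : ℤ)) ∧ y / (2 * (h : ℤ)) < N * M' * Y0

include D in
lemma tq_in {x y : ℤ} (hr : RowN N M' h sg Y0 y) (h1 : N * M' * a0 ≤ x / (2 * (h : ℤ)))
    (h2 : x / (2 * (h : ℤ)) < N * M' * be) : TQ (rf S (N * M') hM).P.Q (2 * (h : ℤ)) x y :=
  nar_ct D (p := (x, y)) ⟨h1, h2, hr.r⟩

include D in
/-- inside of the tooth -/
lemma tq_tooth {x y : ℤ} (hr : RowN N M' h sg Y0 y) (h1 : N * M' * be ≤ x / (2 * (h : ℤ)))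
    (h2 : x / (2 * (h : ℤ)) < N * M' * bt) : ¬ TQ (rf S (N * M') hM).P.Q (2 * (h : ℤ)) x y := by
  have hm := D.mm
  have hm1 : (1 : ℤ) < N * M' := by omega
  exact D.C.q3 hm1 (rfn S hM) h1 h2 hr.r

include D in
/-- behind the tooth -/
lemma tq_beh (hP : P = true) {x y : ℤ} (hr : RowN N M' h sg Y0 y) (h1 : N * M' * bt ≤ x / (2 * (h : ℤ)))
    (h2 : x / (2 * (h : ℤ)) < N * M' * bw) : TQ (rf S (N * M') hM).P.Q (2 * (h : ℤ)) x y := by
  have hm := D.mm
  have hm1 : (1 : ℤ) < N * M' := by omega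
  exact D.C.q4 hm1 (rfn S hM) hP h1 h2 hr.r

include D in
/-- behind the right wall -/
lemma tq_wall {x y : ℤ} (hr : RowN N M' h sg Y0 y) (h1 : N * M' * bw ≤ x / (2 * (h : ℤ)))
    (h2 : x / (2 * (h : ℤ)) < N * M' * bw + N * M') : ¬ TQ (rf S (N * M') hM).P.Q (2 * (h : ℤ)) x y := by
  have hm := D.mm
  have hm1 : (1 : ℤ) < N * M' := by omega
  have := hr.r
  refine D.C.q5 hm1 (rfn S hM) (X := x / (2 * (h : ℤ))) (v := y / (2 * (h : ℤ))) h1 h2 ?_ ?_
  · cases sg
    · simp only [Bool.false_eq_true, if_false] at this; omega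
    · simp only [if_true] at this; omega
  · cases sg
    · simp only [Bool.false_eq_true, if_false] at this; omega
    · simp only [if_true] at this; omega

/-- columns of cells -/
lemma col_lt {n x a : ℤ} (hn : 0 < n) (h : x < n * a) : x / n < a := by
  rw [Int.ediv_lt_iff_lt_mul hn]; linarith

lemma col_ge {n x a : ℤ} (hn : 0 < n) (h : n * a ≤ x) : a ≤ x / n := by
  rw [Int.le_ediv_iff_mul_le hn]; linarith

variable (Hp : NarP S N M' h sg a0 be Y0 p)

include D Hp in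
/-- numbers of the columns -/
lemma cols : 2 * (h : ℤ) * (N * M' * a0) ≤ p.1 ∧ p.1 < Xe N M' h be ∧
    Xe N M' h be + 2 * (h : ℤ) * (N * M') ≤ 2 * (h : ℤ) * (N * M' * bt) ∧
    2 * (h : ℤ) * (N * M' * a0) + 2 * (h : ℤ) * (N * M') ≤ Xe N M' h be ∧
    256 ≤ 2 * (h : ℤ) * (N * M') ∧ (4 : ℤ) ≤ 2 * h ∧
    2 * (h : ℤ) * (N * M' * bt) ≤ 2 * (h : ℤ) * (N * M' * bw) ∧
    (P = true → 2 * (h : ℤ) * (N * M' * bt) + 2 * (h : ℤ) * (N * M') ≤ 2 * (h : ℤ) * (N * M' * bw)) := by
  have hm := D.mm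
  have h4 := D.n4
  have hn : (0 : ℤ) < 2 * h := by omega
  have hm1 : (1 : ℤ) < N * M' := by omega
  obtain ⟨n1, n2, n3, n4⟩ := D.C.nums hm1 (rfn S hM)
  have c1 := (Int.le_ediv_iff_mul_le hn).1 Hp.c1
  have c2 := (Int.ediv_lt_iff_lt_mul hn).1 Hp.c2
  unfold Xe
  refine ⟨by linarith, by linarith, by nlinarith, by nlinarith, by nlinarith, h4, by nlinarith, fun hP => ?_⟩
  have := n4 hP
  nlinarith

include D Hp in
/-- **The deleted row ends in the left layer of the tooth.** -/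
lemma mem_del {e : ℤ × ℤ} : e ∈ Del (rf S (N * M') hM).P.Q (2 * (h : ℤ)) p ↔
    (e.1 + e.2) % 2 = 1 ∧ (tt e).2 = p.2 ∧ p.1 ≤ (tt e).1 ∧ (tt e).1 ≤ Xe N M' h be := by
  have hn : (0 : ℤ) < 2 * h := by have := D.n4; omega
  obtain ⟨k1, k2, k3, k4, k5, k6, k7, k8⟩ := cols D Hp
  have hr : RowN N M' h sg Y0 p.2 := ⟨Hp.r⟩
  constructor
  · rintro ⟨h1, h2, h3, h4⟩
    refine ⟨h1, h2, h3, ?_⟩
    by_contra hc
    push Not at hc
    have := h4 (Xe N M' h be) k2.le hc
    refine tq_tooth D hr ?_ ?_ this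
    · exact col_ge hn le_rfl
    · exact col_lt hn (by omega)
  · rintro ⟨h1, h2, h3, h4⟩
    refine ⟨h1, h2, h3, fun x a1 a2 => ?_⟩
    exact tq_in D hr (col_ge hn (by omega)) (col_lt hn (by unfold Xe at h4; omega))

include D Hp in
/-- **The exit of the world of `p`.** -/
theorem ex_iff {t : ℕ} : Ex (rf S (N * M') hM) h p t ↔ t = te S N M' h hM be p := by
  have hn : (0 : ℤ) < 2 * h := by have := D.n4; omega
  obtain ⟨k1, k2, k3, k4, k5, k6, k7, k8⟩ := cols D Hp
  have hr : RowN N M' h sg Y0 p.2 := ⟨Hp.r⟩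
  have hX1 : (Xe N M' h be - 1) / (2 * (h : ℤ)) = N * M' * be - 1 := by
    unfold Xe; exact div_in hn (by linarith) (by linarith)
  have hX0 : Xe N M' h be / (2 * (h : ℤ)) = N * M' * be := by
    unfold Xe; exact div_in hn (by linarith) (by linarith)
  have q1 : (N * M' * be - 1, p.2 / (2 * (h : ℤ))) ∈ (rf S (N * M') hM).P.Q := by
    have := tq_in D (x := Xe N M' h be - 1) hr (col_ge hn (by omega)) (col_lt hn (by unfold Xe; omega))
    unfold TQ ct at this
    simp only at this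
    rwa [hX1] at this
  have q2 : (N * M' * be, p.2 / (2 * (h : ℤ))) ∉ (rf S (N * M') hM).P.Q := by
    have := tq_tooth D (x := Xe N M' h be) hr (col_ge hn le_rfl) (col_lt hn (by omega))
    unfold TQ ct at this
    simp only at this
    rwa [hX0] at this
  have hs : IsSide (rf S (N * M') hM).P.Q ((N * M' * be - 1, p.2 / (2 * (h : ℤ))), 1) :=
    isSide1.2 ⟨q1, by rw [sub_add_cancel]; exact q2⟩
  obtain ⟨s1, s2, s3⟩ := sx_spec hs
  constructor
  · rintro ⟨g1, g2, e, he, hl⟩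
    obtain ⟨h1, h2, h3, h4⟩ := (mem_del D Hp).1 he
    obtain ⟨-, m1, m2⟩ := (mem_LY hn).1 hl
    have hk : ((rf S (N * M') hM).P.side t).2 % 4 = 1 := g2
    rw [dirq.2.1 hk] at m1 m2
    have hside := Pool.Agent.H19.W.side_is (P := (rf S (N * M') hM).P) t
    set x := (tt e).1 with hx
    have ht : tt e = (x, p.2) := Prod.ext rfl h2
    rw [ht] at m1 m2
    have hm2 : ct (2 * (h : ℤ)) (x - 1, p.2) = ((rf S (N * M') hM).P.side t).1 := by
      rw [← m2]
      simp
    have hout : ct (2 * (h : ℤ)) (x, p.2) ∉ (rf S (N * M') hM).P.Q := by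
      rw [m1]
      have := hside.2
      rw [dirq.2.1 hk] at this
      exact this
    have hxe : x = Xe N M' h be := by
      rcases lt_or_eq_of_le h4 with h5 | h5
      · exact absurd (tq_in D hr (col_ge hn (by omega)) (col_lt hn (by unfold Xe at h5; omega))) hout
      · exact h5
    symm
    refine sx_eq g1 ?_ (by omega)
    rw [← hm2, hxe]
    unfold ct
    simp only
    rw [hX1]
  · rintro rfl
    refine ⟨s1, ?_, lt (Xe N M' h be, p.2), (mem_del D Hp).2 ⟨lt_odd _, ?_, ?_, ?_⟩, (mem_LY hn).2 ⟨lt_odd _, ?_, ?_⟩⟩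
    · show ((rf S (N * M') hM).P.side (te S N M' h hM be p)).2 % 4 = 1
      unfold te
      omega
    · rw [tt_lt]
    · rw [tt_lt]; exact k2.le
    · rw [tt_lt]
    · have hk : ((rf S (N * M') hM).P.side (te S N M' h hM be p)).2 % 4 = 1 := by unfold te; omega
      rw [dirq.2.1 hk, tt_lt]
      unfold te
      rw [s2]
      unfold ct
      simp only
      rw [hX0]
      simp
    · have hk : ((rf S (N * M') hM).P.side (te S N M' h hM be p)).2 % 4 = 1 := by unfold te; omega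
      rw [dirq.2.1 hk, tt_lt]
      unfold te
      rw [s2]
      unfold ct
      simp only [Prod.mk_sub_mk, sub_zero]
      rw [hX1]

/-- the row above and the row below are also in the narrow room -/
structure NarQ (S : Shape) (N M' h : ℕ) (sg : Bool) (a0 be Y0 : ℤ) (p : ℤ × ℤ) : Prop extends
    NarP S N M' h sg a0 be Y0 p where
  u : RowN N M' h sg Y0 (p.2 + 1)
  d : RowN N M' h sg Y0 (p.2 - 1)
  l : 2 * (h : ℤ) * (N * M' * a0) ≤ p.1 - 1

variable (Hq : NarQ S N M' h sg a0 be Y0 p)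

include D Hq in
/-- **22's data of the colours `κz`.** -/
theorem ck_z : CK (rf S (N * M') hM) (2 * (h : ℤ)) (κz (rf S (N * M') hM) h p) (te S N M' h hM be p)
    (N * M' * be - 1, p.2 / (2 * (h : ℤ))) (Xe N M' h be) p.2 := by
  have Hp := Hq.toNarP
  have hn : (0 : ℤ) < 2 * h := by have := D.n4; omega
  obtain ⟨k1, k2, k3, k4, k5, k6, k7, k8⟩ := cols D Hp
  have hr : RowN N M' h sg Y0 p.2 := ⟨Hp.r⟩
  have hX1 : (Xe N M' h be - 1) / (2 * (h : ℤ)) = N * M' * be - 1 := by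
    unfold Xe; exact div_in hn (by linarith) (by linarith)
  have hX0 : Xe N M' h be / (2 * (h : ℤ)) = N * M' * be := by
    unfold Xe; exact div_in hn (by linarith) (by linarith)
  have q1 : (N * M' * be - 1, p.2 / (2 * (h : ℤ))) ∈ (rf S (N * M') hM).P.Q := by
    have := tq_in D (x := Xe N M' h be - 1) hr (col_ge hn (by omega)) (col_lt hn (by unfold Xe; omega))
    unfold TQ ct at this
    simp only at this
    rwa [hX1] at this
  have q2 : (N * M' * be, p.2 / (2 * (h : ℤ))) ∉ (rf S (N * M') hM).P.Q := by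
    have := tq_tooth D (x := Xe N M' h be) hr (col_ge hn le_rfl) (col_lt hn (by omega))
    unfold TQ ct at this
    simp only at this
    rwa [hX0] at this
  have e1 := Int.emod_add_mul_ediv p.2 (2 * (h : ℤ))
  have e2 := Int.emod_nonneg p.2 hn.ne'
  have e3 := Int.emod_lt_of_pos p.2 hn
  exact
    { hn := k6
      hκ := by
        intro i y
        unfold κz
        have : (∃ t, Ex (rf S (N * M') hM) h p t ∧ (t < i ∨ (t = i ∧ p.2 < y))) ↔
            (te S N M' h hM be p < i ∨ (te S N M' h hM be p = i ∧ p.2 < y)) := by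
          constructor
          · rintro ⟨t, ht, h1⟩
            rw [(ex_iff D Hp).1 ht] at h1
            exact h1
          · intro h1
            exact ⟨_, (ex_iff D Hp).2 rfl, h1⟩
        rw [this]
      hs := isSide1.2 ⟨q1, by rw [sub_add_cancel]; exact q2⟩
      ht := rfl
      hX := by unfold Xe; ring
      r1 := by simp only; omega
      r2 := by simp only; omega
      o1 := tq_tooth D hr (col_ge hn le_rfl) (col_lt hn (by omega))
      o2 := tq_tooth D Hq.u (col_ge hn le_rfl) (col_lt hn (by omega)) }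

include D Hq in
/-- **22's `Cl` for `κz`.** -/
theorem cl_z : Cl (TQ (rf S (N * M') hM).P.Q (2 * (h : ℤ))) (Set.range (mks (rf S (N * M') hM) (2 * (h : ℤ))))
    (fun x y => lt (x, y) ∈ WC (rf S (N * M') hM).P (2 * (h : ℤ)) (κz (rf S (N * M') hM) h p))
    {(Xe N M' h be, p.2)} := by
  have hn : (0 : ℤ) < 2 * h := by have := D.n4; omega
  refine (ck_z D Hq).cl.tog (τ := fun _ _ => False) (fun x y h1 h2 => ?_) (fun x y s _ _ _ _ => by simp)
    (fun x y s _ _ _ _ => Iff.rfl)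
  rw [mem_WC, tt_lt]
  have h3 : lt (x, y) ∈ LamC (rf S (N * M') hM).P.Q (2 * (h : ℤ)) :=
    (mem_LamC hn).2 ⟨lt_odd _, by rw [tt_lt]; exact tc_TQ.1 h2⟩
  have h4 : ct (2 * (h : ℤ)) (x, y) ∉ (rf S (N * M') hM).P.Q := h1
  simp only [h3, h4, not_false_eq_true, true_and]
  unfold ix
  simp only [iff_false, not_not]

end

end Pool.Agent.H2.W.Run
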