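import Mathlib
import Pool.Agent.H2.W.RVh2

set_option autoImplicit false
set_option linter.unusedVariables false
open Finset

/-! # RAISE: 22's `DC` and `VH` for the worlds of the chain -/

namespace Pool.Agent.H2.W.Run

open Pool.Agent.H75.Perc (dir dir_cases)
open Pool.Agent.Q1.M4 (Cell PType IsSide Good)
open Pool.Agent.H33.Q1 (lt tt ct TL LY mem_LY lt_odd tt_lt lt_tt lt_inj mem_TL)
open Pool.Agent.H19.W
open Pool.Agent.H22.W.Vc (Mark Ld Tc Cl DC VH mks CK ix)
open Pool.Agent.H13.W (TQ chG eW)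
open Pool.Agent.H50.W (rf)
open Pool.Agent.H68.W (sx sx_spec sx_eq isSide1 isSide3)
open Pool.Agent.H78.W (Thin Cc Rfn PicD rfn div_in)
open Pool.Agent.H21.FM (Shape)
open Pool.Agent.H74.W (Ex Del)

section

variable {S : Shape} {aL b : ℤ} {N M' h : ℕ} {hM : 0 < N * M'} {sg P : Bool} {a0 be bt bw Y0 k0 : ℤ}
  (D : PicD S aL b N M' h hM sg P a0 be bt bw Y0 k0) {p : ℤ × ℤ} (Hq : NarQ S N M' h sg a0 be Y0 p)

include D Hq

lemma mem_del' {x y : ℤ} : lt (x, y) ∈ Del (rf S (N * M') hM).P.Q (2 * (h : ℤ)) p ↔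
    y = p.2 ∧ p.1 ≤ x ∧ x ≤ Xe N M' h be := by
  rw [mem_del D Hq.toNarP, tt_lt]
  simp only
  constructor
  · rintro ⟨-, h1, h2, h3⟩; exact ⟨h1, h2, h3⟩
  · rintro ⟨h1, h2, h3⟩; exact ⟨lt_odd _, h1, h2, h3⟩

/-- **22's `DC` for the deleted row of `p`.** -/
theorem dc_del : DC (TQ (rf S (N * M') hM).P.Q (2 * (h : ℤ))) (Del (rf S (N * M') hM).P.Q (2 * (h : ℤ)) p)
    {(Xe N M' h be, p.2)} (eW (lt p)) := by
  have hn : (0 : ℤ) < 2 * h := by have := D.n4; omega
  obtain ⟨k1, k2, k3, k4, k5, k6, k7, k8⟩ := cols D Hq.toNarP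
  have hr : RowN N M' h sg Y0 p.2 := ⟨Hq.r⟩
  have hmem := fun x y => mem_del' D Hq (x := x) (y := y)
  have hin : ∀ x y, RowN N M' h sg Y0 y → p.1 - 1 ≤ x → x < Xe N M' h be →
      TQ (rf S (N * M') hM).P.Q (2 * (h : ℤ)) x y := fun x y h1 h2 h3 =>
    tq_in D h1 (col_ge hn (by have := Hq.l; omega)) (col_lt hn (by unfold Xe at h3; omega))
  have hout : ∀ x y, RowN N M' h sg Y0 y → Xe N M' h be ≤ x → x ≤ Xe N M' h be + 2 →
      ¬ TQ (rf S (N * M') hM).P.Q (2 * (h : ℤ)) x y := fun x y h1 h2 h3 =>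
    tq_tooth D h1 (col_ge hn (by unfold Xe at h2; omega)) (col_lt hn (by omega))
  refine ⟨?_, ?_, ?_, ?_, ?_⟩
  · intro x y h1
    rw [Set.mem_singleton_iff, Prod.mk.injEq] at h1
    left
    rw [hmem]
    omega
  · intro x y h1 h2 h3
    obtain ⟨e1, e2, e3⟩ := (hmem x y).1 h1
    subst e1
    have hx : x = Xe N M' h be := by
      rcases lt_or_eq_of_le e3 with e4 | e4
      · exact absurd (hin x _ hr (by omega) e4) h2
      · exact e4
    subst hx
    refine ⟨-1, Or.inr rfl, ⟨hin _ _ Hq.d (by omega) (by omega), hin _ _ hr (by omega) (by omega),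
      hin _ _ Hq.u (by omega) (by omega)⟩, ⟨hout _ _ Hq.d (by omega) (by omega),
      hout _ _ hr (by omega) (by omega), hout _ _ Hq.u (by omega) (by omega)⟩,
      ⟨hout _ _ Hq.u le_rfl (by omega), ?_⟩, ⟨hout _ _ Hq.d le_rfl (by omega), ?_⟩, ?_⟩
    · rw [hmem]; omega
    · rw [hmem]; omega
    · refine ⟨fun _ g => ?_, fun _ => rfl⟩
      rw [Set.mem_singleton_iff, Prod.mk.injEq] at g
      omega
  · intro x y h1 h2
    obtain ⟨e1, e2, e3⟩ := (hmem x y).1 h1
    subst e1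
    rcases lt_or_eq_of_le e3 with e4 | e4
    · left; rw [hmem]; omega
    · right
      rintro ⟨a, b, g1, g2, g3⟩
      have hb : RowN N M' h sg Y0 b := by
        have : b = p.2 - 1 ∨ b = p.2 ∨ b = p.2 + 1 := by omega
        rcases this with rfl | rfl | rfl
        · exact Hq.d
        · exact hr
        · exact Hq.u
      exact hout a b hb (by omega) (by omega) g3
  · intro x y h1 h2
    obtain ⟨e1, e2, e3⟩ := (hmem x y).1 h1
    subst e1
    rcases lt_or_eq_of_le e2 with e4 | e4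
    · left; rw [hmem]; omega
    · right; right
      subst e4
      exact ⟨rfl, hin _ _ hr le_rfl (by omega)⟩
  · refine ⟨p.1, p.2, rfl, (hmem _ _).2 ⟨rfl, le_rfl, k2.le⟩, hin _ _ hr le_rfl (by omega), ?_⟩
    rw [hmem]; omega

omit Hq in
/-- the rows near the cut -/
lemma rowR {i : ℤ} (h1 : -1 ≤ i) (h2 : i ≤ 1) : RowN N M' h sg Y0 (r0F sg N M' h Y0 + i) ∧
    (r0F sg N M' h Y0 + i) / (2 * (h : ℤ)) = yF sg (N * M') Y0 := by
  have hn : (0 : ℤ) < 2 * h := by have := D.n4; omega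
  have hh := D.hh
  have hm := D.mm
  have e : (r0F sg N M' h Y0 + i) / (2 * (h : ℤ)) = yF sg (N * M') Y0 := by
    unfold r0F
    exact div_in hn (by omega) (by omega)
  refine ⟨⟨?_⟩, e⟩
  rw [e]
  unfold yF
  cases sg
  · simp only [Bool.false_eq_true, if_false]; omega
  · simp only [if_true]; omega

end

section plus

variable {S : Shape} {aL b : ℤ} {N M' h : ℕ} {hM : 0 < N * M'} {sg : Bool} {a0 be bt bw Y0 k0 : ℤ}
  (D : PicD S aL b N M' h hM sg true a0 be bt bw Y0 k0) {p : ℤ × ℤ} (Hq : NarQ S N M' h sg a0 be Y0 p)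
  {U : Cell → Prop} (HC : CutD (rf S (N * M') hM).P.Q U (yF sg (N * M') Y0) (N * M' * bt) (N * M' * bw))

include D Hq HC

/-- tiles attached to the run in the rows near the cut -/
lemma run_iff {x y : ℤ} (hy : r0F sg N M' h Y0 - 1 ≤ y) (hy' : y ≤ r0F sg N M' h Y0 + 1) :
    (Tq (rf S (N * M') hM).P.Q (2 * (h : ℤ)) (x, y) ∧
      rn (yF sg (N * M') Y0) (N * M' * bt) (N * M' * bw) (ac (rf S (N * M') hM).P.Q (2 * (h : ℤ)) (x, y))) ↔
    2 * (h : ℤ) * (N * M' * bt) - 1 ≤ x ∧ x ≤ 2 * (h : ℤ) * (N * M' * bw) := by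
  have hn : (0 : ℤ) < 2 * h := by have := D.n4; omega
  have hn4 := D.n4
  obtain ⟨k1, k2, k3, k4, k5, k6, k7, k8⟩ := cols D Hq.toNarP
  have k9 := k8 rfl
  have hrow := (rowR D (i := y - r0F sg N M' h Y0) (by omega) (by omega)).2
  rw [show r0F sg N M' h Y0 + (y - r0F sg N M' h Y0) = y by ring] at hrow
  constructor
  · rintro ⟨-, h1⟩
    obtain ⟨r1, r2, r3⟩ := h1
    obtain ⟨q, g1, g2, g3⟩ := ac_Wn (Q := (rf S (N * M') hM).P.Q) (n := 2 * (h : ℤ)) (p := (x, y))
    rw [← g3] at r2 r3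
    unfold ct at r2 r3
    simp only at r2 r3 g1
    rw [abs_le] at g1
    have a1 := (Int.le_ediv_iff_mul_le hn).1 r2
    have a2 := (Int.ediv_lt_iff_lt_mul hn).1 r3
    constructor
    · linarith
    · have : q.1 < 2 * (h : ℤ) * (N * M' * bw) := by linarith
      omega
  · rintro ⟨h1, h2⟩
    -- a tile of the run next to it
    obtain ⟨x', g1, g2, g3⟩ : ∃ x', |x' - x| ≤ 1 ∧ 2 * (h : ℤ) * (N * M' * bt) ≤ x' ∧
        x' < 2 * (h : ℤ) * (N * M' * bw) := by
      by_cases c1 : x < 2 * (h : ℤ) * (N * M' * bt)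
      · exact ⟨x + 1, by simp, by omega, by omega⟩
      · by_cases c2 : x < 2 * (h : ℤ) * (N * M' * bw)
        · exact ⟨x, by simp, by omega, by omega⟩
        · exact ⟨x - 1, by simp, by omega, by omega⟩
    have hc : rn (yF sg (N * M') Y0) (N * M' * bt) (N * M' * bw) (ct (2 * (h : ℤ)) (x', y)) := by
      unfold ct rn
      simp only
      exact ⟨hrow, col_ge hn g2, col_lt hn g3⟩
    have HP := part_of D HC
    have hW : Wn (2 * (h : ℤ)) (x, y) (ct (2 * (h : ℤ)) (x', y)) := ⟨(x', y), g1, by simp, rfl⟩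
    refine ⟨Tq_of_Wn hW (HP.rQ _ hc), HP.att (by omega) hW hc ?_ ?_⟩
    · simp only
      have := (Int.le_ediv_iff_mul_le hn).1 hrow.ge
      linarith
    · simp only
      have := Int.lt_ediv_add_one_mul_self y hn
      rw [hrow] at this
      linarith

/-- **The deleted row behind the tooth.** -/
lemma mem_FF {x y : ℤ} : lt (x, y) ∈ FF S N M' h hM sg bt bw Y0 ↔ y = r0F sg N M' h Y0 ∧
    2 * (h : ℤ) * (N * M' * bt) - 1 ≤ x ∧ x ≤ 2 * (h : ℤ) * (N * M' * bw) := by
  have hn : (0 : ℤ) < 2 * h := by have := D.n4; omega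
  unfold FF
  rw [mem_FR, mem_LamC hn, tt_lt]
  simp only
  constructor
  · rintro ⟨⟨-, h1⟩, h2, h3⟩
    exact ⟨h3, (run_iff D Hq HC (by omega) (by omega)).1 ⟨h1, h2⟩⟩
  · rintro ⟨h1, h2⟩
    obtain ⟨a1, a2⟩ := (run_iff D Hq HC (x := x) (y := y) (by omega) (by omega)).2 h2
    exact ⟨⟨lt_odd _, a1⟩, a2, h1⟩

/-- **The new cuts.** -/
lemma mem_JR {x y : ℤ} : (x, y) ∈ JR (rf S (N * M') hM).P (2 * (h : ℤ))
      (rn (yF sg (N * M') Y0) (N * M' * bt) (N * M' * bw)) (r0F sg N M' h Y0) ∧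
      Tq (rf S (N * M') hM).P.Q (2 * (h : ℤ)) (x, y) ↔
    y + 1 = r0F sg N M' h Y0 ∧ (x = 2 * (h : ℤ) * (N * M' * bt) - 1 ∨ x = 2 * (h : ℤ) * (N * M' * bw)) := by
  have hn : (0 : ℤ) < 2 * h := by have := D.n4; omega
  obtain ⟨k1, k2, k3, k4, k5, k6, k7, k8⟩ := cols D Hq.toNarP
  have k9 := k8 rfl
  constructor
  · rintro ⟨⟨h1, h2, h3⟩, h4⟩
    simp only at h1
    obtain ⟨a1, a2⟩ := (run_iff D Hq HC (by omega) (by omega)).1 ⟨h4, h2⟩
    refine ⟨h1, ?_⟩
    by_contra hc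
    push Not at hc
    have hrow := (rowR D (i := -1) (by omega) (by omega)).1
    rw [show r0F sg N M' h Y0 + -1 = y by omega] at hrow
    exact h3 (tq_beh D rfl hrow (col_ge hn (by omega)) (col_lt hn (by omega)))
  · rintro ⟨h1, h2⟩
    obtain ⟨a1, a2⟩ := (run_iff D Hq HC (x := x) (y := y) (by omega) (by omega)).2 (by omega)
    have hrow := (rowR D (i := -1) (by omega) (by omega)).1
    rw [show r0F sg N M' h Y0 + -1 = y by omega] at hrow
    refine ⟨⟨h1, a2, ?_⟩, a1⟩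
    rcases h2 with rfl | rfl
    · exact tq_tooth D hrow (col_ge hn (by unfold Xe at k3; omega)) (col_lt hn (by omega))
    · exact tq_wall D hrow (col_ge hn le_rfl) (col_lt hn (by nlinarith))

/-- **22's `DC` for the deleted row of `p` and the row behind the tooth.** -/
theorem dc_plus : DC (TQ (rf S (N * M') hM).P.Q (2 * (h : ℤ)))
    (Del (rf S (N * M') hM).P.Q (2 * (h : ℤ)) p ∪ FF S N M' h hM sg bt bw Y0)
    (symmDiff {(Xe N M' h be, p.2)} (JR (rf S (N * M') hM).P (2 * (h : ℤ))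
      (rn (yF sg (N * M') Y0) (N * M' * bt) (N * M' * bw)) (r0F sg N M' h Y0))) (eW (lt p)) := by
  have hn : (0 : ℤ) < 2 * h := by have := D.n4; omega
  obtain ⟨k1, k2, k3, k4, k5, k6, k7, k8⟩ := cols D Hq.toNarP
  have k9 := k8 rfl
  have hr : RowN N M' h sg Y0 p.2 := ⟨Hq.r⟩
  have H1 := dc_del D Hq
  set L := r0F sg N M' h Y0 with hL
  have hR0 := (rowR D (i := 0) (by omega) (by omega)).1
  have hR1 := (rowR D (i := 1) (by omega) (by omega)).1
  have hRm := (rowR D (i := -1) (by omega) (by omega)).1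
  rw [← hL] at hR0 hR1 hRm
  rw [add_zero] at hR0
  have hdel := fun x y => mem_del' D Hq (x := x) (y := y)
  have hff := fun x y => mem_FF D Hq HC (x := x) (y := y)
  rw [← hL] at hff
  set J := JR (rf S (N * M') hM).P (2 * (h : ℤ)) (rn (yF sg (N * M') Y0) (N * M' * bt) (N * M' * bw)) L
    with hJ
  have hjr := fun x y => mem_JR D Hq HC (x := x) (y := y)
  rw [← hL, ← hJ] at hjr
  -- a cut of the old set is no new cut
  have hXe : ∀ y, (Xe N M' h be, y) ∉ J := by
    rintro y ⟨h1, h2, h3⟩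
    have h1' : y + 1 = L := h1
    obtain ⟨q, g1, g2, g3⟩ := ac_Wn (Q := (rf S (N * M') hM).P.Q) (n := 2 * (h : ℤ)) (p := (Xe N M' h be, y))
    obtain ⟨r1, r2, r3⟩ := h2
    rw [← g3] at r2
    unfold ct at r2
    simp only at r2 g1
    rw [abs_le] at g1
    have a1 := (Int.le_ediv_iff_mul_le hn).1 r2
    have : 2 * (h : ℤ) * (N * M' * bt) ≤ q.1 := by linarith
    omega
  have hC : ∀ x y, (x, y) ∈ symmDiff {((Xe N M' h be, p.2) : ℤ × ℤ)} J ↔
      ((x = Xe N M' h be ∧ y = p.2) ∨ (x, y) ∈ J) := by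
    intro x y
    rw [Set.mem_symmDiff, Set.mem_singleton_iff, Prod.mk.injEq]
    constructor
    · rintro (⟨h1, -⟩ | ⟨h1, -⟩)
      · exact Or.inl h1
      · exact Or.inr h1
    · rintro (h1 | h1)
      · refine Or.inl ⟨h1, fun h2 => ?_⟩
        rw [h1.1] at h2
        exact hXe _ h2
      · refine Or.inr ⟨h1, fun h2 => ?_⟩
        rw [h2.1] at h1
        exact hXe _ h1
  -- tiles near the cut
  have hin : ∀ x y, RowN N M' h sg Y0 y → 2 * (h : ℤ) * (N * M' * bt) ≤ x → x < 2 * (h : ℤ) * (N * M' * bw) →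
      TQ (rf S (N * M') hM).P.Q (2 * (h : ℤ)) x y := fun x y h1 h2 h3 =>
    tq_beh D rfl h1 (col_ge hn h2) (col_lt hn h3)
  have hout : ∀ x y, RowN N M' h sg Y0 y → 2 * (h : ℤ) * (N * M' * bt) - 3 ≤ x →
      x < 2 * (h : ℤ) * (N * M' * bt) → ¬ TQ (rf S (N * M') hM).P.Q (2 * (h : ℤ)) x y := fun x y h1 h2 h3 =>
    tq_tooth D h1 (col_ge hn (by unfold Xe at k3; omega)) (col_lt hn h3)
  have hout2 : ∀ x y, RowN N M' h sg Y0 y → 2 * (h : ℤ) * (N * M' * bw) ≤ x →
      x ≤ 2 * (h : ℤ) * (N * M' * bw) + 2 → ¬ TQ (rf S (N * M') hM).P.Q (2 * (h : ℤ)) x y := fun x y h1 h2 h3 =>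
    tq_wall D h1 (col_ge hn h2) (col_lt hn (by nlinarith))
  refine ⟨?_, ?_, ?_, ?_, ?_⟩
  · intro x y h1
    rcases (hC x y).1 h1 with h2 | h2
    · left; left
      rw [hdel]; omega
    · right; right
      have h3 := h2
      obtain ⟨g1, g2, g3⟩ := h2
      have hg1 : y + 1 = L := g1
      have HP := part_of D HC
      have hT : Tq (rf S (N * M') hM).P.Q (2 * (h : ℤ)) (x, y) := Tq_of_Wn ac_Wn (HP.rQ _ g2)
      have := (hjr x y).1 ⟨h3, hT⟩
      rw [hff]
      omega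
  · intro x y h1 h2 h3
    rcases h1 with h1 | h1
    · obtain ⟨s, hs, a1, a2, ⟨a3, a4⟩, ⟨a5, a6⟩, a7⟩ := H1.cross x y h1 h2 h3
      obtain ⟨e1, e2, e3⟩ := (hdel x y).1 h1
      have hx : x = Xe N M' h be := by
        rcases lt_or_eq_of_le e3 with e4 | e4
        · exfalso
          apply h2
          rw [e1]
          exact tq_in D hr (col_ge hn (by omega)) (col_lt hn (by unfold Xe at e4; omega))
        · exact e4
      refine ⟨s, hs, a1, a2, ⟨a3, ?_⟩, ⟨a5, ?_⟩, ?_⟩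
      · rintro (g | g)
        · exact a4 g
        · rw [hff] at g; omega
      · rintro (g | g)
        · exact a6 g
        · rw [hff] at g; omega
      · rw [hC, hC]
        have j1 := hXe y
        have j2 := hXe (y - 1)
        rw [← hx] at j1 j2
        simp only [j1, j2, or_false]
        omega
    · obtain ⟨e1, e2, e3⟩ := (hff x y).1 h1
      have hy0 : RowN N M' h sg Y0 y := by rw [e1]; exact hR0
      have hy1 : RowN N M' h sg Y0 (y + 1) := by rw [e1]; exact hR1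
      have hym : RowN N M' h sg Y0 (y - 1) := by rw [e1, sub_eq_add_neg]; exact hRm
      have hx : x = 2 * (h : ℤ) * (N * M' * bt) - 1 ∨ x = 2 * (h : ℤ) * (N * M' * bw) := by
        by_contra hc
        push Not at hc
        exact h2 (hin x _ hy0 (by omega) (by omega))
      have hxe : x ≠ Xe N M' h be := by omega
      have c1 : (x, y) ∉ J := by
        rintro ⟨g1, -⟩
        simp only at g1
        omega
      have c2 : (x, y - 1) ∈ J := ((hjr x (y - 1)).2 ⟨by omega, hx⟩).1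
      have hd1 : lt (x, y + 1) ∉ Del (rf S (N * M') hM).P.Q (2 * (h : ℤ)) p := by rw [hdel]; omega
      have hd2 : lt (x, y - 1) ∉ Del (rf S (N * M') hM).P.Q (2 * (h : ℤ)) p := by rw [hdel]; omega
      have hf1 : lt (x, y + 1) ∉ FF S N M' h hM sg bt bw Y0 := by rw [hff]; omega
      have hf2 : lt (x, y - 1) ∉ FF S N M' h hM sg bt bw Y0 := by rw [hff]; omega
      have hcc : (x, y) ∈ symmDiff {((Xe N M' h be, p.2) : ℤ × ℤ)} J ↔
          (x, y - 1) ∉ symmDiff {((Xe N M' h be, p.2) : ℤ × ℤ)} J := by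
        rw [hC, hC]
        tauto
      rcases hx with hx | hx
      · refine ⟨1, Or.inl rfl, ⟨hin _ _ hym (by omega) (by omega),
          hin _ _ hy0 (by omega) (by omega), hin _ _ hy1 (by omega) (by omega)⟩,
          ⟨hout _ _ hym (by omega) (by omega),
          hout _ _ hy0 (by omega) (by omega), hout _ _ hy1 (by omega) (by omega)⟩,
          ⟨hout _ _ hy1 (by omega) (by omega), fun g => g.elim hd1 hf1⟩,
          ⟨hout _ _ hym (by omega) (by omega), fun g => g.elim hd2 hf2⟩, hcc⟩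
      · refine ⟨-1, Or.inr rfl, ⟨hin _ _ hym (by omega) (by omega),
          hin _ _ hy0 (by omega) (by omega), hin _ _ hy1 (by omega) (by omega)⟩,
          ⟨hout2 _ _ hym (by omega) (by omega),
          hout2 _ _ hy0 (by omega) (by omega), hout2 _ _ hy1 (by omega) (by omega)⟩,
          ⟨hout2 _ _ hy1 (by omega) (by omega), fun g => g.elim hd1 hf1⟩,
          ⟨hout2 _ _ hym (by omega) (by omega), fun g => g.elim hd2 hf2⟩, hcc⟩
  · intro x y h1 h2
    rcases h1 with h1 | h1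
    · rcases H1.rowE x y h1 h2 with h3 | h3
      · exact Or.inl (Or.inl h3)
      · exact Or.inr h3
    · obtain ⟨e1, e2, e3⟩ := (hff x y).1 h1
      have hy0 : RowN N M' h sg Y0 y := by rw [e1]; exact hR0
      have hy1 : RowN N M' h sg Y0 (y + 1) := by rw [e1]; exact hR1
      have hym : RowN N M' h sg Y0 (y - 1) := by rw [e1, sub_eq_add_neg]; exact hRm
      rcases lt_or_eq_of_le e3 with e4 | e4
      · left; right; rw [hff]; omega
      · right
        rintro ⟨a, b, g1, g2, g3⟩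
        have hb : RowN N M' h sg Y0 b := by
          have : b = y - 1 ∨ b = y ∨ b = y + 1 := by omega
          rcases this with rfl | rfl | rfl
          · exact hym
          · exact hy0
          · exact hy1
        exact hout2 a b hb (by omega) (by omega) g3
  · intro x y h1 h2
    rcases h1 with h1 | h1
    · rcases H1.rowW x y h1 h2 with h3 | h3
      · exact Or.inl (Or.inl h3)
      · exact Or.inr h3
    · obtain ⟨e1, e2, e3⟩ := (hff x y).1 h1
      have hy0 : RowN N M' h sg Y0 y := by rw [e1]; exact hR0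
      have hy1 : RowN N M' h sg Y0 (y + 1) := by rw [e1]; exact hR1
      have hym : RowN N M' h sg Y0 (y - 1) := by rw [e1, sub_eq_add_neg]; exact hRm
      rcases lt_or_eq_of_le e2 with e4 | e4
      · left; right; rw [hff]; omega
      · right; left
        rintro ⟨a, b, g1, g2, g3⟩
        have hb : RowN N M' h sg Y0 b := by
          have : b = y - 1 ∨ b = y ∨ b = y + 1 := by omega
          rcases this with rfl | rfl | rfl
          · exact hym
          · exact hy0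
          · exact hy1
        exact hout a b hb (by omega) (by omega) g3
  · obtain ⟨x, y, h1, h2, h3, h4⟩ := H1.hz
    refine ⟨x, y, h1, Or.inl h2, h3, ?_⟩
    rintro (g | g)
    · exact h4 g
    · rw [hff] at g
      have := (hdel x y).1 h2
      omega

end plus

/-! ### `VH` for the worlds of the chain -/

lemma fin_TQ {P : PType} {n : ℤ} (hn : 0 < n) : (Ld (TQ P.Q n)).Finite := by
  rw [← lam_TQ hn]
  exact Finset.finite_toSet _

lemma hw_TL {P : PType} {n : ℤ} (hn : 0 < n) {ω W : Finset (ℤ × ℤ)} (hω : ω ⊆ TL P.Q n) {x y : ℤ}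
    (h1 : ¬ TQ P.Q n x y) : lt (x, y) ∈ ω ∪ W ↔ lt (x, y) ∈ W := by
  rw [mem_union]
  refine ⟨fun h => h.resolve_left fun h2 => ?_, Or.inr⟩
  have := ((mem_TL hn).1 (hω h2)).2
  rw [tt_lt] at this
  exact h1 this

section vh

variable {S : Shape} {aL b : ℤ} {N M' h : ℕ} {hM : 0 < N * M'} {sg P : Bool} {a0 be bt bw Y0 k0 : ℤ}
  (D : PicD S aL b N M' h hM sg P a0 be bt bw Y0 k0) {p : ℤ × ℤ} {dl : Bool}
  (Hq : NarQ S N M' h sg a0 be Y0 (qb p dl))

include D Hq

/-- the colours `kb` -/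
theorem cl_kb : Cl (TQ (rf S (N * M') hM).P.Q (2 * (h : ℤ))) (Set.range (mks (rf S (N * M') hM) (2 * (h : ℤ))))
    (fun x y => lt (x, y) ∈ WC (rf S (N * M') hM).P (2 * (h : ℤ)) (kb (rf S (N * M') hM) h p dl))
    {(Xe N M' h be, (qb p dl).2)} := by
  have hn : (0 : ℤ) < 2 * h := by have := D.n4; omega
  have h1 := cl_z D Hq
  unfold kb
  cases dl
  · exact h1
  · exact cl_wc_not hn h1

/-- **`VH` for the plain world.** -/
theorem vh_plain {ω : Finset (ℤ × ℤ)} (hω : ω ⊆ TL (rf S (N * M') hM).P.Q (2 * (h : ℤ))) :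
    VH (TQ (rf S (N * M') hM).P.Q (2 * (h : ℤ))) (Del (rf S (N * M') hM).P.Q (2 * (h : ℤ)) (qb p dl))
      (ω ∪ WC (rf S (N * M') hM).P (2 * (h : ℤ)) (kb (rf S (N * M') hM) h p dl))
      (Set.range (mks (rf S (N * M') hM) (2 * (h : ℤ)))) (eW (lt (qb p dl))) := by
  have hn : (0 : ℤ) < 2 * h := by have := D.n4; omega
  exact (cl_kb D Hq).vh (fin_TQ hn) (dc_del D Hq) fun x y h1 _ => hw_TL hn hω h1

end vh

section vh2

variable {S : Shape} {aL b : ℤ} {N M' h : ℕ} {hM : 0 < N * M'} {sg : Bool} {a0 be bt bw Y0 k0 : ℤ}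
  (D : PicD S aL b N M' h hM sg true a0 be bt bw Y0 k0) {p : ℤ × ℤ} {dl : Bool}
  (Hq : NarQ S N M' h sg a0 be Y0 (qb p dl)) {U : Cell → Prop}
  (HC : CutD (rf S (N * M') hM).P.Q U (yF sg (N * M') Y0) (N * M' * bt) (N * M' * bw))

include D Hq HC

/-- **`VH` for the auxiliary world.** -/
theorem vh_plus {ω : Finset (ℤ × ℤ)} (hω : ω ⊆ TL (rf S (N * M') hM).P.Q (2 * (h : ℤ))) :
    VH (TQ (rf S (N * M') hM).P.Q (2 * (h : ℤ)))
      (Del (rf S (N * M') hM).P.Q (2 * (h : ℤ)) (qb p dl) ∪ FF S N M' h hM sg bt bw Y0)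
      (ω ∪ WC (rf S (N * M') hM).P (2 * (h : ℤ)) (κF (rf S (N * M') hM).P (RF S N M' h hM sg bt bw Y0 U)
        (kb (rf S (N * M') hM) h p dl)))
      (Set.range (mks (rf S (N * M') hM) (2 * (h : ℤ)))) (eW (lt (qb p dl))) := by
  have hn : (0 : ℤ) < 2 * h := by have := D.n4; omega
  have h1 := cl_flip D.n4 (part_of D HC) (cl_kb D Hq)
  exact h1.vh (fin_TQ hn) (dc_plus D Hq HC) fun x y h2 _ => hw_TL hn hω h2

end vh2

end Pool.Agent.H2.W.Run
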