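import Mathlib
import Pool.Agent.H2.W.RVh3
import Pool.Agent.H19.W.RFeq
import Pool.Agent.H22.W.VcVC

set_option autoImplicit false
set_option linter.unusedVariables false
open Finset

/-! # RAISE: the equality `FP` of the forced probabilities for the part behind the tooth -/

namespace Pool.Agent.H2.W.Run

open Pool.Agent.Q1.M4 (Cell PType IsSide Good)
open Pool.Agent.H33.Q1 (lt tt ct TL LY mem_LY lt_odd tt_lt lt_tt lt_inj mem_TL)
open Pool.Agent.H19.W
open Pool.Agent.H22.W.Vc (Mark Ld Tc Cl DC VH mks mks_inj al_VH)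
open Pool.Agent.H13.W (chG eW)
open Pool.Agent.H50.W (rf)
open Pool.Agent.H58.W (plV)
open Pool.Agent.H78.W (PicD)
open Pool.Agent.H21.FM (Shape)
open Pool.Agent.H74.W (Ex Del)

/-- the alive sides -/
lemma xm_al {T : Shape} {h : ℕ} (hh : 2 ≤ h) {κ : ℕ → ℤ → Prop} {D : Set (ℤ × ℤ)} {z : ℤ × ℤ}
    (H : ∀ ω ⊆ TL T.P.Q (2 * (h : ℤ)), VH (Pool.Agent.H13.W.TQ T.P.Q (2 * (h : ℤ))) D (ω ∪ WC T.P (2 * (h : ℤ)) κ)
      (Set.range (mks T (2 * (h : ℤ)))) z) :
    (fun j => (mks T (2 * (h : ℤ)) j).al (WC T.P (2 * (h : ℤ)) κ)) = XM T h κ := by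
  funext j
  have h1 := al_VH (S := T) hh (empty_subset _) (H ∅ (empty_subset _)) j
  rw [empty_union] at h1
  exact h1

section

variable {S : Shape} {aL b : ℤ} {N M' h : ℕ} {hM : 0 < N * M'} {sg : Bool} {a0 be bt bw Y0 k0 : ℤ}
  (D : PicD S aL b N M' h hM sg true a0 be bt bw Y0 k0) {p : ℤ × ℤ} {dl : Bool}
  (Hq : NarQ S N M' h sg a0 be Y0 (qb p dl)) {U : Cell → Prop}
  (HC : CutD (rf S (N * M') hM).P.Q U (yF sg (N * M') Y0) (N * M' * bt) (N * M' * bw))

include D Hq HC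

/-- **The forced probabilities agree, part behind the tooth.** -/
theorem fp_of : FP S b N M' h hM sg bt bw Y0 U p dl := by
  have hh := D.hh
  have hi : Function.Injective (mks (rf S (N * M') hM) (2 * (h : ℤ))) := mks_inj (by omega)
  have hPH := phyp_of D Hq.toNarP HC (kok19_kb (T := rf S (N * M') hM) (h := h) (p := p) (by omega) dl)
  have v1 := fun ω (hω : ω ⊆ TL (rf S (N * M') hM).P.Q (2 * (h : ℤ))) => vh_plain D Hq hω
  have v2 := fun ω (hω : ω ⊆ TL (rf S (N * M') hM).P.Q (2 * (h : ℤ))) => vh_plus D Hq HC hω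
  have x1 := xm_al hh v1
  have x2 := xm_al hh v2
  unfold FP
  rw [← x1, ← x2]
  cases sg
  · exact feqF hPH hi v2 v1
  · exact feqT hPH hi v1 v2

end

end Pool.Agent.H2.W.Run
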