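import Mathlib
import Pool.Agent.H2.W.RFin
import Pool.Agent.H19.W.RFeqZ

set_option autoImplicit false
set_option linter.unusedVariables false
open Finset

/-! # RAISE: the equality `FV` of the forced probabilities for the whole polygon -/

namespace Pool.Agent.H2.W.Run

open Pool.Agent.Q1.M4 (Cell PType IsSide Good)
open Pool.Agent.H33.Q1 (lt tt ct TL)
open Pool.Agent.H19.W
open Pool.Agent.H22.W.Vc (DH)
open Pool.Agent.H13.W (chG eW)
open Pool.Agent.H50.W (rf)
open Pool.Agent.H58.W (plV)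
open Pool.Agent.H78.W (PicD rfn)
open Pool.Agent.H21.FM (Shape)
open Pool.Agent.H74.W (Ex Del)

section

variable {S : Shape} {aL b : ℤ} {N M' h : ℕ} {hM : 0 < N * M'} {sg P : Bool} {a0 be bt bw Y0 k0 : ℤ}
  (D : PicD S aL b N M' h hM sg P a0 be bt bw Y0 k0) {p : ℤ × ℤ}

include D

/-- **The row of a tile of the narrow room ends at the tooth.** -/
theorem dh_of (Hq : NarQ S N M' h sg a0 be Y0 p) : DH (rf S (N * M') hM) (2 * (h : ℤ)) p (Xe N M' h be) := by
  have hn : (0 : ℤ) < 2 * h := by have := D.n4; omega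
  obtain ⟨k1, k2, k3, k4, k5, k6, k7, k8⟩ := cols D Hq.toNarP
  have hr : RowN N M' h sg Y0 p.2 := ⟨Hq.r⟩
  have hin : ∀ x y, RowN N M' h sg Y0 y → p.1 - 1 ≤ x → x < Xe N M' h be →
      Pool.Agent.H13.W.TQ (rf S (N * M') hM).P.Q (2 * (h : ℤ)) x y := fun x y h1 h2 h3 =>
    tq_in D h1 (col_ge hn (by have := Hq.l; omega)) (col_lt hn (by unfold Xe at h3; omega))
  have hrow : ∀ y, p.2 - 1 ≤ y → y ≤ p.2 + 1 → RowN N M' h sg Y0 y := by
    intro y h1 h2
    have : y = p.2 - 1 ∨ y = p.2 ∨ y = p.2 + 1 := by omega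
    rcases this with rfl | rfl | rfl
    · exact Hq.d
    · exact hr
    · exact Hq.u
  exact
    { q0 := hin _ _ hr le_rfl (by omega)
      q1 := k2.le
      q2 := fun x h1 h2 => hin x _ hr (by omega) h2
      q3 := fun y h1 h2 => tq_tooth D (hrow y h1 h2) (col_ge hn le_rfl) (col_lt hn (by omega))
      q4 := fun y h1 h2 => hin _ _ (hrow y h1 h2) (by omega) (by omega) }

/-- **The forced probabilities agree, whole polygon.** -/
theorem fv_of (H1 : NarQ S N M' h sg a0 be Y0 (p.1, p.2 - 1)) (H2 : NarQ S N M' h sg a0 be Y0 p) :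
    FV S b N M' h hM p :=
  feqV_kz D.hh (dh_of D H1) (dh_of D H2) (plg D.T (rfn S hM))

end

end Pool.Agent.H2.W.Run
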