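import Mathlib
import Pool.Agent.H2.W.RFin2

set_option autoImplicit false
set_option linter.unusedVariables false
open Finset

/-! # RAISE: the field `narrow` of 82's `Inst`

`narQ_near` : tiles near a point of the narrow room, two rows of room. `pr_nar` : `PR` near a point of the narrow room
from `HF = vZ` (41) and `vA = hA` (78: `hA` = value of the world `WN` of the picture). -/

namespace Pool.Agent.H2.W.Run

open Pool.Agent.Q1.M4 (Cell PType)
open Pool.Agent.H33.Q1 (lt tt ct TL)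
open Pool.Agent.H19.W Pool.Agent.H92.W
open Pool.Agent.H13.W (chG SG eW)
open Pool.Agent.H58.W (plV)
open Pool.Agent.H50.W (rf bk)
open Pool.Agent.H68.W (sx)
open Pool.Agent.H78.W (Thin Cc Rfn PicD rfn div_in)
open Pool.Agent.H21.FM (Shape)
open Pool.Agent.H5.C3 (Gen)
open Pool.Agent.H74.W (Ex Del HF lK ps)
open Pool.Agent.H82.W (PR)
open Filter Metric

/-- a tile coordinate in coarse units, with room -/
lemma coord_near3 {R z r : ℝ} {a : ℤ} {L : ℤ} (hL : (L : ℝ) = R) (hR : 0 < R) (hRr : 3 ≤ R * r) {q : ℤ}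
    (hq : |(q : ℝ) / R - z| < r) (h1 : (a : ℝ) + 2 * r ≤ z) (h2 : z + 2 * r ≤ a + 1) :
    L * a + 3 ≤ q ∧ q + 3 ≤ L * a + L := by
  rw [abs_lt] at hq
  have h3 : (a : ℝ) + r < q / R := by linarith [hq.1]
  have h4 : (q : ℝ) / R < a + 1 - r := by linarith [hq.2]
  rw [lt_div_iff₀ hR] at h3
  rw [div_lt_iff₀ hR] at h4
  have h5 : ((L * a + 3 : ℤ) : ℝ) < ((q : ℤ) : ℝ) := by
    push_cast
    rw [hL]
    nlinarith
  have h6 : ((q + 3 : ℤ) : ℝ) < ((L * a + L : ℤ) : ℝ) := by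
    push_cast
    rw [hL]
    nlinarith
  have h7 : L * a + 3 < q := by exact_mod_cast h5
  have h8 : q + 3 < L * a + L := by exact_mod_cast h6
  exact ⟨h7.le, h8.le⟩

/-- **Tiles near a point of the narrow room.** -/
theorem narQ_near {S : Shape} {z1 : ℂ} {X Y be : ℤ} {sg : Bool} (h1 : (X : ℝ) < z1.re) (h2 : z1.re < X + 1)
    (hbe : X + 1 ≤ be)
    (h3 : if sg then (Y : ℝ) < z1.im ∧ z1.im < Y + 1 else (Y : ℝ) - 1 < z1.im ∧ z1.im < Y) :
    ∃ r > (0 : ℝ), ∀ᶠ h : ℕ in atTop, ∀ k : ℕ × ℕ, 0 < k.1 * k.2 → ∀ p : ℤ × ℤ, dist (ps k h p) z1 < r →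
      NarQ S k.1 k.2 h sg X be Y p ∧ NarQ S k.1 k.2 h sg X be Y (p.1, p.2 - 1) := by
  set Yb : ℤ := if sg then Y else Y - 1 with hYb
  have h4 : (Yb : ℝ) < z1.im ∧ z1.im < Yb + 1 := by
    cases sg
    · simp only [Bool.false_eq_true, if_false] at h3 hYb
      rw [hYb]; push_cast
      exact ⟨h3.1, by linarith [h3.2]⟩
    · simp only [if_true] at h3 hYb
      rw [hYb]; exact h3
  set r0 := min (min (z1.re - X) (X + 1 - z1.re)) (min (z1.im - Yb) (Yb + 1 - z1.im)) with hr0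
  have hr00 : 0 < r0 :=
    lt_min (lt_min (by linarith) (by linarith)) (lt_min (by linarith [h4.1]) (by linarith [h4.2]))
  have r1 : r0 ≤ z1.re - X := (min_le_left _ _).trans (min_le_left _ _)
  have r2 : r0 ≤ X + 1 - z1.re := (min_le_left _ _).trans (min_le_right _ _)
  have r3 : r0 ≤ z1.im - Yb := (min_le_right _ _).trans (min_le_left _ _)
  have r4 : r0 ≤ Yb + 1 - z1.im := (min_le_right _ _).trans (min_le_right _ _)
  obtain ⟨r, hr, hrr⟩ : ∃ r > (0 : ℝ), 2 * r = r0 := ⟨r0 / 2, by positivity, by ring⟩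
  refine ⟨r, hr, ?_⟩
  filter_upwards [eventually_ge_atTop (⌈3 / r⌉₊ + 1)] with h hh k hk p hp
  have hh1 : 1 ≤ h := by omega
  have hk' : (1 : ℝ) ≤ (k.1 : ℝ) * k.2 := by exact_mod_cast hk
  have hh' : (1 : ℝ) ≤ h := by exact_mod_cast hh1
  have hR0 : 0 < Pool.Agent.H74.W.RR k h := by unfold Pool.Agent.H74.W.RR; positivity
  have hL : ((2 * (h : ℤ) * (k.1 * k.2) : ℤ) : ℝ) = Pool.Agent.H74.W.RR k h := by
    unfold Pool.Agent.H74.W.RR; push_cast; ring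
  have hRr : 3 ≤ Pool.Agent.H74.W.RR k h * r := by
    have g1 := Nat.le_ceil (3 / r)
    have g2 : ((⌈3 / r⌉₊ : ℕ) : ℝ) ≤ h := by exact_mod_cast (by omega : ⌈3 / r⌉₊ ≤ h)
    have g3 : 3 / r ≤ h := g1.trans g2
    rw [div_le_iff₀ hr] at g3
    have g4 : (h : ℝ) ≤ Pool.Agent.H74.W.RR k h := by unfold Pool.Agent.H74.W.RR; nlinarith
    nlinarith
  have e1 : (ps k h p).re = (p.1 : ℝ) / Pool.Agent.H74.W.RR k h := by
    unfold ps Pool.Agent.Q1.M4.lat
    rw [Complex.div_ofReal_re]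
  have e2 : (ps k h p).im = (p.2 : ℝ) / Pool.Agent.H74.W.RR k h := by
    unfold ps Pool.Agent.Q1.M4.lat
    rw [Complex.div_ofReal_im]
  have a1 : |(p.1 : ℝ) / Pool.Agent.H74.W.RR k h - z1.re| < r := by
    rw [dist_eq_norm] at hp
    refine lt_of_le_of_lt ?_ hp
    have := Complex.abs_re_le_norm (ps k h p - z1)
    rwa [Complex.sub_re, e1] at this
  have a2 : |(p.2 : ℝ) / Pool.Agent.H74.W.RR k h - z1.im| < r := by
    rw [dist_eq_norm] at hp
    refine lt_of_le_of_lt ?_ hp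
    have := Complex.abs_im_le_norm (ps k h p - z1)
    rwa [Complex.sub_im, e2] at this
  obtain ⟨b1, b2⟩ := coord_near3 hL hR0 hRr a1 (a := X) (by linarith) (by linarith)
  obtain ⟨b3, b4⟩ := coord_near3 hL hR0 hRr a2 (a := Yb) (by linarith) (by linarith)
  have hn : (0 : ℤ) < 2 * h := by omega
  have hLp : (0 : ℤ) ≤ 2 * (h : ℤ) * (k.1 * k.2) := by positivity
  have hbe' : 2 * (h : ℤ) * (k.1 * k.2) * (X + 1) ≤ 2 * (h : ℤ) * (k.1 * k.2) * be :=
    mul_le_mul_of_nonneg_left hbe hLp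
  have c1 : (k.1 : ℤ) * k.2 * X ≤ p.1 / (2 * (h : ℤ)) := by
    rw [Int.le_ediv_iff_mul_le hn]; linarith
  have c2 : p.1 / (2 * (h : ℤ)) < k.1 * k.2 * be := by
    rw [Int.ediv_lt_iff_lt_mul hn]; linarith
  have key : ∀ q : ℤ, p.2 - 2 ≤ q → q ≤ p.2 + 1 → RowN k.1 k.2 h sg Y q := by
    intro q q0 q0'
    have q1 : 2 * (h : ℤ) * (k.1 * k.2) * Yb ≤ q := by linarith
    have q2 : q < 2 * (h : ℤ) * (k.1 * k.2) * Yb + 2 * (h : ℤ) * (k.1 * k.2) := by linarith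
    have d1 : (k.1 : ℤ) * k.2 * Yb ≤ q / (2 * (h : ℤ)) := by
      rw [Int.le_ediv_iff_mul_le hn]; linarith
    have d2 : q / (2 * (h : ℤ)) < k.1 * k.2 * Yb + k.1 * k.2 := by
      rw [Int.ediv_lt_iff_lt_mul hn]; linarith
    refine ⟨?_⟩
    cases sg
    · simp only [Bool.false_eq_true, if_false] at hYb ⊢
      rw [hYb] at d1 d2
      constructor <;> linarith
    · simp only [if_true] at hYb ⊢
      rw [hYb] at d1 d2
      exact ⟨d1, d2⟩
  have hl : 2 * (h : ℤ) * (k.1 * k.2 * X) ≤ p.1 - 1 := by linarith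
  exact ⟨⟨⟨c1, c2, (key p.2 (by omega) (by omega)).r⟩, key _ (by omega) (by omega), key _ (by omega) (by omega), hl⟩,
    ⟨⟨c1, c2, (key (p.2 - 1) (by omega) (by omega)).r⟩, key _ (by simp only; omega) (by simp only; omega),
      key _ (by simp only; omega) (by simp only; omega), hl⟩⟩

/-- **78's data, eventually** (start of the string at the left end of the chord). -/
theorem picD_ev {S : Shape} {b X Y be bt bw aL : ℤ} {sg P : Bool} (C : Cc S.P.Q sg X be bt bw Y P)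
    (hb : ∀ c ∈ chG S.P.Q, c.1 < b) (ha : ∀ c ∈ chG S.P.Q, aL ≤ c.1) :
    ∀ᶠ k : ℕ × ℕ in lK, ∃ hM : 0 < k.1 * k.2, ∀ h : ℕ, 2 ≤ h →
      PicD S aL b k.1 k.2 h hM sg P X be bt bw Y (k.1 * X) := by
  unfold lK
  rw [Filter.eventually_curry_iff]
  filter_upwards [eventually_gt_atTop 0] with N hN
  filter_upwards [eventually_ge_atTop (64 * (N * (b - aL)).toNat + 1)] with M' hM'
  refine ⟨Nat.mul_pos hN (by omega), fun h hh => ⟨C, ⟨hN, by omega, ha, hb, by omega⟩, hh, le_rfl, ?_⟩⟩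
  have := C.l1
  exact mul_lt_mul_of_pos_left this (by exact_mod_cast hN)

/-- **RAISE near a point of the narrow room.** -/
theorem pr_nar {S : Shape} (hG : Gen S.P.Q) {b : ℤ} (hb : ∀ c ∈ chG S.P.Q, c.1 < b) {X Y be bt bw : ℤ}
    {sg P : Bool} (C : Cc S.P.Q sg X be bt bw Y P) {z1 : ℂ} (h1 : (X : ℝ) < z1.re) (h2 : z1.re < X + 1)
    (h3 : if sg then (Y : ℝ) < z1.im ∧ z1.im < Y + 1 else (Y : ℝ) - 1 < z1.im ∧ z1.im < Y) (dl : Bool)
    {hA : ℕ × ℕ → ℕ → ℤ × ℤ → ℂ}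
    (H41 : ∃ r > (0 : ℝ), ∀ᶠ k : ℕ × ℕ in lK, ∀ hM : 0 < k.1 * k.2, ∀ᶠ h : ℕ in atTop,
      ∀ p : ℤ × ℤ, dist (ps k h p) z1 < r → HF S b k h p = vZ S b k.1 k.2 h hM p false)
    (H78 : ∃ r > (0 : ℝ), ∀ᶠ k : ℕ × ℕ in lK, ∀ hM : 0 < k.1 * k.2, ∀ᶠ h : ℕ in atTop,
      ∀ p : ℤ × ℤ, dist (ps k h p) z1 < r → ∀ U : Cell → Prop,
        (P = true → CutD (rf S (k.1 * k.2) hM).P.Q U (yF sg (k.1 * k.2) Y) (k.1 * k.2 * bt) (k.1 * k.2 * bw) ∧
          ∀ i < (rf S (k.1 * k.2) hM).P.N, U ((rf S (k.1 * k.2) hM).P.side i).1 ↔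
            Bh (sx (rf S (k.1 * k.2) hM).P (k.1 * k.2 * bw - 1, yF sg (k.1 * k.2) Y) 1)
              (sx (rf S (k.1 * k.2) hM).P (k.1 * k.2 * bt, yF sg (k.1 * k.2) Y) 3) i) →
        hA k h p = vA S b k.1 k.2 h hM sg P bt bw Y U p dl) :
    PR S b z1 hA := by
  -- the height is not an integer
  have hz : ∀ Y' : ℤ, z1.im ≠ Y' := by
    intro Y' he
    cases sg
    · simp only [Bool.false_eq_true, if_false] at h3
      rw [he] at h3
      have g1 : Y - 1 < Y' := by exact_mod_cast h3.1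
      have g2 : Y' < Y := by exact_mod_cast h3.2
      omega
    · simp only [if_true] at h3
      rw [he] at h3
      have g1 : Y < Y' := by exact_mod_cast h3.1
      have g2 : Y' < Y + 1 := by exact_mod_cast h3.2
      omega
  -- a left bound
  obtain ⟨aL, haL⟩ : ∃ aL : ℤ, ∀ c ∈ chG S.P.Q, aL ≤ c.1 := by
    obtain ⟨m, hm⟩ := ((chG S.P.Q).image Prod.fst).bddBelow
    exact ⟨m, fun c hc => hm (by simpa using ⟨c.2, hc⟩)⟩
  refine pr_narrow (sg := sg) (P := P) (dl := dl) (bt := bt) (bw := bw) (Y := Y) hG hb hz ?_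
  obtain ⟨r1, hr1, q1⟩ := H41
  obtain ⟨r2, hr2, q2⟩ := H78
  obtain ⟨r3, hr3, q3⟩ := narQ_near (S := S) (be := be) h1 h2 (by have := C.l1; omega) h3
  refine ⟨min (min r1 r2) r3, by positivity, ?_⟩
  filter_upwards [q1, q2, picD_ev C hb haL] with k k1 k2 k3 hM
  obtain ⟨hM0, hD⟩ := k3
  filter_upwards [k1 hM, k2 hM, q3, eventually_ge_atTop 2] with h g1 g2 g3 g4 p hp
  have hp1 := hp.trans_le ((min_le_left _ _).trans (min_le_left _ _))
  have hp2 := hp.trans_le ((min_le_left _ _).trans (min_le_right _ _))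
  have hp3 := hp.trans_le (min_le_right _ _)
  have D := hD h g4
  obtain ⟨n1, n2⟩ := g3 k hM p hp3
  have nq : NarQ S k.1 k.2 h sg X be Y (qb p dl) := by
    unfold qb
    cases dl
    · exact n1
    · exact n2
  cases P
  · exact ⟨fun _ => False, fun h => absurd h (by simp), fun _ => fv_of D n2 n1, fun h => absurd h (by simp),
      g1 p hp1, g2 p hp2 _ (fun h => absurd h (by simp))⟩
  · obtain ⟨U, u1, u2⟩ := cut_ex D
    exact ⟨U, fun _ => u1, fun _ => fv_of D n2 n1, fun _ => fp_of D nq u1, g1 p hp1,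
      g2 p hp2 U (fun _ => ⟨u1, u2⟩)⟩

end Pool.Agent.H2.W.Run
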