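import Mathlib
import Pool.Agent.H2.W.RNar
import Pool.Agent.H13.W.VE
import Pool.Agent.H82.W.Refl

set_option autoImplicit false
set_option linter.unusedVariables false
open Finset

/-! # RAISE: the value of the world `WN` of the picture

`val_WN` : the value of 78's world `WN` of the picture (reflected if the tooth is below) is the value `vA` of the
auxiliary world of the polygon, if the colours agree off the deleted tiles (19). -/

namespace Pool.Agent.H2.W.Run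

open Pool.Agent.H75.Perc (dir dir_cases)
open Pool.Agent.Q1.M4 (Cell PType IsSide)
open Pool.Agent.H33.Q1 (lt tt ct TL lt_odd tt_lt lt_tt lt_inj mem_TL lt_mem_TL)
open Pool.Agent.H19.W
open Pool.Agent.H22.W.Vc (Mark Ld Tc Cl DC VH mks mkv CK ix mks_cvx al_mkv)
open Pool.Agent.H13.W (TQ chG eW mkG al_mkG mks_sy)
open Pool.Agent.H50.W (rf bk)
open Pool.Agent.H58.W (plV)
open Pool.Agent.H68.W (sx)
open Pool.Agent.H78.W
open Pool.Agent.H21.FM (Shape)
open Pool.Agent.H74.W (Ex Del)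
open Pool.Agent.H82.W (tv rfl' rl_rl rlF_rlF val_rl)

section

variable {S : Shape} {aL b : ℤ} {N M' h : ℕ} {hM : 0 < N * M'} {sg P : Bool} {a0 be bt bw Y0 k0 : ℤ}
  (D : PicD S aL b N M' h hM sg P a0 be bt bw Y0 k0) {p : ℤ × ℤ} {dl : Bool}
  (Hq : NarQ S N M' h sg a0 be Y0 (qb p dl)) {U : Cell → Prop}
  (HC : P = true → CutD (rf S (N * M') hM).P.Q U (yF sg (N * M') Y0) (N * M' * bt) (N * M' * bw))

lemma rfl'_eq (sg : Bool) (p : ℤ × ℤ) : rfl' sg p = (p.1, ry sg p.2) := by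
  unfold rfl' ry
  cases sg <;> simp

lemma rl_eW (sg : Bool) (e : ℤ × ℤ) : rl sg (eW e) = eW (rl sg e) := by
  unfold rl
  cases sg
  · rfl
  · rfl

/-- the deleted row behind the tooth in the picture -/
lemma yF_eq {y : ℤ} : ry sg y = yc sg (2 * (h : ℤ) * (N * M')) Y0 + 2 * h * ((N * M') / 2) + h -
    (if sg then 0 else 1) ↔ y = r0F sg N M' h Y0 := by
  unfold yc r0F yF
  cases sg
  · simp only [Bool.false_eq_true, if_false, ry_false]
    have e : 2 * (h : ℤ) * (↑N * ↑M' * Y0 - ↑N * ↑M' / 2 - 1) + h =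
        2 * (h : ℤ) * (↑N * ↑M') * Y0 - 2 * h * (↑N * ↑M' / 2) - h := by ring
    rw [e]
    constructor <;> intro h' <;> linarith
  · simp only [if_true, ry_true]
    have e : 2 * (h : ℤ) * (↑N * ↑M' * Y0 + ↑N * ↑M' / 2) + h =
        2 * (h : ℤ) * (↑N * ↑M') * Y0 + 2 * h * (↑N * ↑M' / 2) + h := by ring
    rw [e]
    constructor <;> intro h' <;> linarith

/-- blocks of the picture -/
lemma bb_pic (e : ℤ × ℤ) (he : (e.1 + e.2) % 2 = 1) :
    bb (pic S b N M' h hM sg P be bt bw Y0 k0).pl (rl sg e) =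
      (match plV (chG S.P.Q) b N M' (ct (2 * (h : ℤ)) (tt e)) with
        | none => Sum.inl (rl sg e)
        | some k => Sum.inr k) := by
  have e1 : e = lt (tt e) := (lt_tt he).symm
  rcases hxy : tt e with ⟨x, y⟩
  rw [hxy] at e1
  subst e1
  rw [rl_lt]
  unfold bb
  rw [cx_lt, cy_lt]
  have e2 : (pic S b N M' h hM sg P be bt bw Y0 k0).pl x (ry sg y) =
      plV (chG S.P.Q) b N M' (x / (2 * h), ry sg (ry sg y) / (2 * h)) := rfl
  rw [e2, ry_ry, show ct (2 * (h : ℤ)) (x, y) = (x / (2 * h), y / (2 * h)) from rfl]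
  cases plV (chG S.P.Q) b N M' (x / (2 * h), y / (2 * h)) <;> rfl

include D Hq HC in
/-- **The deleted labels.** -/
lemma mem_Dp {x y : ℤ} : lt (x, y) ∈ Dp S N M' h hM sg P bt bw Y0 p dl ↔
    (y = (qb p dl).2 ∧ (qb p dl).1 ≤ x ∧ x ≤ Xe N M' h be) ∨
    (P = true ∧ y = r0F sg N M' h Y0 ∧ 2 * (h : ℤ) * (N * M' * bt) - 1 ≤ x ∧ x ≤ 2 * (h : ℤ) * (N * M' * bw)) := by
  unfold Dp
  cases P
  · simp only [Bool.false_eq_true, if_false, false_and, or_false]
    exact mem_del' D Hq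
  · simp only [if_true, true_and]
    rw [Set.mem_union, mem_del' D Hq, mem_FF D Hq (HC rfl)]

include D Hq HC in
lemma mem_DN {x y : ℤ} :
    rl sg (lt (x, y)) ∈ (pic S b N M' h hM sg P be bt bw Y0 k0).DN (qb p dl).1 (ry sg (qb p dl).2) ↔
      lt (x, y) ∈ Dp S N M' h hM sg P bt bw Y0 p dl := by
  rw [mem_Dp D Hq HC, rl_lt]
  unfold Pic.DN
  rw [Set.mem_ofPred_eq, cx_lt, cy_lt]
  have hxe : (pic S b N M' h hM sg P be bt bw Y0 k0).xe = Xe N M' h be := by
    show 2 * (h : ℤ) * (N * M') * be = _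
    unfold Xe; ring
  have hxt : (pic S b N M' h hM sg P be bt bw Y0 k0).xt = 2 * (h : ℤ) * (N * M' * bt) := by
    show 2 * (h : ℤ) * (N * M') * bt = _
    ring
  have hxw : (pic S b N M' h hM sg P be bt bw Y0 k0).xw = 2 * (h : ℤ) * (N * M' * bw) := by
    show 2 * (h : ℤ) * (N * M') * bw = _
    ring
  have hYF : (ry sg y = (pic S b N M' h hM sg P be bt bw Y0 k0).YF) ↔ y = r0F sg N M' h Y0 := yF_eq
  have hP : (pic S b N M' h hM sg P be bt bw Y0 k0).P = P := rfl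
  have hr : ry sg y = ry sg (qb p dl).2 ↔ y = (qb p dl).2 := by
    constructor
    · intro h'
      have := congrArg (ry sg) h'
      rwa [ry_ry, ry_ry] at this
    · intro h'; rw [h']
  rw [hxe, hxt, hxw, hYF, hP, hr]
  constructor
  · rintro ⟨-, h1⟩; exact h1
  · intro h1; exact ⟨lt_odd _, h1⟩

include D Hq HC in
/-- the colours `kp` at the marks -/
lemma kp_mk (j : Fin 3) :
    ((mks (rf S (N * M') hM) (2 * (h : ℤ)) j).dg ∈
      WC (rf S (N * M') hM).P (2 * (h : ℤ)) (kp S N M' h hM sg P bt bw Y0 U p dl)) ↔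
    (mks (rf S (N * M') hM) (2 * (h : ℤ)) j).hn ∉
      WC (rf S (N * M') hM).P (2 * (h : ℤ)) (kp S N M' h hM sg P bt bw Y0 U p dl) := by
  unfold kp
  cases P
  · simp only [Bool.false_eq_true, if_false]
    exact (cl_kb D Hq).mkc _ ⟨j, rfl⟩
  · simp only [if_true]
    exact (cl_flip D.n4 (part_of D (HC rfl)) (cl_kb D Hq)).mkc _ ⟨j, rfl⟩

include D Hq HC in
/-- the tiles at the marks are not deleted -/
lemma mk_Dp (j : Fin 3) {x : ℤ} (h1 : (mks (rf S (N * M') hM) (2 * (h : ℤ)) j).u - 1 ≤ x)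
    (h2 : x ≤ (mks (rf S (N * M') hM) (2 * (h : ℤ)) j).u + 1) :
    lt (x, (mks (rf S (N * M') hM) (2 * (h : ℤ)) j).v) ∉ Dp S N M' h hM sg P bt bw Y0 p dl := by
  have hn : (0 : ℤ) < 2 * h := by have := D.n4; omega
  obtain ⟨k1, k2, k3, k4, k5, k6, k7, k8⟩ := cols D Hq.toNarP
  have hcv := mks_cvx (S := rf S (N * M') hM) D.n4 j
  set m := mks (rf S (N * M') hM) (2 * (h : ℤ)) j with hm
  have hno : ∀ a : ℤ, m.u - 2 ≤ a → a ≤ m.u + 2 → ¬ TQ (rf S (N * M') hM).P.Q (2 * (h : ℤ)) a m.v := by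
    intro a a1 a2 hT
    have := (hcv.near (a := a) (b := m.v) a1 a2 (by omega) (by omega)).1 hT
    rw [sub_self, mul_zero] at this
    omega
  intro hd
  rcases (mem_Dp D Hq HC).1 hd with ⟨e1, e2, e3⟩ | ⟨hP, e1, e2, e3⟩
  · have hr : RowN N M' h sg Y0 (qb p dl).2 := ⟨Hq.r⟩
    have hl := Hq.l
    refine hno (x - 1) (by omega) (by omega) ?_
    rw [e1]
    exact tq_in D hr (col_ge hn (by omega)) (col_lt hn (by unfold Xe at e3; omega))
  · subst hP
    have k9 := k8 rfl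
    have hrow := (rowR D (i := 0) (by omega) (by omega)).1
    rw [add_zero] at hrow
    by_cases c1 : x < 2 * (h : ℤ) * (N * M' * bt)
    · refine hno (x + 1) (by omega) (by omega) ?_
      rw [e1]
      exact tq_beh D rfl hrow (col_ge hn (by omega)) (col_lt hn (by omega))
    · by_cases c2 : x < 2 * (h : ℤ) * (N * M' * bw)
      · refine hno x (by omega) (by omega) ?_
        rw [e1]
        exact tq_beh D rfl hrow (col_ge hn (by omega)) (col_lt hn (by omega))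
      · refine hno (x - 1) (by omega) (by omega) ?_
        rw [e1]
        exact tq_beh D rfl hrow (col_ge hn (by omega)) (col_lt hn (by omega))

/-- **Colour identity off the deleted tiles** (19). -/
def KnId (S : Shape) (b : ℤ) (N M' h : ℕ) (hM : 0 < N * M') (sg P : Bool) (be bt bw Y0 k0 : ℤ)
    (U : Cell → Prop) (p : ℤ × ℤ) (dl : Bool) : Prop :=
  ∀ x y : ℤ, ¬ TQ (rf S (N * M') hM).P.Q (2 * (h : ℤ)) x y → Tc (TQ (rf S (N * M') hM).P.Q (2 * (h : ℤ))) x y →
    lt (x, y) ∉ Dp S N M' h hM sg P bt bw Y0 p dl →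
    (lt (x, ry sg y) ∈ (pic S b N M' h hM sg P be bt bw Y0 k0).KN (ry sg (qb p dl).2) ↔
      lt (x, y) ∈ WC (rf S (N * M') hM).P (2 * (h : ℤ)) (kp S N M' h hM sg P bt bw Y0 U p dl))

variable (hK : KnId S b N M' h hM sg P be bt bw Y0 k0 U p dl)

include D hK in
/-- the colours of outer labels -/
lemma kn_e {e : ℤ × ℤ} (h1 : e ∈ LamC (rf S (N * M') hM).P.Q (2 * (h : ℤ)))
    (h2 : e ∉ TL (rf S (N * M') hM).P.Q (2 * (h : ℤ))) (h3 : e ∉ Dp S N M' h hM sg P bt bw Y0 p dl) :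
    rl sg e ∈ (pic S b N M' h hM sg P be bt bw Y0 k0).KN (ry sg (qb p dl).2) ↔
      e ∈ WC (rf S (N * M') hM).P (2 * (h : ℤ)) (kp S N M' h hM sg P bt bw Y0 U p dl) := by
  have hn : (0 : ℤ) < 2 * h := by have := D.n4; omega
  have h4 := (mem_LamC hn).1 h1
  have e1 : e = lt (tt e) := (lt_tt h4.1).symm
  rcases hxy : tt e with ⟨x, y⟩
  rw [hxy] at e1
  subst e1
  rw [rl_lt]
  refine hK x y (fun h5 => h2 ((lt_mem_TL hn).2 h5)) ?_ h3
  have : lt (x, y) ∈ (LamC (rf S (N * M') hM).P.Q (2 * (h : ℤ)) : Set (ℤ × ℤ)) := h1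
  rw [lam_TQ hn] at this
  exact Pool.Agent.H22.W.Vc.mem_Ld.1 this

include D Hq HC hK in
/-- **The far ends.** -/
theorem al_WN (j : Fin 3) :
    (mkG sg (mks (rf S (N * M') hM) (2 * (h : ℤ))) j).al
      ((pic S b N M' h hM sg P be bt bw Y0 k0).KN (ry sg (qb p dl).2)) =
    rl sg (XM (rf S (N * M') hM) h (kp S N M' h hM sg P bt bw Y0 U p dl) j) := by
  have hn : (0 : ℤ) < 2 * h := by have := D.n4; omega
  have hcv := mks_cvx (S := rf S (N * M') hM) D.n4 j
  set G := pic S b N M' h hM sg P be bt bw Y0 k0 with hG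
  set W := WC (rf S (N * M') hM).P (2 * (h : ℤ)) (kp S N M' h hM sg P bt bw Y0 U p dl) with hW
  have e1 : G.KN (ry sg (qb p dl).2) = rlF sg (rlF sg (G.KN (ry sg (qb p dl).2))) := (rlF_rlF _ _).symm
  rw [e1, al_mkG (mks_sy j)]
  congr 1
  have hno : ∀ a : ℤ, (mks (rf S (N * M') hM) (2 * (h : ℤ)) j).u - 2 ≤ a →
      a ≤ (mks (rf S (N * M') hM) (2 * (h : ℤ)) j).u + 2 →
      ¬ TQ (rf S (N * M') hM).P.Q (2 * (h : ℤ)) a (mks (rf S (N * M') hM) (2 * (h : ℤ)) j).v := by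
    intro a a1 a2 hT
    have := (hcv.near (a := a) (b := (mks (rf S (N * M') hM) (2 * (h : ℤ)) j).v) a1 a2 (by omega) (by omega)).1 hT
    rw [sub_self, mul_zero] at this
    omega
  obtain ⟨s1, s2, s3⟩ := id hcv
  -- the two tiles of the mark
  have key : ∀ x : ℤ, (x = (mks (rf S (N * M') hM) (2 * (h : ℤ)) j).u ∨
      x = (mks (rf S (N * M') hM) (2 * (h : ℤ)) j).u + (mks (rf S (N * M') hM) (2 * (h : ℤ)) j).sx) →
      (lt (x, (mks (rf S (N * M') hM) (2 * (h : ℤ)) j).v) ∈ rlF sg (G.KN (ry sg (qb p dl).2)) ↔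
        lt (x, (mks (rf S (N * M') hM) (2 * (h : ℤ)) j).v) ∈ W) := by
    intro x hx
    have hx1 : (mks (rf S (N * M') hM) (2 * (h : ℤ)) j).u - 1 ≤ x := by omega
    have hx2 : x ≤ (mks (rf S (N * M') hM) (2 * (h : ℤ)) j).u + 1 := by omega
    rw [mem_rlF]
    have hT : TQ (rf S (N * M') hM).P.Q (2 * (h : ℤ))
        ((mks (rf S (N * M') hM) (2 * (h : ℤ)) j).u + (mks (rf S (N * M') hM) (2 * (h : ℤ)) j).sx)
        ((mks (rf S (N * M') hM) (2 * (h : ℤ)) j).v + (mks (rf S (N * M') hM) (2 * (h : ℤ)) j).sy) := by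
      refine (hcv.near (by omega) (by omega) (by omega) (by omega)).2 ⟨?_, ?_⟩
      · rcases s1 with k | k <;> rw [k] <;> norm_num
      · rcases s2 with k | k <;> rw [k] <;> norm_num
    refine kn_e D hK ?_ ?_ (mk_Dp D Hq HC j hx1 hx2)
    · have h5 : lt (x, (mks (rf S (N * M') hM) (2 * (h : ℤ)) j).v) ∈
          Ld (TQ (rf S (N * M') hM).P.Q (2 * (h : ℤ))) :=
        Pool.Agent.H22.W.Vc.mem_Ld.2 ⟨_, _, by omega, by omega, hT⟩
      rw [← lam_TQ hn] at h5
      exact h5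
    · intro h5
      exact hno x (by omega) (by omega) ((lt_mem_TL hn).1 h5)
  have h1 := key _ (Or.inl rfl)
  have h2 := key _ (Or.inr rfl)
  refine al_mkv (κ := kp S N M' h hM sg P bt bw Y0 U p dl) h1 ?_
  have h3 := kp_mk D Hq HC (U := U) j
  exact h1.trans (h3.trans (not_congr h2.symm))

include D Hq HC hK in
/-- **The value of the world `WN`.** -/
theorem val_WN : Pool.Agent.H82.W.val ((pic S b N M' h hM sg P be bt bw Y0 k0).WN (rfl' sg (qb p dl)))
      (eW (lt (rfl' sg (qb p dl))))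
      (fun j => (mkG sg (mks (rf S (N * M') hM) (2 * (h : ℤ))) j).al
        ((pic S b N M' h hM sg P be bt bw Y0 k0).KN (ry sg (qb p dl).2))) tv =
    vA S b N M' h hM sg P bt bw Y0 U p dl := by
  have hn : (0 : ℤ) < 2 * h := by have := D.n4; omega
  set T := rf S (N * M') hM with hT
  set G := pic S b N M' h hM sg P be bt bw Y0 k0 with hG
  set K := kp S N M' h hM sg P bt bw Y0 U p dl with hKp
  set A := VC T.P (2 * (h : ℤ)) K (Dp S N M' h hM sg P bt bw Y0 p dl) (plV (chG S.P.Q) b N M') with hA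
  have e0 : vA S b N M' h hM sg P bt bw Y0 U p dl = Pool.Agent.H82.W.val A (eW (lt (qb p dl))) (XM T h K) tv := by
    unfold vA hV Pool.Agent.H82.W.val
    refine sum_congr rfl fun j _ => ?_
    have : ∀ ω : Finset (ℤ × ℤ), A.G ω =
        Pool.Agent.H13.W.SG (LamC T.P.Q (2 * (h : ℤ)) : Set (ℤ × ℤ)) (Dp S N M' h hM sg P bt bw Y0 p dl)
          (ω ∪ WC T.P (2 * (h : ℤ)) K) := by
      intro ω
      show Pool.Agent.H13.W.SG _ _ (symmDiff ω (∅ : Finset (ℤ × ℤ)) ∪ _) = _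
      rw [show symmDiff ω (∅ : Finset (ℤ × ℤ)) = ω from symmDiff_bot ω]
      rfl
    simp only [this]
    rfl
  rw [e0]
  have e1 : rfl' sg (qb p dl) = ((qb p dl).1, ry sg (qb p dl).2) := rfl'_eq _ _
  have e2 : eW (lt (rfl' sg (qb p dl))) = rl sg (eW (lt (qb p dl))) := by
    rw [e1, rl_eW, show qb p dl = ((qb p dl).1, (qb p dl).2) from rfl, rl_lt]
  have e3 : (fun j => (mkG sg (mks T (2 * (h : ℤ))) j).al (G.KN (ry sg (qb p dl).2))) =
      fun j => rl sg (XM T h K j) := funext fun j => al_WN D Hq HC hK j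
  rw [e2, e3]
  refine val_rl sg (A := A) (B := G.WN (rfl' sg (qb p dl))) rfl ?_ ?_ ?_ ?_ _ _ _
  · -- blocks
    intro e he e' he'
    have o1 : (e.1 + e.2) % 2 = 1 := ((mem_TL hn).1 he).1
    have o2 : (e'.1 + e'.2) % 2 = 1 := ((mem_TL hn).1 he').1
    have b1 := bb_pic (S := S) (b := b) (N := N) (M' := M') (h := h) (hM := hM) (sg := sg) (P := P) (be := be)
      (bt := bt) (bw := bw) (Y0 := Y0) (k0 := k0) e o1
    have b2 := bb_pic (S := S) (b := b) (N := N) (M' := M') (h := h) (hM := hM) (sg := sg) (P := P) (be := be)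
      (bt := bt) (bw := bw) (Y0 := Y0) (k0 := k0) e' o2
    show bk (2 * (h : ℤ)) (plV (chG S.P.Q) b N M') e = bk (2 * (h : ℤ)) (plV (chG S.P.Q) b N M') e' ↔
      bb G.pl (rl sg e) = bb G.pl (rl sg e')
    rw [hG, b1, b2]
    unfold bk
    have inj : rl sg e = rl sg e' ↔ e = e' := by
      constructor
      · intro h'
        have := congrArg (rl sg) h'
        rwa [rl_rl, rl_rl] at this
      · intro h'; rw [h']
    cases h1 : plV (chG S.P.Q) b N M' (ct (2 * (h : ℤ)) (tt e)) <;>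
      cases h2 : plV (chG S.P.Q) b N M' (ct (2 * (h : ℤ)) (tt e')) <;> simp [inj]
  · intro e
    show e ∈ rlF sg (LamC T.P.Q (2 * (h : ℤ))) ↔ _
    rw [mem_rlF]
    exact Iff.rfl
  · intro e he
    have h4 := (mem_LamC hn).1 (show e ∈ LamC T.P.Q (2 * (h : ℤ)) from he)
    have e4 : e = lt (tt e) := (lt_tt h4.1).symm
    rcases hxy : tt e with ⟨x, y⟩
    rw [hxy] at e4
    rw [e4, e1]
    exact mem_DN D Hq HC
  · intro ω hω e he hd
    have a1 : rl sg e ∈ (G.WN (rfl' sg (qb p dl))).st (rlF sg ω) ↔ e ∈ ω ∨ rl sg e ∈ G.KN (ry sg (qb p dl).2) := by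
      unfold Pool.Agent.H82.W.WD.st
      rw [mem_union]
      have : symmDiff (rlF sg ω) (G.WN (rfl' sg (qb p dl))).F = rlF sg ω := symmDiff_bot _
      rw [this, mem_rlF, rl_rl, e1]
      exact Iff.rfl
    have a2 : e ∈ A.st ω ↔ e ∈ ω ∨ e ∈ WC T.P (2 * (h : ℤ)) K := by
      unfold Pool.Agent.H82.W.WD.st
      rw [mem_union]
      have : symmDiff ω A.F = ω := symmDiff_bot _
      rw [this]
      exact Iff.rfl
    rw [a1, a2]
    by_cases ht : e ∈ TL T.P.Q (2 * (h : ℤ))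
    · -- random tiles: not in the colours
      have c1 : e ∉ WC T.P (2 * (h : ℤ)) K := by
        intro h'
        rw [mem_WC] at h'
        exact h'.2.1 ((mem_TL hn).1 ht).2
      have c2 : rl sg e ∉ G.KN (ry sg (qb p dl).2) := by
        intro h'
        classical
        unfold Pic.KN at h'
        have hE : rl sg e ∈ G.E := by
          show rl sg e ∈ rlF sg (TL T.P.Q (2 * (h : ℤ)))
          rw [mem_rlF, rl_rl]; exact ht
        rw [mem_symmDiff, mem_filter, mem_sdiff] at h'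
        rcases h' with ⟨h5, -⟩ | ⟨⟨⟨-, h5⟩, -⟩, -⟩
        · exact D.ok.dis _ h5 hE
        · exact h5 hE
      tauto
    · rw [kn_e D hK he ht hd]

end

end Pool.Agent.H2.W.Run
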