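import Mathlib
import Pool.Agent.H2.W.RVal

set_option autoImplicit false
set_option linter.unusedVariables false
open Finset

/-! # RAISE: the order of the two exits

`sx_coarse` : the coarse index of a side of the refined shape. `dlS` : the shift of RAISE. `te_lt` : the side of the
tooth is before the exit of the wide world iff this holds for the coarse sides. -/

namespace Pool.Agent.H2.W.Run

open Pool.Agent.H75.Perc (dir dir_cases)
open Pool.Agent.Q1.M4 (Cell PType IsSide)
open Pool.Agent.H33.Q1 (lt tt ct TL)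
open Pool.Agent.H48.Q1 (fsd)
open Pool.Agent.H50.W (rf mu side_mul fsd_fst dv)
open Pool.Agent.H68.W (sx sx_spec sx_eq isSide1 isSide3)
open Pool.Agent.H78.W
open Pool.Agent.H21.FM (Shape)

/-- the number of sides of the refined shape -/
lemma rf_N (S : Shape) {M : ℕ} (hM : 0 < M) : (rf S M hM).P.N = S.P.N * M := by
  show (S.P.refine (Pool.Agent.H50.W.mu_mono hM) (Pool.Agent.H50.W.mu_mono hM)).N = _
  rw [PType.refine_N, Pool.Agent.H50.W.L_mu]

/-- **The coarse index of a side.** -/
theorem sx_coarse (S : Shape) {M : ℕ} (hM : 0 < M) {c : Cell} {k : ℤ} (h : IsSide (rf S M hM).P.Q (c, k)) :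
    sx (rf S M hM).P c k / M = sx S.P (c.1 / (M : ℤ), c.2 / (M : ℤ)) k := by
  obtain ⟨h1, h2, h3⟩ := sx_spec h
  set i := sx (rf S M hM).P c k with hi
  have hMz : (0 : ℤ) < M := by exact_mod_cast hM
  have hd : i = i / M * M + i % M := (Nat.div_add_mod' i M).symm
  have hj : i % M < M := Nat.mod_lt _ hM
  have e : (rf S M hM).P.side i = fsd (mu M) (mu M) (S.P.side (i / M)) (i % M) := by
    have := side_mul S.P hM (i / M) hj
    rw [← hd] at this
    exact this
  rw [e] at h2 h3
  have hjz : ((i % M : ℕ) : ℤ) < M := by exact_mod_cast hj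
  have hj0 : (0 : ℤ) ≤ ((i % M : ℕ) : ℤ) := by positivity
  set j : ℤ := ((i % M : ℕ) : ℤ) with hjj
  rcases hs : S.P.side (i / M) with ⟨⟨a, b⟩, k'⟩
  rw [hs] at h2 h3
  rw [fsd_fst] at h2
  have h3' : (k' - k) % 4 = 0 := h3
  symm
  refine sx_eq ?_ ?_ ?_
  · rw [rf_N] at h1
    exact (Nat.div_lt_iff_lt_mul hM).2 h1
  · rw [hs]
    have key : a = c.1 / (M : ℤ) ∧ b = c.2 / (M : ℤ) := by
      rw [eq_comm, dv hMz, eq_comm, dv hMz, ← h2]
      split_ifs <;> simp only <;> refine ⟨⟨?_, ?_⟩, ?_, ?_⟩ <;> linarith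
    exact Prod.ext key.1 key.2
  · rw [hs]
    exact h3'

/-- coarse side of the tooth -/
noncomputable def iT (S : Shape) (sg : Bool) (be Y0 : ℤ) : ℕ := sx S.P (be - 1, if sg then Y0 else Y0 - 1) 1

/-- coarse side of the exit of the wide world -/
noncomputable def iW (S : Shape) (sg : Bool) (bw Y0 : ℤ) : ℕ := sx S.P (bw - 1, if sg then Y0 - 1 else Y0) 1

/-- **The shift of RAISE.** -/
noncomputable def dlS (S : Shape) (sg : Bool) (be bw Y0 : ℤ) : Bool :=
  if sg then decide (iT S sg be Y0 < iW S sg bw Y0) else decide (iW S sg bw Y0 < iT S sg be Y0)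

section

variable {S : Shape} {aL b : ℤ} {N M' h : ℕ} {hM : 0 < N * M'} {sg P : Bool} {a0 be bt bw Y0 k0 : ℤ}
  (D : PicD S aL b N M' h hM sg P a0 be bt bw Y0 k0) {p : ℤ × ℤ} (Hq : NarQ S N M' h sg a0 be Y0 p)

include D Hq

lemma te_div : te S N M' h hM be p / (N * M') = iT S sg be Y0 := by
  have hn : (0 : ℤ) < 2 * h := by have := D.n4; omega
  obtain ⟨k1, k2, k3, k4, k5, k6, k7, k8⟩ := cols D Hq.toNarP
  have hr : RowN N M' h sg Y0 p.2 := ⟨Hq.r⟩
  have hX1 : (Xe N M' h be - 1) / (2 * (h : ℤ)) = N * M' * be - 1 := by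
    unfold Xe; exact div_in hn (by linarith) (by linarith)
  have hX0 : Xe N M' h be / (2 * (h : ℤ)) = N * M' * be := by
    unfold Xe; exact div_in hn (by linarith) (by linarith)
  have q1 : (N * M' * be - 1, p.2 / (2 * (h : ℤ))) ∈ (rf S (N * M') hM).P.Q := by
    have := tq_in D (x := Xe N M' h be - 1) hr (col_ge hn (by omega)) (col_lt hn (by unfold Xe; omega))
    unfold Pool.Agent.H13.W.TQ ct at this
    simp only at this
    rwa [hX1] at this
  have q2 : (N * M' * be, p.2 / (2 * (h : ℤ))) ∉ (rf S (N * M') hM).P.Q := by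
    have := tq_tooth D (x := Xe N M' h be) hr (col_ge hn le_rfl) (col_lt hn (by omega))
    unfold Pool.Agent.H13.W.TQ ct at this
    simp only at this
    rwa [hX0] at this
  have hs : IsSide (rf S (N * M') hM).P.Q ((N * M' * be - 1, p.2 / (2 * (h : ℤ))), 1) :=
    isSide1.2 ⟨q1, by rw [sub_add_cancel]; exact q2⟩
  have hm := D.mm
  have hMz : (0 : ℤ) < ((N * M' : ℕ) : ℤ) := by exact_mod_cast hM
  have e := sx_coarse S hM hs
  unfold te iT
  rw [e]
  have c1 : (N * M' * be - 1 : ℤ) / ((N * M' : ℕ) : ℤ) = be - 1 := by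
    rw [dv hMz]
    push_cast
    constructor <;> nlinarith
  have c2 : (p.2 / (2 * (h : ℤ))) / ((N * M' : ℕ) : ℤ) = if sg then Y0 else Y0 - 1 := by
    have := Hq.r
    rw [dv hMz]
    push_cast
    cases sg
    · simp only [Bool.false_eq_true, if_false] at this ⊢
      constructor <;> nlinarith
    · simp only [if_true] at this ⊢
      constructor <;> nlinarith
  rw [c1, c2]

omit Hq in
lemma teC_div : teC (rf S (N * M') hM) sg (N * M') bw Y0 / (N * M') = iW S sg bw Y0 := by
  have hm := D.mm
  have hm1 : (1 : ℤ) < N * M' := by omega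
  have hMz : (0 : ℤ) < ((N * M' : ℕ) : ℤ) := by exact_mod_cast hM
  have hs := D.C.te_side hm1 (rfn S hM)
  have e := sx_coarse S hM hs
  unfold teC iW
  rw [e]
  have c1 : (N * M' * bw - 1 : ℤ) / ((N * M' : ℕ) : ℤ) = bw - 1 := by
    rw [dv hMz]
    push_cast
    constructor <;> nlinarith
  have c2 : (if sg then N * M' * Y0 - 1 else N * M' * Y0 : ℤ) / ((N * M' : ℕ) : ℤ) =
      if sg then Y0 - 1 else Y0 := by
    rw [dv hMz]
    push_cast
    cases sg
    · simp only [Bool.false_eq_true, if_false]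
      constructor <;> nlinarith
    · simp only [if_true]
      constructor <;> nlinarith
  rw [c1, c2]

omit Hq in
lemma iT_ne : iT S sg be Y0 ≠ iW S sg bw Y0 := by
  intro he
  have C := D.C
  have l1 := C.l1
  have l2 := C.l2
  have l3 := C.l3
  have s1 : IsSide S.P.Q ((be - 1, if sg then Y0 else Y0 - 1), 1) := by
    refine isSide1.2 ⟨?_, ?_⟩
    · have := C.c1 (be - 1) (by omega) (by omega)
      cases sg
      · exact this.2
      · exact this.1
    · rw [sub_add_cancel]
      exact C.c3 be le_rfl l2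
  have s2 : IsSide S.P.Q ((bw - 1, if sg then Y0 - 1 else Y0), 1) := by
    refine isSide1.2 ⟨C.c2 (bw - 1) (by omega) (by omega), ?_⟩
    rw [sub_add_cancel]
    exact C.c2'
  have := (sx_cell s1 s2 he).1
  rw [Prod.mk.injEq] at this
  omega

/-- **The order of the two exits.** -/
theorem te_lt : (te S N M' h hM be p < teC (rf S (N * M') hM) sg (N * M') bw Y0 ↔
      iT S sg be Y0 < iW S sg bw Y0) ∧
    (teC (rf S (N * M') hM) sg (N * M') bw Y0 < te S N M' h hM be p ↔ iW S sg bw Y0 < iT S sg be Y0) := by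
  have h1 := te_div D Hq
  have h2 := teC_div D
  have h3 := iT_ne D
  constructor
  · constructor
    · intro h4
      have h5 := Nat.div_le_div_right (c := N * M') h4.le
      rw [h1, h2] at h5
      exact lt_of_le_of_ne h5 h3
    · intro h4
      by_contra h5
      push Not at h5
      have h6 := Nat.div_le_div_right (c := N * M') h5
      rw [h1, h2] at h6
      omega
  · constructor
    · intro h4
      have h5 := Nat.div_le_div_right (c := N * M') h4.le
      rw [h1, h2] at h5
      exact lt_of_le_of_ne h5 h3.symm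
    · intro h4
      by_contra h5
      push Not at h5
      have h6 := Nat.div_le_div_right (c := N * M') h5
      rw [h1, h2] at h6
      omega

end

end Pool.Agent.H2.W.Run
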