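import Mathlib
import Pool.Agent.H2.W.RIdx
import Pool.Agent.H13.W.VEwn
import Pool.Agent.H41.W.GCc

set_option autoImplicit false
set_option linter.unusedVariables false
open Finset

/-! # RAISE: the conjunct (N) of 82's `EWN`

`KnIdAll` : the colour identity (19) with the shift `dlS`. `ewn_N` : the values in the narrow room. -/

namespace Pool.Agent.H2.W.Run

open Pool.Agent.Q1.M4 (Cell PType IsSide)
open Pool.Agent.H33.Q1 (lt tt ct TL)
open Pool.Agent.H19.W Pool.Agent.H92.W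
open Pool.Agent.H13.W (chG SG eW mkG mkK mkK_eq yE picC_of mkOk_of al_up)
open Pool.Agent.H22.W.Vc (Mark mks shC)
open Pool.Agent.H58.W (plV)
open Pool.Agent.H50.W (rf bk)
open Pool.Agent.H68.W (sx)
open Pool.Agent.H78.W
open Pool.Agent.H21.FM (Shape)
open Pool.Agent.H5.C3 (Gen)
open Pool.Agent.H74.W (Ex Del HF lK ps)
open Pool.Agent.H82.W (PR GI GI_eq gi_D k0 tv rfl')
open Filter Metric

/-- `HF` is the value of the plain world, near a point of the narrow room. -/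
theorem hf_vZ {S : Shape} {b : ℤ} (hb : ∀ c ∈ chG S.P.Q, c.1 < b) {X Y be bt bw : ℤ}
    {sg P : Bool} (C : Cc S.P.Q sg X be bt bw Y P) {z1 : ℂ} (h1 : (X : ℝ) < z1.re) (h2 : z1.re < X + 1)
    (h3 : if sg then (Y : ℝ) < z1.im ∧ z1.im < Y + 1 else (Y : ℝ) - 1 < z1.im ∧ z1.im < Y) :
    ∃ r > (0 : ℝ), ∀ᶠ k : ℕ × ℕ in lK, ∀ hM : 0 < k.1 * k.2, ∀ᶠ h : ℕ in atTop,
      ∀ p : ℤ × ℤ, dist (ps k h p) z1 < r → HF S b k h p = vZ S b k.1 k.2 h hM p false := by
  obtain ⟨aL, haL⟩ : ∃ aL : ℤ, ∀ c ∈ chG S.P.Q, aL ≤ c.1 := by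
    obtain ⟨m, hm⟩ := ((chG S.P.Q).image Prod.fst).bddBelow
    exact ⟨m, fun c hc => hm (by simpa using ⟨c.2, hc⟩)⟩
  obtain ⟨r3, hr3, q3⟩ := narQ_near (S := S) (be := be) h1 h2 (by have := C.l1; omega) h3
  refine ⟨r3, hr3, ?_⟩
  filter_upwards [picD_ev C hb haL] with k k3 hM
  obtain ⟨hM0, hD⟩ := k3
  filter_upwards [q3, eventually_ge_atTop 2] with h g3 g4 p hp
  obtain ⟨n1, -⟩ := g3 k hM p hp
  have D := hD h g4
  have hx : ∃ t, Ex (rf S (k.1 * k.2) hM) h p t := ⟨_, (ex_iff D n1.toNarP).2 rfl⟩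
  rw [Pool.Agent.H41.W.HF_hV hM g4 hx]
  rfl

/-- **The rows near a point of the narrow room, in the picture.** -/
theorem row_near {z1 : ℂ} {Y : ℤ} {sg : Bool}
    (h3 : if sg then (Y : ℝ) < z1.im ∧ z1.im < Y + 1 / 2 else (Y : ℝ) - 1 / 2 < z1.im ∧ z1.im < Y) :
    ∃ r > (0 : ℝ), ∀ᶠ k : ℕ × ℕ in lK, ∀ h : ℕ, 2 ≤ h → ∀ p : ℤ × ℤ, dist (ps k h p) z1 < r →
      yc sg (2 * h * (k.1 * k.2)) Y + h + 1 < ry sg p.2 ∧
      ry sg p.2 + 2 < yc sg (2 * h * (k.1 * k.2)) Y + 2 * h * (3 * (k.1 * k.2) / 4) := by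
  set d : ℝ := if sg then z1.im - Y else Y - z1.im with hd
  have d0 : 0 < d := by
    rw [hd]; cases sg
    · simp only [Bool.false_eq_true, if_false] at h3 ⊢; linarith [h3.2]
    · simp only [if_true] at h3 ⊢; linarith [h3.1]
  have d1 : d < 1 / 2 := by
    rw [hd]; cases sg
    · simp only [Bool.false_eq_true, if_false] at h3 ⊢; linarith [h3.1]
    · simp only [if_true] at h3 ⊢; linarith [h3.2]
  obtain ⟨r, hr, r1, r2⟩ : ∃ r > (0 : ℝ), r ≤ d / 2 ∧ r ≤ (1 / 2 - d) / 2 :=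
    ⟨min (d / 2) ((1 / 2 - d) / 2), by
      have : 0 < 1 / 2 - d := by linarith
      positivity, min_le_left _ _, min_le_right _ _⟩
  refine ⟨r, hr, ?_⟩
  have hK : ∀ᶠ k : ℕ × ℕ in lK, ⌈4 / d⌉₊ + 16 ≤ k.1 * k.2 := by
    unfold lK
    rw [Filter.eventually_curry_iff]
    filter_upwards [eventually_gt_atTop 0] with N hN
    filter_upwards [eventually_ge_atTop (⌈4 / d⌉₊ + 16)] with M' hM'
    exact hM'.trans (Nat.le_mul_of_pos_left _ hN)
  filter_upwards [hK] with k hk h hh p hp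
  have hh' : (2 : ℝ) ≤ h := by exact_mod_cast hh
  set Kn : ℕ := k.1 * k.2 with hKn
  have hKr : 4 / d + 16 ≤ (Kn : ℝ) := by
    have g1 := Nat.le_ceil (4 / d)
    have g2 : ((⌈4 / d⌉₊ + 16 : ℕ) : ℝ) ≤ Kn := by exact_mod_cast hk
    push_cast at g2
    linarith
  have hKd : 4 ≤ (Kn : ℝ) * d := by
    have g1 : 4 / d ≤ Kn := by linarith
    rwa [div_le_iff₀ d0] at g1
  have hK16 : (16 : ℝ) ≤ Kn := by
    have : 0 < 4 / d := by positivity
    linarith
  have eR : Pool.Agent.H74.W.RR k h = 2 * h * Kn := by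
    unfold Pool.Agent.H74.W.RR; rw [hKn]; push_cast; ring
  have hR0 : 0 < Pool.Agent.H74.W.RR k h := by rw [eR]; positivity
  have e2 : (ps k h p).im = (p.2 : ℝ) / Pool.Agent.H74.W.RR k h := by
    unfold ps Pool.Agent.Q1.M4.lat
    rw [Complex.div_ofReal_im]
  have a2 : |(p.2 : ℝ) / Pool.Agent.H74.W.RR k h - z1.im| < r := by
    rw [dist_eq_norm] at hp
    refine lt_of_le_of_lt ?_ hp
    have := Complex.abs_im_le_norm (ps k h p - z1)
    rwa [Complex.sub_im, e2] at this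
  rw [abs_lt] at a2
  obtain ⟨b1, b2⟩ := a2
  have b1' : Pool.Agent.H74.W.RR k h * (z1.im - r) < p.2 := by
    have : z1.im - r < (p.2 : ℝ) / Pool.Agent.H74.W.RR k h := by linarith
    rw [lt_div_iff₀ hR0] at this
    linarith
  have b2' : (p.2 : ℝ) < Pool.Agent.H74.W.RR k h * (z1.im + r) := by
    have : (p.2 : ℝ) / Pool.Agent.H74.W.RR k h < z1.im + r := by linarith
    rw [div_lt_iff₀ hR0] at this
    linarith
  -- offset
  have hhK : (0 : ℝ) ≤ 2 * h * Kn := by positivity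
  have off1 : (h : ℝ) * Kn * d ≤ 2 * h * Kn * (d - r) := by
    have : d / 2 ≤ d - r := by linarith
    calc (h : ℝ) * Kn * d = 2 * h * Kn * (d / 2) := by ring
      _ ≤ _ := mul_le_mul_of_nonneg_left this hhK
  have off2 : 2 * (h : ℝ) * Kn * (d + r) ≤ h * Kn := by
    have : d + r ≤ 1 / 2 := by linarith
    calc 2 * (h : ℝ) * Kn * (d + r) ≤ 2 * h * Kn * (1 / 2) := mul_le_mul_of_nonneg_left this hhK
      _ = h * Kn := by ring
  have off1' : 4 * (h : ℝ) ≤ h * Kn * d := by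
    calc 4 * (h : ℝ) = h * 4 := by ring
      _ ≤ h * (Kn * d) := mul_le_mul_of_nonneg_left hKd (by positivity)
      _ = _ := by ring
  have hfl : (3 * (Kn : ℤ) - 3) ≤ 4 * (3 * (Kn : ℤ) / 4) := by omega
  have hfl' : (3 * (Kn : ℝ) - 3) ≤ 4 * ((3 * (Kn : ℤ) / 4 : ℤ) : ℝ) := by exact_mod_cast hfl
  have off3 : (h : ℝ) * Kn + 4 ≤ 2 * h * ((3 * (Kn : ℤ) / 4 : ℤ) : ℝ) := by
    have g1 : (3 * (Kn : ℝ) - 3) / 4 ≤ ((3 * (Kn : ℤ) / 4 : ℤ) : ℝ) := by linarith
    have g2 : 2 * (h : ℝ) * ((3 * (Kn : ℝ) - 3) / 4) ≤ 2 * h * ((3 * (Kn : ℤ) / 4 : ℤ) : ℝ) :=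
      mul_le_mul_of_nonneg_left g1 (by positivity)
    nlinarith
  have eK : ((k.1 : ℤ) * k.2) = (Kn : ℤ) := by rw [hKn]; push_cast; ring
  rw [eK]
  rw [eR] at b1' b2'
  cases sg
  · simp only [Bool.false_eq_true, if_false] at hd
    have c1 : (((yc false (2 * h * Kn) Y + h + 1 : ℤ)) : ℝ) < ((ry false p.2 : ℤ) : ℝ) := by
      unfold yc
      simp only [Bool.false_eq_true, if_false, ry_false]
      push_cast
      have : (p.2 : ℝ) < 2 * h * Kn * (Y - d + r) := by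
        have e : z1.im = Y - d := by rw [hd]; ring
        rw [← e]; exact b2'
      nlinarith
    have c2 : (((ry false p.2 + 2 : ℤ)) : ℝ) < ((yc false (2 * h * Kn) Y + 2 * h * (3 * (Kn : ℤ) / 4) : ℤ) : ℝ) := by
      unfold yc
      simp only [Bool.false_eq_true, if_false, ry_false]
      push_cast
      have : 2 * h * Kn * (Y - d - r) < (p.2 : ℝ) := by
        have e : z1.im = Y - d := by rw [hd]; ring
        rw [← e]; exact b1'

      nlinarith
    exact ⟨by exact_mod_cast c1, by exact_mod_cast c2⟩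
  · simp only [if_true] at hd
    have c1 : (((yc true (2 * h * Kn) Y + h + 1 : ℤ)) : ℝ) < ((ry true p.2 : ℤ) : ℝ) := by
      unfold yc
      simp only [if_true, ry_true]
      push_cast
      have : 2 * h * Kn * (Y + d - r) < (p.2 : ℝ) := by
        have e : z1.im = Y + d := by rw [hd]; ring
        rw [← e]; exact b1'
      nlinarith
    have c2 : (((ry true p.2 + 2 : ℤ)) : ℝ) < ((yc true (2 * h * Kn) Y + 2 * h * (3 * (Kn : ℤ) / 4) : ℤ) : ℝ) := by
      unfold yc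
      simp only [if_true, ry_true]
      push_cast
      have : (p.2 : ℝ) < 2 * h * Kn * (Y + d + r) := by
        have e : z1.im = Y + d := by rw [hd]; ring
        rw [← e]; exact b2'

      nlinarith
    exact ⟨by exact_mod_cast c1, by exact_mod_cast c2⟩

/-- **The colour identity of the narrow world** (19), for the shift `dlS`. -/
def KnIdAll (S : Shape) (b : ℤ) (sg P : Bool) (X be bt bw Y : ℤ) : Prop :=
  ∀ (aL : ℤ) (N M' h : ℕ) (hM : 0 < N * M') (k0' : ℤ), PicD S aL b N M' h hM sg P X be bt bw Y k0' →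
    ∀ p : ℤ × ℤ, NarQ S N M' h sg X be Y (qb p (dlS S sg be bw Y)) →
    yc sg (2 * h * (N * M')) Y + h < ry sg (qb p (dlS S sg be bw Y)).2 →
    ry sg (qb p (dlS S sg be bw Y)).2 + 1 < yc sg (2 * h * (N * M')) Y + 2 * h * (3 * (N * M') / 4) →
    ∀ U : Cell → Prop, (P = true → CutD (rf S (N * M') hM).P.Q U (yF sg (N * M') Y) (N * M' * bt) (N * M' * bw) ∧
      ∀ i < (rf S (N * M') hM).P.N, U ((rf S (N * M') hM).P.side i).1 ↔
        Bh (sx (rf S (N * M') hM).P (N * M' * bw - 1, yF sg (N * M') Y) 1)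
          (sx (rf S (N * M') hM).P (N * M' * bt, yF sg (N * M') Y) 3) i) →
    KnId S b N M' h hM sg P be bt bw Y k0' U p (dlS S sg be bw Y)

/-- **(N).** -/
theorem ewn_N {S : Shape} (hG : Gen S.P.Q) {b : ℤ} (hb : ∀ c ∈ chG S.P.Q, c.1 < b) {X Y be bt bw : ℤ}
    {sg P : Bool} (C : Cc S.P.Q sg X be bt bw Y P) (HK : KnIdAll S b sg P X be bt bw Y) {z0 : ℂ} {σ : ℝ}
    (hσ : 0 < σ) (h1 : (X : ℝ) < z0.re - σ) (h2 : z0.re + σ < X + 1) (h3 : z0.im = Y) (h4 : σ ≤ 1 / 2) :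
    ∀ z1 ∈ ball z0 σ, (if sg then z0.im < z1.im else z1.im < z0.im) → ∃ r > (0 : ℝ), ∀ ε > (0 : ℝ),
        ∀ᶠ k in lK, ∀ᶠ h : ℕ in atTop, ∀ p : ℤ × ℤ, dist (ps k h p) z1 < r →
          ‖HF S b k h p - Pool.Agent.H82.W.val ((GI S b sg P be bt bw Y z0 σ k h).WN
            (rfl' sg (p.1, p.2 - (if dlS S sg be bw Y then 1 else 0))))
            (eW (lt (rfl' sg (p.1, p.2 - (if dlS S sg be bw Y then 1 else 0)))))
            (yE S b sg P be bt bw Y z0 σ k h) tv‖ ≤ ε := by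
  intro z1 hz1 hs
  obtain ⟨aL, haL⟩ : ∃ aL : ℤ, ∀ c ∈ chG S.P.Q, aL ≤ c.1 := by
    obtain ⟨m, hm⟩ := ((chG S.P.Q).image Prod.fst).bddBelow
    exact ⟨m, fun c hc => hm (by simpa using ⟨c.2, hc⟩)⟩
  rw [mem_ball, dist_eq_norm] at hz1
  have r1 : |z1.re - z0.re| < σ := by
    refine lt_of_le_of_lt ?_ hz1
    have := Complex.abs_re_le_norm (z1 - z0)
    rwa [Complex.sub_re] at this
  have r2 : |z1.im - z0.im| < σ := by
    refine lt_of_le_of_lt ?_ hz1
    have := Complex.abs_im_le_norm (z1 - z0)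
    rwa [Complex.sub_im] at this
  rw [abs_lt] at r1 r2
  rw [h3] at r2 hs
  have x1 : (X : ℝ) < z1.re := by linarith [r1.1]
  have x2 : z1.re < X + 1 := by linarith [r1.2]
  have y1 : if sg then (Y : ℝ) < z1.im ∧ z1.im < Y + 1 / 2 else (Y : ℝ) - 1 / 2 < z1.im ∧ z1.im < Y := by
    cases sg
    · simp only [Bool.false_eq_true, if_false] at hs ⊢
      exact ⟨by linarith [r2.1], hs⟩
    · simp only [if_true] at hs ⊢
      exact ⟨hs, by linarith [r2.2]⟩
  have y2 : if sg then (Y : ℝ) < z1.im ∧ z1.im < Y + 1 else (Y : ℝ) - 1 < z1.im ∧ z1.im < Y := by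
    cases sg
    · simp only [Bool.false_eq_true, if_false] at y1 ⊢
      exact ⟨by linarith [y1.1], y1.2⟩
    · simp only [if_true] at y1 ⊢
      exact ⟨y1.1, by linarith [y1.2]⟩
  set dl := dlS S sg be bw Y with hdl
  have hq : ∀ p : ℤ × ℤ, (p.1, p.2 - (if dl then 1 else 0)) = qb p dl := by
    intro p
    unfold qb
    cases dl <;> simp
  simp only [hq]
  refine pr_nar hG hb C x1 x2 y2 dl (hf_vZ hb C x1 x2 y2) ?_
    (hA := fun k h p => Pool.Agent.H82.W.val ((GI S b sg P be bt bw Y z0 σ k h).WN (rfl' sg (qb p dl)))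
      (eW (lt (rfl' sg (qb p dl)))) (yE S b sg P be bt bw Y z0 σ k h) tv)
  obtain ⟨r3, hr3, q3⟩ := narQ_near (S := S) (be := be) x1 x2 (by have := C.l1; omega) y2
  obtain ⟨r4, hr4, q4⟩ := row_near y1
  refine ⟨min r3 r4, lt_min hr3 hr4, ?_⟩
  filter_upwards [gi_D C hb haL (by linarith : (X : ℝ) < z0.re) hσ h2, q4] with k hk k4 hM
  obtain ⟨hM0, hD⟩ := hk
  filter_upwards [q3, eventually_ge_atTop 2] with h g3 g4 p hp U hU
  obtain ⟨n1, n2⟩ := g3 k hM p (hp.trans_le (min_le_left _ _))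
  obtain ⟨m1, m2⟩ := k4 h g4 p (hp.trans_le (min_le_right _ _))
  have D := hD h g4
  have nq : NarQ S k.1 k.2 h sg X be Y (qb p dl) := by
    unfold qb
    cases dl
    · exact n1
    · exact n2
  have mq : yc sg (2 * h * (k.1 * k.2)) Y + h < ry sg (qb p dl).2 ∧
      ry sg (qb p dl).2 + 1 < yc sg (2 * h * (k.1 * k.2)) Y + 2 * h * (3 * (k.1 * k.2) / 4) := by
    unfold qb
    cases dl
    · simp only [Bool.false_eq_true, if_false]
      exact ⟨by linarith, by linarith⟩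
    · simp only [if_true]
      cases sg
      · simp only [ry_false] at m1 m2 ⊢
        exact ⟨by linarith, by linarith⟩
      · simp only [ry_true] at m1 m2 ⊢
        exact ⟨by linarith, by linarith⟩
  have hK := HK aL k.1 k.2 h hM0 _ D p nq mq.1 mq.2 U hU
  have hv := val_WN D nq (fun hP => (hU hP).1) hK
  show Pool.Agent.H82.W.val ((GI S b sg P be bt bw Y z0 σ k h).WN (rfl' sg (qb p dl)))
    (eW (lt (rfl' sg (qb p dl)))) (yE S b sg P be bt bw Y z0 σ k h) tv = _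
  rw [← hv, GI_eq hM0]
  congr 1
  funext j
  unfold yE
  rw [mkK_eq hM0, GI_eq hM0]
  have PC := picC_of (b := b) (P := P) (be := be) (bt := bt) (k0' := k0 z0 σ k.1) (by omega : 0 < h)
    (shC (N := k.1) (M' := k.2) (hM := hM0) C g4)
  have ok := mkOk_of PC (m := mkG sg (mks (rf S (k.1 * k.2) hM0) (2 * (h : ℤ))) j) ⟨j, rfl⟩
  have := al_up (p := ((qb p dl).1, ry sg (qb p dl).2)) D.ok mq.1 ((lt_add_one _).trans mq.2) ok
  exact this.symm

end Pool.Agent.H2.W.Run
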