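import Mathlib
import Pool.Agent.H2.W.RTop

set_option autoImplicit false
set_option linter.unusedVariables false
open Finset

/-! # RAISE: the colours of the picture and of the auxiliary world agree at one tile

`ag` : at the tile of the left wall of the tooth next to the exit of the string. -/

namespace Pool.Agent.H2.W.Run

open Pool.Agent.H75.Perc (dir dir_cases)
open Pool.Agent.Q1.M4 (Cell PType IsSide)
open Pool.Agent.H33.Q1 (lt tt ct TL lt_odd tt_lt lt_tt lt_inj mem_TL lt_mem_TL)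
open Pool.Agent.H19.W
open Pool.Agent.H22.W.Vc (Mark Ld Tc Cl DC VH mks mkv CK ix mks_cvx al_mkv)
open Pool.Agent.H13.W (TQ chG eW)
open Pool.Agent.H50.W (rf dv)
open Pool.Agent.H58.W (plV)
open Pool.Agent.H68.W (sx sx_spec sx_eq isSide1 isSide3 sx_right Cf)
open Pool.Agent.H78.W
open Pool.Agent.H21.FM (Shape)
open Pool.Agent.H74.W (Ex Del)

/-- row of the tile next to the exit -/
def y1 (sg : Bool) (y : ℤ) : ℤ := if sg then y + 1 else y - 1

section

variable {S : Shape} {aL b : ℤ} {N M' h : ℕ} {hM : 0 < N * M'} {sg P : Bool} {a0 be bt bw Y0 k0 : ℤ}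
  (D : PicD S aL b N M' h hM sg P a0 be bt bw Y0 k0) {p q : ℤ × ℤ} {dl : Bool}

include D in
/-- the left wall of the tooth -/
lemma wallT {y : ℤ} (hr : RowN N M' h sg Y0 y) :
    (N * M' * be - 1, y / (2 * (h : ℤ))) ∈ (rf S (N * M') hM).P.Q ∧
      (N * M' * be, y / (2 * (h : ℤ))) ∉ (rf S (N * M') hM).P.Q := by
  have hm := D.mm
  have hm1 : (1 : ℤ) < N * M' := by omega
  have hC := D.C
  obtain ⟨n1, n2, n3, n4⟩ := hC.nums hm1 (rfn S hM)
  have h1 := hr.r
  refine ⟨hC.q1 hm1 (rfn S hM) (by omega) (by omega) ?_ ?_, hC.q3 hm1 (rfn S hM) le_rfl (by omega) h1⟩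
  · cases sg
    · simp only [Bool.false_eq_true, if_false] at h1; omega
    · simp only [if_true] at h1; omega
  · cases sg
    · simp only [Bool.false_eq_true, if_false] at h1; omega
    · simp only [if_true] at h1; omega

include D in
/-- coarse index of the sides of the tooth -/
lemma sx_div {y : ℤ} (hr : RowN N M' h sg Y0 y) :
    sx (rf S (N * M') hM).P (N * M' * be - 1, y / (2 * (h : ℤ))) 1 / (N * M') = iT S sg be Y0 := by
  have hs : IsSide (rf S (N * M') hM).P.Q ((N * M' * be - 1, y / (2 * (h : ℤ))), 1) :=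
    isSide1.2 ⟨(wallT D hr).1, by rw [sub_add_cancel]; exact (wallT D hr).2⟩
  have hm := D.mm
  have hMz : (0 : ℤ) < ((N * M' : ℕ) : ℤ) := by exact_mod_cast hM
  have e := sx_coarse S hM hs
  unfold iT
  rw [e]
  have c1 : (N * M' * be - 1 : ℤ) / ((N * M' : ℕ) : ℤ) = be - 1 := by
    rw [dv hMz]
    push_cast
    constructor <;> nlinarith
  have c2 : (y / (2 * (h : ℤ))) / ((N * M' : ℕ) : ℤ) = if sg then Y0 else Y0 - 1 := by
    have := hr.r
    rw [dv hMz]
    push_cast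
    cases sg
    · simp only [Bool.false_eq_true, if_false] at this ⊢
      constructor <;> nlinarith
    · simp only [if_true] at this ⊢
      constructor <;> nlinarith
  rw [c1, c2]

include D in
/-- the sides of the tooth and the exit of the wide world -/
lemma sx_teC {y : ℤ} (hr : RowN N M' h sg Y0 y) :
    (teC (rf S (N * M') hM) sg (N * M') bw Y0 <
      sx (rf S (N * M') hM).P (N * M' * be - 1, y / (2 * (h : ℤ))) 1 ↔ iW S sg bw Y0 < iT S sg be Y0) ∧
    teC (rf S (N * M') hM) sg (N * M') bw Y0 ≠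
      sx (rf S (N * M') hM).P (N * M' * be - 1, y / (2 * (h : ℤ))) 1 := by
  have h1 := sx_div D hr
  have h2 := teC_div D
  have h3 := iT_ne D
  refine ⟨⟨?_, ?_⟩, ?_⟩
  · intro h4
    have h5 := Nat.div_le_div_right (c := N * M') h4.le
    rw [h1, h2] at h5
    exact lt_of_le_of_ne h5 h3.symm
  · intro h4
    by_contra h5
    push Not at h5
    have h6 := Nat.div_le_div_right (c := N * M') h5
    rw [h1, h2] at h6
    omega
  · intro h4
    rw [← h4, h2] at h1
    exact h3 h1.symm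

include D in
/-- indices go up along the left wall of the tooth -/
lemma sx_up {y y' : ℤ} (hr : RowN N M' h sg Y0 y) (hr' : RowN N M' h sg Y0 y')
    (hy : y / (2 * (h : ℤ)) ≤ y' / (2 * (h : ℤ))) :
    (sx (rf S (N * M') hM).P (N * M' * be - 1, y' / (2 * (h : ℤ))) 1 : ℤ) =
      sx (rf S (N * M') hM).P (N * M' * be - 1, y / (2 * (h : ℤ))) 1 + (y' / (2 * (h : ℤ)) - y / (2 * (h : ℤ))) := by
  have hn : (0 : ℤ) < 2 * h := by have := D.n4; omega
  have key := sx_right (S := rf S (N * M') hM) (X := N * M' * be - 1) (y0 := y / (2 * (h : ℤ)))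
    (y' / (2 * (h : ℤ)) - y / (2 * (h : ℤ))).toNat (fun v a1 a2 => by
      have e : (v * (2 * (h : ℤ))) / (2 * (h : ℤ)) = v := Int.mul_ediv_cancel _ hn.ne'
      have hrv : RowN N M' h sg Y0 (v * (2 * (h : ℤ))) := by
        refine ⟨?_⟩
        rw [e]
        have g1 := hr.r
        have g2 := hr'.r
        cases sg
        · simp only [Bool.false_eq_true, if_false] at g1 g2 ⊢; omega
        · simp only [if_true] at g1 g2 ⊢; omega
      have := wallT D hrv
      rw [e] at this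
      rw [sub_add_cancel]
      exact this)
  rw [show y / (2 * (h : ℤ)) + ((y' / (2 * (h : ℤ)) - y / (2 * (h : ℤ))).toNat : ℤ) = y' / (2 * (h : ℤ)) by omega]
    at key
  rw [key.1]
  push_cast
  omega

variable (Hq : NarQ S N M' h sg a0 be Y0 q)

include Hq in
lemma y1_row : RowN N M' h sg Y0 (y1 sg q.2) := by
  unfold y1
  cases sg
  · exact Hq.d
  · exact Hq.u

include D Hq in
/-- the tile next to the exit is an outer tile -/
lemma y1_out : ¬ TQ (rf S (N * M') hM).P.Q (2 * (h : ℤ)) (Xe N M' h be) (y1 sg q.2) ∧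
    TQ (rf S (N * M') hM).P.Q (2 * (h : ℤ)) (Xe N M' h be - 1) (y1 sg q.2) := by
  have hn : (0 : ℤ) < 2 * h := by have := D.n4; omega
  obtain ⟨k1, k2, k3, k4, k5, k6, k7, k8⟩ := cols D Hq.toNarP
  have hr := y1_row Hq
  refine ⟨tq_tooth D hr (col_ge hn le_rfl) (col_lt hn (by omega)), tq_in D hr (col_ge hn (by omega)) ?_⟩
  exact col_lt hn (by unfold Xe; omega)

include D Hq in
lemma y1_ix : ix (rf S (N * M') hM) (2 * (h : ℤ)) (Xe N M' h be) (y1 sg q.2) =
    sx (rf S (N * M') hM).P (N * M' * be - 1, y1 sg q.2 / (2 * (h : ℤ))) 1 := by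
  have hn : (0 : ℤ) < 2 * h := by have := D.n4; omega
  have h1 : Pool.Agent.H22.W.Vc.TT (rf S (N * M') hM) (2 * (h : ℤ)) (Xe N M' h be - 1) (y1 sg q.2) :=
    (y1_out D Hq).2
  rw [Pool.Agent.H22.W.Vc.ixW h1]
  have hX1 : (Xe N M' h be - 1) / (2 * (h : ℤ)) = N * M' * be - 1 := by
    unfold Xe; exact div_in hn (by linarith) (by linarith)
  rw [hX1]

include D Hq in
/-- the colours `κz` at the tile next to the exit -/
lemma kz_y1 : κz (rf S (N * M') hM) h q (ix (rf S (N * M') hM) (2 * (h : ℤ)) (Xe N M' h be) (y1 sg q.2))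
      (y1 sg q.2) ↔
    ¬ (((rf S (N * M') hM).m2 ≤ ix (rf S (N * M') hM) (2 * (h : ℤ)) (Xe N M' h be) (y1 sg q.2) ∧
      ix (rf S (N * M') hM) (2 * (h : ℤ)) (Xe N M' h be) (y1 sg q.2) < (rf S (N * M') hM).m3) ↔ sg = true) := by
  have hn : (0 : ℤ) < 2 * h := by have := D.n4; omega
  unfold κz
  refine not_congr (iff_congr Iff.rfl ?_)
  have e0 : (∃ t, Ex (rf S (N * M') hM) h q t ∧
      (t < ix (rf S (N * M') hM) (2 * (h : ℤ)) (Xe N M' h be) (y1 sg q.2) ∨
        (t = ix (rf S (N * M') hM) (2 * (h : ℤ)) (Xe N M' h be) (y1 sg q.2) ∧ q.2 < y1 sg q.2))) ↔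
      (te S N M' h hM be q < ix (rf S (N * M') hM) (2 * (h : ℤ)) (Xe N M' h be) (y1 sg q.2) ∨
        (te S N M' h hM be q = ix (rf S (N * M') hM) (2 * (h : ℤ)) (Xe N M' h be) (y1 sg q.2) ∧
          q.2 < y1 sg q.2)) := by
    constructor
    · rintro ⟨t, ht, h1⟩
      rw [(ex_iff D Hq.toNarP).1 ht] at h1
      exact h1
    · intro h1
      exact ⟨_, (ex_iff D Hq.toNarP).2 rfl, h1⟩
  rw [e0, y1_ix D Hq]
  have hr0 : RowN N M' h sg Y0 q.2 := ⟨Hq.r⟩
  have hr1 := y1_row Hq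
  unfold te
  unfold y1 at hr1 ⊢
  cases sg
  · simp only [Bool.false_eq_true, if_false, iff_false] at hr1 ⊢
    have h1 : (q.2 - 1) / (2 * (h : ℤ)) ≤ q.2 / (2 * (h : ℤ)) := Int.ediv_le_ediv hn (by omega)
    have := sx_up D hr1 hr0 h1
    rintro (h2 | ⟨h2, h3⟩)
    · omega
    · omega
  · simp only [if_true, iff_true] at hr1 ⊢
    have h1 : q.2 / (2 * (h : ℤ)) ≤ (q.2 + 1) / (2 * (h : ℤ)) := Int.ediv_le_ediv hn (by omega)
    have := sx_up D hr0 hr1 h1
    rcases eq_or_lt_of_le (show sx (rf S (N * M') hM).P (N * M' * be - 1, q.2 / (2 * (h : ℤ))) 1 ≤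
      sx (rf S (N * M') hM).P (N * M' * be - 1, (q.2 + 1) / (2 * (h : ℤ))) 1 by omega) with h2 | h2
    · exact Or.inr ⟨h2, by omega⟩
    · exact Or.inl h2

include D Hq in
/-- the colours of the picture at the tile next to the exit -/
lemma kn_y1 (h1 : yc sg (2 * h * (N * M')) Y0 + h < ry sg q.2)
    (h2 : ry sg q.2 < yc sg (2 * h * (N * M')) Y0 + 2 * h * (3 * (N * M') / 4)) :
    (lt (Xe N M' h be, ry sg (y1 sg q.2)) ∈ (pic S b N M' h hM sg P be bt bw Y0 k0).KN (ry sg q.2)) ↔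
    ¬ (((rf S (N * M') hM).m2 ≤ ix (rf S (N * M') hM) (2 * (h : ℤ)) (Xe N M' h be) (y1 sg q.2) ∧
      ix (rf S (N * M') hM) (2 * (h : ℤ)) (Xe N M' h be) (y1 sg q.2) < (rf S (N * M') hM).m3) ↔
        iW S sg bw Y0 < iT S sg be Y0) := by
  have hn : (0 : ℤ) < 2 * h := by have := D.n4; omega
  obtain ⟨o1, o2⟩ := y1_out D Hq
  set G := pic S b N M' h hM sg P be bt bw Y0 k0 with hG
  set n : ℤ := 2 * (h : ℤ) with hnn
  have hL : lt (Xe N M' h be, y1 sg q.2) ∈ LamC (rf S (N * M') hM).P.Q n := by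
    refine (mem_LamC hn).2 ⟨lt_odd _, ?_⟩
    rw [tt_lt]
    exact tc_TQ.1 ⟨Xe N M' h be - 1, y1 sg q.2, by omega, by omega, o2⟩
  have m1 : lt (Xe N M' h be, ry sg (y1 sg q.2)) ∈ G.Λ := by
    show _ ∈ rlF sg (LamC (rf S (N * M') hM).P.Q (2 * h))
    rw [lt_mem_rlF, ry_ry]
    exact hL
  have m2 : lt (Xe N M' h be, ry sg (y1 sg q.2)) ∉ G.E := by
    show _ ∉ rlF sg (TL (rf S (N * M') hM).P.Q (2 * h))
    rw [lt_mem_rlF, ry_ry, lt_mem_TL hn]
    exact o1
  rw [Pic.mem_KN m1 m2, cx_lt, cy_lt]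
  have hxe : G.xe = Xe N M' h be := by
    show 2 * (h : ℤ) * (N * M') * be = _
    unfold Xe; ring
  have ht : ¬ G.tog (ry sg q.2) (Xe N M' h be) (ry sg (y1 sg q.2)) := by
    rintro ⟨-, -, -, g4⟩
    unfold Pic.tp at g4
    rw [if_pos (by rw [hxe])] at g4
    unfold y1 at g4
    cases sg
    · simp only [Bool.false_eq_true, if_false, ry_false] at g4; omega
    · simp only [if_true, ry_true] at g4; omega
  have hx : Xor (lt (Xe N M' h be, ry sg (y1 sg q.2)) ∈ G.W0) (G.tog (ry sg q.2) (Xe N M' h be)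
      (ry sg (y1 sg q.2))) ↔ lt (Xe N M' h be, ry sg (y1 sg q.2)) ∈ G.W0 := by
    unfold Xor
    tauto
  rw [hx]
  have hw : lt (Xe N M' h be, ry sg (y1 sg q.2)) ∈ G.W0 ↔ lt (Xe N M' h be, y1 sg q.2) ∈
      WC (rf S (N * M') hM).P n (fun i v =>
    Cf (rf S (N * M') hM) (teC (rf S (N * M') hM) sg (N * M') bw Y0) (v0C (2 * h * (N * M')) Y0) i v) := by
    show _ ∈ rlF sg _ ↔ _
    rw [lt_mem_rlF, ry_ry]
  rw [hw, mem_WC, tt_lt]
  have o1' : ct n (Xe N M' h be, y1 sg q.2) ∉ (rf S (N * M') hM).P.Q := o1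
  simp only [hL, o1', not_false_eq_true, true_and]
  have hi : si (rf S (N * M') hM).P n (Xe N M' h be, y1 sg q.2) =
      ix (rf S (N * M') hM) n (Xe N M' h be) (y1 sg q.2) := rfl
  rw [hi]
  unfold Cf
  refine not_congr (iff_congr Iff.rfl ?_)
  obtain ⟨c1, c2⟩ := sx_teC D (y1_row Hq)
  rw [y1_ix D Hq, ← c1]
  constructor
  · rintro (g | ⟨g, -⟩)
    · exact g
    · exact absurd g c2
  · exact Or.inl

end

section

variable {S : Shape} {aL b : ℤ} {N M' h : ℕ} {hM : 0 < N * M'} {sg P : Bool} {a0 be bt bw Y0 k0 : ℤ}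
  (D : PicD S aL b N M' h hM sg P a0 be bt bw Y0 k0) {p : ℤ × ℤ} {dl : Bool}
  (Hq : NarQ S N M' h sg a0 be Y0 (qb p dl)) {U : Cell → Prop}
  (HC : P = true → CutD (rf S (N * M') hM).P.Q U (yF sg (N * M') Y0) (N * M' * bt) (N * M' * bw))

include D Hq HC in
/-- the colours `kp` at the tile next to the exit -/
lemma kp_y1 :
    lt (Xe N M' h be, y1 sg (qb p dl).2) ∈ WC (rf S (N * M') hM).P (2 * (h : ℤ))
      (kp S N M' h hM sg P bt bw Y0 U p dl) ↔
    (κz (rf S (N * M') hM) h (qb p dl)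
      (ix (rf S (N * M') hM) (2 * (h : ℤ)) (Xe N M' h be) (y1 sg (qb p dl).2)) (y1 sg (qb p dl).2) ↔
      dl = false) := by
  have hn : (0 : ℤ) < 2 * h := by have := D.n4; omega
  obtain ⟨o1, o2⟩ := y1_out D Hq
  obtain ⟨k1, k2, k3, k4, k5, k6, k7, k8⟩ := cols D Hq.toNarP
  set n : ℤ := 2 * (h : ℤ) with hnn
  have hL : lt (Xe N M' h be, y1 sg (qb p dl).2) ∈ LamC (rf S (N * M') hM).P.Q n := by
    refine (mem_LamC hn).2 ⟨lt_odd _, ?_⟩
    rw [tt_lt]
    exact tc_TQ.1 ⟨Xe N M' h be - 1, y1 sg (qb p dl).2, by omega, by omega, o2⟩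
  rw [mem_WC, tt_lt]
  have o1' : ct n (Xe N M' h be, y1 sg (qb p dl).2) ∉ (rf S (N * M') hM).P.Q := o1
  simp only [hL, o1', not_false_eq_true, true_and]
  have hi : si (rf S (N * M') hM).P n (Xe N M' h be, y1 sg (qb p dl).2) =
      ix (rf S (N * M') hM) n (Xe N M' h be) (y1 sg (qb p dl).2) := rfl
  rw [hi]
  set i := ix (rf S (N * M') hM) n (Xe N M' h be) (y1 sg (qb p dl).2) with hii
  have hkb : kb (rf S (N * M') hM) h p dl i (y1 sg (qb p dl).2) ↔
      (κz (rf S (N * M') hM) h (qb p dl) i (y1 sg (qb p dl).2) ↔ dl = false) := by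
    unfold kb qb
    cases dl <;> simp
  rw [← hkb]
  unfold kp
  cases P
  · simp
  · simp only [if_true]
    unfold κF
    have hcell : ((rf S (N * M') hM).P.side i).1 = (N * M' * be - 1, y1 sg (qb p dl).2 / n) := by
      rw [hii, y1_ix D Hq]
      have hr := y1_row Hq
      exact (sx_spec (isSide1.2 ⟨(wallT D hr).1, by rw [sub_add_cancel]; exact (wallT D hr).2⟩)).2.1
    rw [hcell]
    have hm := D.mm
    have hm1 : (1 : ℤ) < N * M' := by omega
    obtain ⟨n1, n2, n3, n4⟩ := D.C.nums hm1 (rfn S hM)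
    have hnR : ¬ RF S N M' h hM sg bt bw Y0 U (N * M' * be - 1, y1 sg (qb p dl).2 / n) (y1 sg (qb p dl).2) := by
      unfold RF RR
      rintro (g | ⟨g, -⟩)
      · exact not_U D (HC rfl) (by omega) (by omega) (y1_row Hq).r g
      · obtain ⟨-, g2, -⟩ := g
        simp only at g2
        omega
    unfold Xor
    tauto

end

section

variable {S : Shape} {aL b : ℤ} {N M' h : ℕ} {hM : 0 < N * M'} {sg P : Bool} {a0 be bt bw Y0 k0 : ℤ}
  (D : PicD S aL b N M' h hM sg P a0 be bt bw Y0 k0) {p : ℤ × ℤ}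
  (Hq : NarQ S N M' h sg a0 be Y0 (qb p (dlS S sg be bw Y0))) {U : Cell → Prop}
  (HC : P = true → CutD (rf S (N * M') hM).P.Q U (yF sg (N * M') Y0) (N * M' * bt) (N * M' * bw))

include D Hq HC in
/-- **The colours agree at the tile next to the exit.** -/
theorem ag (h1 : yc sg (2 * h * (N * M')) Y0 + h < ry sg (qb p (dlS S sg be bw Y0)).2)
    (h2 : ry sg (qb p (dlS S sg be bw Y0)).2 < yc sg (2 * h * (N * M')) Y0 + 2 * h * (3 * (N * M') / 4)) :
    lt (Xe N M' h be, ry sg (y1 sg (qb p (dlS S sg be bw Y0)).2)) ∈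
      (pic S b N M' h hM sg P be bt bw Y0 k0).KN (ry sg (qb p (dlS S sg be bw Y0)).2) ↔
    lt (Xe N M' h be, y1 sg (qb p (dlS S sg be bw Y0)).2) ∈ WC (rf S (N * M') hM).P (2 * (h : ℤ))
      (kp S N M' h hM sg P bt bw Y0 U p (dlS S sg be bw Y0)) := by
  rw [kn_y1 D Hq h1 h2, kp_y1 D Hq HC, kz_y1 D Hq]
  have hne := iT_ne D
  have hd : dlS S sg be bw Y0 = false ↔ (iW S sg bw Y0 < iT S sg be Y0 ↔ sg = true) := by
    unfold dlS
    cases sg
    · simp
    · simp only [if_true, decide_eq_false_iff_not, iff_true]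
      omega
  rw [hd]
  tauto

end

end Pool.Agent.H2.W.Run
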