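import Mathlib
import Pool.Agent.H2.W.RAg
import Pool.Agent.H19.W.ClUniq

set_option autoImplicit false
set_option linter.unusedVariables false
open Finset

/-! # RAISE: the colour identity `KnIdAll`

`cl_pic` : the colours of 78's picture in coordinates of the polygon. `cl_tog` : the colours `kp`, toggled at the
deleted tiles where the cut is on the other side. `kn_all` : `KnIdAll`, from 19's `cl_eq` and `ag`. -/

namespace Pool.Agent.H2.W.Run

open Pool.Agent.Q1.M4 (Cell PType IsSide)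
open Pool.Agent.H33.Q1 (lt tt ct TL lt_odd tt_lt lt_tt lt_inj mem_TL lt_mem_TL)
open Pool.Agent.H19.W
open Pool.Agent.H22.W.Vc (Mark Ld Tc Cl DC VH RT CN PicC mks mkv CK ix mks_cvx al_mkv shC cl_KN)
open Pool.Agent.H13.W (TQ chG eW mkG picC_of rT rM rC rm rm_rm cl_rf rM_range)
open Pool.Agent.H50.W (rf dv)
open Pool.Agent.H68.W (sx sx_spec sx_eq isSide1 isSide3 sx_right Cf)
open Pool.Agent.H78.W
open Pool.Agent.H21.FM (Shape)
open Pool.Agent.H74.W (Ex Del)

section

variable {S : Shape} {aL b : ℤ} {N M' h : ℕ} {hM : 0 < N * M'} {sg P : Bool} {a0 be bt bw Y0 k0 : ℤ}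
  (D : PicD S aL b N M' h hM sg P a0 be bt bw Y0 k0) {q2 : ℤ}

/-- cuts of the picture in the polygon -/
def C1 (S : Shape) (b : ℤ) (N M' h : ℕ) (hM : 0 < N * M') (sg P : Bool) (be bt bw Y0 k0 q2 : ℤ) : Set (ℤ × ℤ) :=
  if sg then CN (pic S b N M' h hM sg P be bt bw Y0 k0) (ry sg q2)
  else rC (CN (pic S b N M' h hM sg P be bt bw Y0 k0) (ry sg q2))

lemma RT_pic (hh : 0 < h) : RT (pic S b N M' h hM sg P be bt bw Y0 k0) =
    if sg then TQ (rf S (N * M') hM).P.Q (2 * (h : ℤ)) else rT (TQ (rf S (N * M') hM).P.Q (2 * (h : ℤ))) := by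
  have hn : (0 : ℤ) < 2 * h := by positivity
  funext x y
  have e : RT (pic S b N M' h hM sg P be bt bw Y0 k0) x y =
      (ct (2 * (h : ℤ)) (x, ry sg y) ∈ (rf S (N * M') hM).P.Q) := by
    apply propext
    show lt (x, y) ∈ rlF sg (TL (rf S (N * M') hM).P.Q (2 * h)) ↔ _
    rw [lt_mem_rlF, lt_mem_TL hn]
  rw [e]
  cases sg
  · rfl
  · rfl

lemma rT_rT (T : ℤ → ℤ → Prop) : rT (rT T) = T := by
  funext x y
  show T x (-1 - (-1 - y)) = T x y
  rw [show -1 - (-1 - y) = y by ring]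

include D in
/-- **The colours of the picture.** -/
theorem cl_pic (h1 : yc sg (2 * h * (N * M')) Y0 + h < ry sg q2)
    (h2 : ry sg q2 + 1 < yc sg (2 * h * (N * M')) Y0 + 2 * h * (3 * (N * M') / 4)) :
    Cl (TQ (rf S (N * M') hM).P.Q (2 * (h : ℤ))) (Set.range (mks (rf S (N * M') hM) (2 * (h : ℤ))))
      (fun x y => lt (x, ry sg y) ∈ (pic S b N M' h hM sg P be bt bw Y0 k0).KN (ry sg q2))
      (C1 S b N M' h hM sg P be bt bw Y0 k0 q2) := by
  have hh := D.hh
  have PC := picC_of (b := b) (P := P) (be := be) (bt := bt) (k0' := k0) (by omega : 0 < h)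
    (shC (N := N) (M' := M') (hM := hM) D.C hh)
  have g1 : (pic S b N M' h hM sg P be bt bw Y0 k0).Yc < ry sg q2 := by
    show yc sg (2 * h * (N * M')) Y0 < _
    omega
  have K := cl_KN D.ok PC g1 h2
  rw [RT_pic (by omega : 0 < h)] at K
  unfold C1
  cases sg
  · simp only [Bool.false_eq_true, if_false] at K ⊢
    have K2 := cl_rf K
    rw [rT_rT, rM_range] at K2
    have e : (fun i => rm (mkG false (mks (rf S (N * M') hM) (2 * (h : ℤ))) i)) =
        mks (rf S (N * M') hM) (2 * (h : ℤ)) := by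
      funext i
      exact rm_rm _
    rw [e] at K2
    exact K2
  · simp only [if_true] at K ⊢
    exact K

lemma mem_C1 {x y : ℤ} : (x, y) ∈ C1 S b N M' h hM sg P be bt bw Y0 k0 q2 ↔
    (x = Xe N M' h be ∧ y = if sg then q2 else q2 - 1) ∨
    (P = true ∧ (x = 2 * (h : ℤ) * (N * M' * bt) - 1 ∨ x = 2 * (h : ℤ) * (N * M' * bw)) ∧
      y = if sg then r0F sg N M' h Y0 else r0F sg N M' h Y0 - 1) := by
  set G := pic S b N M' h hM sg P be bt bw Y0 k0 with hG
  have hxe : G.xe = Xe N M' h be := by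
    show 2 * (h : ℤ) * (N * M') * be = _
    unfold Xe; ring
  have hxt : G.xt = 2 * (h : ℤ) * (N * M' * bt) := by
    show 2 * (h : ℤ) * (N * M') * bt = _
    ring
  have hxw : G.xw = 2 * (h : ℤ) * (N * M' * bw) := by
    show 2 * (h : ℤ) * (N * M') * bw = _
    ring
  have hYF : ∀ y, (ry sg y = G.YF) ↔ y = r0F sg N M' h Y0 := fun y => yF_eq
  have hP : G.P = P := rfl
  unfold C1 CN
  cases sg
  · simp only [Bool.false_eq_true, if_false]
    unfold rC
    rw [Set.mem_ofPred_eq, Set.mem_ofPred_eq]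
    simp only [Prod.mk.injEq]
    rw [← hG, hxe, hxt, hxw, hP]
    have e1 : -2 - y = ry false q2 ↔ y = q2 - 1 := by rw [ry_false]; omega
    have e2 : -2 - y = G.YF ↔ y = r0F false N M' h Y0 - 1 := by
      have := hYF (y + 1)
      rw [ry_false] at this
      rw [show -2 - y = -1 - (y + 1) by ring, this]
      omega
    rw [e1, e2]
    tauto
  · simp only [if_true]
    rw [Set.mem_ofPred_eq]
    simp only [Prod.mk.injEq]
    rw [← hG, hxe, hxt, hxw, hP]
    have e1 : y = ry true q2 ↔ y = q2 := by rw [ry_true]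
    have e2 : y = G.YF ↔ y = r0F true N M' h Y0 := by
      have := hYF y
      rwa [ry_true] at this
    rw [e1, e2]
    tauto

end

section

variable {S : Shape} {aL b : ℤ} {N M' h : ℕ} {hM : 0 < N * M'} {sg P : Bool} {a0 be bt bw Y0 k0 : ℤ}
  (D : PicD S aL b N M' h hM sg P a0 be bt bw Y0 k0) {p : ℤ × ℤ} {dl : Bool}
  (Hq : NarQ S N M' h sg a0 be Y0 (qb p dl)) {U : Cell → Prop}
  (HC : P = true → CutD (rf S (N * M') hM).P.Q U (yF sg (N * M') Y0) (N * M' * bt) (N * M' * bw))

/-- deleted tiles where the cut is on the other side -/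
def tauD (N M' h : ℕ) (sg P : Bool) (be bt bw Y0 q2 : ℤ) (x y : ℤ) : Prop :=
  if sg then P = true ∧ (x = 2 * (h : ℤ) * (N * M' * bt) - 1 ∨ x = 2 * (h : ℤ) * (N * M' * bw)) ∧
    y = r0F sg N M' h Y0
  else x = Xe N M' h be ∧ y = q2

include D Hq HC in
/-- the toggled tiles are deleted -/
lemma tauD_Dp {x y : ℤ} (h1 : tauD N M' h sg P be bt bw Y0 (qb p dl).2 x y) :
    lt (x, y) ∈ Dp S N M' h hM sg P bt bw Y0 p dl := by
  obtain ⟨k1, k2, k3, k4, k5, k6, k7, k8⟩ := cols D Hq.toNarP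
  rw [mem_Dp D Hq HC]
  unfold tauD at h1
  cases sg
  · simp only [Bool.false_eq_true, if_false] at h1
    left
    exact ⟨h1.2, by omega, by omega⟩
  · simp only [if_true] at h1
    right
    obtain ⟨g1, g2, g3⟩ := h1
    have := k8 g1
    exact ⟨g1, g3, by omega, by omega⟩

include D Hq HC in
/-- **The colours `kp`, toggled.** -/
theorem cl_tog : Cl (TQ (rf S (N * M') hM).P.Q (2 * (h : ℤ))) (Set.range (mks (rf S (N * M') hM) (2 * (h : ℤ))))
      (fun x y => ¬ (lt (x, y) ∈ WC (rf S (N * M') hM).P (2 * (h : ℤ)) (kp S N M' h hM sg P bt bw Y0 U p dl) ↔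
        tauD N M' h sg P be bt bw Y0 (qb p dl).2 x y))
      (C1 S b N M' h hM sg P be bt bw Y0 k0 (qb p dl).2) := by
  have hn : (0 : ℤ) < 2 * h := by have := D.n4; omega
  obtain ⟨k1, k2, k3, k4, k5, k6, k7, k8⟩ := cols D Hq.toNarP
  have hr : RowN N M' h sg Y0 (qb p dl).2 := ⟨Hq.r⟩
  have hru := Hq.u
  have hrd := Hq.d
  have hR0 := (rowR D (i := 0) (by omega) (by omega)).1
  have hR1 := (rowR D (i := 1) (by omega) (by omega)).1
  have hRm := (rowR D (i := -1) (by omega) (by omega)).1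
  rw [add_zero] at hR0
  have hkb := cl_kb D Hq
  -- rows near q2 and near the cut
  have rowq : ∀ s : ℤ, (s = 1 ∨ s = -1) → RowN N M' h sg Y0 ((qb p dl).2 + s) := by
    rintro s (rfl | rfl)
    · exact hru
    · exact hrd
  have row0 : ∀ s : ℤ, (s = 1 ∨ s = -1) → RowN N M' h sg Y0 (r0F sg N M' h Y0 + s) := by
    rintro s (rfl | rfl)
    · exact hR1
    · exact hRm
  -- room facts
  have tT : ∀ x y, RowN N M' h sg Y0 y → Xe N M' h be ≤ x → x < 2 * (h : ℤ) * (N * M' * bt) →
      ¬ TQ (rf S (N * M') hM).P.Q (2 * (h : ℤ)) x y := fun x y g1 g2 g3 =>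
    tq_tooth D g1 (col_ge hn g2) (col_lt hn g3)
  have tI : ∀ x y, RowN N M' h sg Y0 y → 2 * (h : ℤ) * (N * M' * a0) ≤ x → x < Xe N M' h be →
      TQ (rf S (N * M') hM).P.Q (2 * (h : ℤ)) x y := fun x y g1 g2 g3 =>
    tq_in D g1 (col_ge hn g2) (col_lt hn g3)
  have tB : P = true → ∀ x y, RowN N M' h sg Y0 y → 2 * (h : ℤ) * (N * M' * bt) ≤ x →
      x < 2 * (h : ℤ) * (N * M' * bw) → TQ (rf S (N * M') hM).P.Q (2 * (h : ℤ)) x y := fun hP x y g1 g2 g3 =>
    tq_beh D hP g1 (col_ge hn g2) (col_lt hn g3)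
  have tW : ∀ x y, RowN N M' h sg Y0 y → 2 * (h : ℤ) * (N * M' * bw) ≤ x → x ≤ 2 * (h : ℤ) * (N * M' * bw) + 2 →
      ¬ TQ (rf S (N * M') hM).P.Q (2 * (h : ℤ)) x y := fun x y g1 g2 g3 =>
    tq_wall D g1 (col_ge hn g2) (col_lt hn (by nlinarith))
  -- the walls at the toggled tiles are vertical
  have hH : ∀ x y s, (s = 1 ∨ s = -1) → ¬ TQ (rf S (N * M') hM).P.Q (2 * (h : ℤ)) x y →
      ¬ TQ (rf S (N * M') hM).P.Q (2 * (h : ℤ)) (x + 1) y →
      (TQ (rf S (N * M') hM).P.Q (2 * (h : ℤ)) x (y + s) ∨ TQ (rf S (N * M') hM).P.Q (2 * (h : ℤ)) (x + 1) (y + s)) →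
      (tauD N M' h sg P be bt bw Y0 (qb p dl).2 x y ↔ tauD N M' h sg P be bt bw Y0 (qb p dl).2 (x + 1) y) := by
    intro x y s hs e1 e2 e3
    -- no horizontal wall at the column of the tooth
    have a1 : ∀ x' : ℤ, (x' = x ∨ x' = x + 1) → ¬ (x' = Xe N M' h be ∧ y = (qb p dl).2) := by
      rintro x' hx ⟨rfl, rfl⟩
      rcases hx with hx | hx
      · rw [← hx] at e3
        rcases e3 with e3 | e3
        · exact tT _ _ (rowq s hs) le_rfl (by omega) e3
        · exact tT _ _ (rowq s hs) (by omega) (by omega) e3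
      · exact e1 (tI _ _ hr (by omega) (by omega))
    have a2 : P = true → ∀ x' : ℤ, (x' = x ∨ x' = x + 1) →
        ¬ ((x' = 2 * (h : ℤ) * (N * M' * bt) - 1 ∨ x' = 2 * (h : ℤ) * (N * M' * bw)) ∧ y = r0F sg N M' h Y0) := by
      rintro hP x' hx ⟨hx', rfl⟩
      have k9 := k8 hP
      rcases hx with hx | hx <;> rcases hx' with hx' | hx'
      · exact e2 (tB hP _ _ hR0 (by omega) (by omega))
      · rcases e3 with e3 | e3
        · exact tW _ _ (row0 s hs) (by omega) (by omega) e3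
        · exact tW _ _ (row0 s hs) (by omega) (by omega) e3
      · rcases e3 with e3 | e3
        · exact tT _ _ (row0 s hs) (by omega) (by omega) e3
        · exact tT _ _ (row0 s hs) (by omega) (by omega) e3
      · exact e1 (tB hP _ _ hR0 (by omega) (by omega))
    unfold tauD
    cases sg
    · simp only [Bool.false_eq_true, if_false]
      exact ⟨fun h' => absurd h' (a1 x (Or.inl rfl)), fun h' => absurd h' (a1 (x + 1) (Or.inr rfl))⟩
    · simp only [if_true]
      exact ⟨fun h' => absurd h'.2 (a2 h'.1 x (Or.inl rfl)), fun h' => absurd h'.2 (a2 h'.1 (x + 1) (Or.inr rfl))⟩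
  cases hP : P
  · subst hP
    have hkp : kp S N M' h hM sg false bt bw Y0 U p dl = kb (rf S (N * M') hM) h p dl := by
      unfold kp; simp
    rw [hkp]
    refine hkb.tog (τ := fun x y => tauD N M' h sg false be bt bw Y0 (qb p dl).2 x y) (fun x y _ _ => Iff.rfl) ?_ hH
    intro x y s hs e1 e2 e3
    rw [mem_C1, Set.mem_singleton_iff, Prod.mk.injEq]
    unfold tauD
    cases sg
    · simp only [Bool.false_eq_true, if_false, false_and, or_false]
      constructor
      · intro g; constructor <;> intro g' <;> omega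
      · intro g; constructor <;> intro g' <;> omega
    · simp
  · subst hP
    have k9 := k8 rfl
    have hkp : kp S N M' h hM sg true bt bw Y0 U p dl = κF (rf S (N * M') hM).P (RF S N M' h hM sg bt bw Y0 U)
        (kb (rf S (N * M') hM) h p dl) := by
      unfold kp; simp
    rw [hkp]
    have hF := cl_flip D.n4 (part_of D (HC rfl)) hkb
    refine Cl.tog hF (τ := fun x y => tauD N M' h sg true be bt bw Y0 (qb p dl).2 x y) (fun x y _ _ => Iff.rfl) ?_ hH
    intro x y s hs e1 e2 e3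
    have hJ : (x, y) ∈ JR (rf S (N * M') hM).P (2 * (h : ℤ))
        (rn (yF sg (N * M') Y0) (N * M' * bt) (N * M' * bw)) (2 * (h : ℤ) * yF sg (N * M') Y0 + h) ↔
        y + 1 = r0F sg N M' h Y0 ∧ (x = 2 * (h : ℤ) * (N * M' * bt) - 1 ∨ x = 2 * (h : ℤ) * (N * M' * bw)) := by
      have hT : Tq (rf S (N * M') hM).P.Q (2 * (h : ℤ)) (x, y) := by
        refine tc_TQ.1 ?_
        rcases e3 with e3 | e3
        · exact ⟨x + s, y, by omega, by omega, e3⟩
        · exact ⟨x + s, y + 1, by omega, by omega, e3⟩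
      have := mem_JR D Hq (HC rfl) (x := x) (y := y)
      unfold r0F at this ⊢
      constructor
      · intro g; exact this.1 ⟨g, hT⟩
      · intro g; exact (this.2 g).1
    rw [mem_C1, Set.mem_symmDiff, hJ, Set.mem_singleton_iff, Prod.mk.injEq]
    unfold tauD
    cases sg
    · simp only [Bool.false_eq_true, if_false, true_and]
      constructor
      · intro g; constructor <;> intro g' <;> omega
      · intro g; constructor <;> intro g' <;> omega
    · simp only [if_true, true_and]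
      constructor
      · intro g; constructor <;> intro g' <;> omega
      · intro g; constructor <;> intro g' <;> omega

end

section

variable {S : Shape} {aL b : ℤ} {N M' h : ℕ} {hM : 0 < N * M'} {sg P : Bool} {a0 be bt bw Y0 k0 : ℤ}
  (D : PicD S aL b N M' h hM sg P a0 be bt bw Y0 k0) {p : ℤ × ℤ}
  (Hq : NarQ S N M' h sg a0 be Y0 (qb p (dlS S sg be bw Y0))) {U : Cell → Prop}
  (HC : P = true → CutD (rf S (N * M') hM).P.Q U (yF sg (N * M') Y0) (N * M' * bt) (N * M' * bw))

include D Hq HC in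
/-- **The colour identity.** -/
theorem kn_id (h1 : yc sg (2 * h * (N * M')) Y0 + h < ry sg (qb p (dlS S sg be bw Y0)).2)
    (h2 : ry sg (qb p (dlS S sg be bw Y0)).2 + 1 < yc sg (2 * h * (N * M')) Y0 + 2 * h * (3 * (N * M') / 4)) :
    KnId S b N M' h hM sg P be bt bw Y0 k0 U p (dlS S sg be bw Y0) := by
  obtain ⟨k1, k2, k3, k4, k5, k6, k7, k8⟩ := cols D Hq.toNarP
  have K1 := cl_pic D h1 h2
  have K2 := cl_tog (k0 := k0) D Hq HC
  obtain ⟨o1, o2⟩ := y1_out D Hq
  have key := cl_eq (S := rf S (N * M') hM) D.n4 K1 K2 (x0 := Xe N M' h be)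
    (y0 := y1 sg (qb p (dlS S sg be bw Y0)).2) o1 ⟨Xe N M' h be - 1, _, by omega, by omega, o2⟩ (by
      have a1 := ag D Hq HC (k0 := k0) (U := U) h1 (by omega)
      have a2 : ¬ tauD N M' h sg P be bt bw Y0 (qb p (dlS S sg be bw Y0)).2 (Xe N M' h be)
          (y1 sg (qb p (dlS S sg be bw Y0)).2) := by
        unfold tauD y1
        cases sg
        · simp only [Bool.false_eq_true, if_false]; omega
        · simp only [if_true]
          rintro ⟨hP, g1, -⟩
          have := k8 hP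
          omega
      tauto)
  intro x y g1 g2 g3
  have g4 := key x y g1 g2
  have g5 : ¬ tauD N M' h sg P be bt bw Y0 (qb p (dlS S sg be bw Y0)).2 x y := fun h' =>
    g3 (tauD_Dp D Hq HC h')
  tauto

end

/-- **The colour identity of the narrow world, all scales.** -/
theorem kn_all {S : Shape} {b : ℤ} {sg P : Bool} {X be bt bw Y : ℤ} : KnIdAll S b sg P X be bt bw Y := by
  intro aL N M' h hM k0' D p Hq h1 h2 U hU
  exact kn_id D Hq (fun hP => (hU hP).1) h1 h2

end Pool.Agent.H2.W.Run
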